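import Pool.Agent.RQ4.SOsg

/-!
# RQ4, block S (Siegel-Thimm), part 1: the box principle for jets

`box`: if there are more functions than `q T^N` (`q` points of `ι → ℂ`, `N = card ι`), some nontrivial combination
vanishes to order `T` at all the points. `schwarz`: the Schwarz lemma for such a function.
-/

set_option autoImplicit false

namespace Pool.Agent.RQ4.ST

open Filter Asymptotics Metric
open scoped Topology

noncomputable section

variable {ι : Type} [Fintype ι] [DecidableEq ι]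

/-- the number of `j` with `s j = i` -/
def cnt {k : ℕ} (s : Fin k → ι) (i : ι) : ℕ := (Finset.univ.filter (fun j => s j = i)).card

theorem cnt_sum {k : ℕ} (s : Fin k → ι) : ∑ i, cnt s i = k := by
  have := Finset.card_eq_sum_card_fiberwise (s := (Finset.univ : Finset (Fin k))) (t := Finset.univ) (f := s)
    (fun x _ => Finset.mem_coe.2 (Finset.mem_univ _))
  simpa [cnt] using this.symm

theorem cnt_prod {k : ℕ} (s : Fin k → ι) (y : ι → ℂ) : ∏ j, y (s j) = ∏ i, y i ^ cnt s i := by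
  rw [← Finset.prod_fiberwise_of_maps_to (s := (Finset.univ : Finset (Fin k))) (t := Finset.univ) (g := s)
    (fun x _ => Finset.mem_univ _)]
  refine Finset.prod_congr rfl fun i _ => ?_
  rw [cnt, ← Finset.prod_const]
  refine Finset.prod_congr rfl fun j hj => ?_
  rw [(Finset.mem_filter.1 hj).2]

/-- the coefficient of `y^α` in the degree `k` part of the power series -/
def cf (q : FormalMultilinearSeries ℂ (ι → ℂ) ℂ) (k : ℕ) (α : ι → ℕ) : ℂ :=
  ∑ s ∈ (Finset.univ : Finset (Fin k → ι)).filter (fun s => cnt s = α), q k (fun j => Pi.single (s j) 1)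

theorem ev_eq (q : FormalMultilinearSeries ℂ (ι → ℂ) ℂ) (k : ℕ) (y : ι → ℂ) :
    q k (fun _ => y) = ∑ α ∈ (Finset.univ : Finset (Fin k → ι)).image cnt, (∏ i, y i ^ α i) * cf q k α := by
  classical
  have h1 : (fun _ : Fin k => y) = fun _ : Fin k => ∑ i, y i • (Pi.single i 1 : ι → ℂ) := by
    funext j
    ext i
    simp [Finset.sum_apply, Pi.single_apply]
  rw [h1, ContinuousMultilinearMap.map_sum]
  have h2 : ∀ s : Fin k → ι, q k (fun j => y (s j) • (Pi.single (s j) 1 : ι → ℂ)) =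
      (∏ i, y i ^ cnt s i) * q k (fun j => Pi.single (s j) 1) := by
    intro s
    rw [ContinuousMultilinearMap.map_smul_univ, cnt_prod, smul_eq_mul]
  rw [Finset.sum_congr rfl fun s _ => h2 s]
  rw [← Finset.sum_fiberwise_of_maps_to (s := (Finset.univ : Finset (Fin k → ι)))
    (t := (Finset.univ : Finset (Fin k → ι)).image cnt) (g := cnt)
    (fun x _ => Finset.mem_image_of_mem _ (Finset.mem_univ _))]
  refine Finset.sum_congr rfl fun α _ => ?_
  rw [cf, Finset.mul_sum]
  refine Finset.sum_congr rfl fun s hs => ?_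
  rw [(Finset.mem_filter.1 hs).2]

theorem ev_zero (q : FormalMultilinearSeries ℂ (ι → ℂ) ℂ) (T : ℕ)
    (h : ∀ α : ι → Fin T, cf q (∑ i, (α i : ℕ)) (fun i => (α i : ℕ)) = 0) (k : ℕ) (hk : k < T) (y : ι → ℂ) :
    q k (fun _ => y) = 0 := by
  rw [ev_eq]
  refine Finset.sum_eq_zero fun α hα => ?_
  obtain ⟨s, _, rfl⟩ := Finset.mem_image.1 hα
  have h1 : ∀ i, cnt s i < T := fun i =>
    (Finset.single_le_sum (f := fun i => cnt s i) (fun _ _ => Nat.zero_le _) (Finset.mem_univ i)).trans_lt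
      ((cnt_sum s).trans_lt hk)
  have h2 := h (fun i => ⟨cnt s i, h1 i⟩)
  simp only [cnt_sum] at h2
  rw [show (fun i => cnt s i) = cnt s from rfl] at h2
  rw [h2, mul_zero]

/-- the Taylor series of a function, as a formal multilinear series -/
abbrev ts (F : (ι → ℂ) → ℂ) (p : ι → ℂ) : FormalMultilinearSeries ℂ (ι → ℂ) ℂ := ftaylorSeries ℂ F p

theorem cf_sum {J : Type} (S : Finset J) (c : J → ℂ) (g : J → (ι → ℂ) → ℂ) {U : Set (ι → ℂ)} (hU : IsOpen U)
    (hg : ∀ j, DifferentiableOn ℂ (g j) U) (p : ι → ℂ) (hp : p ∈ U)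
    (k : ℕ) (α : ι → ℕ) : cf (ts (fun x => ∑ j ∈ S, c j * g j x) p) k α = ∑ j ∈ S, c j * cf (ts (g j) p) k α := by
  classical
  simp only [cf, Finset.mul_sum]
  rw [Finset.sum_comm]
  refine Finset.sum_congr rfl fun s _ => ?_
  have hc : ∀ j, ContDiffAt ℂ k (g j) p := fun j =>
    (osg_contDiffOn hU (hg j) k).contDiffAt (hU.mem_nhds hp)
  have hc' : ∀ j, ContDiffAt ℂ k (fun x => c j * g j x) p := fun j => contDiffAt_const.mul (hc j)
  simp only [ftaylorSeries]
  rw [iteratedFDeriv_fun_sum_apply (fun j _ => hc' j), sum_apply]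
  refine Finset.sum_congr rfl fun j _ => ?_
  have h1 : (fun x => c j * g j x) = fun x => c j • g j x := by
    funext x
    rw [smul_eq_mul]
  rw [h1, iteratedFDeriv_const_smul_apply' (hc j)]
  rfl

theorem box {J κ : Type} [Fintype J] [Fintype κ] (g : J → (ι → ℂ) → ℂ) {U : Set (ι → ℂ)} (hU : IsOpen U)
    (p : κ → (ι → ℂ)) (hp : ∀ i, p i ∈ U) (hg : ∀ j, DifferentiableOn ℂ (g j) U) (T : ℕ)
    (h : Fintype.card κ * T ^ Fintype.card ι < Fintype.card J) :
    ∃ c : J → ℂ, c ≠ 0 ∧ ∀ i, ∀ k < T, ∀ y,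
      iteratedFDeriv ℂ k (fun x => ∑ j, c j * g j x) (p i) (fun _ => y) = 0 := by
  classical
  let L : (J → ℂ) →ₗ[ℂ] (κ × (ι → Fin T) → ℂ) :=
    { toFun := fun c x => ∑ j, c j * cf (ts (g j) (p x.1)) (∑ i, (x.2 i : ℕ)) (fun i => (x.2 i : ℕ))
      map_add' := by
        intro c c'
        funext x
        simp [add_mul, Finset.sum_add_distrib]
      map_smul' := by
        intro r c
        funext x
        simp [mul_assoc, Finset.mul_sum] }
  have hker : ∃ c : J → ℂ, c ≠ 0 ∧ L c = 0 := by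
    by_contra hcon
    push Not at hcon
    have hinj : Function.Injective L := by
      rw [injective_iff_map_eq_zero]
      intro c hc
      by_contra hne
      exact hcon c hne hc
    have := LinearMap.finrank_le_finrank_of_injective hinj
    rw [Module.finrank_fintype_fun_eq_card, Module.finrank_fintype_fun_eq_card, Fintype.card_prod,
      Fintype.card_fun, Fintype.card_fin] at this
    omega
  obtain ⟨c, hc, hL⟩ := hker
  refine ⟨c, hc, fun i k hk y => ?_⟩
  refine ev_zero (ts (fun x => ∑ j, c j * g j x) (p i)) T (fun α => ?_) k hk y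
  rw [cf_sum Finset.univ c g hU hg (p i) (hp i)]
  exact congrFun hL (i, α)

/-- derivatives along a line -/
theorem line_deriv {U : Set (ι → ℂ)} (hU : IsOpen U) {F : (ι → ℂ) → ℂ} (hF : DifferentiableOn ℂ F U)
    (p y : ι → ℂ) (k : ℕ) (t : ℂ) (ht : p + t • y ∈ U) :
    iteratedDeriv k (fun t : ℂ => F (p + t • y)) t = iteratedFDeriv ℂ k F (p + t • y) (fun _ => y) := by
  induction k generalizing t with
  | zero => simp
  | succ k ih =>
    rw [iteratedDeriv_succ]
    have hc : Continuous (fun t : ℂ => p + t • y) := by fun_prop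
    have hev : iteratedDeriv k (fun t : ℂ => F (p + t • y)) =ᶠ[𝓝 t]
        fun t => iteratedFDeriv ℂ k F (p + t • y) (fun _ => y) := by
      filter_upwards [hc.continuousAt.preimage_mem_nhds (hU.mem_nhds ht)] with t' ht'
      exact ih t' ht'
    rw [hev.deriv_eq]
    have hcd : ContDiffAt ℂ (k + 1 : ℕ) F (p + t • y) := (osg_contDiffOn hU hF (k + 1)).contDiffAt (hU.mem_nhds ht)
    have hd : DifferentiableAt ℂ (iteratedFDeriv ℂ k F) (p + t • y) :=
      hcd.differentiableAt_iteratedFDeriv (by exact_mod_cast Nat.lt_succ_self k)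
    have h1 : HasDerivAt (fun t : ℂ => p + t • y) y t := by
      simpa using ((hasDerivAt_id t).smul_const y).const_add p
    have h2 : HasDerivAt (fun t : ℂ => iteratedFDeriv ℂ k F (p + t • y))
        (fderiv ℂ (iteratedFDeriv ℂ k F) (p + t • y) y) t := hd.hasFDerivAt.comp_hasDerivAt t h1
    have h3 : HasDerivAt (fun t : ℂ => iteratedFDeriv ℂ k F (p + t • y) (fun _ => y))
        ((fderiv ℂ (iteratedFDeriv ℂ k F) (p + t • y) y) (fun _ => y)) t := by
      let A : ContinuousMultilinearMap ℂ (fun _ : Fin k => (ι → ℂ)) ℂ →L[ℂ] ℂ :=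
        ContinuousMultilinearMap.apply ℂ (fun _ : Fin k => (ι → ℂ)) ℂ (fun _ => y)
      exact A.hasFDerivAt.comp_hasDerivAt t h2
    rw [h3.deriv, iteratedFDeriv_succ_apply_left]
    rfl

/-- the Schwarz lemma -/
theorem schwarz {F : (ι → ℂ) → ℂ} {p : ι → ℂ} {R M : ℝ} (hR : 0 < R) (hF : DifferentiableOn ℂ F (ball p R))
    (hM : ∀ x ∈ ball p R, ‖F x‖ ≤ M) (T : ℕ)
    (h0 : ∀ k < T, ∀ y, iteratedFDeriv ℂ k F p (fun _ => y) = 0) (x : ι → ℂ) (hx : x ∈ ball p R) :
    ‖F x‖ ≤ M * (‖x - p‖ / R) ^ T := by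
  obtain _ | n := T
  · simpa using hM x hx
  have hp : p ∈ ball p R := mem_ball_self hR
  have hFp : F p = 0 := by simpa using h0 0 (Nat.succ_pos n) 0
  by_cases hxp : x = p
  · rw [hxp, hFp]
    simp
  set y := x - p with hy
  have hy0 : 0 < ‖y‖ := norm_pos_iff.2 (sub_ne_zero.2 hxp)
  set f : ℂ → ℂ := fun t => F (p + t • y) with hf
  have hin : ∀ t : ℂ, t ∈ ball (0 : ℂ) (R / ‖y‖) → p + t • y ∈ ball p R := by
    intro t ht
    rw [mem_ball_zero_iff, lt_div_iff₀ hy0] at ht
    rw [mem_ball, dist_eq_norm, add_sub_cancel_left, norm_smul]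
    exact ht
  have hfd : DifferentiableOn ℂ f (ball 0 (R / ‖y‖)) := by
    intro t ht
    have h1 : DifferentiableAt ℂ F (p + t • y) := hF.differentiableAt (isOpen_ball.mem_nhds (hin t ht))
    have h2 : DifferentiableAt ℂ (fun t : ℂ => p + t • y) t := by fun_prop
    exact (h1.comp t h2).differentiableWithinAt
  have hf0 : f 0 = 0 := by simp [hf, hFp]
  have hzero : (0 : ℂ) ∈ ball (0 : ℂ) (R / ‖y‖) := mem_ball_self (by positivity)
  have han : AnalyticAt ℂ f 0 := hfd.analyticAt (isOpen_ball.mem_nhds hzero)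
  have hord : ((n + 1 : ℕ) : ℕ∞) ≤ analyticOrderAt f 0 := by
    rw [natCast_le_analyticOrderAt_iff_iteratedDeriv_eq_zero han]
    intro i hi
    rw [hf, line_deriv isOpen_ball hF p y i 0 (by simpa using hR)]
    simpa using h0 i hi y
  obtain ⟨gg, hgg, hev⟩ := (natCast_le_analyticOrderAt han).1 hord
  have hlo : (f · - f 0) =o[𝓝 0] (fun w ↦ ‖w - 0‖ ^ n) := by
    have h1 : f =O[𝓝 0] (fun z : ℂ => ‖z‖ ^ (n + 1)) := by
      have h2 : (fun z : ℂ => (z - 0) ^ (n + 1) • gg z) =O[𝓝 0] (fun z : ℂ => ‖z‖ ^ (n + 1)) := by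
        have h3 : gg =O[𝓝 0] (fun _ => (1 : ℝ)) := hgg.continuousAt.tendsto.isBigO_one ℝ
        have h4 : (fun z : ℂ => (z - 0) ^ (n + 1)) =O[𝓝 0] (fun z : ℂ => ‖z‖ ^ (n + 1)) := by
          refine IsBigO.of_bound 1 (Eventually.of_forall fun z => ?_)
          simp
        simpa using h4.smul h3
      exact h2.congr' (hev.mono fun z hz => hz.symm) EventuallyEq.rfl
    have h2 : (fun z : ℂ => ‖z‖ ^ (n + 1)) =o[𝓝 0] (fun z : ℂ => ‖z‖ ^ n) := by
      refine IsLittleO.of_bound fun c hc => ?_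
      filter_upwards [ball_mem_nhds (0 : ℂ) hc] with z hz
      rw [mem_ball_zero_iff] at hz
      rw [pow_succ, norm_mul, norm_pow, norm_norm, mul_comm]
      exact mul_le_mul_of_nonneg_right hz.le (by positivity)
    refine (h1.trans_isLittleO h2).congr (fun z => ?_) (fun z => ?_)
    · rw [hf0, sub_zero]
    · rw [sub_zero]
  have hmaps : Set.MapsTo f (ball 0 (R / ‖y‖)) (closedBall (f 0) M) := by
    intro t ht
    rw [mem_closedBall, dist_eq_norm, hf0, sub_zero]
    exact hM _ (hin t ht)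
  have h1mem : (1 : ℂ) ∈ ball (0 : ℂ) (R / ‖y‖) := by
    rw [mem_ball_zero_iff, norm_one, lt_div_iff₀ hy0, one_mul]
    rw [mem_ball, dist_eq_norm] at hx
    exact hx
  have key := Complex.dist_le_mul_div_pow_of_mapsTo_ball_of_isLittleO hfd hmaps hlo h1mem
  rw [dist_eq_norm, hf0, sub_zero, dist_eq_norm, sub_zero, norm_one] at key
  have h5 : f 1 = F x := by
    simp [hf, hy]
  rw [h5] at key
  have h6 : (1 : ℝ) / (R / ‖y‖) = ‖y‖ / R := by field_simp
  rwa [h6] at key

end

end Pool.Agent.RQ4.ST
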