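import Pool.Agent.RQ4.Defs

/-!
# Project RQ4 (MP_c2409d_nt, all levels): interfaces

* `Dat.IsT w f`: `f` is a theta function (in the unitary gauge) for the complex structure `w`;
  block U (helper9): `isT_tw`, `isT_unique`.
* `TH2`: what block P needs from block TH (rank two, values and gradients at torsion points).
* `R4S`: the four-term relation for the exponents of a derivation.
-/

set_option autoImplicit false

namespace Pool.Agent.RQ4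

open Complex ComplexConjugate Finset

noncomputable section

variable {K : Type} [Field K] [NumberField K] {g : ℕ}

/-- `f` is quasi-periodic for the lattice and `f exp(π/2 H_w)` is an entire function of the
coordinates `L_w` -/
def Dat.IsT (d : Dat K g) (w : d.R → ℂ) (f : Vs g → ℂ) : Prop :=
  (∀ (a b : Ix g → ℤ) (u : Vs g), f (u + d.lat a b) =
    (-1) ^ (∑ p, a p * b p) * cexp (Real.pi * I * (d.E u (d.lat a b) : ℝ)) * f u) ∧
  ∃ G : Vs g → ℂ, Differentiable ℂ G ∧ ∀ u, f u * cexp ((Real.pi / 2 * d.Hw w u : ℝ)) = G (d.L w u)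

/-- the CM type flipped at the places of `S` -/
def CM.fl (cm : CM K g) (S : Finset (Fin g)) (i : Fin g) : K →+* ℂ :=
  if i ∈ S then (starRingEnd ℂ).comp (cm.σ i) else cm.σ i

/-- the coordinates of `(κ, κ') ∈ K²` for the CM types `s3`, `s4` -/
def ex (s3 s4 : Fin g → K →+* ℂ) (u : Fin 2 → K) : Vs g := fun p =>
  if p.2 = 0 then s3 p.1 (u 0) else s4 p.1 (u 1)

/-- the canonical exponent `∑ a_p (conj l_p z_p + |l_p|²/2)` -/
def me (a : Ix g → ℝ) (z l : Vs g) : ℂ :=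
  ∑ p, (a p : ℂ) * (conj (l p) * z p + ((‖l p‖ ^ 2 / 2 : ℝ) : ℂ))

/-- canonical theta functions of rank two -/
def IsTh (a : Ix g → ℝ) (Λ : AddSubgroup (Fin 2 → K)) (χ : (Fin 2 → K) → ℂ)
    (s3 s4 : Fin g → K →+* ℂ) (T : Vs g → ℂ) : Prop :=
  Differentiable ℂ T ∧ ∀ l ∈ Λ, ∀ z, T (z + ex s3 s4 l) = χ l * cexp (me a z (ex s3 s4 l)) * T z

/-- the canonical translate `T_ρ` -/
def tr (a : Ix g → ℝ) (ρ : Vs g) (T : Vs g → ℂ) : Vs g → ℂ := fun z => cexp (-(me a z ρ)) * T (z + ρ)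

/-- input from block TH: for an even theta function `T` of rank two, `T(0) ≠ 0`, unique for its
multipliers, and a derivation `δ` of `ℂ`, `T_ρ^δ = (∑ c_p z_p ∂_p + γ) T_ρ` at all torsion points `ρ`
(only the values at `0` of both sides and of their first derivatives are used); the exponents `c` are
those of the two CM types -/
def TH2 (cm : CM K g) (IsC : (Fin g → K →+* ℂ) → Derivation ℚ ℂ ℂ → (Fin g → ℂ) → Prop) : Prop :=
  ∀ (S3 S4 : Finset (Fin g)) (a : Ix g → ℝ) (Λ : AddSubgroup (Fin 2 → K)) (χ : (Fin 2 → K) → ℂ)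
    (T : Vs g → ℂ), (∀ p, 0 < a p) → (∀ p, IsAlgebraic ℚ (a p / Real.pi)) →
    Λ.FG → (∀ x : Fin 2 → K, ∃ n : ℕ, 0 < n ∧ n • x ∈ Λ) → (∀ l ∈ Λ, χ l = 1 ∨ χ l = -1) →
    IsTh a Λ χ (cm.fl S3) (cm.fl S4) T → (∀ z, T (-z) = T z) → T 0 ≠ 0 →
    (∀ f, IsTh a Λ χ (cm.fl S3) (cm.fl S4) f → ∃ c : ℂ, ∀ z, f z = c * T z) →
    ∀ δ : Derivation ℚ ℂ ℂ, ∃ (c3 c4 : Fin g → ℂ) (γ : ℂ),
      IsC (cm.fl S3) δ c3 ∧ IsC (cm.fl S4) δ c4 ∧ ∀ ρ : Fin 2 → K,
        δ (tr a (ex (cm.fl S3) (cm.fl S4) ρ) T 0) = γ * tr a (ex (cm.fl S3) (cm.fl S4) ρ) T 0 ∧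
        ∀ p : Ix g, δ (fderiv ℂ (tr a (ex (cm.fl S3) (cm.fl S4) ρ) T) 0 (Pi.single p 1)) =
          (γ + (if p.2 = 0 then c3 p.1 else c4 p.1)) *
            fderiv ℂ (tr a (ex (cm.fl S3) (cm.fl S4) ρ) T) 0 (Pi.single p 1)

/-- uniqueness of the exponents of a CM type -/
def UC (IsC : (Fin g → K →+* ℂ) → Derivation ℚ ℂ ℂ → (Fin g → ℂ) → Prop) : Prop :=
  ∀ s δ c c', IsC s δ c → IsC s δ c' → c = c'

/-- the four-term relation: `R` a nonempty set of places, `S ⊆ R`, `s ∉ R` -/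
def R4S (cm : CM K g) (IsC : (Fin g → K →+* ℂ) → Derivation ℚ ℂ ℂ → (Fin g → ℂ) → Prop) : Prop :=
  ∀ (R S : Finset (Fin g)) (s : Fin g), R.Nonempty → s ∉ R → S ⊆ R → ∀ δ : Derivation ℚ ℂ ℂ,
    ∃ c1 c2 c3 c4 : Fin g → ℂ, IsC (cm.fl ∅) δ c1 ∧ IsC (cm.fl R) δ c2 ∧ IsC (cm.fl S) δ c3 ∧
      IsC (cm.fl (R \ S)) δ c4 ∧ c1 s + c2 s = c3 s + c4 s

end

end Pool.Agent.RQ4
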