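import Pool.Agent.RQ4.Defs

/-!
# RQ4 (MP_c2409d_nt), block N: the CM structure of the cyclotomic field (helper91)
-/

set_option autoImplicit false

namespace Pool.Agent.RQ4

open Complex ComplexConjugate Finset

section Cyc

variable (D : ℕ) [NeZero D]

/-- the root of unity `exp(2πi m / D)` -/
noncomputable def rt (m : ℕ) : ℂ := cexp (2 * Real.pi * I * ((m : ℂ) / D))

lemma rt_prim {m : ℕ} (hm : Nat.Coprime m D) : IsPrimitiveRoot (rt D m) D :=
  Complex.isPrimitiveRoot_exp_of_coprime m D (NeZero.ne D) hm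

lemma rt_eq_pow (m : ℕ) : rt D m = rt D 1 ^ m := by
  unfold rt
  rw [← Complex.exp_nat_mul]
  congr 1
  push_cast
  ring

lemma rt_one_prim : IsPrimitiveRoot (rt D 1) D := rt_prim D (Nat.coprime_one_left D)

lemma rt_eq_iff (m n : ℕ) : rt D m = rt D n ↔ m % D = n % D := by
  have h1 := rt_one_prim D
  have key : ∀ k : ℕ, rt D 1 ^ k = rt D 1 ^ (k % D) := by
    intro k
    conv_lhs => rw [← Nat.div_add_mod k D, pow_add, pow_mul, h1.pow_eq_one, one_pow, one_mul]
  rw [rt_eq_pow D m, rt_eq_pow D n]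
  constructor
  · intro h
    rw [key m, key n] at h
    exact h1.pow_inj (Nat.mod_lt _ (NeZero.pos D)) (Nat.mod_lt _ (NeZero.pos D)) h
  · intro h
    rw [key m, key n, h]

lemma conj_rt (m : ℕ) : conj (rt D m) = (rt D m)⁻¹ := by
  unfold rt
  rw [← Complex.exp_conj, ← Complex.exp_neg]
  congr 1
  simp only [map_mul, map_div₀, Complex.conj_I, Complex.conj_ofReal, map_ofNat, map_natCast]
  ring

lemma rt_mul (m n : ℕ) : rt D m * rt D n = rt D (m + n) := by
  rw [rt_eq_pow D m, rt_eq_pow D n, rt_eq_pow D (m + n), pow_add]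

lemma rt_eq_one_iff (m : ℕ) : rt D m = 1 ↔ D ∣ m := by
  rw [rt_eq_pow, (rt_one_prim D).pow_eq_one_iff_dvd]

variable (K : Type) [Field K] [NumberField K] [IsCyclotomicExtension {D} ℚ K]

/-- the primitive root of unity in the field -/
noncomputable def zt : K := IsCyclotomicExtension.zeta D ℚ K

lemma zt_spec : IsPrimitiveRoot (zt D K) D := IsCyclotomicExtension.zeta_spec D ℚ K

lemma irr : Irreducible (Polynomial.cyclotomic D ℚ) :=
  Polynomial.cyclotomic.irreducible_rat (NeZero.pos D)

lemma ext_zt {A : Type} [CommRing A] [IsDomain A] [Algebra ℚ A] (f f' : K →ₐ[ℚ] A)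
    (h : f (zt D K) = f' (zt D K)) : f = f' := by
  refine ((zt_spec D K).embeddingsEquivPrimitiveRoots A (irr D)).injective ?_
  exact Subtype.ext h

lemma ext_zt' (f f' : K →+* ℂ) (h : f (zt D K) = f' (zt D K)) : f = f' := by
  have h1 : f.toRatAlgHom = f'.toRatAlgHom := ext_zt D K _ _ (by simpa using h)
  ext x
  have := congrArg (fun u : K →ₐ[ℚ] ℂ => u x) h1
  simpa using this

lemma exists_hom {A : Type} [CommRing A] [IsDomain A] [Algebra ℚ A] {r : A}
    (hr : IsPrimitiveRoot r D) : ∃ f : K →ₐ[ℚ] A, f (zt D K) = r := by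
  refine ⟨((zt_spec D K).embeddingsEquivPrimitiveRoots A (irr D)).symm
    ⟨r, (mem_primitiveRoots (NeZero.pos D)).2 hr⟩, ?_⟩
  rw [← (zt_spec D K).embeddingsEquivPrimitiveRoots_apply_coe A (irr D), Equiv.apply_symm_apply]

/-- the CM structure of the cyclotomic field -/
theorem exists_cyc (g : ℕ) (t : Fin g → ℕ) (hc : ∀ i, Nat.Coprime (t i) D)
    (hinj : ∀ i j, t i % D = t j % D → i = j) (hanti : ∀ i j, ¬ D ∣ t i + t j)
    (hg : 2 * g = Nat.totient D) :
    ∃ C : CM (K) g, (∀ i, C.σ i (zt D K) = rt D (t i)) ∧ C.bar (zt D K) = (zt D K)⁻¹ := by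
  classical
  obtain ⟨b, hb⟩ := exists_hom D K (A := K) ((zt_spec D K).inv)
  choose s hs using fun i => exists_hom D K (A := ℂ) (rt_prim D (hc i))
  refine ⟨{
    bar := b
    σ := fun i => (s i : K →+* ℂ)
    hbar := ?_
    all := ?_
    inj := ?_
    ne := ?_ }, ?_, ?_⟩
  · intro i x
    have h1 : ((s i : K →+* ℂ).comp (b : K →+* K)) =
        (starRingEnd ℂ).comp (s i : K →+* ℂ) := by
      refine ext_zt' D K _ _ ?_
      simp only [RingHom.comp_apply, RingHom.coe_coe]
      rw [hb, map_inv₀, hs, conj_rt]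
    exact congrArg (fun f : K →+* ℂ => f x) h1
  · intro τ
    have h1 : IsPrimitiveRoot (τ (zt D K)) D := (zt_spec D K).map_of_injective τ.injective
    obtain ⟨m, hm, hmc, hme⟩ := (Complex.isPrimitiveRoot_iff _ _ (NeZero.ne D)).1 h1
    have hme' : τ (zt D K) = rt D m := hme.symm
    -- the residues
    let u : Fin g ⊕ Fin g → (ZMod D)ˣ := Sum.elim (fun i => ZMod.unitOfCoprime (t i) (hc i))
      (fun i => -ZMod.unitOfCoprime (t i) (hc i))
    have hu : Function.Injective u := by
      have key : ∀ i j : Fin g, ((t i : ℕ) : ZMod D) = ((t j : ℕ) : ZMod D) → i = j := by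
        intro i j h
        exact hinj i j ((ZMod.natCast_eq_natCast_iff' _ _ _).1 h)
      have key2 : ∀ i j : Fin g, ((t i : ℕ) : ZMod D) ≠ -((t j : ℕ) : ZMod D) := by
        intro i j h
        refine hanti i j ((ZMod.natCast_eq_zero_iff _ _).1 ?_)
        push_cast
        rw [h]
        ring
      rintro (i | i) (j | j) h
      · have := congrArg (fun w : (ZMod D)ˣ => (w : ZMod D)) h
        simp only [u, Sum.elim_inl, ZMod.coe_unitOfCoprime] at this
        rw [key i j this]
      · have := congrArg (fun w : (ZMod D)ˣ => (w : ZMod D)) h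
        simp only [u, Sum.elim_inl, Sum.elim_inr, Units.val_neg, ZMod.coe_unitOfCoprime] at this
        exact absurd this (key2 i j)
      · have := congrArg (fun w : (ZMod D)ˣ => (w : ZMod D)) h
        simp only [u, Sum.elim_inl, Sum.elim_inr, Units.val_neg, ZMod.coe_unitOfCoprime] at this
        exact absurd this.symm (key2 j i)
      · have := congrArg (fun w : (ZMod D)ˣ => (w : ZMod D)) h
        simp only [u, Sum.elim_inr, Units.val_neg, ZMod.coe_unitOfCoprime, neg_inj] at this
        rw [key i j this]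
    have hcard : Fintype.card (Fin g ⊕ Fin g) = Fintype.card (ZMod D)ˣ := by
      rw [ZMod.card_units_eq_totient, Fintype.card_sum, Fintype.card_fin]
      omega
    have hsurj := ((Fintype.bijective_iff_injective_and_card u).2 ⟨hu, hcard⟩).2
    obtain ⟨w, hw⟩ := hsurj (ZMod.unitOfCoprime m hmc)
    rcases w with i | i
    · refine ⟨i, Or.inl (ext_zt' D K _ _ ?_)⟩
      have h2 := congrArg (fun w : (ZMod D)ˣ => (w : ZMod D)) hw
      simp only [u, Sum.elim_inl, ZMod.coe_unitOfCoprime] at h2
      have h3 := (ZMod.natCast_eq_natCast_iff' _ _ _).1 h2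
      rw [hme', RingHom.coe_coe, hs, rt_eq_iff]
      exact h3.symm
    · refine ⟨i, Or.inr fun x => ?_⟩
      have h2 := congrArg (fun w : (ZMod D)ˣ => (w : ZMod D)) hw
      simp only [u, Sum.elim_inr, Units.val_neg, ZMod.coe_unitOfCoprime] at h2
      have h3 : D ∣ m + t i := by
        refine (ZMod.natCast_eq_zero_iff _ _).1 ?_
        push_cast
        rw [← h2]
        ring
      have h4 : τ = (starRingEnd ℂ).comp (s i : K →+* ℂ) := by
        refine ext_zt' D K _ _ ?_
        rw [hme', RingHom.comp_apply, RingHom.coe_coe, hs, conj_rt]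
        refine eq_inv_of_mul_eq_one_left ?_
        rw [rt_mul, rt_eq_one_iff]
        exact h3
      rw [h4]
      rfl
  · intro i j h
    refine hinj i j ?_
    have h1 := congrArg (fun f : K →+* ℂ => f (zt D K)) h
    simp only [RingHom.coe_coe, hs] at h1
    exact (rt_eq_iff D _ _).1 h1
  · intro i j
    refine ⟨zt D K, fun h => ?_⟩
    simp only [RingHom.coe_coe, hs] at h
    rw [conj_rt] at h
    refine hanti i j ((rt_eq_one_iff D _).1 ?_)
    rw [← rt_mul, h, inv_mul_cancel₀]
    exact Complex.exp_ne_zero _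
  · intro i
    simp [hs]
  · exact hb

/-- the value of a combination of powers of `ζ` at a place -/
lemma sig_comb {g : ℕ} (C : CM (K) g) {t : Fin g → ℕ} (h : ∀ i, C.σ i (zt D K) = rt D (t i))
    (c : ℕ → ℤ) (i : Fin g) : C.σ i (∑ j ∈ range D, (c j : K) * zt D K ^ j) =
      ∑ j ∈ range D, (c j : ℂ) * cexp (2 * Real.pi * I * (t i * j : ℕ) / D) := by
  rw [map_sum]
  refine sum_congr rfl fun j _ => ?_
  rw [map_mul, map_pow, h, map_intCast]
  congr 1
  unfold rt
  rw [← Complex.exp_nat_mul]
  congr 1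
  push_cast
  ring

/-- every integral element is an integral combination of powers of `ζ` -/
theorem integral_comb {x : K} (hx : IsIntegral ℤ x) :
    ∃ c : ℕ → ℤ, x = ∑ j ∈ range D, (c j : K) * zt D K ^ j := by
  classical
  have := IsCyclotomicExtension.Rat.isIntegralClosure_adjoin_singleton (zt_spec D K)
  obtain ⟨y, rfl⟩ := (IsIntegralClosure.isIntegral_iff
    (A := Algebra.adjoin ℤ ({zt D K} : Set (K)))).1 hx
  obtain ⟨y, hy⟩ := y
  obtain ⟨p, hp⟩ : ∃ p : Polynomial ℤ, Polynomial.aeval (zt D K) p = y := by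
    rw [Algebra.adjoin_singleton_eq_range_aeval, AlgHom.mem_range] at hy
    exact hy
  have hp' : algebraMap (Algebra.adjoin ℤ ({zt D K} : Set K)) K ⟨y, hy⟩ =
      Polynomial.aeval (zt D K) p := hp.symm
  rw [hp']
  clear hp hp' hx hy
  induction p using Polynomial.induction_on' with
  | add p q hp hq =>
    obtain ⟨c, hc⟩ := hp
    obtain ⟨c', hc'⟩ := hq
    refine ⟨fun j => c j + c' j, ?_⟩
    rw [map_add, hc, hc', ← Finset.sum_add_distrib]
    refine sum_congr rfl fun j _ => ?_
    push_cast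
    ring
  | monomial n a =>
    refine ⟨fun j => if j = n % D then a else 0, ?_⟩
    rw [Finset.sum_eq_single (n % D)]
    · simp only [if_true]
      rw [Polynomial.aeval_monomial]
      congr 1
      · have h1 := (zt_spec D K).pow_eq_one
        conv_lhs => rw [← Nat.div_add_mod n D, pow_add, pow_mul, h1, one_pow, one_mul]
    · intro j _ hj
      simp only [hj, if_false]
      simp
    · intro h
      exact absurd (mem_range.2 (Nat.mod_lt n (NeZero.pos D))) h

/-- the cyclotomic field -/
lemma cyc_inst : IsCyclotomicExtension {D} ℚ (CyclotomicField D ℚ) :=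
  CyclotomicField.isCyclotomicExtension D ℚ

end Cyc

end Pool.Agent.RQ4
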