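import Pool.Agent.RQ4.DensZ

/-!
# RQ4 (MP_c2409d_nt), block N: existence of the data `ξ, ν, f, fd` (helper91)
-/

set_option autoImplicit false

namespace Pool.Agent.RQ4

open Complex ComplexConjugate Finset

variable {K : Type} [Field K] [NumberField K] {g : ℕ}

namespace CM

variable (C : CM K g)

include C in
/-- some place exists -/
lemma exists_place : Nonempty (Fin g) := by
  obtain ⟨τ⟩ : Nonempty (K →+* ℂ) := inferInstance
  obtain ⟨i, _⟩ := C.all τ
  exact ⟨i⟩

lemma eq_of_sigma (i : Fin g) {x y : K} (h : C.σ i x = C.σ i y) : x = y :=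
  (C.σ i).injective h

lemma bar_bar (x : K) : C.bar (C.bar x) = x := by
  obtain ⟨i⟩ := C.exists_place
  refine C.eq_of_sigma i ?_
  rw [C.hbar, C.hbar, Complex.conj_conj]

/-- the bijection of the places with their conjugates onto the embeddings -/
lemma bij : Function.Bijective (Sum.elim C.σ (fun i => (starRingEnd ℂ).comp (C.σ i)) :
      Fin g ⊕ Fin g → K →+* ℂ) := by
  refine ⟨?_, ?_⟩
  · intro a b hab
    rcases a with i | i <;> rcases b with j | j
    · simp only [Sum.elim_inl] at hab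
      rw [C.inj hab]
    · exfalso
      obtain ⟨x, hx⟩ := C.ne i j
      simp only [Sum.elim_inl, Sum.elim_inr] at hab
      exact hx (by rw [hab]; rfl)
    · exfalso
      obtain ⟨x, hx⟩ := C.ne j i
      simp only [Sum.elim_inl, Sum.elim_inr] at hab
      exact hx (by rw [← hab]; rfl)
    · simp only [Sum.elim_inr] at hab
      have : C.σ i = C.σ j := by
        ext x
        have h1 := congrArg (fun f : K →+* ℂ => conj (f x)) hab
        simpa using h1
      rw [C.inj this]
  · intro τ
    obtain ⟨i, h | h⟩ := C.all τ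
    · exact ⟨Sum.inl i, by simp [h]⟩
    · refine ⟨Sum.inr i, ?_⟩
      ext x
      simp [h x]

include C in
lemma finrank_eq : Module.finrank ℚ K = g + g := by
  have h1 : Fintype.card (K →+* ℂ) = Module.finrank ℚ K := NumberField.Embeddings.card K ℂ
  have h2 := Fintype.card_of_bijective C.bij
  rw [Fintype.card_sum, Fintype.card_fin] at h2
  omega

/-- the trace as a sum over the places -/
lemma trace_eq (z : K) : (algebraMap ℚ ℂ (Algebra.trace ℚ K z)) =
    ∑ i, (C.σ i z + conj (C.σ i z)) := by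
  classical
  rw [trace_eq_sum_embeddings (E := ℂ)]
  have h1 : ∑ σ : K →ₐ[ℚ] ℂ, σ z = ∑ φ : K →+* ℂ, φ z := by
    refine (Fintype.sum_equiv (RingHom.equivRatAlgHom K ℂ) _ _ fun φ => ?_).symm
    simp [RingHom.equivRatAlgHom_apply]
  rw [h1, ← (Equiv.ofBijective _ C.bij).sum_comp, Fintype.sum_sum_type, Finset.sum_add_distrib]
  rfl

/-- an approximation of prescribed complex numbers at all places -/
lemma exists_near (z : Fin g → ℂ) {ε : ℝ} (hε : 0 < ε) : ∃ x : K, ∀ i, ‖C.σ i x - z i‖ < ε := by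
  obtain ⟨x, hx⟩ := C.dense.exists_mem_open (s := Metric.ball z ε) Metric.isOpen_ball
    ⟨z, Metric.mem_ball_self hε⟩
  refine ⟨x, fun i => ?_⟩
  rw [Metric.mem_ball] at hx
  have := (dist_pi_lt_iff hε).1 hx i
  rwa [Complex.dist_eq] at this

/-- an imaginary element with positive imaginary parts -/
theorem exists_xi : ∃ ξ : K, C.bar ξ = -ξ ∧ ∀ i, 0 < (C.σ i ξ).im := by
  obtain ⟨x, hx⟩ := C.exists_near (fun _ => I) (ε := 1 / 2) (by norm_num)
  refine ⟨x - C.bar x, ?_, fun i => ?_⟩
  · rw [map_sub, C.bar_bar]; ring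
  · have h1 : |(C.σ i x - I).im| < 1 / 2 := lt_of_le_of_lt (Complex.abs_im_le_norm _) (hx i)
    rw [Complex.sub_im, Complex.I_im, abs_lt] at h1
    rw [map_sub, C.hbar, Complex.sub_im, Complex.conj_im]
    linarith [h1.1]

/-- a real integral element with prescribed signs -/
theorem exists_nu (R : Finset (Fin g)) : ∃ ν : K, IsIntegral ℤ ν ∧ C.bar ν = ν ∧
    (∀ i ∈ R, (C.σ i ν).re < 0) ∧ ∀ i, i ∉ R → 0 < (C.σ i ν).re := by
  classical
  obtain ⟨x, hx⟩ := C.exists_near (fun i => if i ∈ R then -1 else 1) (ε := 1 / 2) (by norm_num)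
  set y := x + C.bar x with hy
  have halg : IsAlgebraic ℤ y := by
    have : IsAlgebraic ℚ y := Algebra.IsAlgebraic.isAlgebraic y
    exact (IsFractionRing.isAlgebraic_iff ℤ ℚ K).2 this
  obtain ⟨n, hn0, hn⟩ := halg.exists_integral_multiple
  have hre : ∀ i, (C.σ i y).re = 2 * (C.σ i x).re := by
    intro i
    rw [hy, map_add, C.hbar, Complex.add_re, Complex.conj_re]; ring
  have hpos : (0 : ℝ) < (n : ℝ) * n := by
    have : (n : ℝ) ≠ 0 := by exact_mod_cast hn0
    exact mul_self_pos.2 this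
  have hre2 : ∀ i, (C.σ i (n • (n • y))).re = (n : ℝ) * n * (2 * (C.σ i x).re) := by
    intro i
    rw [zsmul_eq_mul, zsmul_eq_mul, map_mul, map_mul, map_intCast, ← mul_assoc, ← hre i]
    have : ((n : ℂ) * (n : ℂ)) = (((n : ℝ) * n : ℝ) : ℂ) := by push_cast; ring
    rw [this, Complex.re_ofReal_mul]
  refine ⟨n • (n • y), hn.smul n, ?_, ?_, ?_⟩
  · rw [zsmul_eq_mul, zsmul_eq_mul, map_mul, map_mul, map_intCast, hy, map_add, C.bar_bar,
      add_comm]
  · intro i hi
    have h1 : |(C.σ i x - (-1)).re| < 1 / 2 := by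
      have := hx i
      simp only [hi, if_true] at this
      exact lt_of_le_of_lt (Complex.abs_re_le_norm _) this
    rw [Complex.sub_re, Complex.neg_re, Complex.one_re, abs_lt] at h1
    rw [hre2]
    have h2 : (C.σ i x).re < 0 := by linarith [h1.2]
    nlinarith
  · intro i hi
    have h1 : |(C.σ i x - 1).re| < 1 / 2 := by
      have := hx i
      simp only [hi, if_false] at this
      exact lt_of_le_of_lt (Complex.abs_re_le_norm _) this
    rw [Complex.sub_re, Complex.one_re, abs_lt] at h1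
    rw [hre2]
    have h2 : 0 < (C.σ i x).re := by linarith [h1.1]
    positivity

/-- the conjugation as a `ℚ`-linear map -/
noncomputable def barL : K →ₗ[ℚ] K := C.bar.toRatAlgHom.toLinearMap

lemma barL_apply (x : K) : C.barL x = C.bar x := rfl

/-- the real subfield as a `ℚ`-space -/
noncomputable def F : Submodule ℚ K := LinearMap.ker (C.barL - LinearMap.id)

lemma mem_F (x : K) : x ∈ C.F ↔ C.bar x = x := by
  rw [F, LinearMap.mem_ker, LinearMap.sub_apply, LinearMap.id_apply, barL_apply, sub_eq_zero]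

/-- the imaginary elements -/
noncomputable def A : Submodule ℚ K := LinearMap.ker (C.barL + LinearMap.id)

lemma mem_A (x : K) : x ∈ C.A ↔ C.bar x = -x := by
  rw [A, LinearMap.mem_ker, LinearMap.add_apply, LinearMap.id_apply, barL_apply,
    add_eq_zero_iff_eq_neg]

lemma finrank_F : Module.finrank ℚ C.F = g := by
  obtain ⟨ξ, hξ, hpos⟩ := C.exists_xi
  have hξ0 : ξ ≠ 0 := by
    rintro rfl
    obtain ⟨i⟩ := C.exists_place
    have := hpos i
    simp at this
  -- `F ≃ A`
  let e : C.F ≃ₗ[ℚ] C.A :=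
    { toFun := fun x => ⟨ξ * x, by
        rw [C.mem_A, map_mul, hξ, (C.mem_F _).1 x.2]; ring⟩
      invFun := fun y => ⟨ξ⁻¹ * y, by
        rw [C.mem_F, map_mul, map_inv₀, hξ, (C.mem_A _).1 y.2, inv_neg]; ring⟩
      map_add' := fun x y => by ext; simp [mul_add]
      map_smul' := fun q x => by ext; simp
      left_inv := fun x => by
        ext; simp only; rw [← mul_assoc, inv_mul_cancel₀ hξ0, one_mul]
      right_inv := fun y => by
        ext; simp only; rw [← mul_assoc, mul_inv_cancel₀ hξ0, one_mul] }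
  have h1 : LinearMap.range (C.barL + LinearMap.id) = C.F := by
    ext y
    rw [LinearMap.mem_range, C.mem_F]
    constructor
    · rintro ⟨x, rfl⟩
      rw [LinearMap.add_apply, LinearMap.id_apply, barL_apply, map_add, C.bar_bar, add_comm]
    · intro hy
      refine ⟨(1 / 2 : ℚ) • y, ?_⟩
      rw [LinearMap.add_apply, LinearMap.id_apply, map_smul, barL_apply, hy, ← add_smul]
      norm_num
  have h2 := LinearMap.finrank_range_add_finrank_ker (C.barL + LinearMap.id)
  have h3 : Module.finrank ℚ C.F = Module.finrank ℚ C.A := e.finrank_eq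
  change Module.finrank ℚ (LinearMap.range (C.barL + LinearMap.id)) +
    Module.finrank ℚ C.A = _ at h2
  rw [h1, ← h3, C.finrank_eq] at h2
  omega

lemma im_F {x : K} (hx : C.bar x = x) (i : Fin g) : conj (C.σ i x) = C.σ i x := by
  rw [← C.hbar, hx]

/-- the trace form on the real subfield is nondegenerate -/
lemma nondeg : ((Algebra.traceForm ℚ K).restrict C.F).Nondegenerate := by
  have key : ∀ x : C.F, (Algebra.traceForm ℚ K) x x = 0 → x = 0 := by
    intro x hx
    have hx2 := (C.mem_F _).1 x.2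
    rw [Algebra.traceForm_apply] at hx
    have h1 := C.trace_eq ((x : K) * x)
    rw [hx, map_zero] at h1
    have h2 : ∀ i, C.σ i ((x : K) * x) + conj (C.σ i ((x : K) * x)) =
        ((2 * (C.σ i x).re ^ 2 : ℝ) : ℂ) := by
      intro i
      have h3 : C.σ i (x : K) = ((C.σ i (x : K)).re : ℂ) :=
        (Complex.conj_eq_iff_re.1 (C.im_F hx2 i)).symm
      rw [map_mul, map_mul, C.im_F hx2 i, h3]
      push_cast
      simp only [Complex.ofReal_re]
      ring
    simp_rw [h2] at h1
    rw [← Complex.ofReal_sum] at h1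
    have h4 : ∑ i, 2 * (C.σ i (x : K)).re ^ 2 = 0 := by exact_mod_cast h1.symm
    obtain ⟨i⟩ := C.exists_place
    have h5 := (Finset.sum_eq_zero_iff_of_nonneg (fun i _ => by positivity)).1 h4 i (mem_univ i)
    have h6 : (C.σ i (x : K)).re = 0 := by
      have : (C.σ i (x : K)).re ^ 2 = 0 := by linarith
      exact pow_eq_zero_iff (two_ne_zero) |>.1 this
    have h7 : C.σ i (x : K) = 0 := by
      rw [← Complex.conj_eq_iff_re.1 (C.im_F hx2 i), h6, Complex.ofReal_zero]
    have h8 : (x : K) = 0 := (map_eq_zero (C.σ i)).1 h7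
    exact Subtype.ext h8
  refine ⟨fun x hx => key x (hx x), fun x hx => key x (hx x)⟩

/-- a basis of the real subfield and its trace dual -/
theorem exists_basis : ∃ f fd : Fin g → K, (∀ k, C.bar (f k) = f k) ∧
    (∀ k, C.bar (fd k) = fd k) ∧ ∀ j k, ∑ i, C.σ i (fd j * f k) = if j = k then 1 else 0 := by
  classical
  let b : Module.Basis (Fin g) ℚ C.F := Module.finBasisOfFinrankEq ℚ C.F C.finrank_F
  let B := (Algebra.traceForm ℚ K).restrict C.F
  let b' := B.dualBasis C.nondeg b
  refine ⟨fun k => (b k : K), fun k => (2 : ℚ) • (b' k : K), fun k => (C.mem_F _).1 (b k).2,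
    fun k => (C.mem_F _).1 (C.F.smul_mem _ (b' k).2), fun j k => ?_⟩
  have h1 : B (b' j) (b k) = if k = j then 1 else 0 :=
    LinearMap.BilinForm.apply_dualBasis_left C.nondeg b j k
  have h2 : Algebra.trace ℚ K ((b' j : K) * (b k : K)) = if k = j then 1 else 0 := h1
  have h3 := C.trace_eq ((b' j : K) * (b k : K))
  rw [h2] at h3
  have h4 : ∀ i, C.σ i ((2 : ℚ) • (b' j : K) * (b k : K)) =
      C.σ i ((b' j : K) * (b k : K)) + conj (C.σ i ((b' j : K) * (b k : K))) := by
    intro i
    have h5 : C.bar ((b' j : K) * (b k : K)) = (b' j : K) * (b k : K) := by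
      rw [map_mul, (C.mem_F _).1 (b' j).2, (C.mem_F _).1 (b k).2]
    rw [C.im_F h5 i, smul_mul_assoc, Algebra.smul_def, map_mul]
    simp only [eq_ratCast, Rat.cast_ofNat, map_ofNat]
    ring
  simp_rw [h4]
  rw [← h3]
  by_cases h : j = k
  · subst h; simp
  · have h' : k ≠ j := fun h' => h h'.symm
    simp [h, h']

/-- the data exist -/
theorem exists_dat (R : Finset (Fin g)) (s : Fin g) (hs : s ∉ R) :
    ∃ d : Dat K g, d.toCM = C ∧ d.R = R ∧ d.s = s ∧ IsIntegral ℤ d.ν := by
  obtain ⟨ξ, h1, h2⟩ := C.exists_xi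
  obtain ⟨ν, h3, h4, h5, h6⟩ := C.exists_nu R
  obtain ⟨f, fd, h7, h8, h9⟩ := C.exists_basis
  exact ⟨{ toCM := C, R := R, s := s, hs := hs, ξ := ξ, bξ := h1, pξ := h2, ν := ν, bν := h4,
           nR := h5, nN := h6, f := f, fd := fd, bf := h7, bfd := h8, dual := h9 },
    rfl, rfl, rfl, h3⟩

end CM

end Pool.Agent.RQ4
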