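import Mathlib

/-!
# Project RQ4 (MP_c2409d_nt, all levels), block D: descent to the constants of a derivation and the
final evaluation argument
-/

set_option autoImplicit false

namespace Pool.Agent.RQ4

open MvPolynomial

noncomputable section

/-- the constants of a derivation of `ℂ` -/
def Kc (δ : Derivation ℚ ℂ ℂ) : Subfield ℂ where
  carrier := {z | δ z = 0}
  mul_mem' := by
    intro a b ha hb
    simp only [Set.mem_ofPred_eq] at *
    rw [Derivation.leibniz, ha, hb]; simp
  one_mem' := by simp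
  add_mem' := by
    intro a b ha hb
    simp only [Set.mem_ofPred_eq] at *
    rw [map_add, ha, hb, add_zero]
  zero_mem' := by simp
  neg_mem' := by
    intro a ha
    simp only [Set.mem_ofPred_eq] at *
    rw [map_neg, ha, neg_zero]
  inv_mem' := by
    intro a ha
    simp only [Set.mem_ofPred_eq] at *
    rw [Derivation.leibniz_inv, ha]; simp

theorem mem_Kc (δ : Derivation ℚ ℂ ℂ) (z : ℂ) : z ∈ Kc δ ↔ δ z = 0 := Iff.rfl

/-- descent: a polynomial relation with complex coefficients between functions with values in a subfield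
gives one with coefficients in the subfield -/
theorem descent {N : ℕ} {X : Type} (k : Subfield ℂ) (F : X → Fin N → ℂ) (hF : ∀ x i, F x i ∈ k)
    (P : MvPolynomial (Fin N) ℂ) (hP : P ≠ 0) (h : ∀ x, eval (F x) P = 0) :
    ∃ P' : MvPolynomial (Fin N) ℂ, P' ≠ 0 ∧ (∀ m, P'.coeff m ∈ k) ∧ ∀ x, eval (F x) P' = 0 := by
  classical
  obtain ⟨m0, hm0⟩ : ∃ m0, P.coeff m0 ≠ 0 := by
    by_contra hc
    push Not at hc
    exact hP (MvPolynomial.ext _ _ (fun m => by simpa using hc m))
  obtain ⟨l, hl⟩ : ∃ l : ℂ →ₗ[k] k, l (P.coeff m0) ≠ 0 := by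
    by_contra hc
    push Not at hc
    exact hm0 ((Module.forall_dual_apply_eq_zero_iff k (P.coeff m0)).1 hc)
  refine ⟨∑ m ∈ P.support, monomial m ((l (P.coeff m) : k) : ℂ), ?_, ?_, ?_⟩
  · intro h0
    have := congrArg (MvPolynomial.coeff m0) h0
    rw [MvPolynomial.coeff_sum] at this
    simp only [MvPolynomial.coeff_monomial, MvPolynomial.coeff_zero] at this
    rw [Finset.sum_ite_eq' P.support m0] at this
    rw [if_pos (MvPolynomial.mem_support_iff.2 hm0)] at this
    exact hl (by exact_mod_cast this)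
  · intro m
    rw [MvPolynomial.coeff_sum]
    refine k.sum_mem (fun m' _ => ?_)
    rw [MvPolynomial.coeff_monomial]
    split_ifs
    · exact (l (P.coeff m')).2
    · exact k.zero_mem
  · intro x
    have h1 : ∀ m : Fin N →₀ ℕ, (∏ i, F x i ^ m i) ∈ k := fun m =>
      k.prod_mem (fun i _ => k.pow_mem (hF x i) _)
    have h2 := h x
    rw [MvPolynomial.eval_eq'] at h2
    have h3 : l (∑ m ∈ P.support, (⟨∏ i, F x i ^ m i, h1 m⟩ : k) • P.coeff m) = 0 := by
      have : (∑ m ∈ P.support, (⟨∏ i, F x i ^ m i, h1 m⟩ : k) • P.coeff m) = 0 := by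
        rw [← h2]
        refine Finset.sum_congr rfl (fun m _ => ?_)
        rw [Subfield.smul_def, smul_eq_mul, mul_comm]
      rw [this, map_zero]
    rw [map_sum] at h3
    have h4 := congrArg (fun z : k => (z : ℂ)) h3
    simp only [map_smul, smul_eq_mul] at h4
    push_cast at h4
    rw [map_sum, ← h4]
    refine Finset.sum_congr rfl (fun m _ => ?_)
    rw [MvPolynomial.eval_monomial, mul_comm]
    congr 1
    rw [Finsupp.prod_fintype _ _ (fun i => pow_zero _)]

theorem alg_Kc (δ : Derivation ℚ ℂ ℂ) (z : ℂ) (p : Polynomial ℂ) (hp : p ≠ 0) (hc : ∀ n, p.coeff n ∈ Kc δ)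
    (hz : p.eval z = 0) : δ z = 0 := by
  classical
  -- polynomial of least degree with coefficients in `Kc δ` vanishing at `z`
  have hex : ∃ n, ∃ p : Polynomial ℂ, p ≠ 0 ∧ (∀ n, p.coeff n ∈ Kc δ) ∧ p.eval z = 0 ∧ p.natDegree = n :=
    ⟨_, p, hp, hc, hz, rfl⟩
  obtain ⟨q, hq0, hqc, hqz, hqn⟩ := Nat.find_spec hex
  have hmin := fun m (hm : m < Nat.find hex) => Nat.find_min hex hm
  -- apply `δ`
  have hd : Polynomial.eval z q.derivative * δ z = 0 := by
    have h1 : δ (q.eval z) = 0 := by rw [hqz, map_zero]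
    rw [Polynomial.eval_eq_sum_range, map_sum] at h1
    rw [← h1, Polynomial.eval_eq_sum_range' (n := q.natDegree + 1)
      (lt_of_le_of_lt (Polynomial.natDegree_derivative_le _) (by omega)), Finset.sum_mul]
    have h2 : ∀ i ∈ Finset.range (q.natDegree + 1), δ (q.coeff i * z ^ i) =
        (q.coeff i * i * z ^ (i - 1)) * δ z := by
      intro i _
      rw [Derivation.leibniz, Derivation.leibniz_pow, (mem_Kc δ _).1 (hqc i)]
      simp only [smul_eq_mul, nsmul_eq_mul, mul_zero, add_zero]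
      ring
    rw [Finset.sum_congr rfl h2]
    rw [Finset.sum_range_succ' (fun i => q.coeff i * (i : ℂ) * z ^ (i - 1) * δ z)]
    simp only [Nat.cast_zero, mul_zero, zero_mul, add_zero, Nat.add_sub_cancel]
    rw [Finset.sum_range_succ]
    rw [Polynomial.coeff_derivative, Polynomial.coeff_eq_zero_of_natDegree_lt (Nat.lt_succ_self _)]
    simp only [zero_mul, add_zero]
    refine Finset.sum_congr rfl (fun i _ => ?_)
    rw [Polynomial.coeff_derivative]
    push_cast
    ring
  rcases mul_eq_zero.1 hd with h | h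
  · exfalso
    by_cases hdeg : q.natDegree = 0
    · rw [Polynomial.eq_C_of_natDegree_eq_zero hdeg] at hqz hq0
      simp only [Polynomial.eval_C] at hqz
      rw [hqz] at hq0
      simp at hq0
    · have hq' : q.derivative ≠ 0 := by
        intro h0
        exact hdeg (Polynomial.derivative_eq_zero.1 h0)
      refine hmin q.derivative.natDegree ?_ ⟨q.derivative, hq', ?_, h, rfl⟩
      · rw [← hqn]
        exact Polynomial.natDegree_derivative_lt hdeg
      · intro n
        rw [Polynomial.coeff_derivative]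
        have h1 : ((n : ℂ) + 1) ∈ Kc δ := by exact_mod_cast natCast_mem (Kc δ) (n + 1)
        exact (Kc δ).mul_mem (hqc _) h1
  · exact h

/-- the final argument: a relation `P(h, f_1, ..., f_N) = 0`, the `f_j` algebraically independent,
first kind points with `δ f_j = 0`, `δ h = k0 h`, second kind points with `δ h = k1 h` -/
theorem fin_abs {E : Type} [TopologicalSpace E] {N : ℕ} (f : Fin N → E → ℂ) (h : E → ℂ) (D : Set E)
    (hD : IsOpen D) (hDn : D.Nonempty) (hf : ∀ j, ContinuousOn (f j) D) (hh : ContinuousOn h D)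
    (hrel : ∃ P : MvPolynomial (Fin (N + 1)) ℂ, P ≠ 0 ∧
      ∀ x ∈ D, eval (Fin.cons (h x) (fun j => f j x)) P = 0)
    (hind : ∀ Q : MvPolynomial (Fin N) ℂ, Q ≠ 0 → D ⊆ closure {x | x ∈ D ∧ eval (fun j => f j x) Q ≠ 0})
    (hne : D ⊆ closure {x | x ∈ D ∧ h x ≠ 0})
    (δ : Derivation ℚ ℂ ℂ) (E0 E1 : Set E) (k0 k1 : ℂ)
    (hE0 : D ⊆ closure (E0 ∩ D)) (hE1 : D ⊆ closure (E1 ∩ D))
    (h0 : ∀ x ∈ E0 ∩ D, (∀ j, δ (f j x) = 0) ∧ δ (h x) = k0 * h x)
    (h1 : ∀ x ∈ E1 ∩ D, (∀ j, δ (f j x) = 0) ∧ δ (h x) = k1 * h x) : k0 = k1 := by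
  classical
  -- a continuous function on `D` vanishing on a dense set
  have hzero : ∀ (S : Set E) (u : E → ℂ), S ⊆ D → D ⊆ closure S → ContinuousOn u D → (∀ x ∈ S, u x = 0) →
      ∀ x ∈ D, u x = 0 := by
    intro S u hSD hS hu h0 x hx
    have hc : ContinuousWithinAt u S x := (hu x hx).mono hSD
    have hcl := hS hx
    have : Set.MapsTo u S {0} := fun y hy => h0 y hy
    have h2 := hc.mem_closure hcl this
    simpa using h2
  -- open dense sets
  have hopen : ∀ u : E → ℂ, ContinuousOn u D → IsOpen {x | x ∈ D ∧ u x ≠ 0} := by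
    intro u hu
    have := hu.isOpen_inter_preimage hD (isOpen_compl_singleton (x := (0 : ℂ)))
    have he : {x | x ∈ D ∧ u x ≠ 0} = D ∩ u ⁻¹' {0}ᶜ := by
      ext x; simp
    rw [he]; exact this
  -- meets of an open set with a dense set
  have hmeet : ∀ (S T : Set E), IsOpen S → S ⊆ D → S.Nonempty → D ⊆ closure T → (S ∩ T).Nonempty := by
    intro S T hS hSD hSn hT
    obtain ⟨x, hx⟩ := hSn
    exact mem_closure_iff.1 (hT (hSD hx)) S hS hx
  obtain ⟨x0, ⟨hx0D, hx0n⟩, hx0E⟩ := hmeet {x | x ∈ D ∧ h x ≠ 0} (E0 ∩ D) (hopen h hh) (fun x hx => hx.1)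
    (by
      obtain ⟨x, hx⟩ := hDn
      obtain ⟨y, _, hy⟩ := mem_closure_iff.1 (hne hx) D hD hx
      exact ⟨y, hy⟩) hE0
  set m := h x0 with hm
  have hm0 : m ≠ 0 := hx0n
  have hδm : δ m = k0 * m := (h0 x0 hx0E).2
  obtain ⟨P, hP, hPr⟩ := hrel
  -- rescaled polynomial
  let sub : ℂ → MvPolynomial (Fin (N + 1)) ℂ →ₐ[ℂ] MvPolynomial (Fin (N + 1)) ℂ := fun c =>
    bind₁ (Fin.cons (C c * X 0) (fun j : Fin N => X j.succ))
  have hsub : ∀ (c : ℂ) (y : ℂ) (z : Fin N → ℂ) (R : MvPolynomial (Fin (N + 1)) ℂ),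
      eval (Fin.cons y z) (sub c R) = eval (Fin.cons (c * y) z) R := by
    intro c y z R
    simp only [sub]
    rw [← MvPolynomial.coe_aeval_eq_eval, ← MvPolynomial.coe_aeval_eq_eval, RingHom.coe_coe, RingHom.coe_coe,
      aeval_bind₁]
    congr 2
    ext i
    refine Fin.cases ?_ (fun j => ?_) i <;> simp
  have hPm : sub m P ≠ 0 := by
    intro h00
    apply hP
    have h1 : sub m⁻¹ (sub m P) = P := by
      have : (sub m⁻¹).comp (sub m) = AlgHom.id ℂ _ := by
        apply MvPolynomial.algHom_ext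
        intro i
        simp only [sub, AlgHom.comp_apply, AlgHom.id_apply, bind₁_X_right]
        refine Fin.cases ?_ (fun j => ?_) i
        · simp only [Fin.cons_zero, map_mul, bind₁_X_right, bind₁_C_right]
          rw [← mul_assoc, ← C_mul, mul_inv_cancel₀ hm0]; simp
        · simp
      exact congrArg (fun φ => φ P) this
    rw [← h1, h00, map_zero]
  let F : E → Fin (N + 1) → ℂ := fun x => Fin.cons (h x / m) (fun j => f j x)
  obtain ⟨P', hP'0, hP'c, hP'r⟩ := descent (X := {x // x ∈ E0 ∩ D}) (Kc δ) (fun x => F x.1) (by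
    rintro ⟨x, hx⟩ i
    obtain ⟨h2, h3⟩ := h0 x hx
    refine Fin.cases ?_ (fun j => ?_) i
    · simp only [F, Fin.cons_zero]
      rw [mem_Kc, div_eq_mul_inv, Derivation.leibniz, Derivation.leibniz_inv, h3, hδm]
      simp only [smul_eq_mul]
      field_simp
      ring
    · simp only [F, Fin.cons_succ]
      exact h2 j) (sub m P) hPm (by
    rintro ⟨x, hx⟩
    simp only [F]
    rw [hsub, mul_div_cancel₀ _ hm0]
    exact hPr x hx.2)
  have hFc : ContinuousOn F D := by
    refine continuousOn_pi.2 (fun i => ?_)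
    refine Fin.cases ?_ (fun j => ?_) i
    · simp only [F, Fin.cons_zero]
      exact hh.div_const m
    · simp only [F, Fin.cons_succ]
      exact hf j
  have hP'D : ∀ x ∈ D, eval (F x) P' = 0 := by
    refine hzero (E0 ∩ D) (fun x => eval (F x) P') (fun x hx => hx.2) hE0 ?_ (fun x hx => hP'r ⟨x, hx⟩)
    exact (MvPolynomial.continuous_eval P').comp_continuousOn hFc
  set R := finSuccEquiv ℂ N P' with hR
  have hR0 : R ≠ 0 := by
    rw [hR]
    intro h00
    exact hP'0 ((finSuccEquiv ℂ N).injective (by rw [h00, map_zero]))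
  set Q := R.leadingCoeff with hQ
  have hQ0 : Q ≠ 0 := Polynomial.leadingCoeff_ne_zero.2 hR0
  have hfc : ContinuousOn (fun x => (fun j => f j x)) D := continuousOn_pi.2 hf
  have hQc : ContinuousOn (fun x => eval (fun j => f j x) Q) D :=
    (MvPolynomial.continuous_eval Q).comp_continuousOn hfc
  obtain ⟨x1, hx1, hx1E⟩ := hmeet {x | x ∈ D ∧ eval (fun j => f j x) Q * h x ≠ 0} (E1 ∩ D)
    (hopen _ (hQc.mul hh)) (fun x hx => hx.1)
    (by
      obtain ⟨y, hy1, hy2⟩ := hmeet {x | x ∈ D ∧ eval (fun j => f j x) Q ≠ 0} {x | x ∈ D ∧ h x ≠ 0}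
        (hopen _ hQc) (fun x hx => hx.1) (by
          obtain ⟨x, hx⟩ := hDn
          obtain ⟨y, _, hy⟩ := mem_closure_iff.1 (hind Q hQ0 hx) D hD hx
          exact ⟨y, hy⟩) hne
      exact ⟨y, hy1.1, mul_ne_zero hy1.2 hy2.2⟩) hE1
  obtain ⟨hx1D, hx1n⟩ := hx1
  have hQx : eval (fun j => f j x1) Q ≠ 0 := left_ne_zero_of_mul hx1n
  have hhx : h x1 ≠ 0 := right_ne_zero_of_mul hx1n
  obtain ⟨h2, h3⟩ := h1 x1 hx1E
  have hev : ∀ T : MvPolynomial (Fin N) ℂ, (∀ n, T.coeff n ∈ Kc δ) → eval (fun j => f j x1) T ∈ Kc δ := by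
    intro T hT
    rw [MvPolynomial.eval_eq']
    exact (Kc δ).sum_mem (fun n _ => (Kc δ).mul_mem (hT n)
      ((Kc δ).prod_mem (fun i _ => (Kc δ).pow_mem (h2 i) _)))
  have h4 : δ (h x1 / m) = 0 := by
    refine alg_Kc δ _ (Polynomial.map (eval (fun j => f j x1)) R) ?_ ?_ ?_
    · intro h00
      have := congrArg (fun p => Polynomial.coeff p R.natDegree) h00
      simp only [Polynomial.coeff_map, Polynomial.coeff_zero] at this
      exact hQx this
    · intro n
      rw [Polynomial.coeff_map]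
      refine hev _ (fun k => ?_)
      rw [hR, finSuccEquiv_coeff_coeff]
      exact hP'c _
    · have h5 := hP'D x1 hx1D
      simp only [F] at h5
      rw [MvPolynomial.eval_eq_eval_mv_eval'] at h5
      exact h5
  rw [div_eq_mul_inv, Derivation.leibniz, Derivation.leibniz_inv, h3, hδm] at h4
  simp only [smul_eq_mul] at h4
  have h5 : h x1 * m⁻¹ * (k1 - k0) = 0 := by
    rw [← h4]
    field_simp
    ring
  have h6 : k1 - k0 = 0 := by
    rcases mul_eq_zero.1 h5 with h | h
    · exact absurd h (mul_ne_zero hhx (inv_ne_zero hm0))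
    · exact h
  exact (sub_eq_zero.1 h6).symm

end

end Pool.Agent.RQ4
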