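import Pool.Agent.RQ4.SOsg
import Pool.Agent.ALD.CInd

/-!
# RQ4, block I (independence): general lemmas

`dense_ne`: identity theorem on a convex open set; `indep_diff`: jacobian criterion for differentiable functions;
`sel`: selection of points with nonzero determinant.
-/

set_option autoImplicit false

namespace Pool.Agent.RQ4.ST

open Filter Metric
open scoped Topology

variable {ι : Type} [Fintype ι] [DecidableEq ι]

omit [DecidableEq ι] in
/-- identity theorem -/
theorem dense_ne {F : (ι → ℂ) → ℂ} {U : Set (ι → ℂ)} (hU : IsOpen U) (hc : Convex ℝ U)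
    (hF : DifferentiableOn ℂ F U) {w0 : ι → ℂ} (hw0 : w0 ∈ U) (h0 : F w0 ≠ 0) :
    U ⊆ closure {w | w ∈ U ∧ F w ≠ 0} := by
  intro x hx
  rw [mem_closure_iff_nhds]
  intro V hV
  by_contra hne
  have hz : ∀ w ∈ V ∩ U, F w = 0 := by
    intro w hw
    by_contra hFw
    exact hne ⟨w, hw.1, hw.2, hFw⟩
  have hVU : V ∩ U ∈ 𝓝 x := inter_mem hV (hU.mem_nhds hx)
  have hcont : Continuous (fun t : ℂ => x + t • (w0 - x)) := by fun_prop
  set W : Set ℂ := (fun t : ℂ => x + t • (w0 - x)) ⁻¹' U with hW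
  have hWo : IsOpen W := hU.preimage hcont
  have hWc : Convex ℝ W := by
    intro a ha b hb s t hs ht hst
    have h1 := hc ha hb hs ht hst
    change x + (s • a + t • b) • (w0 - x) ∈ U
    have h2 : x + (s • a + t • b) • (w0 - x) = s • (x + a • (w0 - x)) + t • (x + b • (w0 - x)) := by
      have h3 : (s : ℂ) + (t : ℂ) = 1 := by exact_mod_cast hst
      ext i
      simp only [Pi.add_apply, Pi.smul_apply, Pi.sub_apply, smul_eq_mul, Complex.real_smul]
      linear_combination (-(x i)) * h3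
    rw [h2]
    exact h1
  set f : ℂ → ℂ := fun t => F (x + t • (w0 - x)) with hf
  have hfd : DifferentiableOn ℂ f W := by
    intro t ht
    have h1 : DifferentiableAt ℂ F (x + t • (w0 - x)) := hF.differentiableAt (hU.mem_nhds ht)
    have h2 : DifferentiableAt ℂ (fun t : ℂ => x + t • (w0 - x)) t := by fun_prop
    exact (h1.comp t h2).differentiableWithinAt
  have hfa : AnalyticOnNhd ℂ f W := hfd.analyticOnNhd hWo
  have h0W : (0 : ℂ) ∈ W := by
    change x + (0 : ℂ) • (w0 - x) ∈ U
    simpa using hx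
  have h1W : (1 : ℂ) ∈ W := by
    change x + (1 : ℂ) • (w0 - x) ∈ U
    simpa using hw0
  have hev : f =ᶠ[𝓝 0] 0 := by
    have h1 : ∀ᶠ t : ℂ in 𝓝 0, x + t • (w0 - x) ∈ V ∩ U := by
      apply hcont.continuousAt.preimage_mem_nhds
      simpa using hVU
    filter_upwards [h1] with t ht
    exact hz _ ht
  have hall := hfa.eqOn_zero_of_preconnected_of_eventuallyEq_zero hWc.isPreconnected h0W hev
  have h1 := hall h1W
  simp [hf] at h1
  exact h0 h1

/-- jacobian criterion -/
theorem indep_diff {F : ι → (ι → ℂ) → ℂ} {U : Set (ι → ℂ)} (hU : IsOpen U) {w₀ : ι → ℂ} (hw : w₀ ∈ U)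
    (hF : ∀ i, DifferentiableOn ℂ (F i) U)
    (hdet : (Matrix.of fun i t : ι => fderiv ℂ (F i) w₀ (Pi.single t 1)).det ≠ 0)
    {P : MvPolynomial ι ℂ} (h : ∀ᶠ w in 𝓝 w₀, MvPolynomial.eval (fun i => F i w) P = 0) : P = 0 := by
  let L : (ι → ℂ) →L[ℂ] (ι → ℂ) := ContinuousLinearMap.pi fun i => fderiv ℂ (F i) w₀
  have hL : HasStrictFDerivAt (fun w i => F i w) L w₀ := by
    rw [hasStrictFDerivAt_pi']
    intro i
    have h1 : ContDiffAt ℂ (1 : ℕ) (F i) w₀ := (osg_contDiffOn hU (hF i) 1).contDiffAt (hU.mem_nhds hw)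
    exact h1.hasStrictFDerivAt (by simp)
  have hmap : Filter.map (fun w i => F i w) (𝓝 w₀) = 𝓝 (fun i => F i w₀) := by
    refine hL.map_nhds_eq_of_surj ?_
    rw [LinearMap.range_eq_top]
    intro y
    let M : Matrix ι ι ℂ := Matrix.of fun i t : ι => fderiv ℂ (F i) w₀ (Pi.single t 1)
    have hM : Function.Surjective M.mulVec := by
      rw [Matrix.mulVec_surjective_iff_isUnit, Matrix.isUnit_iff_isUnit_det]
      exact isUnit_iff_ne_zero.mpr hdet
    obtain ⟨v, hv⟩ := hM y
    refine ⟨v, ?_⟩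
    rw [← hv]
    ext i
    have hvs : v = ∑ t, v t • (Pi.single t (1 : ℂ) : ι → ℂ) := by
      conv_lhs => rw [pi_eq_sum_univ' v]
    change fderiv ℂ (F i) w₀ v = ∑ t, M i t * v t
    conv_lhs => rw [hvs]
    rw [map_sum]
    refine Finset.sum_congr rfl fun t _ => ?_
    rw [map_smul, smul_eq_mul, mul_comm]
    rfl
  have h1 : ∀ᶠ x in Filter.map (fun w i => F i w) (𝓝 w₀), MvPolynomial.eval x P = 0 := h
  rw [hmap] at h1
  exact Pool.Agent.ALD.eq_zero_of_eventually h1

/-- selection of points with nonzero determinant -/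
theorem sel {X : Type} (G : X → ι → ℂ) (h : ∀ x : ι → ℂ, (∀ c, ∑ i, x i * G c i = 0) → x = 0) :
    ∃ c : ι → X, (Matrix.of fun i t => G (c i) t).det ≠ 0 := by
  classical
  have hspan : Submodule.span ℂ (Set.range G) = ⊤ := by
    by_contra hne
    obtain ⟨f, hf0, hf⟩ := Submodule.exists_le_ker_of_lt_top _ (lt_top_iff_ne_top.2 hne)
    apply hf0
    have h1 : (fun i => f (Pi.single i 1)) = (0 : ι → ℂ) := by
      apply h
      intro c
      have h2 : f (G c) = 0 := hf (Submodule.subset_span ⟨c, rfl⟩)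
      have h3 : G c = ∑ i, G c i • (Pi.single i (1 : ℂ) : ι → ℂ) := by
        conv_lhs => rw [pi_eq_sum_univ' (G c)]
      rw [h3, map_sum] at h2
      rw [← h2]
      refine Finset.sum_congr rfl fun i _ => ?_
      rw [map_smul, smul_eq_mul, mul_comm]
    refine LinearMap.pi_ext' fun i => ?_
    refine LinearMap.ext_ring ?_
    simpa using congrFun h1 i
  obtain ⟨κ, a, _, ha2, ha3⟩ := exists_linearIndependent' ℂ G
  rw [hspan] at ha2
  let b : Module.Basis κ ℂ (ι → ℂ) := Module.Basis.mk ha3 ha2.ge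
  have : Fintype κ := FiniteDimensional.fintypeBasisIndex b
  have hcard : Fintype.card κ = Fintype.card ι := by
    rw [← Module.finrank_eq_card_basis b, Module.finrank_fintype_fun_eq_card]
  let e : ι ≃ κ := Fintype.equivOfCardEq hcard.symm
  refine ⟨fun i => a (e i), ?_⟩
  have h4 : LinearIndependent ℂ (fun i => (Matrix.of fun i t => G (a (e i)) t).row i) := by
    exact ha3.comp e e.injective
  have h5 := Matrix.linearIndependent_rows_iff_isUnit.1 h4
  rw [Matrix.isUnit_iff_isUnit_det] at h5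
  exact h5.ne_zero

end Pool.Agent.RQ4.ST
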