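import Pool.Agent.RQ4.ISer
import Pool.Agent.RQ4.IGen

/-!
# RQ4, block I, final form: algebraic independence of the quotients of the sections, nonvanishing of `Wr`
-/

set_option autoImplicit false

namespace Pool.Agent.RQ4

open Complex ComplexConjugate Finset Filter
open scoped Topology

noncomputable section

variable {K : Type} [Field K] [NumberField K] {g : ℕ}

namespace Dat

variable (d : Dat K g)

theorem kv_zero : d.kv (0 : Fin 2 → K) = 0 := by
  funext p
  simp [kv]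

theorem tK_zero_ne : d.tK 0 0 ≠ 0 := by
  unfold tK
  rw [d.kv_zero]
  exact d.tw_zero_ne

theorem Qd_cont (x : d.R → ℂ) : Continuous (d.Qd x) := by
  unfold Qd
  fun_prop

theorem dir_zero (x : d.R → ℂ) (κ : ℂ)
    (h : ∀ c : Fin 2 → K, deriv (fun τ : ℂ => d.tw (τ • x) (d.kv c)) 0 = κ * d.tw 0 (d.kv c)) : x = 0 := by
  have key : ∀ (t : Ix g → ℚ) (m : Ix g → ℤ),
      Real.pi * I * d.Qd x (fun p => (m p : ℝ) + (t p : ℝ)) - κ = 0 := by
    intro t
    have hs : ∀ s : Ix g → ℚ, HasSum (fun m : Ix g → ℤ =>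
        (Real.pi * I * d.Qd x (fun p => (m p : ℝ) + (t p : ℝ)) - κ) *
          d.tm 0 (d.vst (fun p => (s p : ℝ)) (fun p => (t p : ℝ))) m) 0 := by
      intro s
      have h1 := d.hasSum_dir x (d.vst (fun p => (s p : ℝ)) (fun p => (t p : ℝ)))
      have h2 : HasSum (fun m => κ * d.tm 0 (d.vst (fun p => (s p : ℝ)) (fun p => (t p : ℝ))) m)
          (κ * d.tw 0 (d.vst (fun p => (s p : ℝ)) (fun p => (t p : ℝ)))) := by
        refine HasSum.mul_left κ ?_
        rw [d.tw_tm]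
        exact (d.tm_summable d.zero_mem _).of_norm.hasSum
      have h3 := h1.sub h2
      have h4 := h (d.latK s t)
      rw [d.kv_latK] at h4
      rw [h4, sub_self] at h3
      simp only [d.tc_vst] at h3
      have h5 : (fun m : Ix g → ℤ => (Real.pi * I * d.Qd x (fun p => (m p : ℝ) + (t p : ℝ)) - κ) *
          d.tm 0 (d.vst (fun p => (s p : ℝ)) (fun p => (t p : ℝ))) m) = fun m =>
          Real.pi * I * d.Qd x (fun p => (m p : ℝ) + (t p : ℝ)) *
            d.tm 0 (d.vst (fun p => (s p : ℝ)) (fun p => (t p : ℝ))) m -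
          κ * d.tm 0 (d.vst (fun p => (s p : ℝ)) (fun p => (t p : ℝ))) m := by
        funext m
        ring
      rw [h5]
      exact h3
    refine d.coef (fun p => (t p : ℝ)) _ ?_ fun s => (hs s).tsum_eq
    have h5 := (hs 0).summable.norm
    have h6 : (fun p : Ix g => (((0 : Ix g → ℚ) p : ℚ) : ℝ)) = 0 := by
      funext p
      simp
    rw [h6] at h5
    exact h5
  have hκ : κ = 0 := by
    have h1 := key 0 0
    have h2 : d.Qd x (fun p => (((0 : Ix g → ℤ) p : ℤ) : ℝ) + (((0 : Ix g → ℚ) p : ℚ) : ℝ)) = 0 := by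
      simp [Qd]
    rw [h2] at h1
    simpa using h1
  have hq : ∀ t : Ix g → ℚ, d.Qd x (fun p => (t p : ℝ)) = 0 := by
    intro t
    have h1 := key t 0
    rw [hκ, sub_zero] at h1
    have h2 : (fun p => (((0 : Ix g → ℤ) p : ℤ) : ℝ) + ((t p : ℚ) : ℝ)) = fun p => ((t p : ℚ) : ℝ) := by
      funext p
      simp
    rw [h2] at h1
    rcases mul_eq_zero.1 h1 with h3 | h3
    · rcases mul_eq_zero.1 h3 with h4 | h4
      · exact absurd (by exact_mod_cast h4) Real.pi_ne_zero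
      · exact absurd h4 Complex.I_ne_zero
    · exact h3
  have hall : ∀ y : Ix g → ℝ, d.Qd x y = 0 := by
    have h1 : d.Qd x = fun _ => 0 := by
      refine dense_rat.equalizer (d.Qd_cont x) continuous_const ?_
      funext t
      exact hq t
    exact fun y => congrFun h1 y
  funext i0
  have h1 := hall (fun p => d.fdr p.1 i0)
  unfold Qd at h1
  have h2 : ∀ i, (∑ k, (d.fr k i : ℂ) * ((d.fdr k i0 : ℝ) : ℂ)) = if (i0 : Fin g) = i then 1 else 0 := by
    intro i
    have h3 := d.dual2 i0 i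
    have h4 : (∑ k, (d.fr k i : ℂ) * ((d.fdr k i0 : ℝ) : ℂ)) = ((∑ k, d.fdr k i0 * d.fr k i : ℝ) : ℂ) := by
      push_cast
      exact Finset.sum_congr rfl fun k _ => by ring
    rw [h4, h3]
    split_ifs <;> simp
  simp only [h2] at h1
  rw [Finset.sum_eq_single (i0 : Fin g)] at h1
  · have h3 : d.wx x (i0 : Fin g) = x i0 := by
      unfold wx
      rw [dif_pos i0.2]
    rw [if_pos rfl, mul_one, mul_one, h3] at h1
    have hr : (d.r i0 : ℂ) ≠ 0 := by exact_mod_cast (d.r_pos' i0).ne'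
    have hc : (d.c i0 : ℂ) ≠ 0 := by exact_mod_cast (d.c_pos i0).ne'
    rw [div_eq_zero_iff] at h1
    rcases h1 with h4 | h4
    · rcases mul_eq_zero.1 h4 with h5 | h5
      · exact absurd h5 (mul_ne_zero (mul_ne_zero (by norm_num) Complex.I_ne_zero) hr)
      · exact h5
    · exact absurd h4 hc
  · intro i _ hi
    rw [if_neg (Ne.symm hi)]
    simp
  · intro hi
    exact absurd (Finset.mem_univ _) hi

theorem gd_lin (w : d.R → ℂ) (P : Vs g) (x : Fin 2 → ℂ) :
    d.gd w P x = x 0 * d.gd w P (ee 0) + x 1 * d.gd w P (ee 1) := by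
  unfold gd D1
  have h1 : x = x 0 • ee 0 + x 1 • ee 1 := by
    funext al
    fin_cases al <;> simp [ee]
  conv_lhs => rw [h1]
  rw [map_add, map_smul, map_smul, smul_eq_mul, smul_eq_mul]

theorem gd_zero (x : Fin 2 → ℂ)
    (h : ∀ c : Fin 2 → K, ∑ al, x al * d.gd 0 (d.kv c) (ee al) = 0) : x = 0 := by
  have key : ∀ m : Ix g → ℤ, 2 * Real.pi * I * d.Lf x (fun p => (m p : ℝ) + (0 : ℝ)) = 0 := by
    have hs : ∀ s : Ix g → ℚ, HasSum (fun m : Ix g → ℤ =>
        (2 * Real.pi * I * d.Lf x (fun p => (m p : ℝ) + (0 : ℝ))) *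
          d.tm 0 (d.vst (fun p => (s p : ℝ)) 0) m) 0 := by
      intro s
      have h1 := d.hasSum_gd d.zero_mem (d.vst (fun p => (s p : ℝ)) 0) x
      have h4 := h (d.latK s 0)
      rw [d.kv_latK, Fin.sum_univ_two, ← d.gd_lin] at h4
      have h6 : (fun p : Ix g => (((0 : Ix g → ℚ) p : ℚ) : ℝ)) = 0 := by
        funext p
        simp
      rw [h6] at h4
      rw [h4] at h1
      simp only [d.tc_vst, Pi.zero_apply] at h1
      exact h1
    refine d.coef 0 _ ?_ fun s => (hs s).tsum_eq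
    have h5 := (hs 0).summable.norm
    have h6 : (fun p : Ix g => (((0 : Ix g → ℚ) p : ℚ) : ℝ)) = 0 := by
      funext p
      simp
    rw [h6] at h5
    exact h5
  have hpi : (2 * Real.pi * I : ℂ) ≠ 0 := Complex.two_pi_I_ne_zero
  have hL : ∀ p : Ix g, x p.2 * d.fr p.1 d.s * d.sg p.2 d.s = 0 := by
    intro p
    have h1 := key (Pi.single p 1)
    rcases mul_eq_zero.1 h1 with h2 | h2
    · exact absurd h2 hpi
    · unfold Lf at h2
      rw [Finset.sum_eq_single p] at h2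
      · simpa using h2
      · intro q _ hq
        simp [Pi.single_eq_of_ne hq]
      · intro hp
        exact absurd (Finset.mem_univ _) hp
  funext al
  obtain ⟨k, hk⟩ : ∃ k, d.fr k d.s ≠ 0 := by
    by_contra hcon
    push Not at hcon
    have h1 := d.dual2 d.s d.s
    rw [if_pos rfl] at h1
    rw [Finset.sum_eq_zero (fun k _ => by rw [hcon k, mul_zero])] at h1
    exact zero_ne_one h1
  have h1 := hL (k, al)
  have h2 : (d.fr k d.s : ℂ) ≠ 0 := by exact_mod_cast hk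
  have h3 : (d.sg al d.s : ℂ) ≠ 0 := by exact_mod_cast d.sg_ne al d.s
  rcases mul_eq_zero.1 h1 with h4 | h4
  · rcases mul_eq_zero.1 h4 with h5 | h5
    · exact h5
    · exact absurd h5 h2
  · exact absurd h4 h3

/-- the domain of the quotients -/
def Dd : Set (d.R → ℂ) := {w | w ∈ d.Di ∧ d.tK 0 w ≠ 0}

theorem Dd_open : IsOpen d.Dd := by
  have h1 := (d.tK_hol 0).continuousOn.isOpen_inter_preimage d.Di_open (isOpen_compl_singleton (x := (0 : ℂ)))
  exact h1

theorem zero_Dd : (0 : d.R → ℂ) ∈ d.Dd := ⟨d.zero_mem, d.tK_zero_ne⟩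

theorem quot_hol (c : Fin 2 → K) : DifferentiableOn ℂ (fun w => d.tK c w / d.tK 0 w) d.Dd := by
  have hsub : d.Dd ⊆ d.Di := fun w hw => hw.1
  have h1 : DifferentiableOn ℂ (fun w => (d.tK 0 w)⁻¹) d.Dd :=
    ((d.tK_hol 0).mono hsub).fun_inv fun w hw => hw.2
  simp only [div_eq_mul_inv]
  exact ((d.tK_hol c).mono hsub).fun_mul h1

theorem exists_jac : ∃ c : d.R → (Fin 2 → K),
    (Matrix.of fun i t : d.R => fderiv ℂ (fun w => d.tK (c i) w / d.tK 0 w) 0 (Pi.single t 1)).det ≠ 0 := by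
  refine ST.sel (fun (c : Fin 2 → K) (t : d.R) => fderiv ℂ (fun w => d.tK c w / d.tK 0 w) 0 (Pi.single t 1)) ?_
  intro x hx
  have hD : ∀ c : Fin 2 → K, HasDerivAt (fun τ : ℂ => d.tw (τ • x) (d.kv c))
      (fderiv ℂ (d.tK c) 0 x) 0 := by
    intro c
    have h1 : HasDerivAt (fun τ : ℂ => τ • x) x 0 := by
      simpa using (hasDerivAt_id (0 : ℂ)).smul_const x
    have h2 : HasFDerivAt (d.tK c) (fderiv ℂ (d.tK c) ((0 : ℂ) • x)) ((0 : ℂ) • x) := by
      refine ((d.tK_hol c).differentiableAt (d.Di_open.mem_nhds ?_)).hasFDerivAt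
      rw [zero_smul]
      exact d.zero_mem
    have h3 := h2.comp_hasDerivAt (0 : ℂ) h1
    rw [zero_smul] at h3
    exact h3
  refine d.dir_zero x (fderiv ℂ (d.tK 0) 0 x / d.tK 0 0) fun c => ?_
  rw [(hD c).deriv]
  have hc : DifferentiableAt ℂ (d.tK c) 0 := (d.tK_hol c).differentiableAt (d.Di_open.mem_nhds d.zero_mem)
  have h0 : DifferentiableAt ℂ (d.tK 0) 0 := (d.tK_hol 0).differentiableAt (d.Di_open.mem_nhds d.zero_mem)
  have h4 : fderiv ℂ (fun w => d.tK c w / d.tK 0 w) 0 x = 0 := by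
    rw [← hx c]
    have hxs : x = ∑ t, x t • (Pi.single t (1 : ℂ) : d.R → ℂ) := by
      conv_lhs => rw [pi_eq_sum_univ' x]
    conv_lhs => rw [hxs]
    rw [map_sum]
    exact Finset.sum_congr rfl fun t _ => by rw [map_smul, smul_eq_mul]
  have h5 : HasDerivAt (fun τ : ℂ => d.tw (τ • x) (d.kv c) / d.tw (τ • x) (d.kv 0))
      ((fderiv ℂ (d.tK c) 0 x * d.tw ((0 : ℂ) • x) (d.kv 0) -
        d.tw ((0 : ℂ) • x) (d.kv c) * fderiv ℂ (d.tK 0) 0 x) / d.tw ((0 : ℂ) • x) (d.kv 0) ^ 2) 0 :=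
    (hD c).fun_div (hD 0) (by rw [zero_smul]; exact d.tK_zero_ne)
  have h6 : HasDerivAt (fun τ : ℂ => d.tw (τ • x) (d.kv c) / d.tw (τ • x) (d.kv 0))
      (fderiv ℂ (fun w => d.tK c w / d.tK 0 w) 0 x) 0 := by
    have h1 : HasDerivAt (fun τ : ℂ => τ • x) x 0 := by
      simpa using (hasDerivAt_id (0 : ℂ)).smul_const x
    have h2 : HasFDerivAt (fun w => d.tK c w / d.tK 0 w)
        (fderiv ℂ (fun w => d.tK c w / d.tK 0 w) ((0 : ℂ) • x)) ((0 : ℂ) • x) := by
      rw [zero_smul]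
      exact ((d.quot_hol c).differentiableAt (d.Dd_open.mem_nhds d.zero_Dd)).hasFDerivAt
    have h3 := h2.comp_hasDerivAt (0 : ℂ) h1
    rw [zero_smul] at h3
    exact h3
  have h7 := h5.unique h6
  rw [h4, zero_smul, div_eq_zero_iff] at h7
  have hn : d.tw 0 (d.kv 0) ≠ 0 := d.tK_zero_ne
  rcases h7 with h8 | h8
  · have h9 : d.tK 0 0 = d.tw 0 (d.kv 0) := rfl
    rw [h9]
    field_simp
    linear_combination h8
  · exact absurd h8 (pow_ne_zero 2 hn)

theorem exists_wr : ∃ c' c'' : Fin 2 → K, d.Wr c' c'' 0 ≠ 0 := by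
  obtain ⟨c, hc⟩ := ST.sel (fun (c : Fin 2 → K) (al : Fin 2) => d.gd 0 (d.kv c) (ee al)) d.gd_zero
  refine ⟨c 0, c 1, ?_⟩
  rw [Matrix.det_fin_two] at hc
  exact hc

/-- **final form of block I** -/
theorem indep : ∃ (c : Fin d.R.card → (Fin 2 → K)) (c' c'' : Fin 2 → K),
    (∀ Q : MvPolynomial (Fin d.R.card) ℂ, Q ≠ 0 →
      d.Dd ⊆ closure {w | w ∈ d.Dd ∧ MvPolynomial.eval (fun j => d.tK (c j) w / d.tK 0 w) Q ≠ 0}) ∧
    d.Dd ⊆ closure {w | w ∈ d.Dd ∧ d.Wr c' c'' w / d.tK 0 w ^ 2 ≠ 0} := by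
  classical
  obtain ⟨c0, hc0⟩ := d.exists_jac
  obtain ⟨c', c'', hW⟩ := d.exists_wr
  let e : Fin d.R.card ≃ d.R := d.R.equivFin.symm
  refine ⟨fun j => c0 (e j), c', c'', ?_, ?_⟩
  · intro Q hQ
    obtain ⟨w1, hw1, hne⟩ : ∃ w1 ∈ d.Dd,
        MvPolynomial.eval (fun j => d.tK (c0 (e j)) w1 / d.tK 0 w1) Q ≠ 0 := by
      by_contra hcon
      push Not at hcon
      apply hQ
      have h1 : MvPolynomial.rename e Q = 0 := by
        refine ST.indep_diff (F := fun i w => d.tK (c0 i) w / d.tK 0 w) d.Dd_open d.zero_Dd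
          (fun i => d.quot_hol (c0 i)) hc0 ?_
        filter_upwards [d.Dd_open.mem_nhds d.zero_Dd] with w hw
        rw [MvPolynomial.eval_rename]
        exact hcon w hw
      exact MvPolynomial.rename_injective e e.injective (by rw [h1, map_zero])
    set D := Q.totalDegree with hDdef
    set H : (d.R → ℂ) → ℂ := fun w => ∑ m ∈ Q.support, Q.coeff m *
      ((∏ j, d.tK (c0 (e j)) w ^ m j) * d.tK 0 w ^ (D - ∑ j, m j)) with hH
    have hHd : DifferentiableOn ℂ H d.Di := by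
      rw [hH]
      refine DifferentiableOn.fun_sum fun m _ => ?_
      refine DifferentiableOn.const_mul (DifferentiableOn.mul ?_ ((d.tK_hol 0).pow _)) _
      have hp : ∀ S : Finset (Fin d.R.card),
          DifferentiableOn ℂ (fun w => ∏ j ∈ S, d.tK (c0 (e j)) w ^ m j) d.Di := by
        intro S
        induction S using Finset.induction_on with
        | empty => simp
        | insert a S ha ih =>
          simp only [Finset.prod_insert ha]
          exact ((d.tK_hol _).pow _).mul ih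
      exact hp Finset.univ
    have hHe : ∀ w ∈ d.Dd, H w = d.tK 0 w ^ D *
        MvPolynomial.eval (fun j => d.tK (c0 (e j)) w / d.tK 0 w) Q := by
      intro w hw
      rw [hH, MvPolynomial.eval_eq', Finset.mul_sum]
      refine Finset.sum_congr rfl fun m hm => ?_
      have h1 : ∑ j, m j ≤ D := by
        have h2 := MvPolynomial.le_totalDegree hm
        rwa [Finsupp.sum_fintype _ _ (fun _ => rfl)] at h2
      have h3 : d.tK 0 w ^ D = d.tK 0 w ^ (∑ j, m j) * d.tK 0 w ^ (D - ∑ j, m j) := by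
        rw [← pow_add, Nat.add_sub_cancel' h1]
      have h4 : ∏ j, (d.tK (c0 (e j)) w / d.tK 0 w) ^ m j =
          (∏ j, d.tK (c0 (e j)) w ^ m j) / d.tK 0 w ^ (∑ j, m j) := by
        simp only [div_pow]
        rw [Finset.prod_div_distrib, Finset.prod_pow_eq_pow_sum]
      rw [h3, h4]
      have h5 : d.tK 0 w ^ (∑ j, m j) ≠ 0 := pow_ne_zero _ hw.2
      field_simp
    have h6 := ST.dense_ne d.Di_open d.Di_convex (hHd.mul (d.tK_hol 0)) hw1.1 (by
      change H w1 * d.tK 0 w1 ≠ 0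
      rw [hHe w1 hw1]
      exact mul_ne_zero (mul_ne_zero (pow_ne_zero _ hw1.2) hne) hw1.2)
    refine fun w hw => closure_mono ?_ (h6 hw.1)
    rintro w' ⟨hw', hn⟩
    change H w' * d.tK 0 w' ≠ 0 at hn
    have hD' : w' ∈ d.Dd := ⟨hw', right_ne_zero_of_mul hn⟩
    refine ⟨hD', ?_⟩
    have h7 := left_ne_zero_of_mul hn
    rw [hHe w' hD'] at h7
    exact right_ne_zero_of_mul h7
  · have h6 := ST.dense_ne d.Di_open d.Di_convex ((d.Wr_hol c' c'').mul (d.tK_hol 0)) d.zero_mem (by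
      change d.Wr c' c'' 0 * d.tK 0 0 ≠ 0
      exact mul_ne_zero hW d.tK_zero_ne)
    refine fun w hw => closure_mono ?_ (h6 hw.1)
    rintro w' ⟨hw', hn⟩
    change d.Wr c' c'' w' * d.tK 0 w' ≠ 0 at hn
    have h0 := right_ne_zero_of_mul hn
    exact ⟨⟨hw', h0⟩, div_ne_zero (left_ne_zero_of_mul hn) (pow_ne_zero 2 h0)⟩

end Dat

end

end Pool.Agent.RQ4
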