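import Mathlib

/-!
# RQ4, block C: a uniform short vector (Minkowski)

For a full lattice in a finite dimensional real space there is one constant `C` such that for
every real linear map `A` of determinant `±1` some nonzero lattice vector `u` has `‖A u‖ ≤ C`.
-/

open MeasureTheory MeasureTheory.Measure Set

namespace Pool.Agent.RQ4

theorem mink {E : Type*} [NormedAddCommGroup E] [NormedSpace ℝ E] [FiniteDimensional ℝ E]
    [Nontrivial E] {J : Type*} [Finite J] (b : Module.Basis J ℝ E) :
    ∃ C : ℝ, 0 < C ∧ ∀ A : E →ₗ[ℝ] E, |LinearMap.det A| = 1 →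
      ∃ u ∈ Submodule.span ℤ (Set.range b), u ≠ 0 ∧ ‖A u‖ ≤ C := by
  classical
  borelize E
  cases nonempty_fintype J
  let μ : Measure E := addHaar
  have hF : μ (ZSpan.fundamentalDomain b) < ⊤ :=
    (ZSpan.fundamentalDomain_isBounded b).measure_lt_top
  have hB : 0 < μ (Metric.ball (0 : E) 1) := Metric.measure_ball_pos μ 0 one_pos
  have hB' : μ (Metric.ball (0 : E) 1) < ⊤ := measure_ball_lt_top
  set n := Module.finrank ℝ E with hn
  have hn0 : n ≠ 0 := (Module.finrank_pos (R := ℝ) (M := E)).ne'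
  set q : ℝ := (μ (ZSpan.fundamentalDomain b)).toReal * 2 ^ n / (μ (Metric.ball (0 : E) 1)).toReal
    with hq
  have hq0 : 0 ≤ q := by positivity
  have hBr : 0 < (μ (Metric.ball (0 : E) 1)).toReal := ENNReal.toReal_pos hB.ne' hB'.ne
  refine ⟨q + 1, by linarith, fun A hA => ?_⟩
  have hC1 : q < (q + 1) ^ n := by
    calc q < q + 1 := by linarith
      _ ≤ (q + 1) ^ n := le_self_pow₀ (by linarith) hn0
  have hdet : LinearMap.det A ≠ 0 := by
    intro h
    rw [h] at hA
    simp at hA
  have hμs : μ (A ⁻¹' Metric.closedBall (0 : E) (q + 1)) =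
      ENNReal.ofReal ((q + 1) ^ n) * μ (Metric.ball (0 : E) 1) := by
    rw [addHaar_preimage_linearMap μ hdet, abs_inv, hA, inv_one, ENNReal.ofReal_one, one_mul,
      addHaar_closedBall μ 0 (by linarith)]
  have hlt : μ (ZSpan.fundamentalDomain b) * 2 ^ n <
      μ (A ⁻¹' Metric.closedBall (0 : E) (q + 1)) := by
    rw [hμs]
    have e1 : μ (ZSpan.fundamentalDomain b) * 2 ^ n =
        ENNReal.ofReal ((μ (ZSpan.fundamentalDomain b)).toReal * 2 ^ n) := by
      rw [ENNReal.ofReal_mul ENNReal.toReal_nonneg, ENNReal.ofReal_toReal hF.ne]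
      congr 1
      rw [ENNReal.ofReal_pow (by norm_num)]
      norm_num
    have e2 : ENNReal.ofReal ((q + 1) ^ n) * μ (Metric.ball (0 : E) 1) =
        ENNReal.ofReal ((q + 1) ^ n * (μ (Metric.ball (0 : E) 1)).toReal) := by
      rw [ENNReal.ofReal_mul (by positivity), ENNReal.ofReal_toReal hB'.ne]
    rw [e1, e2]
    refine (ENNReal.ofReal_lt_ofReal_iff (by positivity)).2 ?_
    have := (div_lt_iff₀ hBr).1 (hq ▸ hC1)
    exact this
  have fund := ZSpan.isAddFundamentalDomain' b μ
  have hcount : Countable (Submodule.span ℤ (Set.range b)).toAddSubgroup :=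
    (inferInstance : Countable (Submodule.span ℤ (Set.range b)))
  obtain ⟨x, hx0, hx⟩ := exists_ne_zero_mem_lattice_of_measure_mul_two_pow_lt_measure
    (μ := μ) (L := (Submodule.span ℤ (Set.range b)).toAddSubgroup)
    (s := A ⁻¹' Metric.closedBall (0 : E) (q + 1)) fund
    (fun x hx => by
      simp only [mem_preimage, Metric.mem_closedBall, dist_zero_right, map_neg, norm_neg] at hx ⊢
      exact hx)
    ((convex_closedBall (0 : E) (q + 1)).linear_preimage A) hlt
  refine ⟨x, x.2, fun h => hx0 (Subtype.ext h), ?_⟩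
  simpa using hx

end Pool.Agent.RQ4
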