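import Mathlib

/-!
# Project RQ4 (MP_c2409d_nt, all levels): the 4-term relation of CM periods. Definitions

Paper: /team-store/alld_r4_h9.md.
`K` a CM field with CM type `σ_i`, `i < g`; `R` the moving places (`ν_i < 0`), `s` a definite place.
`V = (Fin g × Fin 2 → ℂ)`. The scaled second coordinate is `η = r_i u_(i,1)`, `r_i = √|ν_i|`.
At the places outside `R` the parameter `w_i` is `0`.
-/

set_option autoImplicit false

namespace Pool.Agent.RQ4

open Complex ComplexConjugate Finset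

noncomputable section

/-- a CM field with a CM type -/
structure CM (K : Type) [Field K] [NumberField K] (g : ℕ) where
  bar : K →+* K
  σ : Fin g → (K →+* ℂ)
  hbar : ∀ i x, σ i (bar x) = conj (σ i x)
  all : ∀ τ : K →+* ℂ, ∃ i, τ = σ i ∨ ∀ x, τ x = conj (σ i x)
  inj : Function.Injective σ
  ne : ∀ i j, ∃ x, σ i x ≠ conj (σ j x)

/-- the index set of coordinates -/
abbrev Ix (g : ℕ) : Type := Fin g × Fin 2

/-- the space `V` -/
abbrev Vs (g : ℕ) : Type := Ix g → ℂ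

/-- the data of the family: moving places `R`, a definite place `s`, `ξ` imaginary, `ν` real,
`f` a basis of the real subfield, `fd` the trace dual basis -/
structure Dat (K : Type) [Field K] [NumberField K] (g : ℕ) extends CM K g where
  R : Finset (Fin g)
  s : Fin g
  hs : s ∉ R
  ξ : K
  bξ : bar ξ = -ξ
  pξ : ∀ i, 0 < (σ i ξ).im
  ν : K
  bν : bar ν = ν
  nR : ∀ i ∈ R, (σ i ν).re < 0
  nN : ∀ i, i ∉ R → 0 < (σ i ν).re
  f : Fin g → K
  fd : Fin g → K
  bf : ∀ k, bar (f k) = f k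
  bfd : ∀ k, bar (fd k) = fd k
  dual : ∀ j k, ∑ i, σ i (fd j * f k) = if j = k then 1 else 0

/-- the Riemann theta series -/
def th {ι : Type} [Fintype ι] (Om : ι → ι → ℂ) (z : ι → ℂ) : ℂ :=
  ∑' m : ι → ℤ, cexp (Real.pi * I * (∑ p, ∑ q, (m p : ℂ) * Om p q * (m q : ℂ)) +
    2 * Real.pi * I * ∑ p, (m p : ℂ) * z p)

namespace Dat

variable {K : Type} [Field K] [NumberField K] {g : ℕ} (d : Dat K g)

/-- `c_i = 2 Im σ_i ξ` -/
def c (i : Fin g) : ℝ := 2 * (d.σ i d.ξ).im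

/-- `ν_i` -/
def nu (i : Fin g) : ℝ := (d.σ i d.ν).re

/-- `r_i = √|ν_i|` -/
def r (i : Fin g) : ℝ := √|d.nu i|

/-- `σ_i f_k` (real) -/
def fr (k i : Fin g) : ℝ := (d.σ i (d.f k)).re

/-- `σ_i fd_k` (real) -/
def fdr (k i : Fin g) : ℝ := (d.σ i (d.fd k)).re

/-- the weight of the component: `1` or `ν_i` -/
def sg (al : Fin 2) (i : Fin g) : ℝ := if al = 0 then 1 else d.nu i

/-- the imaginary generator `-1/(2ξ)`; `σ_i om = I / c_i` -/
def om : K := -1 / (2 * d.ξ)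

/-- the polydisc -/
def Di : Set (d.R → ℂ) := {w | ∀ i, ‖w i‖ < 1}

/-- the parameter at the place `i`, `0` outside `R` -/
def wx (w : d.R → ℂ) (i : Fin g) : ℂ := if h : i ∈ d.R then w ⟨i, h⟩ else 0

/-- the local `2 × 2` period matrix -/
def om2 (w : ℂ) (i : Fin g) (al be : Fin 2) : ℂ :=
  I / d.c i / (1 - w ^ 2) *
    (if al = be then (1 + w ^ 2) * (if al = 0 then 1 else (d.r i : ℂ) ^ 2) else 2 * w * d.r i)

/-- the period matrix -/
def Om (w : d.R → ℂ) (p q : Ix g) : ℂ :=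
  ∑ i, (d.fr p.1 i : ℂ) * d.fr q.1 i * d.om2 (d.wx w i) i p.2 q.2

/-- the vector of `V` of an element of `K²` -/
def kv (x : Fin 2 → K) : Vs g := fun p => d.σ p.1 (x p.2)

/-- the coordinates `s` -/
def sc (u : Vs g) (p : Ix g) : ℝ := ∑ i, d.fr p.1 i * d.sg p.2 i * (u (i, p.2)).re

/-- the coordinates `t` -/
def tc (u : Vs g) (p : Ix g) : ℝ := ∑ i, d.fdr p.1 i * d.c i * (u (i, p.2)).im

/-- the point of `V` with coordinates `s`, `t` -/
def vst (s t : Ix g → ℝ) : Vs g := fun p =>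
  ((∑ k, s (k, p.2) * d.fdr k p.1 / d.sg p.2 p.1 : ℝ) : ℂ) +
    I / d.c p.1 * ((∑ k, t (k, p.2) * d.fr k p.1 : ℝ) : ℂ)

/-- the lattice vector with coordinates `a`, `b` -/
def lat (a b : Ix g → ℤ) : Vs g := d.vst (fun p => a p) (fun p => b p)

/-- `z_w(u) = s + Om(w) t` -/
def zc (w : d.R → ℂ) (u : Vs g) (p : Ix g) : ℂ := d.sc u p + ∑ q, d.Om w p q * d.tc u q

/-- `q_w(u) = πi (t Om t + s.t)` -/
def qw (w : d.R → ℂ) (u : Vs g) : ℂ :=
  Real.pi * I * ((∑ p, ∑ q, (d.tc u p : ℂ) * d.Om w p q * d.tc u q) + ∑ p, (d.sc u p : ℂ) * d.tc u p)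

/-- the theta function on `V` -/
def tw (w : d.R → ℂ) (u : Vs g) : ℂ := th (d.Om w) (d.zc w u) * cexp (d.qw w u)

/-- its supremum -/
def Nm (w : d.R → ℂ) : ℝ := ⨆ u : Vs g, ‖d.tw w u‖

/-- the alternating form `E = Im H` -/
def E (u v : Vs g) : ℝ :=
  ∑ i, d.c i * ((u (i, 0) * conj (v (i, 0))).im + d.nu i * (u (i, 1) * conj (v (i, 1))).im)

/-- the holomorphic coordinates of the complex structure `w` -/
def L (w : d.R → ℂ) (u : Vs g) : Vs g := fun p =>
  if p.2 = 0 then u (p.1, 0) + d.wx w p.1 * (d.r p.1 * u (p.1, 1))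
  else if p.1 ∈ d.R then conj (d.r p.1 * u (p.1, 1)) + d.wx w p.1 * conj (u (p.1, 0))
  else d.r p.1 * u (p.1, 1)

/-- the norm at the place `i` -/
def Hi (w : d.R → ℂ) (i : Fin g) (u : Vs g) : ℝ :=
  (‖u (i, 0) + d.wx w i * (d.r i * u (i, 1))‖ ^ 2 +
    ‖d.r i * u (i, 1) + conj (d.wx w i) * u (i, 0)‖ ^ 2) / (1 - ‖d.wx w i‖ ^ 2)

/-- the canonical hermitian norm -/
def Hw (w : d.R → ℂ) (u : Vs g) : ℝ := ∑ i, d.c i * d.Hi w i u

/-- the hermitian form on `K²` -/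
def h (x y : Fin 2 → K) : K := x 0 * d.bar (y 0) + d.ν * (x 1 * d.bar (y 1))

/-- the element `γ(x, y)` of the unitary group acting on `K²` -/
def gk (x y : K) (u : Fin 2 → K) : Fin 2 → K :=
  ![x * u 0 - d.ν * d.bar y * u 1, y * u 0 + d.bar x * u 1]

/-- `γ(x, y)` acting on `V` -/
def gv (x y : K) (u : Vs g) : Vs g := fun p =>
  if p.2 = 0 then d.σ p.1 x * u (p.1, 0) - d.nu p.1 * conj (d.σ p.1 y) * u (p.1, 1)
  else d.σ p.1 y * u (p.1, 0) + conj (d.σ p.1 x) * u (p.1, 1)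

/-- `γ(x, y)` belongs to the group -/
def G1 (x y : K) : Prop := x * d.bar x + d.ν * (y * d.bar y) = 1

/-- the automorphy factor at the place `i` -/
def jf (x y : K) (w : d.R → ℂ) (i : Fin g) : ℂ := d.σ i x + d.r i * d.σ i y * d.wx w i

/-- the right action on the polydisc -/
def wg (w : d.R → ℂ) (x y : K) : d.R → ℂ := fun i =>
  (d.r i * conj (d.σ i y) + conj (d.σ i x) * w i) / (d.σ i x + d.r i * d.σ i y * w i)

/-- the vector with value `τ` at the place `s` and `0` elsewhere -/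
def ut (τ : Fin 2 → ℂ) : Vs g := fun p => if p.1 = d.s then τ p.2 else 0

/-- the hermitian form at the place `s` -/
def Hs (τ τ' : Fin 2 → ℂ) : ℂ :=
  d.c d.s * (τ 0 * conj (τ' 0) + d.nu d.s * (τ 1 * conj (τ' 1)))

/-- the component at the place `s` -/
def ps (P : Vs g) : Fin 2 → ℂ := fun al => P (d.s, al)

/-- the function of two variables at the place `s` -/
def gp (w : d.R → ℂ) (P : Vs g) (τ : Fin 2 → ℂ) : ℂ :=
  d.tw w (P + d.ut τ) * cexp (Real.pi / 2 * d.Hs τ τ - Real.pi * I * ((d.Hs τ (d.ps P)).im : ℝ))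

end Dat

/-! ## the functions on the polydisc -/

/-- derivative at `0` in the direction `v` -/
def D1 (φ : (Fin 2 → ℂ) → ℂ) (v : Fin 2 → ℂ) : ℂ := fderiv ℂ φ 0 v

/-- basis vectors of `ℂ²` -/
def ee (al : Fin 2) : Fin 2 → ℂ := fun be => if be = al then 1 else 0

namespace Dat

variable {K : Type} [Field K] [NumberField K] {g : ℕ} (d : Dat K g)

/-- the section `θ_c(w)` at the torsion point `c ∈ K²` -/
def tK (c : Fin 2 → K) (w : d.R → ℂ) : ℂ := d.tw w (d.kv c)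

/-- the covariant derivative at the place `s` in the direction `τ` at `P ∈ V` -/
def gd (w : d.R → ℂ) (P : Vs g) (τ : Fin 2 → ℂ) : ℂ := D1 (d.gp w P) τ

/-- the determinant of the gradients at the place `s` at the torsion points `c, c'` -/
def Wr (c c' : Fin 2 → K) (w : d.R → ℂ) : ℂ :=
  d.gd w (d.kv c) (ee 0) * d.gd w (d.kv c') (ee 1) -
    d.gd w (d.kv c) (ee 1) * d.gd w (d.kv c') (ee 0)

/-- the orthogonal companion `e' = (-ν bar e₁, bar e₀)` of `e ∈ K²` -/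
def ep (e : Fin 2 → K) : Fin 2 → K := ![-d.ν * d.bar (e 1), d.bar (e 0)]

/-- `e` has pattern `S`: among the moving places, `h(e,e)` is negative exactly at those in `S` -/
def Ok (S : Finset (Fin g)) (e : Fin 2 → K) : Prop :=
  e ≠ 0 ∧ ∀ i ∈ d.R, if i ∈ S then (d.σ i (d.h e e)).re < 0 else 0 < (d.σ i (d.h e e)).re

/-- the CM point `x(e)` of a vector `e` of pattern `S` -/
def ze (S : Finset (Fin g)) (e : Fin 2 → K) : d.R → ℂ := fun i =>
  if (i : Fin g) ∈ S then -(d.σ i (e 0) / (d.r i * d.σ i (e 1)))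
  else -conj (d.r i * d.σ i (e 1) / d.σ i (e 0))

/-- the group `Γ(N)`: elements `γ(x, y)` with `x, y` integral, `x ≡ 1`, `y ≡ 0` mod `N` -/
def GN (N : ℕ) (x y : K) : Prop :=
  d.G1 x y ∧ (∃ a : K, IsIntegral ℤ a ∧ x = 1 + N * a) ∧ (∃ b : K, IsIntegral ℤ b ∧ y = N * b)

end Dat

end

end Pool.Agent.RQ4
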