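import Mathlib
import Pool.Agent.RQ4.Defs
import Pool.Agent.RQ4.CMink

/-!
# RQ4, block C: a uniformly short integral vector for every point of the polydisc
-/

set_option autoImplicit false

namespace Pool.Agent.RQ4

open Complex ComplexConjugate Finset Module NumberField

/-- Minkowski with a prescribed determinant -/
theorem mink_det {E : Type*} [NormedAddCommGroup E] [NormedSpace ℝ E] [FiniteDimensional ℝ E]
    [Nontrivial E] {J : Type*} [Finite J] (b : Module.Basis J ℝ E) {δ : ℝ} (hδ : 0 < δ) :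
    ∃ C : ℝ, 0 < C ∧ ∀ A : E →ₗ[ℝ] E, |LinearMap.det A| = δ →
      ∃ u ∈ Submodule.span ℤ (Set.range b), u ≠ 0 ∧ ‖A u‖ ≤ C := by
  obtain ⟨C, hC, h⟩ := mink b
  have hn0 : Module.finrank ℝ E ≠ 0 := (Module.finrank_pos (R := ℝ) (M := E)).ne'
  set n := Module.finrank ℝ E with hn
  set c : ℝ := (δ ^ ((n : ℝ)⁻¹))⁻¹ with hcdef
  have hc : 0 < c := inv_pos.2 (Real.rpow_pos_of_pos hδ _)
  have hcn : c ^ n * δ = 1 := by
    rw [hcdef, inv_pow, Real.rpow_inv_natCast_pow hδ.le hn0]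
    exact inv_mul_cancel₀ hδ.ne'
  refine ⟨C / c, div_pos hC hc, fun A hA => ?_⟩
  obtain ⟨u, hu, hu0, hle⟩ := h (c • A) (by
    rw [LinearMap.det_smul, abs_mul, abs_pow, abs_of_pos hc, hA]
    exact hcn)
  refine ⟨u, hu, hu0, ?_⟩
  rw [LinearMap.smul_apply, norm_smul, Real.norm_of_nonneg hc.le] at hle
  rw [le_div_iff₀ hc, mul_comm]
  exact hle

section basis

variable {K : Type} [Field K] [NumberField K] {g : ℕ}

/-- all complex embeddings, indexed by `Fin g × Bool` -/
noncomputable def CM.emb (d : CM K g) (p : Fin g × Bool) : K →+* ℂ :=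
  if p.2 then (starRingEnd ℂ).comp (d.σ p.1) else d.σ p.1

theorem CM.emb_bij (d : CM K g) : Function.Bijective d.emb := by
  constructor
  · rintro ⟨i, a⟩ ⟨j, b⟩ h
    have hne : ∀ i j, d.σ i ≠ (starRingEnd ℂ).comp (d.σ j) := by
      intro i j hij
      obtain ⟨x, hx⟩ := d.ne i j
      exact hx (by rw [hij]; rfl)
    cases a <;> cases b
    · simp only [CM.emb, Bool.false_eq_true, if_false] at h
      rw [d.inj h]
    · simp only [CM.emb, Bool.false_eq_true, if_false, if_true] at h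
      exact absurd h (hne i j)
    · simp only [CM.emb, Bool.false_eq_true, if_false, if_true] at h
      exact absurd h.symm (hne j i)
    · simp only [CM.emb, if_true] at h
      have : d.σ i = d.σ j := by
        ext x
        have := congrArg (fun f : K →+* ℂ => (starRingEnd ℂ) (f x)) h
        simpa using this
      rw [d.inj this]
  · intro τ
    obtain ⟨i, h | h⟩ := d.all τ
    · exact ⟨(i, false), by simp [CM.emb, h]⟩
    · refine ⟨(i, true), ?_⟩
      ext x
      simp [CM.emb, h x]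

theorem CM.finrank_eqC (d : CM K g) : Module.finrank ℚ K = g * 2 := by
  rw [← NumberField.Embeddings.card K ℂ, ← Fintype.card_congr (Equiv.ofBijective _ d.emb_bij)]
  simp

theorem CM.g_pos (d : CM K g) : 0 < g := by
  have h := d.finrank_eqC
  have h2 : 0 < Module.finrank ℚ K := Module.finrank_pos
  omega

/-- real linear independence of the vectors `(σ_i β_j)_i` -/
theorem CM.indep (d : CM K g) (c : Free.ChooseBasisIndex ℤ (𝓞 K) → ℝ)
    (h : ∀ i, ∑ j, (c j : ℂ) * d.σ i (integralBasis K j) = 0) : c = 0 := by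
  have h2 : ∀ τ : K →+* ℂ, ∑ j, (c j : ℂ) * τ (integralBasis K j) = 0 := by
    intro τ
    obtain ⟨i, hi | hi⟩ := d.all τ
    · rw [hi]; exact h i
    · have := congrArg (starRingEnd ℂ) (h i)
      simp only [map_sum, map_mul, Complex.conj_ofReal, map_zero] at this
      rw [← this]
      exact Finset.sum_congr rfl fun j _ => by rw [hi]
  have h3 : ∑ j, (c j : ℂ) • canonicalEmbedding.latticeBasis K j = 0 := by
    funext τ
    rw [Finset.sum_apply]
    simp only [Pi.smul_apply, canonicalEmbedding.latticeBasis_apply, smul_eq_mul, Pi.zero_apply]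
    exact h2 τ
  have h4 := (Fintype.linearIndependent_iff.1 (canonicalEmbedding.latticeBasis K).linearIndependent)
    (fun j => (c j : ℂ)) h3
  funext j
  exact_mod_cast h4 j

/-- the real basis of `V` given by `O_K²` -/
theorem CM.exists_basisC (d : CM K g) :
    ∃ b : Module.Basis (Free.ChooseBasisIndex ℤ (𝓞 K) × Fin 2) ℝ (Vs g),
      ∀ j p, b j p = if p.2 = j.2 then d.σ p.1 (integralBasis K j.1) else 0 := by
  classical
  let v : Free.ChooseBasisIndex ℤ (𝓞 K) × Fin 2 → Vs g := fun j p =>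
    if p.2 = j.2 then d.σ p.1 (integralBasis K j.1) else 0
  have hv : LinearIndependent ℝ v := by
    rw [Fintype.linearIndependent_iff]
    intro c hc
    have key : ∀ al : Fin 2, (fun j => c (j, al)) = 0 := by
      intro al
      refine d.indep _ fun i => ?_
      have := congrFun hc (i, al)
      rw [Finset.sum_apply, Fintype.sum_prod_type, Pi.zero_apply] at this
      rw [← this]
      refine Finset.sum_congr rfl fun j _ => ?_
      rw [Finset.sum_eq_single al]
      · simp [v]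
      · intro be _ hbe
        simp [v, hbe.symm]
      · simp
    rintro ⟨j, al⟩
    exact congrFun (key al) j
  have : Nonempty (Free.ChooseBasisIndex ℤ (𝓞 K) × Fin 2) := by
    have : Nontrivial (𝓞 K) := inferInstance
    exact ⟨((Free.chooseBasis ℤ (𝓞 K)).index_nonempty.some, 0)⟩
  have hcard : Fintype.card (Free.ChooseBasisIndex ℤ (𝓞 K) × Fin 2) =
      Module.finrank ℝ (Vs g) := by
    rw [Fintype.card_prod, ← Module.finrank_eq_card_chooseBasisIndex,
      RingOfIntegers.rank, d.finrank_eqC]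
    simp [Vs, Ix, Module.finrank_pi_fintype, Complex.finrank_real_complex]
  refine ⟨basisOfLinearIndependentOfCardEqFinrank hv hcard, fun j p => ?_⟩
  rw [coe_basisOfLinearIndependentOfCardEqFinrank]

end basis

namespace Dat

variable {K : Type} [Field K] [NumberField K] {g : ℕ} (d : Dat K g)

/-- the local matrix -/
noncomputable def cm2 (w : d.R → ℂ) (i : Fin g) : Matrix (Fin 2) (Fin 2) ℂ :=
  ((√(1 - ‖d.wx w i‖ ^ 2) : ℝ) : ℂ)⁻¹ • !![1, d.wx w i * d.r i; conj (d.wx w i), d.r i]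

theorem wx_ltC {w : d.R → ℂ} (hw : w ∈ d.Di) (i : Fin g) : ‖d.wx w i‖ < 1 := by
  unfold wx
  split_ifs with h
  · exact hw _
  · simp

theorem det_cm2 {w : d.R → ℂ} (hw : w ∈ d.Di) (i : Fin g) : (d.cm2 w i).det = d.r i := by
  have h1 : 0 < 1 - ‖d.wx w i‖ ^ 2 := by
    have := d.wx_ltC hw i
    nlinarith [norm_nonneg (d.wx w i)]
  have h2 : ((√(1 - ‖d.wx w i‖ ^ 2) : ℝ) : ℂ) ^ 2 = 1 - d.wx w i * conj (d.wx w i) := by
    rw [← Complex.ofReal_pow, Real.sq_sqrt h1.le, Complex.mul_conj, Complex.normSq_eq_norm_sq]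
    push_cast
    rfl
  have h3 : ((√(1 - ‖d.wx w i‖ ^ 2) : ℝ) : ℂ) ≠ 0 := by
    exact_mod_cast (Real.sqrt_pos.2 h1).ne'
  rw [cm2, Matrix.det_smul, Matrix.det_fin_two_of]
  simp only [Fintype.card_fin]
  have : (1 : ℂ) * (d.r i : ℂ) - d.wx w i * d.r i * conj (d.wx w i) =
      ((√(1 - ‖d.wx w i‖ ^ 2) : ℝ) : ℂ) ^ 2 * d.r i := by
    rw [h2]; ring
  rw [this, ← mul_assoc, ← mul_pow, inv_mul_cancel₀ h3, one_pow, one_mul]

/-- the global matrix -/
noncomputable def cmM (w : d.R → ℂ) : Matrix (Ix g) (Ix g) ℂ := fun p q =>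
  if p.1 = q.1 then d.cm2 w p.1 p.2 q.2 else 0

theorem det_cmM {w : d.R → ℂ} (hw : w ∈ d.Di) : (d.cmM w).det = ∏ i, (d.r i : ℂ) := by
  have h : d.cmM w = Matrix.reindex (Equiv.prodComm (Fin 2) (Fin g)) (Equiv.prodComm (Fin 2) (Fin g))
      (Matrix.blockDiagonal (d.cm2 w)) := by
    ext ⟨i, a⟩ ⟨j, b⟩
    simp [cmM, Matrix.blockDiagonal_apply, Matrix.reindex_apply]
  rw [h, Matrix.det_reindex_self, Matrix.det_blockDiagonal]
  exact Finset.prod_congr rfl fun i _ => d.det_cm2 hw i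

theorem cmM_apply (w : d.R → ℂ) (u : Vs g) (p : Ix g) :
    Matrix.toLin' (d.cmM w) u p = d.cm2 w p.1 p.2 0 * u (p.1, 0) + d.cm2 w p.1 p.2 1 * u (p.1, 1) := by
  rw [Matrix.toLin'_apply, Matrix.mulVec, dotProduct, Fintype.sum_prod_type,
    Finset.sum_eq_single p.1]
  · rw [Fin.sum_univ_two]
    simp [cmM]
  · intro j _ hj
    simp [cmM, hj.symm]
  · simp

theorem r_pos_all (i : Fin g) : 0 < d.r i := by
  unfold r
  apply Real.sqrt_pos.2
  apply abs_pos.2
  unfold nu
  by_cases h : i ∈ d.R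
  · exact (d.nR i h).ne
  · exact (d.nN i h).ne'

/-- every point of the polydisc has a uniformly short integral vector -/
theorem short : ∃ C : ℝ, 0 < C ∧ ∀ w ∈ d.Di, ∃ u : Fin 2 → K, u ≠ 0 ∧
    (∀ al, IsIntegral ℤ (u al)) ∧ ∀ i, d.Hi w i (d.kv u) ≤ C := by
  classical
  obtain ⟨b, hb⟩ := d.toCM.exists_basisC
  have : Nonempty (Fin g) := ⟨⟨0, d.toCM.g_pos⟩⟩
  have : Nontrivial (Vs g) := inferInstanceAs (Nontrivial (Ix g → ℂ))
  have hδ : 0 < ∏ i, (d.r i) ^ 2 := Finset.prod_pos fun i _ => pow_pos (d.r_pos_all i) 2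
  obtain ⟨C, hC, h⟩ := mink_det b hδ
  refine ⟨2 * C ^ 2, by positivity, fun w hw => ?_⟩
  have hdet : |LinearMap.det ((Matrix.toLin' (d.cmM w)).restrictScalars ℝ)| =
      ∏ i, (d.r i) ^ 2 := by
    rw [LinearMap.det_restrictScalars, LinearMap.det_toLin', d.det_cmM hw,
      Algebra.norm_complex_apply, Complex.normSq_eq_norm_sq, abs_of_nonneg (by positivity),
      norm_prod, ← Finset.prod_pow]
    refine Finset.prod_congr rfl fun i _ => ?_
    rw [Complex.norm_real, Real.norm_of_nonneg (d.r_pos_all i).le]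
  obtain ⟨v, hv, hv0, hle⟩ := h _ hdet
  have hex : ∃ u : Fin 2 → K, (∀ al, IsIntegral ℤ (u al)) ∧ d.kv u = v := by
    refine Submodule.span_induction (p := fun v _ => ∃ u : Fin 2 → K,
      (∀ al, IsIntegral ℤ (u al)) ∧ d.kv u = v) ?_ ?_ ?_ ?_ hv
    · rintro x ⟨j, rfl⟩
      refine ⟨fun al => if al = j.2 then integralBasis K j.1 else 0, fun al => ?_, ?_⟩
      · show IsIntegral ℤ (if al = j.2 then integralBasis K j.1 else 0)
        split_ifs
        · rw [integralBasis_apply]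
          exact RingOfIntegers.isIntegral_coe _
        · exact isIntegral_zero
      · funext p
        rw [hb j p]
        simp only [kv]
        split_ifs <;> simp
    · exact ⟨0, fun al => isIntegral_zero, by funext p; simp [kv]⟩
    · rintro x y _ _ ⟨u, hu, rfl⟩ ⟨u', hu', rfl⟩
      exact ⟨u + u', fun al => (hu al).add (hu' al), by funext p; simp [kv]⟩
    · rintro n x _ ⟨u, hu, rfl⟩
      exact ⟨n • u, fun al => (hu al).smul n, by funext p; simp [kv]⟩
  obtain ⟨u, hu, rfl⟩ := hex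
  refine ⟨u, fun h0 => hv0 (by rw [h0]; funext p; simp [kv]), hu, fun i => ?_⟩
  have h1 : 0 < 1 - ‖d.wx w i‖ ^ 2 := by
    have := d.wx_ltC hw i
    nlinarith [norm_nonneg (d.wx w i)]
  have hs : 0 < √(1 - ‖d.wx w i‖ ^ 2) := Real.sqrt_pos.2 h1
  have hcomp : ∀ p, ‖Matrix.toLin' (d.cmM w) (d.kv u) p‖ ≤ C := fun p =>
    (norm_le_pi_norm _ p).trans hle
  have e0 : ‖d.kv u (i, 0) + d.wx w i * (d.r i * d.kv u (i, 1))‖ ≤ C * √(1 - ‖d.wx w i‖ ^ 2) := by
    have := hcomp (i, 0)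
    rw [cmM_apply] at this
    have e : d.cm2 w i 0 0 * d.kv u (i, 0) + d.cm2 w i 0 1 * d.kv u (i, 1) =
        ((√(1 - ‖d.wx w i‖ ^ 2) : ℝ) : ℂ)⁻¹ *
          (d.kv u (i, 0) + d.wx w i * (d.r i * d.kv u (i, 1))) := by
      simp [cm2]; ring
    rw [e, norm_mul, norm_inv, Complex.norm_real, Real.norm_of_nonneg hs.le, inv_mul_le_iff₀ hs] at this
    linarith
  have e1 : ‖d.r i * d.kv u (i, 1) + conj (d.wx w i) * d.kv u (i, 0)‖ ≤
      C * √(1 - ‖d.wx w i‖ ^ 2) := by
    have := hcomp (i, 1)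
    rw [cmM_apply] at this
    have e : d.cm2 w i 1 0 * d.kv u (i, 0) + d.cm2 w i 1 1 * d.kv u (i, 1) =
        ((√(1 - ‖d.wx w i‖ ^ 2) : ℝ) : ℂ)⁻¹ *
          (d.r i * d.kv u (i, 1) + conj (d.wx w i) * d.kv u (i, 0)) := by
      simp [cm2]; ring
    rw [e, norm_mul, norm_inv, Complex.norm_real, Real.norm_of_nonneg hs.le, inv_mul_le_iff₀ hs] at this
    linarith
  rw [Hi, div_le_iff₀ h1]
  have s2 : √(1 - ‖d.wx w i‖ ^ 2) ^ 2 = 1 - ‖d.wx w i‖ ^ 2 := Real.sq_sqrt h1.le
  have f0 := pow_le_pow_left₀ (norm_nonneg _) e0 2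
  have f1 := pow_le_pow_left₀ (norm_nonneg _) e1 2
  rw [mul_pow, s2] at f0 f1
  linarith

end Dat

end Pool.Agent.RQ4
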