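import Mathlib

/-!
# RQ4 (MP_c2409d_nt): a CM field is dense in the product of its places (helper91)
-/

namespace Pool.Agent.RQ4

open Finset

/-- a real relation between the images of a `ℚ`-basis under all embeddings is trivial -/
lemma emb_rel_zero {K : Type} [Field K] [NumberField K] {n : Type} [Fintype n] [DecidableEq n]
    (b : Module.Basis n ℚ K) (r : n → ℂ)
    (h : ∀ φ : K →+* ℂ, ∑ j, r j * φ (b j) = 0) : r = 0 := by
  classical
  have hdet : (Algebra.traceMatrix ℚ b).det ≠ 0 := by
    have h1 := Algebra.discr_not_zero_of_basis ℚ b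
    rwa [Algebra.discr_def] at h1
  have hdet2 : ((Algebra.traceMatrix ℚ b).map (algebraMap ℚ ℂ)).det ≠ 0 := by
    have h2 : ((Algebra.traceMatrix ℚ b).map (algebraMap ℚ ℂ)).det =
        algebraMap ℚ ℂ ((Algebra.traceMatrix ℚ b).det) := by
      rw [RingHom.map_det]; rfl
    rw [h2]
    exact (map_ne_zero_iff _ (algebraMap ℚ ℂ).injective).2 hdet
  refine Matrix.eq_zero_of_mulVec_eq_zero hdet2 ?_
  funext k
  have h3 : ∀ j, algebraMap ℚ ℂ (Algebra.trace ℚ K (b k * b j)) =
      ∑ σ : K →ₐ[ℚ] ℂ, σ (b k) * σ (b j) := by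
    intro j
    rw [trace_eq_sum_embeddings (E := ℂ)]
    exact sum_congr rfl fun σ _ => map_mul σ _ _
  simp only [Matrix.mulVec, dotProduct, Matrix.map_apply, Algebra.traceMatrix_apply,
    Algebra.traceForm_apply, Pi.zero_apply]
  simp_rw [h3, Finset.sum_mul]
  rw [Finset.sum_comm]
  refine Finset.sum_eq_zero fun σ _ => ?_
  have h4 := h (σ : K →+* ℂ)
  have h5 : ∑ j, σ (b k) * σ (b j) * r j = σ (b k) * ∑ j, r j * (σ : K →+* ℂ) (b j) := by
    rw [Finset.mul_sum]
    refine sum_congr rfl fun j _ => ?_
    simp only [RingHom.coe_coe]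
    ring
  rw [h5, h4, mul_zero]

/-- a CM field is dense in the product of its places -/
theorem dense_places {K : Type} [Field K] [NumberField K] {g : ℕ} (sig : Fin g → K →+* ℂ)
    (hb : Function.Bijective (Sum.elim sig (fun i => (starRingEnd ℂ).comp (sig i)) :
      Fin g ⊕ Fin g → K →+* ℂ)) :
    DenseRange (fun (x : K) (i : Fin g) => sig i x) := by
  classical
  set b := Module.finBasis ℚ K with hbdef
  set n := Module.finrank ℚ K with hn
  have hcard : n = g + g := by
    have h1 : Fintype.card (K →+* ℂ) = n := NumberField.Embeddings.card K ℂ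
    have h2 : Fintype.card (Fin g ⊕ Fin g) = Fintype.card (K →+* ℂ) :=
      Fintype.card_of_bijective hb
    rw [Fintype.card_sum, Fintype.card_fin] at h2
    omega
  set v : Fin n → (Fin g → ℂ) := fun j i => sig i (b j) with hv
  have hli : LinearIndependent ℝ v := by
    rw [Fintype.linearIndependent_iff]
    intro r hr
    have h1 : ∀ i, ∑ j, (r j : ℂ) * sig i (b j) = 0 := by
      intro i
      have := congrFun hr i
      simpa [hv, Finset.sum_apply, Pi.smul_apply, Complex.real_smul] using this
    have h2 : ∀ φ : K →+* ℂ, ∑ j, (r j : ℂ) * φ (b j) = 0 := by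
      intro φ
      obtain ⟨s, rfl⟩ := hb.2 φ
      rcases s with i | i
      · exact h1 i
      · have h3 := congrArg (starRingEnd ℂ) (h1 i)
        rw [map_sum, map_zero] at h3
        rw [← h3]
        refine sum_congr rfl fun j _ => ?_
        simp [map_mul, Complex.conj_ofReal]
    have h4 := emb_rel_zero b (fun j => (r j : ℂ)) h2
    intro j
    have := congrFun h4 j
    simpa using this
  have hfr : Module.finrank ℝ (Fin g → ℂ) = n := by
    rw [Module.finrank_pi_fintype]
    simp [Complex.finrank_real_complex, hcard]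
    ring
  have hsurj : Function.Surjective (fun r : Fin n → ℝ => ∑ j, r j • v j) := by
    have hspan : Submodule.span ℝ (Set.range v) = ⊤ := by
      refine hli.span_eq_top_of_card_eq_finrank' ?_
      rw [Fintype.card_fin, hfr]
    intro z
    have hz : z ∈ Submodule.span ℝ (Set.range v) := by rw [hspan]; trivial
    obtain ⟨r, hr⟩ := (Submodule.mem_span_range_iff_exists_fun ℝ).1 hz
    exact ⟨r, hr⟩
  have hd1 : DenseRange (fun (q : Fin n → ℚ) (j : Fin n) => ((q j : ℚ) : ℝ)) :=
    DenseRange.piMap fun _ => Rat.denseRange_cast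
  have hcont : Continuous (fun r : Fin n → ℝ => ∑ j, r j • v j) := by fun_prop
  have hd2 := hsurj.denseRange.comp hd1 hcont
  refine hd2.mono ?_
  rintro _ ⟨q, rfl⟩
  refine ⟨∑ j, q j • b j, ?_⟩
  funext i
  simp only [Function.comp_apply, Finset.sum_apply, Pi.smul_apply, map_sum, hv]
  refine sum_congr rfl fun j _ => ?_
  rw [Complex.real_smul, Algebra.smul_def, map_mul]
  simp

end Pool.Agent.RQ4
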