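import Pool.Agent.RQ4.Defs
import Pool.Agent.RQ4.Dens

/-!
# RQ4 (MP_c2409d_nt): the CM points of a given pattern are dense in the polydisc (helper91)
-/

set_option autoImplicit false

namespace Pool.Agent.RQ4

open Complex ComplexConjugate Finset

variable {K : Type} [Field K] [NumberField K] {g : ℕ}

/-- the places of `K` are dense -/
theorem CM.dense (C : CM K g) : DenseRange (fun (x : K) (i : Fin g) => C.σ i x) := by
  classical
  refine dense_places C.σ ⟨?_, ?_⟩
  · intro a b hab
    rcases a with i | i <;> rcases b with j | j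
    · simp only [Sum.elim_inl] at hab
      rw [C.inj hab]
    · exfalso
      obtain ⟨x, hx⟩ := C.ne i j
      simp only [Sum.elim_inl, Sum.elim_inr] at hab
      exact hx (by rw [hab]; rfl)
    · exfalso
      obtain ⟨x, hx⟩ := C.ne j i
      simp only [Sum.elim_inl, Sum.elim_inr] at hab
      exact hx (by rw [← hab]; rfl)
    · simp only [Sum.elim_inr] at hab
      have : C.σ i = C.σ j := by
        ext x
        have h1 := congrArg (fun f : K →+* ℂ => conj (f x)) hab
        simpa using h1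
      rw [C.inj this]
  · intro τ
    obtain ⟨i, h | h⟩ := C.all τ
    · exact ⟨Sum.inl i, by simp [h]⟩
    · refine ⟨Sum.inr i, ?_⟩
      ext x
      simp [h x]

namespace Dat

variable (d : Dat K g)

lemma sig_nu (i : Fin g) : d.σ i d.ν = (d.nu i : ℂ) := by
  have h := d.hbar i d.ν
  rw [d.bν] at h
  exact (Complex.conj_eq_iff_re.1 h.symm).symm

/-- the value of `h(e, e)` at a place -/
lemma sig_h (i : Fin g) (e : Fin 2 → K) :
    d.σ i (d.h e e) = ((‖d.σ i (e 0)‖ ^ 2 + d.nu i * ‖d.σ i (e 1)‖ ^ 2 : ℝ) : ℂ) := by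
  have h1 : ∀ z : ℂ, z * conj z = ((‖z‖ ^ 2 : ℝ) : ℂ) := by
    intro z; rw [Complex.mul_conj, Complex.normSq_eq_norm_sq]
  simp only [Dat.h, map_add, map_mul, d.hbar, d.sig_nu, h1]
  push_cast
  ring

lemma sig_h_re (i : Fin g) (e : Fin 2 → K) :
    (d.σ i (d.h e e)).re = ‖d.σ i (e 0)‖ ^ 2 + d.nu i * ‖d.σ i (e 1)‖ ^ 2 := by
  rw [d.sig_h, Complex.ofReal_re]

lemma r_pos {i : Fin g} (hi : i ∈ d.R) : 0 < d.r i := by
  unfold Dat.r
  refine Real.sqrt_pos.2 (abs_pos.2 ?_)
  exact (d.nR i hi).ne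

lemma r_sq {i : Fin g} (hi : i ∈ d.R) : d.r i ^ 2 = -d.nu i := by
  unfold Dat.r
  rw [Real.sq_sqrt (abs_nonneg _), abs_of_neg]
  exact d.nR i hi

/-- the CM points of a given pattern are dense in the polydisc -/
theorem dense_ze (S : Finset (Fin g)) {U : Set (d.R → ℂ)} (hU : IsOpen U)
    (hne : (U ∩ d.Di).Nonempty) : ∃ e : Fin 2 → K, d.Ok S e ∧ d.ze S e ∈ U ∧ d.ze S e ∈ d.Di := by
  classical
  obtain ⟨w, hwU, hwD⟩ := hne
  -- the target
  let a0 : Fin g → ℂ := fun i => if h : i ∈ d.R then (if i ∈ S then -w ⟨i, h⟩ else 1) else 1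
  let a1 : Fin g → ℂ := fun i => if h : i ∈ d.R then
    (if i ∈ S then 1 / d.r i else -conj (w ⟨i, h⟩) / d.r i) else 0
  let F : (Fin g → ℂ) × (Fin g → ℂ) → (d.R → ℂ) := fun p i =>
    if (i : Fin g) ∈ S then -(p.1 i / (d.r i * p.2 i)) else -conj (d.r i * p.2 i / p.1 i)
  have hr : ∀ i : d.R, (d.r i : ℂ) ≠ 0 := fun i => by
    exact_mod_cast (d.r_pos i.2).ne'
  have hF0 : F (a0, a1) = w := by
    funext i
    have hi := i.2
    simp only [F, a0, a1, hi, dite_true]
    by_cases hS : (i : Fin g) ∈ S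
    · simp only [hS, if_true]
      have := hr i
      field_simp
    · simp only [hS, if_false]
      have := hr i
      rw [div_one, mul_div_cancel₀ _ this, map_neg, Complex.conj_conj, neg_neg]
  have hFc : ContinuousAt F (a0, a1) := by
    rw [continuousAt_pi]
    intro i
    have hi := i.2
    have hri := hr i
    have hc1 : ContinuousAt (fun p : (Fin g → ℂ) × (Fin g → ℂ) => p.1 (i : Fin g)) (a0, a1) := by
      fun_prop
    have hc2 : ContinuousAt (fun p : (Fin g → ℂ) × (Fin g → ℂ) => p.2 (i : Fin g)) (a0, a1) := by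
      fun_prop
    by_cases hS : (i : Fin g) ∈ S
    · simp only [F, hS, if_true]
      refine (hc1.div (hc2.const_smul (d.r i : ℂ) |>.congr ?_) ?_).neg
      · exact Filter.Eventually.of_forall fun p => by simp
      · simp only [a1, hi, hS, dite_true, if_true]
        rw [mul_one_div, div_self hri]
        exact one_ne_zero
    · simp only [F, hS, if_false]
      have hc3 : ContinuousAt (fun p : (Fin g → ℂ) × (Fin g → ℂ) =>
          (d.r i : ℂ) * p.2 (i : Fin g) / p.1 (i : Fin g)) (a0, a1) := by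
        refine (continuousAt_const.mul hc2).div hc1 ?_
        simp only [a0, hi, hS, dite_true, if_false]
        exact one_ne_zero
      exact (Complex.continuous_conj.continuousAt.comp hc3).neg
  -- the open conditions
  have hDo : IsOpen d.Di := by
    have : d.Di = Set.pi Set.univ (fun _ : d.R => Metric.ball (0 : ℂ) 1) := by
      ext v
      simp [Dat.Di]
    rw [this]
    exact isOpen_set_pi Set.finite_univ fun _ _ => Metric.isOpen_ball
  have hev1 : ∀ᶠ p in nhds (a0, a1), F p ∈ U ∩ d.Di := by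
    refine hFc.eventually ?_
    rw [hF0]
    exact (hU.inter hDo).mem_nhds ⟨hwU, hwD⟩
  let G : Fin g → (Fin g → ℂ) × (Fin g → ℂ) → ℝ := fun i p => ‖p.1 i‖ ^ 2 + d.nu i * ‖p.2 i‖ ^ 2
  have hGc : ∀ i, Continuous (G i) := by
    intro i
    simp only [G]
    fun_prop
  have hev2 : ∀ᶠ p in nhds (a0, a1), ∀ i : Fin g, i ∈ d.R → if i ∈ S then G i p < 0 else 0 < G i p := by
    rw [Filter.eventually_all]
    intro i
    by_cases hi : i ∈ d.R
    · have hw1 : ‖w ⟨i, hi⟩‖ < 1 := hwD ⟨i, hi⟩
      have hw2 : ‖w ⟨i, hi⟩‖ ^ 2 < 1 := by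
        have := norm_nonneg (w ⟨i, hi⟩)
        nlinarith
      have hrp := d.r_pos hi
      have hrs := d.r_sq hi
      by_cases hS : i ∈ S
      · simp only [hi, hS, if_true, forall_true_left]
        refine ((hGc i).continuousAt.eventually (gt_mem_nhds ?_))
        simp only [G, a0, a1, hi, hS, dite_true, if_true, norm_neg]
        rw [norm_div, norm_one, Complex.norm_real, Real.norm_of_nonneg hrp.le, div_pow, one_pow,
          hrs]
        have hn : d.nu i < 0 := d.nR i hi
        have hn' : d.nu i ≠ 0 := hn.ne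
        have : d.nu i * (1 / -d.nu i) = -1 := by
          rw [one_div, inv_neg, mul_neg, mul_inv_cancel₀ hn']
        linarith
      · simp only [hi, hS, if_false, forall_true_left]
        refine ((hGc i).continuousAt.eventually (lt_mem_nhds ?_))
        simp only [G, a0, a1, hi, hS, dite_true, if_false]
        rw [norm_div, norm_neg, RCLike.norm_conj, Complex.norm_real, Real.norm_of_nonneg hrp.le,
          div_pow, hrs, norm_one]
        have hn : d.nu i < 0 := d.nR i hi
        have hn' : d.nu i ≠ 0 := hn.ne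
        have : d.nu i * (‖w ⟨i, hi⟩‖ ^ 2 / -d.nu i) = -‖w ⟨i, hi⟩‖ ^ 2 := by
          rw [div_neg, mul_neg, mul_div_cancel₀ _ hn']
        linarith
    · simp [hi]
  -- nonvanishing
  have hev3 : ∀ᶠ p in nhds (a0, a1), ∀ i : Fin g, i ∉ d.R → p.1 i ≠ 0 := by
    rw [Filter.eventually_all]
    intro i
    by_cases hi : i ∈ d.R
    · simp [hi]
    · have hc1 : ContinuousAt (fun p : (Fin g → ℂ) × (Fin g → ℂ) => p.1 i) (a0, a1) := by
        fun_prop
      have : (a0 i : ℂ) ≠ 0 := by simp [a0, hi]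
      filter_upwards [hc1.eventually (isOpen_ne.mem_nhds this)] with p hp _
      exact hp
  have hdense : DenseRange (fun q : K × K => ((fun i : Fin g => d.σ i q.1), (fun i : Fin g =>
      d.σ i q.2))) := by
    have := (CM.dense d.toCM).prodMap (CM.dense d.toCM)
    exact this
  obtain ⟨V, hVs, hVo, hVm⟩ := eventually_nhds_iff.1 (hev1.and (hev2.and hev3))
  obtain ⟨q, hq⟩ := hdense.exists_mem_open hVo ⟨_, hVm⟩
  obtain ⟨hq1, hq2, hq3⟩ := hVs _ hq
  have hze : d.ze S ![q.1, q.2] = F ((fun i => d.σ i q.1), fun i => d.σ i q.2) := by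
    funext i
    simp [Dat.ze, F]
  refine ⟨![q.1, q.2], ⟨?_, ?_⟩, ?_, ?_⟩
  · -- nonzero
    intro h0
    have e1 : q.1 = 0 := congrFun h0 0
    have e2 : q.2 = 0 := congrFun h0 1
    have := hq3 d.s d.hs
    simp [e1] at this
  · intro i hi
    rw [d.sig_h_re]
    have := hq2 i hi
    simpa [G] using this
  · rw [hze]; exact hq1.1
  · rw [hze]; exact hq1.2

end Dat

end Pool.Agent.RQ4
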