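import Mathlib
import Pool.Agent.RQ4.Defs
import Pool.Agent.RQ4.DensZ
import Pool.Agent.RQ4.CShort

/-!
# RQ4, block C: finitely many integral vectors modulo the congruence group
-/

set_option autoImplicit false

namespace Pool.Agent.RQ4

open Complex ComplexConjugate Finset Module NumberField

variable {K : Type} [Field K] [NumberField K] {g : ℕ}

theorem CM.bar_barC (d : CM K g) (x : K) : d.bar (d.bar x) = x := by
  apply (d.σ ⟨0, d.g_pos⟩).injective
  rw [d.hbar, d.hbar, Complex.conj_conj]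

theorem CM.isIntegral_bar (d : CM K g) {x : K} (hx : IsIntegral ℤ x) : IsIntegral ℤ (d.bar x) :=
  hx.map d.bar.toIntAlgHom

/-- a bound at all the places of the CM type is a bound at all embeddings -/
theorem CM.norm_emb_le (d : CM K g) {x : K} {C : ℝ} (h : ∀ i, ‖d.σ i x‖ ≤ C) (φ : K →+* ℂ) :
    ‖φ x‖ ≤ C := by
  obtain ⟨i, hi | hi⟩ := d.all φ
  · rw [hi]; exact h i
  · rw [hi x, Complex.norm_conj]; exact h i

/-- an integer multiple of a given element of `K` is integral -/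
theorem exists_nat_mul_integral (x : K) : ∃ n : ℕ, 1 ≤ n ∧ IsIntegral ℤ ((n : K) * x) := by
  have hx : IsAlgebraic ℤ x := by
    have h : IsAlgebraic ℚ x := Algebra.IsAlgebraic.isAlgebraic x
    exact (IsFractionRing.isAlgebraic_iff ℤ ℚ K).2 h
  obtain ⟨y, hy, hyx⟩ := hx.exists_integral_multiple
  refine ⟨y.natAbs, Int.natAbs_pos.2 hy, ?_⟩
  have h1 : ((y.natAbs : ℕ) : K) * x = y • x ∨ ((y.natAbs : ℕ) : K) * x = -(y • x) := by
    rcases Int.natAbs_eq y with h | h
    · left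
      have e : (y : K) = ((y.natAbs : ℕ) : K) := by
        have := congrArg (fun z : ℤ => (z : K)) h
        simpa only [Int.cast_natCast] using this
      rw [zsmul_eq_mul, e]
    · right
      have e : (y : K) = -((y.natAbs : ℕ) : K) := by
        have := congrArg (fun z : ℤ => (z : K)) h
        simpa only [Int.cast_neg, Int.cast_natCast] using this
      rw [zsmul_eq_mul, e]
      ring
  rcases h1 with h | h
  · rw [h]; exact hyx
  · rw [h]; exact hyx.neg

namespace Dat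

variable (d : Dat K g)

theorem anis {u : Fin 2 → K} (hu : u ≠ 0) : d.h u u ≠ 0 := by
  intro h0
  have h1 := d.sig_h_re d.s u
  rw [h0, map_zero, Complex.zero_re] at h1
  have hn : 0 < d.nu d.s := d.nN d.s d.hs
  have e0 : ‖d.σ d.s (u 0)‖ ^ 2 = 0 := by nlinarith [sq_nonneg ‖d.σ d.s (u 0)‖, sq_nonneg ‖d.σ d.s (u 1)‖, mul_nonneg hn.le (sq_nonneg ‖d.σ d.s (u 1)‖)]
  have e1 : ‖d.σ d.s (u 1)‖ ^ 2 = 0 := by
    rw [e0, zero_add] at h1
    rcases mul_eq_zero.1 h1.symm with h | h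
    · exact absurd h hn.ne'
    · exact h
  apply hu
  have f0 : u 0 = 0 := by
    have := norm_eq_zero.1 (pow_eq_zero_iff (two_ne_zero) |>.1 e0)
    exact (map_eq_zero _).1 this
  have f1 : u 1 = 0 := by
    have := norm_eq_zero.1 (pow_eq_zero_iff (two_ne_zero) |>.1 e1)
    exact (map_eq_zero _).1 this
  funext al
  fin_cases al
  · exact f0
  · exact f1

theorem bar_hC (u v : Fin 2 → K) : d.bar (d.h u v) = d.h v u := by
  simp only [h, map_add, map_mul, d.toCM.bar_barC, d.bν]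
  ring

theorem fin_vals (C : ℝ) : {c : K | (∃ u : Fin 2 → K, (∀ al, IsIntegral ℤ (u al)) ∧ d.h u u = c) ∧
    ∀ i, ‖d.σ i c‖ ≤ C}.Finite := by
  obtain ⟨D, hD, hDν⟩ := exists_nat_mul_integral d.ν
  have hfin := NumberField.Embeddings.finite_of_norm_le K ℂ ((D : ℝ) * C)
  have hD0 : (D : K) ≠ 0 := by
    have : D ≠ 0 := by omega
    exact_mod_cast this
  refine (hfin.preimage (f := fun c : K => (D : K) * c) ?_).subset ?_
  · intro a _ b _ hab
    exact mul_left_cancel₀ hD0 hab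
  · rintro c ⟨⟨u, hu, rfl⟩, hc⟩
    refine ⟨?_, fun φ => ?_⟩
    · have : (D : K) * d.h u u = (D : K) * (u 0 * d.bar (u 0)) +
          ((D : K) * d.ν) * (u 1 * d.bar (u 1)) := by
        simp only [h]; ring
      show IsIntegral ℤ ((D : K) * d.h u u)
      rw [this]
      have hDi : IsIntegral ℤ (D : K) := by
        have := isIntegral_algebraMap (R := ℤ) (A := K) (x := (D : ℤ))
        simpa using this
      exact (hDi.mul ((hu 0).mul (d.toCM.isIntegral_bar (hu 0)))).add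
        (hDν.mul ((hu 1).mul (d.toCM.isIntegral_bar (hu 1))))
    · show ‖φ ((D : K) * d.h u u)‖ ≤ _
      rw [map_mul, norm_mul, map_natCast, Complex.norm_natCast]
      exact mul_le_mul_of_nonneg_left (d.toCM.norm_emb_le hc φ) (by positivity)

/-- the quaternion step -/
theorem quat {u v : Fin 2 → K} {c : K} (hc : c ≠ 0) (hu : d.h u u = c) (hv : d.h v v = c) :
    d.G1 ((v 0 * d.bar (u 0) + d.ν * d.bar (v 1) * u 1) / c)
        ((v 1 * d.bar (u 0) - d.bar (v 0) * u 1) / c) ∧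
      d.gk ((v 0 * d.bar (u 0) + d.ν * d.bar (v 1) * u 1) / c)
        ((v 1 * d.bar (u 0) - d.bar (v 0) * u 1) / c) u = v := by
  have hcb : d.bar c = c := by rw [← hu, d.bar_hC]
  have hu' : u 0 * d.bar (u 0) + d.ν * (u 1 * d.bar (u 1)) = c := hu
  have hv' : v 0 * d.bar (v 0) + d.ν * (v 1 * d.bar (v 1)) = c := hv
  constructor
  · unfold G1
    simp only [map_div₀, map_add, map_sub, map_mul, d.toCM.bar_barC, d.bν, hcb]
    have e : (v 0 * d.bar (u 0) + d.ν * d.bar (v 1) * u 1) / c *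
          ((d.bar (v 0) * u 0 + d.ν * v 1 * d.bar (u 1)) / c) +
        d.ν * ((v 1 * d.bar (u 0) - d.bar (v 0) * u 1) / c *
          ((d.bar (v 1) * u 0 - v 0 * d.bar (u 1)) / c)) =
        (u 0 * d.bar (u 0) + d.ν * (u 1 * d.bar (u 1))) *
          (v 0 * d.bar (v 0) + d.ν * (v 1 * d.bar (v 1))) / (c * c) := by
      ring
    rw [e, hu', hv']
    exact div_self (mul_ne_zero hc hc)
  · funext al
    fin_cases al
    · show ((v 0 * d.bar (u 0) + d.ν * d.bar (v 1) * u 1) / c) * u 0 -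
        d.ν * d.bar ((v 1 * d.bar (u 0) - d.bar (v 0) * u 1) / c) * u 1 = v 0
      simp only [map_div₀, map_sub, map_mul, d.toCM.bar_barC, hcb]
      have e : ((v 0 * d.bar (u 0) + d.ν * d.bar (v 1) * u 1) / c) * u 0 -
        d.ν * ((d.bar (v 1) * u 0 - v 0 * d.bar (u 1)) / c) * u 1 =
          v 0 * (u 0 * d.bar (u 0) + d.ν * (u 1 * d.bar (u 1))) / c := by ring
      rw [e, hu']
      field_simp
    · show ((v 1 * d.bar (u 0) - d.bar (v 0) * u 1) / c) * u 0 +
        d.bar ((v 0 * d.bar (u 0) + d.ν * d.bar (v 1) * u 1) / c) * u 1 = v 1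
      simp only [map_div₀, map_add, map_mul, d.toCM.bar_barC, d.bν, hcb]
      have e : ((v 1 * d.bar (u 0) - d.bar (v 0) * u 1) / c) * u 0 +
        ((d.bar (v 0) * u 0 + d.ν * v 1 * d.bar (u 1)) / c) * u 1 =
          v 1 * (u 0 * d.bar (u 0) + d.ν * (u 1 * d.bar (u 1))) / c := by ring
      rw [e, hu']
      field_simp

/-- finitely many representatives for the vectors of bounded norms modulo `Γ(N)` -/
theorem classes (N : ℕ) (hN : 1 ≤ N) (C : ℝ) : ∃ V : Set (Fin 2 → K), V.Finite ∧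
    (∀ v ∈ V, v ≠ 0 ∧ ∀ al, IsIntegral ℤ (v al)) ∧
    ∀ u : Fin 2 → K, u ≠ 0 → (∀ al, IsIntegral ℤ (u al)) → (∀ i, ‖d.σ i (d.h u u)‖ ≤ C) →
      ∃ v ∈ V, ∃ x y, d.GN N x y ∧ d.gk x y v = u := by
  classical
  set S : Set K := {c : K | (∃ u : Fin 2 → K, (∀ al, IsIntegral ℤ (u al)) ∧ d.h u u = c) ∧
    ∀ i, ‖d.σ i c‖ ≤ C} with hS
  have hSfin : S.Finite := d.fin_vals C
  obtain ⟨D, hD, hDν⟩ := exists_nat_mul_integral d.ν
  have hDi : ∀ n : ℕ, IsIntegral ℤ (n : K) := fun n => by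
    have := isIntegral_algebraMap (R := ℤ) (A := K) (x := (n : ℤ))
    simpa using this
  -- a common integer
  choose q hq1 hq using fun c : K => exists_nat_mul_integral (K := K) c⁻¹
  set Q : ℕ := ∏ c ∈ hSfin.toFinset, q c with hQ
  have hQ1 : 1 ≤ Q := Nat.one_le_iff_ne_zero.2 (Finset.prod_ne_zero_iff.2 fun c _ => by
    have := hq1 c; omega)
  have hQc : ∀ c ∈ S, IsIntegral ℤ ((Q : K) * c⁻¹) := by
    intro c hc
    have hc' : c ∈ hSfin.toFinset := hSfin.mem_toFinset.2 hc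
    have : (Q : K) = (∏ e ∈ hSfin.toFinset.erase c, q e : ℕ) * (q c : K) := by
      rw [hQ, ← Finset.prod_erase_mul _ _ hc']
      push_cast
      rfl
    rw [this, mul_assoc]
    exact (hDi _).mul (hq c)
  set m : ℕ := N * D * Q with hm
  have hm0 : m ≠ 0 := by
    rw [hm]
    refine mul_ne_zero (mul_ne_zero ?_ ?_) ?_ <;> omega
  let mI : Ideal (𝓞 K) := Ideal.span {(m : 𝓞 K)}
  have hmI : mI ≠ ⊥ := by
    intro h
    rw [Ideal.span_singleton_eq_bot] at h
    exact hm0 (by exact_mod_cast h)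
  have : Finite (𝓞 K ⧸ mI) := Ideal.finiteQuotientOfFreeOfNeBot mI hmI
  set U : Set (Fin 2 → K) := {u | u ≠ 0 ∧ (∀ al, IsIntegral ℤ (u al)) ∧
    ∀ i, ‖d.σ i (d.h u u)‖ ≤ C} with hU
  let fc : (Fin 2 → K) → Fin 2 → (𝓞 K ⧸ mI) := fun u al =>
    if h : IsIntegral ℤ (u al) then Ideal.Quotient.mk mI ⟨u al, h⟩ else 0
  let f : (Fin 2 → K) → K × (Fin 2 → (𝓞 K ⧸ mI)) := fun u => (d.h u u, fc u)
  have hfin : (f '' U).Finite := by
    refine (hSfin.prod (Set.finite_univ (α := Fin 2 → (𝓞 K ⧸ mI)))).subset ?_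
    rintro _ ⟨u, hu, rfl⟩
    exact ⟨⟨⟨u, hu.2.1, rfl⟩, hu.2.2⟩, Set.mem_univ _⟩
  obtain ⟨V, hVU, hV⟩ := Set.exists_subset_bijOn U f
  refine ⟨V, ?_, fun v hv => ⟨(hVU hv).1, (hVU hv).2.1⟩, fun u hu0 hui huC => ?_⟩
  · refine Set.Finite.of_finite_image ?_ hV.injOn
    rw [hV.image_eq]
    exact hfin
  · have huU : u ∈ U := ⟨hu0, hui, huC⟩
    obtain ⟨v, hvV, hvf⟩ := hV.surjOn ⟨u, huU, rfl⟩
    have hvU := hVU hvV
    have hvi := hvU.2.1
    have h1 : d.h v v = d.h u u := congrArg Prod.fst hvf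
    have h2 : fc v = fc u := congrArg Prod.snd hvf
    have h3 : ∀ al, ∃ t : K, IsIntegral ℤ t ∧ u al - v al = m * t := by
      intro al
      have := congrFun h2 al
      simp only [fc, dif_pos (hvi al), dif_pos (hui al)] at this
      have h4 := Ideal.Quotient.eq.1 this.symm
      obtain ⟨t, ht⟩ := Ideal.mem_span_singleton'.1 h4
      refine ⟨t, RingOfIntegers.isIntegral_coe t, ?_⟩
      have h5 := congrArg (fun z : 𝓞 K => (z : K)) ht
      simp only [map_mul, map_natCast, map_sub] at h5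
      rw [mul_comm]
      exact h5.symm
    choose t ht1 ht2 using h3
    have hc0 : d.h u u ≠ 0 := d.anis hu0
    set c := d.h u u with hcdef
    have hcS : c ∈ S := ⟨⟨u, hui, rfl⟩, huC⟩
    obtain ⟨g1, g2⟩ := d.quat hc0 (u := v) (v := u) h1 rfl
    have hb := fun al => d.toCM.isIntegral_bar (hvi al)
    have hbt := fun al => d.toCM.isIntegral_bar (ht1 al)
    have hu0' : u 0 = v 0 + m * t 0 := by rw [← ht2 0]; ring
    have hu1' : u 1 = v 1 + m * t 1 := by rw [← ht2 1]; ring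
    have hmK : (m : K) = N * D * Q := by rw [hm]; push_cast; ring
    refine ⟨v, hvV, _, _, ⟨g1, ⟨((Q : K) * c⁻¹) * ((D : K) * t 0 * d.bar (v 0) +
      ((D : K) * d.ν) * d.bar (t 1) * v 1), ?_, ?_⟩, ⟨((Q : K) * c⁻¹) *
        ((D : K) * (t 1 * d.bar (v 0) - d.bar (t 0) * v 1)), ?_, ?_⟩⟩, g2⟩
    · exact (hQc c hcS).mul ((((hDi D).mul (ht1 0)).mul (hb 0)).add
        ((hDν.mul (hbt 1)).mul (hvi 1)))
    · have h1' : v 0 * d.bar (v 0) + d.ν * (v 1 * d.bar (v 1)) = c := h1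
      rw [hu0', hu1']
      simp only [map_add, map_mul, map_natCast]
      rw [hmK, div_eq_iff hc0]
      have : (1 + ↑N * (↑Q * c⁻¹ * (↑D * t 0 * d.bar (v 0) + ↑D * d.ν * d.bar (t 1) * v 1))) * c =
          c + ↑N * ↑Q * (↑D * t 0 * d.bar (v 0) + ↑D * d.ν * d.bar (t 1) * v 1) := by
        field_simp
      rw [this]
      nth_rw 1 [← h1']
      ring
    · exact (hQc c hcS).mul ((hDi D).mul (((ht1 1).mul (hb 0)).sub ((hbt 0).mul (hvi 1))))
    · rw [hu0', hu1']
      simp only [map_add, map_mul, map_natCast]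
      rw [hmK, div_eq_iff hc0]
      have : ↑N * (↑Q * c⁻¹ * (↑D * (t 1 * d.bar (v 0) - d.bar (t 0) * v 1))) * c =
          ↑N * ↑Q * (↑D * (t 1 * d.bar (v 0) - d.bar (t 0) * v 1)) := by
        field_simp
      rw [this]
      ring

end Dat

end Pool.Agent.RQ4
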