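import Mathlib
import Pool.Agent.RQ4.Defs
import Pool.Agent.RQ4.DensZ
import Pool.Agent.RQ4.CShort
import Pool.Agent.RQ4.CFin

/-!
# RQ4, block C: every point of the polydisc is equivalent under `Γ(N)` to a point of a fixed
compact polydisc
-/

set_option autoImplicit false

namespace Pool.Agent.RQ4

open Complex ComplexConjugate Finset Module NumberField

variable {K : Type} [Field K] [NumberField K] {g : ℕ}

theorem exists_pos_le {α : Type*} (s : Finset α) (f : α → ℝ) (h : ∀ a ∈ s, 0 < f a) :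
    ∃ δ : ℝ, 0 < δ ∧ ∀ a ∈ s, δ ≤ f a := by
  classical
  induction s using Finset.induction_on with
  | empty => exact ⟨1, one_pos, by simp⟩
  | insert a s ha ih =>
    obtain ⟨δ, hδ, h'⟩ := ih (fun b hb => h b (Finset.mem_insert_of_mem hb))
    refine ⟨min δ (f a), lt_min hδ (h a (Finset.mem_insert_self _ _)), fun b hb => ?_⟩
    rcases Finset.mem_insert.1 hb with rfl | hb
    · exact min_le_right _ _
    · exact (min_le_left _ _).trans (h' b hb)

namespace Dat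

variable (d : Dat K g)

theorem nu_of_mem {i : Fin g} (hi : i ∈ d.R) : d.nu i = -d.r i ^ 2 := by
  rw [d.r_sq hi, neg_neg]

theorem nu_of_not_mem {i : Fin g} (hi : i ∉ d.R) : d.nu i = d.r i ^ 2 := by
  have h : 0 < d.nu i := d.nN i hi
  unfold Dat.r
  rw [Real.sq_sqrt (abs_nonneg _), abs_of_pos h]

theorem sig_G1 {x y : K} (h : d.G1 x y) (i : Fin g) :
    ‖d.σ i x‖ ^ 2 + d.nu i * ‖d.σ i y‖ ^ 2 = 1 := by
  have h1 : d.h ![x, y] ![x, y] = 1 := by
    unfold Dat.h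
    simpa [G1] using h
  have h2 := d.sig_h_re i ![x, y]
  rw [h1, map_one] at h2
  simpa using h2.symm

/-- transformation of the local norm -/
theorem Hi_gv {w : d.R → ℂ} (hw : w ∈ d.Di) {x y : K} (hG : d.G1 x y) (i : Fin g) (u : Vs g) :
    d.Hi w i (d.gv x y u) = d.Hi (d.wg w x y) i u := by
  have hG1 := d.sig_G1 hG i
  by_cases hi : i ∈ d.R
  · have hw1 : ‖w ⟨i, hi⟩‖ < 1 := hw _
    have e1 : d.wx w i = w ⟨i, hi⟩ := by simp [wx, hi]
    have e2 : d.wx (d.wg w x y) i = d.wg w x y ⟨i, hi⟩ := by simp [wx, hi]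
    have hν := d.nu_of_mem hi
    set a := d.σ i x with ha
    set b := (d.r i : ℂ) * d.σ i y with hb
    set z := w ⟨i, hi⟩ with hz
    set ξ := u (i, 0) with hξ
    set η := (d.r i : ℂ) * u (i, 1) with hη
    have hab : ‖a‖ ^ 2 - ‖b‖ ^ 2 = 1 := by
      rw [hb, norm_mul, mul_pow, Complex.norm_real, Real.norm_of_nonneg (d.r_pos hi).le]
      rw [hν] at hG1
      linarith
    have hj : a + b * z ≠ 0 := by
      intro h0
      have h1 : ‖a‖ = ‖b‖ * ‖z‖ := by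
        rw [← norm_mul, eq_neg_of_add_eq_zero_left h0, norm_neg]
      have h2 : ‖a‖ ^ 2 ≤ ‖b‖ ^ 2 := by
        rw [h1]
        have : ‖b‖ * ‖z‖ ≤ ‖b‖ := mul_le_of_le_one_right (norm_nonneg _) hw1.le
        exact pow_le_pow_left₀ (by positivity) this 2
      linarith
    have hjc : conj (a + b * z) ≠ 0 := by
      intro h; exact hj ((map_eq_zero _).1 h)
    have ew : d.wg w x y ⟨i, hi⟩ = (conj b + conj a * z) / (a + b * z) := by
      simp only [wg, ← ha, ← hz, hb, map_mul, Complex.conj_ofReal]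
    set j := a + b * z with hjdef
    have eZ : d.gv x y u (i, 0) + z * (d.r i * d.gv x y u (i, 1)) =
        j * (ξ + (conj b + conj a * z) / j * η) := by
      have : j * (ξ + (conj b + conj a * z) / j * η) = j * ξ + (conj b + conj a * z) * η := by
        field_simp
      rw [this]
      simp only [gv, if_true, hν, hjdef, hb, hη, hξ, ha, map_mul, Complex.conj_ofReal]
      simp only [one_ne_zero, if_false]
      push_cast
      ring
    have eW : d.r i * d.gv x y u (i, 1) + conj z * d.gv x y u (i, 0) =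
        conj j * (η + conj ((conj b + conj a * z) / j) * ξ) := by
      have hcj : conj ((conj b + conj a * z) / j) = (b + a * conj z) / conj j := by
        rw [map_div₀]
        congr 1
        simp
      have : conj j * (η + conj ((conj b + conj a * z) / j) * ξ) =
          conj j * η + (b + a * conj z) * ξ := by
        rw [hcj]
        field_simp
      rw [this]
      simp only [gv, if_true, hν, hjdef, hb, hη, hξ, ha, map_mul, map_add, Complex.conj_ofReal]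
      simp only [one_ne_zero, if_false]
      push_cast
      ring
    have eN : 1 - ‖(conj b + conj a * z) / j‖ ^ 2 = (1 - ‖z‖ ^ 2) / ‖j‖ ^ 2 := by
      have hjn : ‖j‖ ^ 2 ≠ 0 := pow_ne_zero 2 (norm_ne_zero_iff.2 hj)
      rw [norm_div, div_pow, eq_div_iff hjn, sub_mul, div_mul_cancel₀ _ hjn, one_mul]
      have h1 : ∀ t : ℂ, ((‖t‖ ^ 2 : ℝ) : ℂ) = t * conj t := by
        intro t; rw [Complex.mul_conj, Complex.normSq_eq_norm_sq]
      have h2 : ((‖j‖ ^ 2 - ‖conj b + conj a * z‖ ^ 2 : ℝ) : ℂ) =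
          ((‖a‖ ^ 2 - ‖b‖ ^ 2) * (1 - ‖z‖ ^ 2) : ℝ) := by
        rw [Complex.ofReal_sub, Complex.ofReal_mul, Complex.ofReal_sub, Complex.ofReal_sub,
          h1, h1, h1, h1, h1, hjdef]
        simp only [map_add, map_mul, Complex.conj_conj, Complex.ofReal_one]
        ring
      have h3 : ‖j‖ ^ 2 - ‖conj b + conj a * z‖ ^ 2 = (‖a‖ ^ 2 - ‖b‖ ^ 2) * (1 - ‖z‖ ^ 2) := by
        exact_mod_cast h2
      rw [h3, hab, one_mul]
    have hz1 : 0 < 1 - ‖z‖ ^ 2 := by nlinarith [norm_nonneg z]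
    have hjn : 0 < ‖j‖ ^ 2 := pow_pos (norm_pos_iff.2 hj) 2
    unfold Hi
    rw [e1, e2, ew, eZ, eW, eN, ← hξ, ← hη, norm_mul j, norm_mul (conj j), Complex.norm_conj,
      mul_pow, mul_pow]
    generalize ‖ξ + (conj b + conj a * z) / j * η‖ = A
    generalize ‖η + conj ((conj b + conj a * z) / j) * ξ‖ = B
    field_simp
  · have e1 : d.wx w i = 0 := by simp [wx, hi]
    have e2 : d.wx (d.wg w x y) i = 0 := by simp [wx, hi]
    have hν := d.nu_of_not_mem hi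
    unfold Hi
    rw [e1, e2]
    simp only [zero_mul, add_zero, map_zero, norm_zero]
    congr 1
    have h1 : ∀ t : ℂ, ((‖t‖ ^ 2 : ℝ) : ℂ) = t * conj t := by
      intro t; rw [Complex.mul_conj, Complex.normSq_eq_norm_sq]
    have hG2 : d.σ i x * conj (d.σ i x) + (d.r i : ℂ) ^ 2 * (d.σ i y * conj (d.σ i y)) = 1 := by
      have := congrArg (fun t : ℝ => (t : ℂ)) hG1
      simp only [Complex.ofReal_add, Complex.ofReal_mul, h1, hν, Complex.ofReal_one,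
        Complex.ofReal_pow] at this
      exact this
    have h2 : ((‖d.gv x y u (i, 0)‖ ^ 2 + ‖(d.r i : ℂ) * d.gv x y u (i, 1)‖ ^ 2 : ℝ) : ℂ) =
        ((‖u (i, 0)‖ ^ 2 + ‖(d.r i : ℂ) * u (i, 1)‖ ^ 2 : ℝ) : ℂ) := by
      rw [Complex.ofReal_add, Complex.ofReal_add, h1, h1, h1, h1]
      simp only [gv, if_true, hν]
      simp only [one_ne_zero, if_false, map_add, map_sub, map_mul, Complex.conj_conj,
        Complex.conj_ofReal, Complex.ofReal_pow, map_pow]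
      linear_combination (u (i, 0) * conj (u (i, 0)) + (d.r i : ℂ) ^ 2 * (u (i, 1) * conj (u (i, 1)))) * hG2
    exact_mod_cast h2

theorem kv_gkC (x y : K) (u : Fin 2 → K) : d.kv (d.gk x y u) = d.gv x y (d.kv u) := by
  funext ⟨i, al⟩
  fin_cases al
  · simp [kv, gk, gv, d.hbar, d.sig_nu]
  · simp [kv, gk, gv, d.hbar]

/-- the action preserves the polydisc -/
theorem wg_memC {w : d.R → ℂ} (hw : w ∈ d.Di) {x y : K} (hG : d.G1 x y) : d.wg w x y ∈ d.Di := by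
  rintro ⟨i, hi⟩
  have hG1 := d.sig_G1 hG i
  have hw1 : ‖w ⟨i, hi⟩‖ < 1 := hw _
  have hν := d.nu_of_mem hi
  set a := d.σ i x with ha
  set b := (d.r i : ℂ) * d.σ i y with hb
  set z := w ⟨i, hi⟩ with hz
  have hab : ‖a‖ ^ 2 - ‖b‖ ^ 2 = 1 := by
    rw [hb, norm_mul, mul_pow, Complex.norm_real, Real.norm_of_nonneg (d.r_pos hi).le]
    rw [hν] at hG1
    linarith
  have hj : a + b * z ≠ 0 := by
    intro h0
    have h1 : ‖a‖ = ‖b‖ * ‖z‖ := by
      rw [← norm_mul, eq_neg_of_add_eq_zero_left h0, norm_neg]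
    have h2 : ‖a‖ ^ 2 ≤ ‖b‖ ^ 2 := by
      rw [h1]
      have : ‖b‖ * ‖z‖ ≤ ‖b‖ := mul_le_of_le_one_right (norm_nonneg _) hw1.le
      exact pow_le_pow_left₀ (by positivity) this 2
    linarith
  have ew : d.wg w x y ⟨i, hi⟩ = (conj b + conj a * z) / (a + b * z) := by
    simp only [wg, ← ha, ← hz, hb, map_mul, Complex.conj_ofReal]
  have h1 : ∀ t : ℂ, ((‖t‖ ^ 2 : ℝ) : ℂ) = t * conj t := by
    intro t; rw [Complex.mul_conj, Complex.normSq_eq_norm_sq]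
  have h2 : ((‖a + b * z‖ ^ 2 - ‖conj b + conj a * z‖ ^ 2 : ℝ) : ℂ) =
      ((‖a‖ ^ 2 - ‖b‖ ^ 2) * (1 - ‖z‖ ^ 2) : ℝ) := by
    rw [Complex.ofReal_sub, Complex.ofReal_mul, Complex.ofReal_sub, Complex.ofReal_sub,
      h1, h1, h1, h1, h1]
    simp only [map_add, map_mul, Complex.conj_conj, Complex.ofReal_one]
    ring
  have h3 : ‖a + b * z‖ ^ 2 - ‖conj b + conj a * z‖ ^ 2 = (‖a‖ ^ 2 - ‖b‖ ^ 2) * (1 - ‖z‖ ^ 2) := by
    exact_mod_cast h2
  have hz1 : 0 < 1 - ‖z‖ ^ 2 := by nlinarith [norm_nonneg z]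
  show ‖d.wg w x y ⟨i, hi⟩‖ < 1
  rw [ew, norm_div, div_lt_one (norm_pos_iff.2 hj)]
  rw [hab, one_mul] at h3
  have h4 : ‖conj b + conj a * z‖ ^ 2 < ‖a + b * z‖ ^ 2 := by linarith
  exact lt_of_pow_lt_pow_left₀ 2 (norm_nonneg _) h4

theorem Hi_nonneg {w : d.R → ℂ} (hw : w ∈ d.Di) (i : Fin g) (u : Vs g) : 0 ≤ d.Hi w i u := by
  have h1 : 0 < 1 - ‖d.wx w i‖ ^ 2 := by
    have := d.wx_ltC hw i
    nlinarith [norm_nonneg (d.wx w i)]
  unfold Hi
  positivity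

/-- the lower bound for the local norm -/
theorem Hi_geC {w : d.R → ℂ} (hw : w ∈ d.Di) (i : Fin g) (u : Vs g) :
    (‖u (i, 0)‖ - ‖(d.r i : ℂ) * u (i, 1)‖) ^ 2 ≤ d.Hi w i u * (1 - ‖d.wx w i‖ ^ 2) := by
  have h1 : 0 < 1 - ‖d.wx w i‖ ^ 2 := by
    have := d.wx_ltC hw i
    nlinarith [norm_nonneg (d.wx w i)]
  unfold Hi
  rw [div_mul_cancel₀ _ h1.ne']
  set z := d.wx w i
  set ξ := u (i, 0)
  set η := (d.r i : ℂ) * u (i, 1)
  have a1 : |‖ξ‖ - ‖z‖ * ‖η‖| ≤ ‖ξ + z * η‖ := by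
    have := abs_norm_sub_norm_le ξ (-(z * η))
    rw [norm_neg, norm_mul z η, sub_neg_eq_add] at this
    exact this
  have a2 : |‖η‖ - ‖z‖ * ‖ξ‖| ≤ ‖η + conj z * ξ‖ := by
    have := abs_norm_sub_norm_le η (-(conj z * ξ))
    rw [norm_neg, norm_mul (conj z) ξ, sub_neg_eq_add, Complex.norm_conj] at this
    exact this
  have b1 := pow_le_pow_left₀ (abs_nonneg _) a1 2
  have b2 := pow_le_pow_left₀ (abs_nonneg _) a2 2
  rw [sq_abs] at b1 b2
  have hz : ‖z‖ < 1 := d.wx_ltC hw i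
  nlinarith [sq_nonneg (1 - ‖z‖), mul_nonneg (norm_nonneg ξ) (norm_nonneg η), sq_nonneg (‖ξ‖ - ‖η‖),
    mul_nonneg (sq_nonneg ‖z‖) (sq_nonneg (‖ξ‖ - ‖η‖)),
    mul_nonneg (mul_nonneg (norm_nonneg ξ) (norm_nonneg η)) (sq_nonneg (1 - ‖z‖))]

/-- the hermitian norm is bounded by the local norm -/
theorem norm_h_le {w : d.R → ℂ} (hw : w ∈ d.Di) (i : Fin g) (u : Fin 2 → K) :
    ‖d.σ i (d.h u u)‖ ≤ d.Hi w i (d.kv u) := by
  have h1 : 0 < 1 - ‖d.wx w i‖ ^ 2 := by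
    have := d.wx_ltC hw i
    nlinarith [norm_nonneg (d.wx w i)]
  rw [d.sig_h i u, Complex.norm_real, Real.norm_eq_abs]
  have h2 : ∀ t : ℂ, ((‖t‖ ^ 2 : ℝ) : ℂ) = t * conj t := by
    intro t; rw [Complex.mul_conj, Complex.normSq_eq_norm_sq]
  unfold Hi
  rw [le_div_iff₀ h1]
  by_cases hi : i ∈ d.R
  · have hν := d.nu_of_mem hi
    rw [hν]
    set z := d.wx w i
    have e0 : d.kv u (i, 0) = d.σ i (u 0) := rfl
    have e1 : d.kv u (i, 1) = d.σ i (u 1) := rfl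
    rw [e0, e1]
    set ξ := d.σ i (u 0)
    set η := (d.r i : ℂ) * d.σ i (u 1) with hη
    have hηn : ‖η‖ ^ 2 = d.r i ^ 2 * ‖d.σ i (u 1)‖ ^ 2 := by
      rw [hη, norm_mul, mul_pow, Complex.norm_real, Real.norm_of_nonneg (d.r_pos hi).le]
    have h3 : ((‖ξ + z * η‖ ^ 2 - ‖η + conj z * ξ‖ ^ 2 : ℝ) : ℂ) =
        ((‖ξ‖ ^ 2 - ‖η‖ ^ 2) * (1 - ‖z‖ ^ 2) : ℝ) := by
      rw [Complex.ofReal_sub, Complex.ofReal_mul, Complex.ofReal_sub, Complex.ofReal_sub,
        h2, h2, h2, h2, h2]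
      simp only [map_add, map_mul, Complex.conj_conj, Complex.ofReal_one]
      ring
    have h4 : ‖ξ + z * η‖ ^ 2 - ‖η + conj z * ξ‖ ^ 2 = (‖ξ‖ ^ 2 - ‖η‖ ^ 2) * (1 - ‖z‖ ^ 2) := by
      exact_mod_cast h3
    have h5 : ‖ξ‖ ^ 2 + -d.r i ^ 2 * ‖d.σ i (u 1)‖ ^ 2 = ‖ξ‖ ^ 2 - ‖η‖ ^ 2 := by
      rw [hηn]; ring
    rw [h5, ← abs_of_pos h1, ← abs_mul, ← h4]
    rw [abs_le]
    constructor <;> nlinarith [sq_nonneg ‖ξ + z * η‖, sq_nonneg ‖η + conj z * ξ‖]
  · have hν := d.nu_of_not_mem hi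
    have e1 : d.wx w i = 0 := by simp [wx, hi]
    rw [hν, e1]
    simp only [zero_mul, add_zero, map_zero, norm_zero, norm_mul, Complex.norm_real]
    have hr : ‖d.r i‖ = d.r i := Real.norm_of_nonneg (d.r_pos_all i).le
    rw [hr]
    have e0 : d.kv u (i, 0) = d.σ i (u 0) := rfl
    have e1' : d.kv u (i, 1) = d.σ i (u 1) := rfl
    rw [e0, e1', abs_of_nonneg (by positivity)]
    apply le_of_eq
    ring

/-- every point of the polydisc is equivalent to a point of a fixed compact polydisc -/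
theorem cocompact (N : ℕ) (hN : 1 ≤ N) : ∃ ρ : ℝ, ρ < 1 ∧ 0 ≤ ρ ∧ ∀ w ∈ d.Di, ∃ x y, d.GN N x y ∧
    ∀ i, ‖d.wg w x y i‖ ≤ ρ := by
  classical
  obtain ⟨C, hC, hshort⟩ := d.short
  obtain ⟨V, hVfin, hV0, hV⟩ := d.classes N hN C
  -- the gap
  have hgap : ∃ ε : ℝ, 0 < ε ∧ ε ≤ 1 ∧ ∀ v ∈ V, ∀ i : Fin g, i ∈ d.R →
      ε * C ≤ (‖d.kv v (i, 0)‖ - ‖(d.r i : ℂ) * d.kv v (i, 1)‖) ^ 2 := by
    have hpos : ∀ v ∈ V, ∀ i : Fin g, i ∈ d.R →
        0 < (‖d.kv v (i, 0)‖ - ‖(d.r i : ℂ) * d.kv v (i, 1)‖) ^ 2 := by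
      intro v hv i hi
      refine sq_pos_iff.2 ?_
      intro h0
      have h1 := d.anis (hV0 v hv).1
      have h2 : d.σ i (d.h v v) ≠ 0 := fun h => h1 ((map_eq_zero _).1 h)
      apply h2
      rw [d.sig_h i v, d.nu_of_mem hi]
      have e0 : d.kv v (i, 0) = d.σ i (v 0) := rfl
      have e1 : d.kv v (i, 1) = d.σ i (v 1) := rfl
      rw [e0, e1, norm_mul, Complex.norm_real, Real.norm_of_nonneg (d.r_pos hi).le] at h0
      have h3 : ‖d.σ i (v 0)‖ = d.r i * ‖d.σ i (v 1)‖ := by linarith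
      rw [h3]
      rw [Complex.ofReal_eq_zero]
      ring
    obtain ⟨δ, hδ, hδ'⟩ := exists_pos_le (hVfin.toFinset ×ˢ d.R)
      (fun p => (‖d.kv p.1 (p.2, 0)‖ - ‖(d.r p.2 : ℂ) * d.kv p.1 (p.2, 1)‖) ^ 2) (by
        intro p hp
        rw [Finset.mem_product, Set.Finite.mem_toFinset] at hp
        exact hpos p.1 hp.1 p.2 hp.2)
    refine ⟨min 1 (δ / C), lt_min one_pos (div_pos hδ hC), min_le_left _ _, fun v hv i hi => ?_⟩
    calc min 1 (δ / C) * C ≤ δ / C * C := mul_le_mul_of_nonneg_right (min_le_right _ _) hC.le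
      _ = δ := div_mul_cancel₀ _ hC.ne'
      _ ≤ _ := hδ' (v, i) (by
        rw [Finset.mem_product, Set.Finite.mem_toFinset]
        exact ⟨hv, hi⟩)
  obtain ⟨ε, hε, hε1, hgap⟩ := hgap
  refine ⟨√(1 - ε), ?_, Real.sqrt_nonneg _, fun w hw => ?_⟩
  · rw [Real.sqrt_lt' one_pos]
    linarith
  · obtain ⟨u, hu0, hui, huC⟩ := hshort w hw
    obtain ⟨v, hv, x, y, hGN, hgk⟩ := hV u hu0 hui fun i => (d.norm_h_le hw i u).trans (huC i)
    refine ⟨x, y, hGN, fun i => ?_⟩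
    have hw' := d.wg_memC hw hGN.1
    have h1 : d.Hi (d.wg w x y) i (d.kv v) ≤ C := by
      rw [← d.Hi_gv hw hGN.1, ← d.kv_gkC, hgk]
      exact huC i
    have h2 := d.Hi_geC hw' i (d.kv v)
    have h3 := hgap v hv i i.2
    have e2 : d.wx (d.wg w x y) i = d.wg w x y i := by simp [wx]
    rw [e2] at h2
    have hz : ‖d.wg w x y i‖ < 1 := hw' i
    have hz1 : 0 < 1 - ‖d.wg w x y i‖ ^ 2 := by nlinarith [norm_nonneg (d.wg w x y i)]
    have h4 : ε * C ≤ C * (1 - ‖d.wg w x y i‖ ^ 2) :=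
      h3.trans (h2.trans (mul_le_mul_of_nonneg_right h1 hz1.le))
    have h5 : ε ≤ 1 - ‖d.wg w x y i‖ ^ 2 := by
      by_contra hcon
      push Not at hcon
      nlinarith
    apply Real.le_sqrt_of_sq_le
    linarith

end Dat

end Pool.Agent.RQ4
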