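import Mathlib

/-!
# RQ4, TSum: sums of holomorphic functions on an open set of a normed space (Mathlib only)
-/

set_option autoImplicit false

namespace Pool.Agent.RQ4

private lemma tsum_bound {X : Type} [NormedAddCommGroup X] [NormedSpace ℂ X] {U : Set X}
    (hU : IsOpen U) {Φ : X → ℂ} (h : DifferentiableOn ℂ Φ U) (x : X) {r M : ℝ} (hr : 0 < r)
    (hM : ∀ y, ‖y - x‖ ≤ r → y ∈ U ∧ ‖Φ y‖ ≤ M) : ‖fderiv ℂ Φ x‖ ≤ M / r := by
  have hx : x ∈ U := (hM x (by simp [hr.le])).1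
  have hM0 : 0 ≤ M := (norm_nonneg _).trans (hM x (by simp [hr.le])).2
  refine ContinuousLinearMap.opNorm_le_bound _ (div_nonneg hM0 hr.le) (fun u => ?_)
  by_cases hu : u = 0
  · simp [hu]
  have hu' : 0 < ‖u‖ := norm_pos_iff.2 hu
  have hin : ∀ t : ℂ, ‖t‖ ≤ r / ‖u‖ → ‖x + t • u - x‖ ≤ r := by
    intro t ht
    rw [add_sub_cancel_left, norm_smul]
    calc ‖t‖ * ‖u‖ ≤ r / ‖u‖ * ‖u‖ := mul_le_mul_of_nonneg_right ht hu'.le
      _ = r := div_mul_cancel₀ r hu'.ne'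
  have hl : ∀ t : ℂ, HasDerivAt (fun t : ℂ => x + t • u) u t := by
    intro t
    have h1 := ((hasDerivAt_id t).smul_const u).const_add x
    simpa using h1
  have h1 : HasDerivAt (fun t : ℂ => Φ (x + t • u)) (fderiv ℂ Φ x u) 0 := by
    have h2 : HasFDerivAt Φ (fderiv ℂ Φ x) (x + (0 : ℂ) • u) := by
      rw [zero_smul, add_zero]
      exact (h.differentiableAt (hU.mem_nhds hx)).hasFDerivAt
    exact h2.comp_hasDerivAt (0 : ℂ) (hl 0)
  have h2 : DiffContOnCl ℂ (fun t : ℂ => Φ (x + t • u)) (Metric.ball 0 (r / ‖u‖)) := by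
    apply DifferentiableOn.diffContOnCl
    intro t ht
    have ht' : ‖t‖ ≤ r / ‖u‖ := by
      have := Metric.closure_ball_subset_closedBall ht
      rwa [mem_closedBall_zero_iff] at this
    have h3 : x + t • u ∈ U := (hM _ (hin t ht')).1
    have h4 : DifferentiableAt ℂ Φ (x + t • u) := h.differentiableAt (hU.mem_nhds h3)
    exact (h4.hasFDerivAt.comp_hasDerivAt t (hl t)).differentiableAt.differentiableWithinAt
  have h3 := Complex.norm_deriv_le_of_forall_mem_sphere_norm_le (c := 0) (R := r / ‖u‖) (C := M)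
    (div_pos hr hu') h2 (fun z hz => (hM _ (hin z (by
      rw [mem_sphere_iff_norm, sub_zero] at hz
      exact hz.le))).2)
  rw [h1.deriv] at h3
  calc ‖fderiv ℂ Φ x u‖ ≤ M / (r / ‖u‖) := h3
    _ = M / r * ‖u‖ := by field_simp

/-- a sum of holomorphic functions with a local summable majorant is holomorphic -/
theorem diff_tsum {X ι : Type} [NormedAddCommGroup X] [NormedSpace ℂ X] {U : Set X}
    (hU : IsOpen U) {F : ι → X → ℂ} (hF : ∀ i, DifferentiableOn ℂ (F i) U)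
    (hb : ∀ x ∈ U, ∃ ε > 0, ∃ b : ι → ℝ, Summable b ∧ ∀ i, ∀ y ∈ U, ‖y - x‖ ≤ ε → ‖F i y‖ ≤ b i) :
    DifferentiableOn ℂ (fun x => ∑' i, F i x) U := by
  intro x hx
  obtain ⟨ε, hε, b, hbs, hb⟩ := hb x hx
  obtain ⟨δ, hδ, hδU⟩ := Metric.isOpen_iff.1 hU x hx
  set r : ℝ := min ε δ / 2 with hr
  have hr0 : 0 < r := half_pos (lt_min hε hδ)
  have hrε : 2 * r ≤ ε := by
    have := min_le_left ε δ
    rw [hr]; linarith
  have hrδ : 2 * r ≤ δ := by
    have := min_le_right ε δ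
    rw [hr]; linarith
  have hin : ∀ y ∈ Metric.ball x r, ∀ z, ‖z - y‖ ≤ r → z ∈ U ∧ ‖z - x‖ ≤ ε := by
    intro y hy z hz
    rw [Metric.mem_ball, dist_eq_norm] at hy
    have h1 : ‖z - x‖ < 2 * r := by
      calc ‖z - x‖ = ‖(z - y) + (y - x)‖ := by rw [sub_add_sub_cancel]
        _ ≤ ‖z - y‖ + ‖y - x‖ := norm_add_le _ _
        _ < 2 * r := by linarith
    refine ⟨hδU ?_, h1.le.trans hrε⟩
    rw [Metric.mem_ball, dist_eq_norm]
    linarith
  have hbd : ∀ i, ∀ y ∈ Metric.ball x r, ‖fderiv ℂ (F i) y‖ ≤ b i / r := by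
    intro i y hy
    refine tsum_bound hU (hF i) y hr0 (fun z hz => ?_)
    obtain ⟨h1, h2⟩ := hin y hy z hz
    exact ⟨h1, hb i z h1 h2⟩
  have hxr : x ∈ Metric.ball x r := Metric.mem_ball_self hr0
  have hmain := hasFDerivAt_tsum_of_isPreconnected (𝕜 := ℂ) (f := F)
    (f' := fun i y => fderiv ℂ (F i) y) (hbs.div_const r) Metric.isOpen_ball
    ((convex_ball x r).isPreconnected)
    (fun i y hy => ((hF i).differentiableAt
      (hU.mem_nhds (hin y hy y (by simp [hr0.le])).1)).hasFDerivAt)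
    hbd hxr (Summable.of_norm_bounded hbs (fun i => hb i x hx (by simp [hε.le]))) hxr
  exact hmain.differentiableAt.differentiableWithinAt

end Pool.Agent.RQ4
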