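import Pool.Agent.RQ4.TGau
import Pool.Agent.RQ4.TSum

/-!
# RQ4, THol: joint holomorphy of theta series in the period matrix and the argument
-/

set_option autoImplicit false

namespace Pool.Agent.RQ4

open Complex Finset

variable {ι : Type} [Fintype ι]

theorem th_hol {W : Type} [NormedAddCommGroup W] [NormedSpace ℂ W] {D : Set W} (hD : IsOpen D)
    {Om : W → ι → ι → ℂ} (hO : ∀ p q, DifferentiableOn ℂ (fun w => Om w p q) D)
    (hpos : ∀ w ∈ D, ∃ ε > 0, ∃ δ > 0, ∀ w' ∈ D, ‖w' - w‖ ≤ ε → Pos (Om w') δ) :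
    DifferentiableOn ℂ (fun x : W × (ι → ℂ) => th (Om x.1) x.2) (D ×ˢ Set.univ) := by
  unfold th
  refine diff_tsum (hD.prod isOpen_univ)
    (F := fun (m : ι → ℤ) (x : W × (ι → ℂ)) =>
      cexp (Real.pi * I * (∑ p, ∑ q, (m p : ℂ) * Om x.1 p q * (m q : ℂ)) +
        2 * Real.pi * I * ∑ p, (m p : ℂ) * x.2 p)) ?_ ?_
  · intro m
    have h1 : ∀ p q, DifferentiableOn ℂ (fun x : W × (ι → ℂ) => Om x.1 p q) (D ×ˢ Set.univ) := by
      intro p q
      exact (hO p q).comp differentiableOn_fst fun x hx => hx.1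
    have h2 : ∀ p, DifferentiableOn ℂ (fun x : W × (ι → ℂ) => x.2 p) (D ×ˢ Set.univ) := by
      intro p
      exact (((ContinuousLinearMap.proj p : (ι → ℂ) →L[ℂ] ℂ).comp
        (ContinuousLinearMap.snd ℂ W (ι → ℂ))).differentiable).differentiableOn
    refine DifferentiableOn.cexp (DifferentiableOn.add ?_ ?_)
    · refine DifferentiableOn.const_mul ?_ _
      refine DifferentiableOn.fun_sum fun p _ => DifferentiableOn.fun_sum fun q _ => ?_
      exact ((h1 p q).const_mul _).mul_const _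
    · refine DifferentiableOn.const_mul ?_ _
      refine DifferentiableOn.fun_sum fun p _ => ?_
      exact (h2 p).const_mul _
  · rintro ⟨w0, z0⟩ hx
    obtain ⟨ε, hε, δ, hδ, hp⟩ := hpos w0 hx.1
    refine ⟨min ε 1, lt_min hε one_pos,
      fun m => Real.exp (-((Real.pi * δ) * ∑ p, (m p : ℝ) ^ 2) +
        (2 * Real.pi * (‖z0‖ + 1)) * ∑ p, |(m p : ℝ)|),
      gau_sum (mul_pos Real.pi_pos hδ) _, ?_⟩
    rintro m ⟨w, z⟩ hy hyx
    have h1 : ‖w - w0‖ ≤ ‖(w, z) - (w0, z0)‖ := norm_fst_le ((w, z) - (w0, z0))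
    have h2 : ‖z - z0‖ ≤ ‖(w, z) - (w0, z0)‖ := norm_snd_le ((w, z) - (w0, z0))
    have h3 : Pos (Om w) δ := hp w hy.1 (h1.trans (hyx.trans (min_le_left _ _)))
    refine term_le h3 (fun p => ?_) m
    have h4 : ‖z - z0‖ ≤ 1 := h2.trans (hyx.trans (min_le_right _ _))
    have h5 : ‖z p‖ ≤ ‖z‖ := norm_le_pi_norm z p
    have h6 : ‖z‖ ≤ ‖z0‖ + ‖z - z0‖ := by
      have := norm_add_le z0 (z - z0)
      rwa [add_sub_cancel] at this
    exact (Complex.abs_im_le_norm _).trans (by linarith)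

end Pool.Agent.RQ4
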