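import Pool.Agent.RHK.Ent

/-!
# RQ4, TLoc: directional derivatives of holomorphic functions on open sets are holomorphic
-/

set_option autoImplicit false

namespace Pool.Agent.RQ4

open Complex Metric

private lemma TLoc_line {X : Type} [NormedAddCommGroup X] [NormedSpace ℂ X]
    {U : Set X} (hU : IsOpen U) {Φ : X → ℂ} (h : DifferentiableOn ℂ Φ U) (v w : X) (s : ℂ)
    (hs : v + s • w ∈ U) :
    HasDerivAt (fun t : ℂ => Φ (v + t • w)) (fderiv ℂ Φ (v + s • w) w) s := by
  have h1 : HasDerivAt (fun t : ℂ => v + t • w) w s := by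
    simpa using ((hasDerivAt_id s).smul_const w).const_add v
  exact ((h _ hs).differentiableAt (hU.mem_nhds hs)).hasFDerivAt.comp_hasDerivAt s h1

private lemma TLoc_bound {X : Type} [NormedAddCommGroup X] [NormedSpace ℂ X]
    {U : Set X} (hU : IsOpen U) {Φ : X → ℂ} (h : DifferentiableOn ℂ Φ U) (x : X) {R : ℝ}
    (hR : 0 < R) (hb : closedBall x R ⊆ U) (M : ℝ)
    (hM : ∀ y ∈ closedBall x R, ‖Φ y‖ ≤ M) : ‖fderiv ℂ Φ x‖ ≤ M / R := by
  have hM0 : 0 ≤ M := (norm_nonneg _).trans (hM x (mem_closedBall_self hR.le))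
  refine ContinuousLinearMap.opNorm_le_bound _ (div_nonneg hM0 hR.le) (fun u => ?_)
  by_cases hu : u = 0
  · simp [hu]
  have hu' : 0 < ‖u‖ := norm_pos_iff.2 hu
  have hmem : ∀ t ∈ closedBall (0 : ℂ) (R / ‖u‖), x + t • u ∈ closedBall x R := by
    intro t ht
    rw [mem_closedBall, dist_eq_norm, add_sub_cancel_left, norm_smul]
    rw [mem_closedBall, dist_eq_norm, sub_zero] at ht
    calc ‖t‖ * ‖u‖ ≤ R / ‖u‖ * ‖u‖ := mul_le_mul_of_nonneg_right ht hu'.le
      _ = R := div_mul_cancel₀ _ hu'.ne'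
  have h1 := TLoc_line hU h x u 0 (by
    rw [zero_smul, add_zero]; exact hb (mem_closedBall_self hR.le))
  rw [zero_smul, add_zero] at h1
  have h2 : DiffContOnCl ℂ (fun t : ℂ => Φ (x + t • u)) (ball 0 (R / ‖u‖)) := by
    refine DifferentiableOn.diffContOnCl (fun s hs => ?_)
    have hs' := closure_ball_subset_closedBall hs
    exact (TLoc_line hU h x u s (hb (hmem s hs'))).differentiableAt.differentiableWithinAt
  have h3 := Complex.norm_deriv_le_of_forall_mem_sphere_norm_le (c := 0) (R := R / ‖u‖) (C := M)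
    (div_pos hR hu') h2 (fun z hz => hM _ (hmem z (sphere_subset_closedBall hz)))
  rw [h1.deriv] at h3
  calc ‖fderiv ℂ Φ x u‖ ≤ M / (R / ‖u‖) := h3
    _ = M / R * ‖u‖ := by rw [div_div_eq_mul_div, mul_div_right_comm]

private lemma TLoc_at {X : Type} [NormedAddCommGroup X] [NormedSpace ℂ X] [FiniteDimensional ℂ X]
    {U : Set X} (hU : IsOpen U) {Φ : X → ℂ} (h : DifferentiableOn ℂ Φ U) (x₀ : X) {R : ℝ}
    (hR : 0 < R) (hb : closedBall x₀ (3 * R) ⊆ U) (w : X) (hw : ‖w‖ ≤ R) :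
    DifferentiableAt ℂ (fun v => fderiv ℂ Φ v w) x₀ := by
  haveI : ProperSpace X := FiniteDimensional.proper ℂ X
  haveI : ProperSpace (X →L[ℂ] ℂ) := FiniteDimensional.proper ℂ (X →L[ℂ] ℂ)
  letI : MeasurableSpace X := borel X
  haveI : BorelSpace X := ⟨rfl⟩
  set c : ℝ → ℂ := fun θ => deriv (circleMap 0 1) θ * (1 / (circleMap 0 1 θ - 0) ^ 2) with hc
  have hcm : ∀ θ, ‖circleMap 0 1 θ‖ = 1 := fun θ => by simp
  have hcn : ∀ θ, ‖c θ‖ = 1 := fun θ => by
    rw [hc]; simp
  have hne : ∀ θ, circleMap 0 1 θ ≠ 0 := fun θ h0 => by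
    have := hcm θ
    rw [h0] at this
    simp at this
  have hcc : Continuous c := by
    rw [hc]
    have e : (fun θ => deriv (circleMap 0 1) θ * (1 / (circleMap 0 1 θ - 0) ^ 2)) =
        fun θ : ℝ => (circleMap 0 1 θ * I) * (1 / (circleMap 0 1 θ - 0) ^ 2) := by
      funext θ; rw [deriv_circleMap]
    rw [e]
    have h1 : Continuous (circleMap 0 1) := continuous_circleMap 0 1
    refine (h1.mul continuous_const).mul (continuous_const.div ((h1.sub continuous_const).pow 2) ?_)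
    intro θ
    rw [sub_zero]
    exact pow_ne_zero _ (hne θ)
  -- points of the circles lie in the ball of radius `2R`
  have hmem : ∀ v ∈ ball x₀ R, ∀ t : ℂ, ‖t‖ ≤ 1 → v + t • w ∈ closedBall x₀ (2 * R) := by
    intro v hv t ht
    rw [mem_ball, dist_eq_norm] at hv
    rw [mem_closedBall, dist_eq_norm]
    have e : v + t • w - x₀ = (v - x₀) + t • w := by abel
    rw [e]
    refine (norm_add_le _ _).trans ?_
    have h1 : ‖t • w‖ ≤ R := by
      rw [norm_smul]
      calc ‖t‖ * ‖w‖ ≤ 1 * R := mul_le_mul ht hw (norm_nonneg _) zero_le_one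
        _ = R := one_mul R
    linarith
  have hUb : ∀ v ∈ ball x₀ R, ∀ t : ℂ, ‖t‖ ≤ 1 → v + t • w ∈ U := fun v hv t ht =>
    hb (closedBall_subset_closedBall (by linarith) (hmem v hv t ht))
  have hint : ∀ v ∈ ball x₀ R, fderiv ℂ Φ v w = (2 * Real.pi * I)⁻¹ *
      ∫ θ in (0 : ℝ)..2 * Real.pi, c θ * Φ (v + circleMap 0 1 θ • w) := by
    intro v hv
    have h2 : DifferentiableOn ℂ (fun t : ℂ => Φ (v + t • w)) (closedBall 0 1) := fun s hs =>
      (TLoc_line hU h v w s (hUb v hv s (by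
        rwa [mem_closedBall, dist_eq_norm, sub_zero] at hs))).differentiableAt.differentiableWithinAt
    have h3 := h2.deriv_eq_smul_circleIntegral (c := 0) (R := 1) one_pos
    have h4 := (TLoc_line hU h v w 0 (hUb v hv 0 (by simp))).deriv
    rw [zero_smul, add_zero] at h4
    rw [h4, smul_eq_mul] at h3
    have h5 : (∮ z in C(0, 1), (1 / (z - 0) ^ 2) • Φ (v + z • w)) =
        ∫ θ in (0 : ℝ)..2 * Real.pi, c θ * Φ (v + circleMap 0 1 θ • w) := by
      rw [circleIntegral]
      refine intervalIntegral.integral_congr (fun θ _ => ?_)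
      simp only [smul_eq_mul, hc]
      ring
    rw [h5] at h3
    rw [h3, inv_mul_cancel_left₀]
    exact Complex.two_pi_I_ne_zero
  have hfun : (fun v => fderiv ℂ Φ v w) =ᶠ[nhds x₀] fun v => (2 * Real.pi * I)⁻¹ *
      ∫ θ in (0 : ℝ)..2 * Real.pi, c θ * Φ (v + circleMap 0 1 θ • w) := by
    filter_upwards [ball_mem_nhds x₀ hR] with v hv using hint v hv
  rw [hfun.differentiableAt_iff]
  refine DifferentiableAt.const_mul ?_ _
  obtain ⟨M, hM⟩ := (isCompact_closedBall x₀ (3 * R)).exists_bound_of_continuousOn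
    (f := Φ) (h.continuousOn.mono hb)
  have hcs : Continuous (fun θ : ℝ => circleMap 0 1 θ • w) :=
    (continuous_circleMap 0 1).smul continuous_const
  have hcF : ∀ x ∈ ball x₀ R, Continuous fun θ : ℝ => c θ * Φ (x + circleMap 0 1 θ • w) := by
    intro x hx
    refine hcc.mul (h.continuousOn.comp_continuous (continuous_const.add hcs) (fun θ => ?_))
    exact hUb x hx _ (hcm θ).le
  have hx₀ : x₀ ∈ ball x₀ R := mem_ball_self hR
  have key := intervalIntegral.hasFDerivAt_integral_of_dominated_of_fderiv_le (𝕜 := ℂ)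
    (μ := MeasureTheory.volume) (a := 0) (b := 2 * Real.pi)
    (F := fun (x : X) (θ : ℝ) => c θ * Φ (x + circleMap 0 1 θ • w))
    (F' := fun (x : X) (θ : ℝ) => c θ • fderiv ℂ Φ (x + circleMap 0 1 θ • w))
    (x₀ := x₀) (s := ball x₀ R) (bound := fun _ => M / R) (ball_mem_nhds x₀ hR)
    ?_ ?_ ?_ ?_ ?_ ?_
  · exact key.differentiableAt
  · filter_upwards [ball_mem_nhds x₀ hR] with x hx
    exact (hcF x hx).aestronglyMeasurable
  · exact (hcF x₀ hx₀).intervalIntegrable _ _
  · refine Measurable.aestronglyMeasurable ?_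
    refine hcc.measurable.smul ?_
    exact (measurable_fderiv ℂ Φ).comp (continuous_const.add hcs).measurable
  · refine Filter.Eventually.of_forall (fun θ _ x hx => ?_)
    rw [norm_smul, hcn, one_mul]
    have h1 := hmem x hx _ (hcm θ).le
    have h2 : closedBall (x + circleMap 0 1 θ • w) R ⊆ closedBall x₀ (3 * R) := by
      refine closedBall_subset_closedBall' ?_
      rw [mem_closedBall] at h1
      linarith
    exact TLoc_bound hU h _ hR (h2.trans hb) M (fun y hy => hM y (h2 hy))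
  · exact intervalIntegrable_const
  · refine Filter.Eventually.of_forall (fun θ _ x hx => ?_)
    have h1 : HasFDerivAt (fun x : X => x + circleMap 0 1 θ • w) (ContinuousLinearMap.id ℂ X) x :=
      (hasFDerivAt_id x).add_const _
    have h0 := hUb x hx _ (hcm θ).le
    have h2 := ((h _ h0).differentiableAt (hU.mem_nhds h0)).hasFDerivAt.comp x h1
    rw [ContinuousLinearMap.comp_id] at h2
    exact h2.const_mul (c θ)

theorem diffOn_fderiv {X : Type} [NormedAddCommGroup X] [NormedSpace ℂ X] [FiniteDimensional ℂ X]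
    {U : Set X} (hU : IsOpen U) {Φ : X → ℂ} (h : DifferentiableOn ℂ Φ U) (w : X) :
    DifferentiableOn ℂ (fun v => fderiv ℂ Φ v w) U := by
  intro x₀ hx₀
  refine DifferentiableAt.differentiableWithinAt ?_
  by_cases hw : w = 0
  · subst hw
    simp
  have hw' : 0 < ‖w‖ := norm_pos_iff.2 hw
  obtain ⟨ε, hε, hb⟩ := Metric.nhds_basis_closedBall.mem_iff.1 (hU.mem_nhds hx₀)
  have hR : 0 < ε / 3 := by positivity
  have hb' : closedBall x₀ (3 * (ε / 3)) ⊆ U := by
    rwa [mul_div_cancel₀ ε (three_ne_zero)]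
  have hs : (((ε / 3 / ‖w‖ : ℝ)) : ℂ) ≠ 0 := by
    rw [Complex.ofReal_ne_zero]
    exact (div_pos hR hw').ne'
  have h1 := TLoc_at hU h x₀ hR hb' ((((ε / 3 / ‖w‖ : ℝ)) : ℂ) • w) (by
    rw [norm_smul, Complex.norm_real, Real.norm_of_nonneg (div_pos hR hw').le,
      div_mul_cancel₀ _ hw'.ne'])
  have h2 : (fun v => fderiv ℂ Φ v w) = fun v => (((ε / 3 / ‖w‖ : ℝ)) : ℂ)⁻¹ *
      fderiv ℂ Φ v ((((ε / 3 / ‖w‖ : ℝ)) : ℂ) • w) := by
    funext v
    rw [map_smul, smul_eq_mul, inv_mul_cancel_left₀ hs]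
  rw [h2]
  exact h1.const_mul _

end Pool.Agent.RQ4
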