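import Pool.Agent.RQ4.UTw
import Pool.Agent.RQ4.THol
import Pool.Agent.RQ4.TLoc

/-!
# RQ4, UHol: holomorphy of the sections `tK c` and of the gradient determinants `Wr c c'`

PLAN. `tw_hol`: `tw w u = th (Om w) (zc w u) * cexp (qw w u)`; compose `th_hol` (with `Om_diff`,
`Om_local`, `Di_open`) with `w ↦ (w, zc w u)`, holomorphic on `Di`. `gp_eq` (checked numerically):
`sc (ut τ) p = fr p.1 s * sg p.2 s * Re τ_(p.2)`, `tc (ut τ) p = fdr p.1 s * c s * Im τ_(p.2)`;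
by `zl_eq`-type computation `zc w (P + ut τ) = zc w P + (τ p.2 * fr p.1 s * sg p.2 s)` because at the
place `s ∉ R` (`wx = 0`) `om2 0 s = i/c_s (1 resp. r_s² = ν_s)`; then expand
`qw w (P + ut τ) = qw w P + 2πi ∑ t(ut τ)_p zc w P p - (terms) ...` and use `dual2`
(`∑_k fdr k s * fr k i = δ`). Alternatively check the identity of the exponents by comparing
`qw w (P + ut τ) + π/2 Hs τ τ - πi Im Hs τ (ps P)` with the right side after the substitution
`zc w P (k,α) = sc P + ...`, `∑_k fdr k s * zc w P (k,α) = zl_eq`.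
`gp_hol`: from `gp_eq` and `th_hol`. `gd_hol`: `gd w P τ = fderiv ℂ (fun x => gp x.1 P x.2) (w,0) (0,τ)`
(chain rule for `τ ↦ (w, τ)`), `diffOn_fderiv` (`TLoc`). `gd_contP`: continuity in `P`: Cauchy formula or
`gp_eq` with `P` varying: the function `(z, β, τ) ↦ th (Om w)(z + ..τ) cexp(β(τ))` is entire in all its
arguments, so its `τ`-derivative is continuous in the parameters (`ContDiff`/`diffOn_fderiv` on `univ`),
and `zc w P`, `Im P` are continuous in `P`.
-/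

set_option autoImplicit false

namespace Pool.Agent.RQ4

open Complex ComplexConjugate Finset

namespace Dat

variable {K : Type} [Field K] [NumberField K] {g : ℕ} (d : Dat K g)

/-! ### algebra at the place `s` -/

private theorem uh_sc_ut (τ : Fin 2 → ℂ) (p : Ix g) :
    d.sc (d.ut τ) p = d.fr p.1 d.s * d.sg p.2 d.s * (τ p.2).re := by
  unfold Dat.sc Dat.ut
  rw [Finset.sum_eq_single d.s]
  · simp only [if_true]
  · intro i _ hi
    simp only [if_neg hi, Complex.zero_re, mul_zero]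
  · intro h
    exact absurd (Finset.mem_univ _) h

private theorem uh_tc_ut (τ : Fin 2 → ℂ) (p : Ix g) :
    d.tc (d.ut τ) p = d.fdr p.1 d.s * d.c d.s * (τ p.2).im := by
  unfold Dat.tc Dat.ut
  rw [Finset.sum_eq_single d.s]
  · simp only [if_true]
  · intro i _ hi
    simp only [if_neg hi, Complex.zero_im, mul_zero]
  · intro h
    exact absurd (Finset.mem_univ _) h

private theorem uh_wx (w : d.R → ℂ) : d.wx w d.s = 0 := by
  unfold Dat.wx
  rw [dif_neg d.hs]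

private theorem uh_om2 (al be : Fin 2) :
    d.om2 0 d.s al be = if al = be then I / d.c d.s * d.sg al d.s else 0 := by
  unfold Dat.om2 Dat.sg
  by_cases h : al = be
  · rw [if_pos h, if_pos h]
    by_cases h0 : al = 0
    · rw [if_pos h0, if_pos h0]
      push_cast
      ring
    · rw [if_neg h0, if_neg h0, ← d.r_sqN d.hs]
      push_cast
      ring
  · rw [if_neg h, if_neg h]
    ring

private theorem uh_dual (i i' : Fin g) :
    ∑ k, (d.fdr k i : ℂ) * d.fr k i' = if i = i' then 1 else 0 := by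
  have h := d.dual2 i i'
  have h2 := congrArg (fun x : ℝ => (x : ℂ)) h
  push_cast at h2
  rw [h2]
  split_ifs
  · rw [Complex.ofReal_one]
  · rw [Complex.ofReal_zero]

private theorem uh_Om_ut (w : d.R → ℂ) (τ : Fin 2 → ℂ) (p : Ix g) :
    ∑ q, d.Om w p q * (d.tc (d.ut τ) q : ℂ) =
      d.fr p.1 d.s * d.sg p.2 d.s * (I * ((τ p.2).im : ℂ)) := by
  have hc : (d.c d.s : ℂ) ≠ 0 := by exact_mod_cast (d.c_pos d.s).ne'
  have h1 : ∀ be : Fin 2, ∑ k : Fin g, d.Om w p (k, be) * (d.tc (d.ut τ) (k, be) : ℂ) =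
      d.fr p.1 d.s * d.om2 0 d.s p.2 be * (d.c d.s * ((τ be).im : ℂ)) := by
    intro be
    have h2 : ∀ k : Fin g, d.Om w p (k, be) * (d.tc (d.ut τ) (k, be) : ℂ) =
        ∑ i, (d.fr p.1 i : ℂ) * d.om2 (d.wx w i) i p.2 be * (d.c d.s * ((τ be).im : ℂ)) *
          ((d.fdr k d.s : ℂ) * d.fr k i) := by
      intro k
      rw [d.uh_tc_ut]
      unfold Dat.Om
      rw [Finset.sum_mul]
      refine Finset.sum_congr rfl fun i _ => ?_
      push_cast
      ring
    simp only [h2]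
    rw [Finset.sum_comm]
    simp only [← Finset.mul_sum, d.uh_dual]
    rw [Finset.sum_eq_single d.s]
    · rw [if_pos rfl, d.uh_wx]
      ring
    · intro i _ hi
      rw [if_neg (Ne.symm hi), mul_zero]
    · intro h
      exact absurd (Finset.mem_univ _) h
  rw [Fintype.sum_prod_type_right]
  simp only [h1, d.uh_om2]
  rw [Finset.sum_eq_single p.2]
  · rw [if_pos rfl]
    field_simp
  · intro be _ hbe
    rw [if_neg (Ne.symm hbe)]
    ring
  · intro h
    exact absurd (Finset.mem_univ _) h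

private theorem uh_zc (w : d.R → ℂ) (P : Vs g) (τ : Fin 2 → ℂ) (p : Ix g) :
    d.zc w (P + d.ut τ) p = d.zc w P p + τ p.2 * d.fr p.1 d.s * d.sg p.2 d.s := by
  have h1 := d.uh_Om_ut w τ p
  have h2 : ∑ q, d.Om w p q * (d.tc (P + d.ut τ) q : ℂ) =
      ∑ q, d.Om w p q * (d.tc P q : ℂ) + ∑ q, d.Om w p q * (d.tc (d.ut τ) q : ℂ) := by
    rw [← Finset.sum_add_distrib]
    refine Finset.sum_congr rfl fun q _ => ?_
    rw [d.tc_add]
    push_cast
    ring
  unfold Dat.zc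
  rw [h2, h1, d.sc_add, d.uh_sc_ut]
  push_cast
  have h3 : τ p.2 = ((τ p.2).re : ℂ) + ((τ p.2).im : ℂ) * I := (Complex.re_add_im _).symm
  linear_combination (-(d.fr p.1 d.s : ℂ) * d.sg p.2 d.s) * h3

private theorem uh_qw (w : d.R → ℂ) (u : Vs g) :
    d.qw w u = Real.pi * I * ∑ p, (d.tc u p : ℂ) * d.zc w u p := by
  unfold Dat.qw Dat.zc
  rw [← Finset.sum_add_distrib]
  congr 1
  refine Finset.sum_congr rfl fun p _ => ?_
  rw [mul_add, Finset.mul_sum, add_comm]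
  congr 1
  · ring
  · refine Finset.sum_congr rfl fun q _ => ?_
    ring

private theorem uh_tcfr (u : Vs g) (i : Fin g) (al : Fin 2) :
    ∑ k, (d.tc u (k, al) : ℂ) * d.fr k i = d.c i * ((u (i, al)).im : ℂ) := by
  have h1 : ∀ k : Fin g, (d.tc u (k, al) : ℂ) * d.fr k i =
      ∑ j, (d.c j : ℂ) * ((u (j, al)).im : ℂ) * ((d.fdr k j : ℂ) * d.fr k i) := by
    intro k
    unfold Dat.tc
    push_cast
    rw [Finset.sum_mul]
    refine Finset.sum_congr rfl fun j _ => ?_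
    ring
  simp only [h1]
  rw [Finset.sum_comm]
  simp only [← Finset.mul_sum, d.uh_dual]
  rw [Finset.sum_eq_single i]
  · rw [if_pos rfl, mul_one]
  · intro j _ hj
    rw [if_neg hj, mul_zero]
  · intro h
    exact absurd (Finset.mem_univ _) h

private theorem uh_zl (w : d.R → ℂ) (P : Vs g) (al : Fin 2) :
    ∑ k, (d.fdr k d.s : ℂ) * d.zc w P (k, al) = d.sg al d.s * P (d.s, al) := by
  have hc : (d.c d.s : ℂ) ≠ 0 := by exact_mod_cast (d.c_pos d.s).ne'
  have h := d.zl_eq w P d.s al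
  unfold Dat.zl at h
  rw [h, d.uh_wx]
  simp only [d.uh_om2]
  rw [Finset.sum_eq_single al]
  · rw [if_pos rfl]
    have h3 : P (d.s, al) = ((P (d.s, al)).re : ℂ) + ((P (d.s, al)).im : ℂ) * I :=
      (Complex.re_add_im _).symm
    push_cast
    field_simp
    linear_combination (-(d.sg al d.s : ℂ)) * h3
  · intro be _ hbe
    rw [if_neg (Ne.symm hbe), zero_mul]
  · intro h
    exact absurd (Finset.mem_univ _) h

private theorem uh_qw_ut (w : d.R → ℂ) (P : Vs g) (τ : Fin 2 → ℂ) :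
    d.qw w (P + d.ut τ) = d.qw w P + Real.pi * I * ∑ al, (d.c d.s : ℂ) * d.sg al d.s *
      (τ al * ((P (d.s, al)).im : ℂ) + ((τ al).im : ℂ) * P (d.s, al) + ((τ al).im : ℂ) * τ al) := by
  rw [d.uh_qw, d.uh_qw]
  simp only [d.uh_zc, d.tc_add]
  have h1 : ∀ p : Ix g, (((d.tc P p + d.tc (d.ut τ) p : ℝ)) : ℂ) *
      (d.zc w P p + τ p.2 * d.fr p.1 d.s * d.sg p.2 d.s) =
      (d.tc P p : ℂ) * d.zc w P p +
      ((τ p.2 * d.sg p.2 d.s) * ((d.tc P p : ℂ) * d.fr p.1 d.s) +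
      (d.c d.s * ((τ p.2).im : ℂ)) * ((d.fdr p.1 d.s : ℂ) * d.zc w P p) +
      (d.c d.s * ((τ p.2).im : ℂ) * (τ p.2 * d.sg p.2 d.s)) *
        ((d.fdr p.1 d.s : ℂ) * d.fr p.1 d.s)) := by
    intro p
    rw [d.uh_tc_ut]
    push_cast
    ring
  simp only [h1]
  rw [Finset.sum_add_distrib, mul_add]
  congr 2
  rw [Fintype.sum_prod_type_right]
  refine Finset.sum_congr rfl fun al _ => ?_
  simp only
  rw [Finset.sum_add_distrib, Finset.sum_add_distrib, ← Finset.mul_sum, ← Finset.mul_sum,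
    ← Finset.mul_sum, d.uh_tcfr, d.uh_zl, d.uh_dual, if_pos rfl]
  ring

private theorem uh_one (c σ : ℝ) (t p : ℂ) :
    Real.pi * I * ((c : ℂ) * σ * (t * (p.im : ℂ) + (t.im : ℂ) * p + (t.im : ℂ) * t)) +
      Real.pi / 2 * ((c : ℂ) * (σ * (t * conj t))) -
      Real.pi * I * ((c * (σ * (t * conj p).im) : ℝ) : ℂ) =
      ((Real.pi / 2 * c : ℝ) : ℂ) * (σ * t ^ 2) + 2 * Real.pi * I * c * (σ * (p.im : ℂ) * t) := by
  obtain ⟨x, y⟩ := t
  obtain ⟨a, b⟩ := p
  apply Complex.ext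
  · simp [pow_two]
    ring
  · simp [pow_two]
    ring

private theorem uh_Hs (τ τ' : Fin 2 → ℂ) :
    d.Hs τ τ' = d.c d.s * (d.sg 0 d.s * (τ 0 * conj (τ' 0))) +
      d.c d.s * (d.sg 1 d.s * (τ 1 * conj (τ' 1))) := by
  unfold Dat.Hs Dat.sg
  simp
  ring

private theorem uh_Hs_im (τ τ' : Fin 2 → ℂ) :
    (d.Hs τ τ').im = d.c d.s * (d.sg 0 d.s * (τ 0 * conj (τ' 0)).im) +
      d.c d.s * (d.sg 1 d.s * (τ 1 * conj (τ' 1)).im) := by
  rw [d.uh_Hs, Complex.add_im]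
  simp only [Complex.im_ofReal_mul]

private theorem uh_zc_hol (u : Vs g) (p : Ix g) :
    DifferentiableOn ℂ (fun w => d.zc w u p) d.Di := by
  unfold Dat.zc
  exact (DifferentiableOn.fun_sum fun q _ => (d.Om_diff p q).mul_const _).const_add _

private theorem uh_qw_hol (u : Vs g) : DifferentiableOn ℂ (fun w => d.qw w u) d.Di := by
  unfold Dat.qw
  refine DifferentiableOn.const_mul (DifferentiableOn.add_const _ ?_) _
  exact DifferentiableOn.fun_sum fun p _ => DifferentiableOn.fun_sum fun q _ =>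
    ((d.Om_diff p q).const_mul _).mul_const _

private theorem uh_th_hol : DifferentiableOn ℂ
    (fun x : (d.R → ℂ) × (Ix g → ℂ) => th (d.Om x.1) x.2) (d.Di ×ˢ Set.univ) :=
  th_hol d.Di_open (fun p q => d.Om_diff p q) d.Om_local

theorem tw_hol (u : Vs g) : DifferentiableOn ℂ (fun w => d.tw w u) d.Di := by
  have h1 : DifferentiableOn ℂ (fun w : d.R → ℂ => (w, d.zc w u)) d.Di :=
    differentiableOn_id.prodMk (differentiableOn_pi.2 fun p => d.uh_zc_hol u p)
  have h2 := d.uh_th_hol.comp h1 (fun w hw => ⟨hw, Set.mem_univ _⟩)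
  exact h2.mul (d.uh_qw_hol u).cexp

theorem gp_eq {w : d.R → ℂ} (P : Vs g) (τ : Fin 2 → ℂ) : d.gp w P τ =
    th (d.Om w) (fun p => d.zc w P p + τ p.2 * d.fr p.1 d.s * d.sg p.2 d.s) *
      cexp (d.qw w P + (Real.pi / 2 * d.c d.s : ℝ) * (∑ al, (d.sg al d.s : ℂ) * τ al ^ 2) +
        2 * Real.pi * I * d.c d.s * ∑ al, (d.sg al d.s : ℂ) * ((P (d.s, al)).im : ℂ) * τ al) := by
  have hz : d.zc w (P + d.ut τ) =
      fun p => d.zc w P p + τ p.2 * d.fr p.1 d.s * d.sg p.2 d.s := funext fun p => d.uh_zc w P τ p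
  unfold Dat.gp Dat.tw
  rw [hz, mul_assoc, ← Complex.exp_add, d.uh_qw_ut, d.uh_Hs_im, d.uh_Hs]
  congr 2
  have h0 := uh_one (d.c d.s) (d.sg 0 d.s) (τ 0) (P (d.s, 0))
  have h1 := uh_one (d.c d.s) (d.sg 1 d.s) (τ 1) (P (d.s, 1))
  unfold Dat.ps
  rw [Fin.sum_univ_two, Fin.sum_univ_two, Fin.sum_univ_two]
  push_cast at h0 h1 ⊢
  linear_combination h0 + h1

theorem gp_hol (P : Vs g) :
    DifferentiableOn ℂ (fun x : (d.R → ℂ) × (Fin 2 → ℂ) => d.gp x.1 P x.2) (d.Di ×ˢ Set.univ) := by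
  have hfst : Set.MapsTo (fun x : (d.R → ℂ) × (Fin 2 → ℂ) => x.1) (d.Di ×ˢ Set.univ) d.Di :=
    fun x hx => hx.1
  have hf : DifferentiableOn ℂ (fun x : (d.R → ℂ) × (Fin 2 → ℂ) => x.1) (d.Di ×ˢ Set.univ) :=
    differentiable_fst.differentiableOn
  have hs : ∀ al : Fin 2, DifferentiableOn ℂ (fun x : (d.R → ℂ) × (Fin 2 → ℂ) => x.2 al)
      (d.Di ×ˢ Set.univ) := fun al =>
    ((differentiable_pi.1 differentiable_snd) al).differentiableOn
  have h1 : DifferentiableOn ℂ (fun x : (d.R → ℂ) × (Fin 2 → ℂ) =>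
      (x.1, fun p : Ix g => d.zc x.1 P p + x.2 p.2 * d.fr p.1 d.s * d.sg p.2 d.s))
      (d.Di ×ˢ Set.univ) := by
    refine hf.prodMk (differentiableOn_pi.2 fun p => ?_)
    exact ((d.uh_zc_hol P p).comp hf hfst).add (((hs p.2).mul_const _).mul_const _)
  have h2 := d.uh_th_hol.comp h1 (fun x hx => ⟨hx.1, Set.mem_univ _⟩)
  have h3 : DifferentiableOn ℂ (fun x : (d.R → ℂ) × (Fin 2 → ℂ) =>
      d.qw x.1 P + (Real.pi / 2 * d.c d.s : ℝ) * (∑ al, (d.sg al d.s : ℂ) * x.2 al ^ 2) +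
        2 * Real.pi * I * d.c d.s * ∑ al, (d.sg al d.s : ℂ) * ((P (d.s, al)).im : ℂ) * x.2 al)
      (d.Di ×ˢ Set.univ) := by
    refine (((d.uh_qw_hol P).comp hf hfst).add (DifferentiableOn.const_mul ?_ _)).add
      (DifferentiableOn.const_mul ?_ _)
    · exact DifferentiableOn.fun_sum fun al _ => ((hs al).pow 2).const_mul _
    · exact DifferentiableOn.fun_sum fun al _ => (hs al).const_mul _
  refine (h2.mul h3.cexp).congr fun x _ => ?_
  rw [d.gp_eq]
  rfl

private theorem uh_open : IsOpen (d.Di ×ˢ (Set.univ : Set (Fin 2 → ℂ))) :=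
  d.Di_open.prod isOpen_univ

theorem gp_diff {w : d.R → ℂ} (hw : w ∈ d.Di) (P : Vs g) : Differentiable ℂ (d.gp w P) := by
  intro τ
  have h1 : DifferentiableAt ℂ (fun x : (d.R → ℂ) × (Fin 2 → ℂ) => d.gp x.1 P x.2) (w, τ) :=
    (d.gp_hol P).differentiableAt (d.uh_open.mem_nhds ⟨hw, Set.mem_univ _⟩)
  have h2 : DifferentiableAt ℂ (fun τ : Fin 2 → ℂ => (w, τ)) τ :=
    (differentiableAt_const w).prodMk differentiableAt_id
  have h3 := DifferentiableAt.comp τ h1 h2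
  have h7 : (fun x : (d.R → ℂ) × (Fin 2 → ℂ) => d.gp x.1 P x.2) ∘ (fun τ : Fin 2 → ℂ => (w, τ)) =
      d.gp w P := rfl
  rw [h7] at h3
  exact h3

theorem gd_hol (P : Vs g) (τ : Fin 2 → ℂ) : DifferentiableOn ℂ (fun w => d.gd w P τ) d.Di := by
  have h1 := diffOn_fderiv d.uh_open (d.gp_hol P) ((0 : d.R → ℂ), τ)
  have h2 : DifferentiableOn ℂ (fun w : d.R → ℂ => (w, (0 : Fin 2 → ℂ))) d.Di :=
    differentiableOn_id.prodMk (differentiableOn_const _)
  have h3 := h1.comp h2 (fun w hw => ⟨hw, Set.mem_univ _⟩)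
  refine h3.congr fun w hw => ?_
  have h4 : HasFDerivAt (fun x : (d.R → ℂ) × (Fin 2 → ℂ) => d.gp x.1 P x.2)
      (fderiv ℂ (fun x : (d.R → ℂ) × (Fin 2 → ℂ) => d.gp x.1 P x.2) (w, 0)) (w, 0) :=
    ((d.gp_hol P).differentiableAt (d.uh_open.mem_nhds ⟨hw, Set.mem_univ _⟩)).hasFDerivAt
  have h5 : HasFDerivAt (fun τ : Fin 2 → ℂ => (w, τ))
      (ContinuousLinearMap.inr ℂ (d.R → ℂ) (Fin 2 → ℂ)) 0 := by
    have := (hasFDerivAt_const w (0 : Fin 2 → ℂ)).prodMk (hasFDerivAt_id (𝕜 := ℂ) (0 : Fin 2 → ℂ))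
    exact this
  have h6 := HasFDerivAt.comp (g := fun x : (d.R → ℂ) × (Fin 2 → ℂ) => d.gp x.1 P x.2) 0 h4 h5
  unfold Dat.gd D1
  have h7 : (fun x : (d.R → ℂ) × (Fin 2 → ℂ) => d.gp x.1 P x.2) ∘ (fun τ : Fin 2 → ℂ => (w, τ)) =
      d.gp w P := rfl
  rw [h7] at h6
  rw [h6.fderiv]
  rfl

/-- the universal function -/
private noncomputable def uhPsi (w : d.R → ℂ) (x : (Ix g → ℂ) × (Fin 2 → ℂ) × (Fin 2 → ℂ)) : ℂ :=
  th (d.Om w) (fun p => x.1 p + x.2.2 p.2 * d.fr p.1 d.s * d.sg p.2 d.s) *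
    cexp ((Real.pi / 2 * d.c d.s : ℝ) * (∑ al, (d.sg al d.s : ℂ) * x.2.2 al ^ 2) +
      2 * Real.pi * I * d.c d.s * ∑ al, (d.sg al d.s : ℂ) * x.2.1 al * x.2.2 al)

private theorem uhPsi_diff {w : d.R → ℂ} (hw : w ∈ d.Di) : Differentiable ℂ (d.uhPsi w) := by
  obtain ⟨δ, hδ, hpos⟩ := d.Om_pt hw
  have hth := th_diff hδ hpos
  have ha : ∀ p, Differentiable ℂ (fun x : (Ix g → ℂ) × (Fin 2 → ℂ) × (Fin 2 → ℂ) => x.1 p) :=
    differentiable_pi.1 differentiable_fst
  have hb : ∀ al, Differentiable ℂ (fun x : (Ix g → ℂ) × (Fin 2 → ℂ) × (Fin 2 → ℂ) => x.2.1 al) :=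
    differentiable_pi.1 (differentiable_fst.comp differentiable_snd)
  have hc : ∀ al, Differentiable ℂ (fun x : (Ix g → ℂ) × (Fin 2 → ℂ) × (Fin 2 → ℂ) => x.2.2 al) :=
    differentiable_pi.1 (differentiable_snd.comp differentiable_snd)
  unfold uhPsi
  refine Differentiable.mul (hth.comp (differentiable_pi.2 fun p => ?_)) (Differentiable.cexp ?_)
  · exact (ha p).add (((hc p.2).mul_const _).mul_const _)
  · refine (Differentiable.const_mul ?_ _).add (Differentiable.const_mul ?_ _)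
    · exact Differentiable.fun_sum fun al _ => ((hc al).pow 2).const_mul _
    · exact Differentiable.fun_sum fun al _ => ((hb al).const_mul _).mul (hc al)

theorem gd_contP {w : d.R → ℂ} (hw : w ∈ d.Di) (τ : Fin 2 → ℂ) : Continuous fun P => d.gd w P τ := by
  have hΨ := d.uhPsi_diff hw
  have hcont : Continuous fun x : (Ix g → ℂ) × (Fin 2 → ℂ) × (Fin 2 → ℂ) =>
      fderiv ℂ (d.uhPsi w) x (0, 0, τ) := by
    have h1 := diffOn_fderiv isOpen_univ hΨ.differentiableOn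
      ((0 : Ix g → ℂ), (0 : Fin 2 → ℂ), τ)
    exact continuousOn_univ.1 h1.continuousOn
  have hz : Continuous fun P : Vs g => (d.zc w P : Ix g → ℂ) := by
    refine continuous_pi fun p => ?_
    unfold Dat.zc
    refine (Complex.continuous_ofReal.comp (d.continuous_sc p)).add ?_
    exact continuous_finsetSum _ fun q _ => continuous_const.mul
      (Complex.continuous_ofReal.comp (d.continuous_tc q))
  have hq : Continuous fun P : Vs g => d.qw w P := by
    unfold Dat.qw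
    refine continuous_const.mul (Continuous.add ?_ ?_)
    · exact continuous_finsetSum _ fun p _ => continuous_finsetSum _ fun q _ =>
        ((Complex.continuous_ofReal.comp (d.continuous_tc p)).mul continuous_const).mul
          (Complex.continuous_ofReal.comp (d.continuous_tc q))
    · exact continuous_finsetSum _ fun p _ => (Complex.continuous_ofReal.comp (d.continuous_sc p)).mul
          (Complex.continuous_ofReal.comp (d.continuous_tc p))
  have hβ : Continuous fun P : Vs g => (fun al : Fin 2 => ((P (d.s, al)).im : ℂ)) :=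
    continuous_pi fun al => Complex.continuous_ofReal.comp
      (Complex.continuous_im.comp (continuous_apply _))
  have hmain : ∀ P : Vs g, d.gd w P τ = cexp (d.qw w P) *
      fderiv ℂ (d.uhPsi w) (d.zc w P, (fun al : Fin 2 => ((P (d.s, al)).im : ℂ)), 0) (0, 0, τ) := by
    intro P
    have e1 : d.gp w P = fun τ => cexp (d.qw w P) *
        d.uhPsi w (d.zc w P, (fun al : Fin 2 => ((P (d.s, al)).im : ℂ)), τ) := by
      funext τ
      rw [d.gp_eq]
      unfold uhPsi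
      simp only
      rw [add_assoc, Complex.exp_add]
      ring
    set a : Ix g → ℂ := d.zc w P with ha
    set β : Fin 2 → ℂ := fun al : Fin 2 => ((P (d.s, al)).im : ℂ) with hβ'
    have h4 : HasFDerivAt (d.uhPsi w) (fderiv ℂ (d.uhPsi w) (a, β, 0)) (a, β, 0) :=
      (hΨ _).hasFDerivAt
    have h5 : HasFDerivAt (fun τ : Fin 2 → ℂ => (a, β, τ))
        ((ContinuousLinearMap.inr ℂ (Ix g → ℂ) ((Fin 2 → ℂ) × (Fin 2 → ℂ))).comp
          (ContinuousLinearMap.inr ℂ (Fin 2 → ℂ) (Fin 2 → ℂ))) 0 := by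
      have := (hasFDerivAt_const a (0 : Fin 2 → ℂ)).prodMk
        ((hasFDerivAt_const β (0 : Fin 2 → ℂ)).prodMk (hasFDerivAt_id (𝕜 := ℂ) (0 : Fin 2 → ℂ)))
      exact this
    have h6 := (HasFDerivAt.comp (0 : Fin 2 → ℂ) h4 h5).const_mul (cexp (d.qw w P))
    unfold Dat.gd D1
    rw [e1]
    have h7 : HasFDerivAt (fun τ => cexp (d.qw w P) * d.uhPsi w (a, β, τ)) _ 0 := h6
    rw [h7.fderiv]
    rfl
  rw [show (fun P => d.gd w P τ) = fun P => cexp (d.qw w P) *
      fderiv ℂ (d.uhPsi w) (d.zc w P, (fun al : Fin 2 => ((P (d.s, al)).im : ℂ)), 0) (0, 0, τ) from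
    funext hmain]
  refine (Complex.continuous_exp.comp hq).mul (hcont.comp ?_)
  exact hz.prodMk (hβ.prodMk continuous_const)

theorem tK_hol (c : Fin 2 → K) : DifferentiableOn ℂ (d.tK c) d.Di := d.tw_hol _

theorem Wr_hol (c c' : Fin 2 → K) : DifferentiableOn ℂ (d.Wr c c') d.Di :=
  ((d.gd_hol _ _).mul (d.gd_hol _ _)).sub ((d.gd_hol _ _).mul (d.gd_hol _ _))

private theorem uh_conj (τ τ' : Fin 2 → ℂ) : d.Hs τ' τ = conj (d.Hs τ τ') := by
  rw [d.uh_Hs, d.uh_Hs]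
  simp only [map_add, map_mul, Complex.conj_ofReal, Complex.conj_conj]
  ring

private theorem uh_Hs_add (τ τ' ρ : Fin 2 → ℂ) : d.Hs (τ + τ') ρ = d.Hs τ ρ + d.Hs τ' ρ := by
  rw [d.uh_Hs, d.uh_Hs, d.uh_Hs]
  simp only [Pi.add_apply]
  ring

private theorem uh_Hs_add' (τ τ' ρ : Fin 2 → ℂ) : d.Hs ρ (τ + τ') = d.Hs ρ τ + d.Hs ρ τ' := by
  rw [d.uh_Hs, d.uh_Hs, d.uh_Hs]
  simp only [Pi.add_apply, map_add]
  ring

/-- translation of the base point at the place `s` (pure algebra) -/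
theorem gp_shift (w : d.R → ℂ) (P : Vs g) (τ τ' : Fin 2 → ℂ) :
    d.gp w (P + d.ut τ') τ = d.gp w P (τ + τ') *
      cexp (-(Real.pi * d.Hs τ τ') - Real.pi / 2 * d.Hs τ' τ' +
        Real.pi * I * ((d.Hs τ' (d.ps P)).im : ℝ)) := by
  have h1 : P + d.ut τ' + d.ut τ = P + d.ut (τ + τ') := by
    funext p
    simp only [Pi.add_apply, Dat.ut]
    split_ifs
    · ring
    · ring
  have h2 : d.ps (P + d.ut τ') = d.ps P + τ' := by
    funext al
    simp [Dat.ps, Dat.ut]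
  unfold Dat.gp
  rw [h1, h2, mul_assoc (d.tw w (P + d.ut (τ + τ'))), ← Complex.exp_add]
  congr 2
  have h3 : d.Hs τ τ' - conj (d.Hs τ τ') = 2 * ((d.Hs τ τ').im : ℂ) * I := by
    have := Complex.sub_conj (d.Hs τ τ')
    rw [this]
    push_cast
    ring
  simp only [d.uh_Hs_add, d.uh_Hs_add', Complex.add_im]
  rw [d.uh_conj τ τ']
  push_cast
  linear_combination ((Real.pi : ℂ) / 2) * h3

end Dat

end Pool.Agent.RQ4
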