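import Pool.Agent.RQ4.UTw

/-!
# RQ4, UNm: the supremum norm

The theta functions `tw w` are bounded, locally uniformly in `w`, and their supremum is at least `1`.
-/

set_option autoImplicit false

namespace Pool.Agent.RQ4

open Complex ComplexConjugate Finset

namespace Dat

variable {K : Type} [Field K] [NumberField K] {g : ℕ} (d : Dat K g)

private theorem unm_rho {w : d.R → ℂ} (hw : w ∈ d.Di) :
    ∃ ρ : ℝ, 0 ≤ ρ ∧ ρ < 1 ∧ ∀ i, ‖w i‖ ≤ ρ :=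
  ⟨‖w‖, norm_nonneg _, (pi_norm_lt_iff one_pos).2 hw, fun i => norm_le_pi_norm w i⟩

private theorem unm_real (w : d.R → ℂ) (x : Ix g → ℝ) :
    d.tw w (d.vst x 0) = th (d.Om w) (fun p => (x p : ℂ)) := by
  have h1 : d.zc w (d.vst x 0) = fun p => (x p : ℂ) := by
    funext p
    unfold zc
    simp only [d.sc_vst, d.tc_vst]
    simp
  have h2 : d.qw w (d.vst x 0) = 0 := by
    unfold qw
    simp only [d.sc_vst, d.tc_vst]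
    simp
  unfold tw
  rw [h1, h2, Complex.exp_zero, mul_one]

theorem tw_le {ρ : ℝ} (h0 : 0 ≤ ρ) (h1 : ρ < 1) :
    ∃ C : ℝ, ∀ w : d.R → ℂ, (∀ i, ‖w i‖ ≤ ρ) → ∀ u, ‖d.tw w u‖ ≤ C := by
  obtain ⟨δ, hδ, hP⟩ := d.Om_pos h0 h1
  obtain ⟨C, hC⟩ := gau_shift (ι := Ix g) (δ := Real.pi * δ) (by positivity)
  refine ⟨C, fun w hw u => ?_⟩
  rw [d.tw_series w u]
  obtain ⟨hs, hle⟩ := hC (d.tc u)
  have hb : ∀ m : Ix g → ℤ, ‖cexp (Real.pi * I *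
        (∑ p, ∑ q, ((m p : ℂ) + d.tc u p) * d.Om w p q * ((m q : ℂ) + d.tc u q)) +
      2 * Real.pi * I * (∑ p, (m p : ℂ) * d.sc u p) + Real.pi * I * ∑ p, (d.sc u p : ℂ) * d.tc u p)‖ ≤
      Real.exp (-((Real.pi * δ) * ∑ p, ((m p : ℝ) + d.tc u p) ^ 2)) :=
    fun m => shift_le (hP w hw) (d.sc u) (d.tc u) m
  have hn := Summable.of_nonneg_of_le (fun m => norm_nonneg _) hb hs
  exact (norm_tsum_le_tsum_norm hn).trans ((hn.tsum_le_tsum hb hs).trans hle)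

theorem Nm_bdd {w : d.R → ℂ} (hw : w ∈ d.Di) : BddAbove (Set.range fun u : Vs g => ‖d.tw w u‖) := by
  obtain ⟨ρ, h0, h1, h2⟩ := unm_rho d hw
  obtain ⟨C, hC⟩ := d.tw_le h0 h1
  refine ⟨C, ?_⟩
  rintro _ ⟨u, rfl⟩
  exact hC w h2 u

theorem le_Nm {w : d.R → ℂ} (hw : w ∈ d.Di) (u : Vs g) : ‖d.tw w u‖ ≤ d.Nm w := by
  exact le_ciSup (d.Nm_bdd hw) u

theorem one_le_Nm {w : d.R → ℂ} (hw : w ∈ d.Di) : 1 ≤ d.Nm w := by
  obtain ⟨δ, hδ, hP⟩ := d.Om_pt hw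
  refine th_sup hδ hP fun x => ?_
  rw [← unm_real d w x]
  exact d.le_Nm hw _

theorem Nm_le {ρ : ℝ} (h0 : 0 ≤ ρ) (h1 : ρ < 1) :
    ∃ C : ℝ, ∀ w : d.R → ℂ, (∀ i, ‖w i‖ ≤ ρ) → d.Nm w ≤ C := by
  obtain ⟨C, hC⟩ := d.tw_le h0 h1
  exact ⟨C, fun w hw => ciSup_le fun u => hC w hw u⟩

end Dat

end Pool.Agent.RQ4
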