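import Pool.Agent.RQ4.UGam
import Pool.Agent.RQ4.UHol
import Pool.Agent.RQ4.UNm

/-!
# RQ4, UAut: automorphy of the sections (end of block U)
-/

set_option autoImplicit false

namespace Pool.Agent.RQ4

open Complex ComplexConjugate Finset

namespace Dat

variable {K : Type} [Field K] [NumberField K] {g : ℕ} (d : Dat K g)

private theorem uaut_sign (n k : ℤ) : (-1 : ℂ) ^ (n + 2 * k) = (-1) ^ n := by
  rw [zpow_add₀ (by norm_num), zpow_mul]
  norm_num

theorem tw_act {x y : K} (h : d.G1 x y) {w : d.R → ℂ} (hw : w ∈ d.Di)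
    (hl : ∀ a b : Ix g → ℤ, ∃ a' b' : Ix g → ℤ,
      d.gv x y (d.lat a b) = d.lat (fun p => a p + 2 * a' p) (fun p => b p + 2 * b' p)) :
    ∃ lam : ℂ, ∀ u, d.tw w (d.gv x y u) = lam * d.tw (d.wg w x y) u := by
  have hw' : d.wg w x y ∈ d.Di := d.wg_mem h hw
  obtain ⟨hq, G, hG, hGe⟩ := d.isT_tw hw
  apply d.isT_unique hw' (f := fun u => d.tw w (d.gv x y u))
  refine ⟨fun a b u => ?_, fun l => G (d.Mg x y w l), hG.comp (d.Mg_diff x y w), fun u => ?_⟩
  · obtain ⟨a', b', hab⟩ := hl a b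
    have hE : d.E (d.gv x y u) (d.lat (fun p => a p + 2 * a' p) (fun p => b p + 2 * b' p)) =
        d.E u (d.lat a b) := by rw [← hab, d.E_act h]
    have hs : ((-1 : ℂ)) ^ (∑ p, (a p + 2 * a' p) * (b p + 2 * b' p)) =
        (-1) ^ (∑ p, a p * b p) := by
      have : (∑ p, (a p + 2 * a' p) * (b p + 2 * b' p)) =
          (∑ p, a p * b p) + 2 * ∑ p, (a p * b' p + a' p * b p + 2 * (a' p * b' p)) := by
        rw [Finset.mul_sum, ← Finset.sum_add_distrib]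
        exact Finset.sum_congr rfl fun p _ => by ring
      rw [this]
      exact uaut_sign _ _
    show d.tw w (d.gv x y (u + d.lat a b)) = _
    rw [d.gv_add, hab, hq, hE, hs]
  · show d.tw w (d.gv x y u) * _ = _
    rw [← d.Hw_act h hw, hGe, d.L_act h hw]

theorem Nm_act {x y : K} (h : d.G1 x y) {w : d.R → ℂ} {lam : ℂ}
    (hl : ∀ u, d.tw w (d.gv x y u) = lam * d.tw (d.wg w x y) u) :
    d.Nm w = ‖lam‖ * d.Nm (d.wg w x y) := by
  have hsur : Function.Surjective (d.gv x y) := fun u => ⟨_, d.gv_inv' h u⟩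
  unfold Nm
  rw [Real.mul_iSup_of_nonneg (norm_nonneg lam), ← hsur.iSup_comp (fun u => ‖d.tw w u‖)]
  congr 1
  ext u
  rw [hl, norm_mul]

private theorem uaut_E_add (u u' v : Vs g) : d.E (u + u') v = d.E u v + d.E u' v := by
  unfold E
  rw [← Finset.sum_add_distrib]
  refine Finset.sum_congr rfl fun i _ => ?_
  simp only [Pi.add_apply, add_mul, Complex.add_im]
  ring

private theorem uaut_E_ut (τ : Fin 2 → ℂ) (v : Vs g) : d.E (d.ut τ) v = (d.Hs τ (d.ps v)).im := by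
  unfold E
  rw [Finset.sum_eq_single d.s]
  · simp only [ut, Hs, ps, if_true, Complex.im_ofReal_mul, Complex.add_im]
  · intro i _ hi
    simp [ut, hi]
  · intro h
    exact absurd (Finset.mem_univ _) h

private theorem uaut_ps (τ : Fin 2 → ℂ) (P Q : Vs g) :
    (d.Hs τ (d.ps (P + Q))).im = (d.Hs τ (d.ps P)).im + (d.Hs τ (d.ps Q)).im := by
  rw [← Complex.add_im]
  congr 1
  simp only [Hs, ps, Pi.add_apply, map_add]
  ring

theorem gp_lat (w : d.R → ℂ) (P : Vs g) (a b : Ix g → ℤ) (τ : Fin 2 → ℂ) :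
    d.gp w (P + d.lat a b) τ =
      (-1) ^ (∑ p, a p * b p) * cexp (Real.pi * I * (d.E P (d.lat a b) : ℝ)) * d.gp w P τ := by
  unfold gp
  have h1 : P + d.lat a b + d.ut τ = (P + d.ut τ) + d.lat a b := by abel
  rw [h1, d.tw_lat, d.uaut_E_add, d.uaut_E_ut, d.uaut_ps]
  rw [show (-1 : ℂ) ^ (∑ p, a p * b p) *
      cexp (Real.pi * I * ((d.E P (d.lat a b) + (d.Hs τ (d.ps (d.lat a b))).im : ℝ) : ℂ)) *
        d.tw w (P + d.ut τ) *
      cexp (Real.pi / 2 * d.Hs τ τ -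
        Real.pi * I * (((d.Hs τ (d.ps P)).im + (d.Hs τ (d.ps (d.lat a b))).im : ℝ) : ℂ)) =
      (-1 : ℂ) ^ (∑ p, a p * b p) * d.tw w (P + d.ut τ) *
      (cexp (Real.pi * I * ((d.E P (d.lat a b) + (d.Hs τ (d.ps (d.lat a b))).im : ℝ) : ℂ)) *
      cexp (Real.pi / 2 * d.Hs τ τ -
        Real.pi * I * (((d.Hs τ (d.ps P)).im + (d.Hs τ (d.ps (d.lat a b))).im : ℝ) : ℂ))) from by
    ring]
  rw [← Complex.exp_add]
  have h2 : (Real.pi * I * ((d.E P (d.lat a b) + (d.Hs τ (d.ps (d.lat a b))).im : ℝ) : ℂ) +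
      (Real.pi / 2 * d.Hs τ τ -
        Real.pi * I * (((d.Hs τ (d.ps P)).im + (d.Hs τ (d.ps (d.lat a b))).im : ℝ) : ℂ))) =
      Real.pi * I * (d.E P (d.lat a b) : ℝ) +
        (Real.pi / 2 * d.Hs τ τ - Real.pi * I * ((d.Hs τ (d.ps P)).im : ℝ)) := by
    push_cast
    ring
  rw [h2, Complex.exp_add]
  ring

theorem gp_act {x y : K} (h : d.G1 x y) {w : d.R → ℂ} {lam : ℂ}
    (hl : ∀ u, d.tw w (d.gv x y u) = lam * d.tw (d.wg w x y) u) (P : Vs g) (τ : Fin 2 → ℂ) :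
    d.gp w (d.gv x y P) (d.gs x y τ) = lam * d.gp (d.wg w x y) P τ := by
  unfold gp
  rw [← d.gv_ut, ← d.gv_add, hl, d.Hs_act h, d.ps_gv, d.Hs_act h]
  ring

theorem gd_act {x y : K} (h : d.G1 x y) {w : d.R → ℂ} (hw : w ∈ d.Di) {lam : ℂ}
    (hl : ∀ u, d.tw w (d.gv x y u) = lam * d.tw (d.wg w x y) u) (P : Vs g) (τ : Fin 2 → ℂ) :
    d.gd w (d.gv x y P) (d.gs x y τ) = lam * d.gd (d.wg w x y) P τ := by
  have hw' : d.wg w x y ∈ d.Di := d.wg_mem h hw
  let T : (Fin 2 → ℂ) →ₗ[ℂ] (Fin 2 → ℂ) :=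
    { toFun := d.gs x y
      map_add' := fun a b => by
        ext k
        fin_cases k <;> simp [gs] <;> ring
      map_smul' := fun c a => by
        ext k
        fin_cases k <;> simp [gs] <;> ring }
  have hT : ∀ v, LinearMap.toContinuousLinearMap T v = d.gs x y v := fun v => rfl
  have h1 : (fun v => d.gp w (d.gv x y P) (LinearMap.toContinuousLinearMap T v)) =
      fun v => lam * d.gp (d.wg w x y) P v := by
    funext v
    rw [hT]
    exact d.gp_act h hl P v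
  have h2 : fderiv ℂ (fun v => d.gp w (d.gv x y P) (LinearMap.toContinuousLinearMap T v)) 0 τ =
      fderiv ℂ (d.gp w (d.gv x y P)) 0 (d.gs x y τ) := by
    have hd : HasFDerivAt (d.gp w (d.gv x y P))
        (fderiv ℂ (d.gp w (d.gv x y P)) (LinearMap.toContinuousLinearMap T 0))
        (LinearMap.toContinuousLinearMap T 0) :=
      (d.gp_diff hw (d.gv x y P) _).hasFDerivAt
    have := (hd.comp (0 : Fin 2 → ℂ) (LinearMap.toContinuousLinearMap T).hasFDerivAt).fderiv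
    have h3 : fderiv ℂ (fun v => d.gp w (d.gv x y P) (LinearMap.toContinuousLinearMap T v)) 0 =
        (fderiv ℂ (d.gp w (d.gv x y P)) (LinearMap.toContinuousLinearMap T 0)).comp
          (LinearMap.toContinuousLinearMap T) := this
    rw [h3]
    simp only [ContinuousLinearMap.comp_apply, map_zero]
    rw [hT]
  have h4 : fderiv ℂ (fun v => lam * d.gp (d.wg w x y) P v) 0 τ =
      lam * fderiv ℂ (d.gp (d.wg w x y) P) 0 τ := by
    rw [fderiv_const_mul (d.gp_diff hw' P 0)]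
    rfl
  unfold gd D1
  rw [← h2, h1, h4]

private theorem uaut_sign0 (a' b' : Ix g → ℤ) :
    (-1 : ℂ) ^ (∑ p, (2 * a' p) * (2 * b' p)) = 1 := by
  have : (∑ p, (2 * a' p) * (2 * b' p)) = 0 + 2 * ∑ p, (2 * (a' p * b' p)) := by
    rw [Finset.mul_sum, zero_add]
    exact Finset.sum_congr rfl fun p _ => by ring
  rw [this, uaut_sign, zpow_zero]

private theorem uaut_exp (n : ℤ) : cexp (Real.pi * I * ((2 * (n : ℝ) : ℝ) : ℂ)) = 1 := by
  rw [show (Real.pi * I * ((2 * (n : ℝ) : ℝ) : ℂ)) = n * (2 * Real.pi * I) by push_cast; ring]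
  exact Complex.exp_int_mul_two_pi_mul_I n

/-- **automorphy** -/
theorem auto (cs : Finset (Fin 2 → K)) : ∃ N : ℕ, 1 ≤ N ∧ ∀ x y : K, d.GN N x y →
    ∀ w ∈ d.Di, d.wg w x y ∈ d.Di ∧ ∃ lam : ℂ, lam ≠ 0 ∧
      (∀ c ∈ cs, d.tK c w = lam * d.tK c (d.wg w x y)) ∧
      (∀ c ∈ cs, ∀ c' ∈ cs, d.Wr c c' w = lam ^ 2 * d.Wr c c' (d.wg w x y)) ∧
      d.Nm w = ‖lam‖ * d.Nm (d.wg w x y) := by
  obtain ⟨N, hN, H⟩ := d.gam cs
  refine ⟨N, hN, fun x y hG w hw => ?_⟩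
  obtain ⟨hlat, hc⟩ := H x y hG
  have h : d.G1 x y := hG.1
  have hw' : d.wg w x y ∈ d.Di := d.wg_mem h hw
  obtain ⟨lam, hl⟩ := d.tw_act h hw hlat
  have hNm := d.Nm_act h hl
  have hlam : lam ≠ 0 := fun h0 => by
    have := d.one_le_Nm hw
    rw [hNm, h0] at this
    norm_num at this
  have hper : ∀ c ∈ cs, ∀ τ, d.gp w (d.gv x y (d.kv c)) τ = d.gp w (d.kv c) τ := fun c hcs τ => by
    obtain ⟨a', b', n, h1, h2⟩ := hc c hcs
    rw [h1, d.gp_lat, h2, uaut_sign0, uaut_exp]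
    ring
  have hgd : ∀ c ∈ cs, ∀ τ, d.gd w (d.kv c) (d.gs x y τ) = lam * d.gd (d.wg w x y) (d.kv c) τ :=
    fun c hcs τ => by
      rw [← d.gd_act h hw hl]
      have : d.gp w (d.gv x y (d.kv c)) = d.gp w (d.kv c) := funext (hper c hcs)
      unfold gd
      rw [this]
  have hlin : ∀ c ∈ cs, ∀ j, lam * d.gd (d.wg w x y) (d.kv c) (ee j) =
      d.gs x y (ee j) 0 * d.gd w (d.kv c) (ee 0) + d.gs x y (ee j) 1 * d.gd w (d.kv c) (ee 1) :=
    fun c hcs j => by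
      rw [← hgd c hcs]
      have : d.gs x y (ee j) = d.gs x y (ee j) 0 • ee 0 + d.gs x y (ee j) 1 • ee 1 := by
        ext k
        fin_cases k <;> simp [ee]
      unfold gd D1
      conv_lhs => rw [this]
      rw [map_add, map_smul, map_smul]
      rfl
  refine ⟨hw', lam, hlam, fun c hcs => ?_, fun c hcs c' hcs' => ?_, hNm⟩
  · obtain ⟨a', b', n, h1, h2⟩ := hc c hcs
    unfold tK
    rw [← hl, h1, d.tw_lat, h2, uaut_sign0, uaut_exp]
    ring
  · have e0 := hlin c hcs 0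
    have e1 := hlin c hcs 1
    have f0 := hlin c' hcs' 0
    have f1 := hlin c' hcs' 1
    have hdet := d.gs_det h
    unfold Wr
    calc d.gd w (d.kv c) (ee 0) * d.gd w (d.kv c') (ee 1) -
          d.gd w (d.kv c) (ee 1) * d.gd w (d.kv c') (ee 0)
        = (d.gs x y (ee 0) 0 * d.gs x y (ee 1) 1 - d.gs x y (ee 0) 1 * d.gs x y (ee 1) 0) *
          (d.gd w (d.kv c) (ee 0) * d.gd w (d.kv c') (ee 1) -
          d.gd w (d.kv c) (ee 1) * d.gd w (d.kv c') (ee 0)) := by rw [hdet, one_mul]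
      _ = (d.gs x y (ee 0) 0 * d.gd w (d.kv c) (ee 0) + d.gs x y (ee 0) 1 * d.gd w (d.kv c) (ee 1)) *
          (d.gs x y (ee 1) 0 * d.gd w (d.kv c') (ee 0) +
            d.gs x y (ee 1) 1 * d.gd w (d.kv c') (ee 1)) -
          (d.gs x y (ee 1) 0 * d.gd w (d.kv c) (ee 0) + d.gs x y (ee 1) 1 * d.gd w (d.kv c) (ee 1)) *
          (d.gs x y (ee 0) 0 * d.gd w (d.kv c') (ee 0) +
            d.gs x y (ee 0) 1 * d.gd w (d.kv c') (ee 1)) := by ring
      _ = lam ^ 2 * (d.gd (d.wg w x y) (d.kv c) (ee 0) * d.gd (d.wg w x y) (d.kv c') (ee 1) -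
          d.gd (d.wg w x y) (d.kv c) (ee 1) * d.gd (d.wg w x y) (d.kv c') (ee 0)) := by
        rw [← e0, ← e1, ← f0, ← f1]
        ring

end Dat

end Pool.Agent.RQ4
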