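import Pool.Agent.RQ4.SMain
import Pool.Agent.RQ4.UAut
import Pool.Agent.RQ4.CCpt

/-!
# RQ4, block S, final form: the relation between `N + 1` quotients of the sections
-/

set_option autoImplicit false

namespace Pool.Agent.RQ4

open Metric

noncomputable section

variable {K : Type} [Field K] [NumberField K] {g : ℕ}

namespace Dat

variable (d : Dat K g)

theorem Di_ball : d.Di = ball (0 : d.R → ℂ) 1 := by
  ext w
  rw [mem_ball_zero_iff, pi_norm_lt_iff one_pos]
  rfl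

theorem mem_cball {ρ : ℝ} (h0 : 0 ≤ ρ) (w : d.R → ℂ) : w ∈ closedBall (0 : d.R → ℂ) ρ ↔ ∀ i, ‖w i‖ ≤ ρ := by
  rw [mem_closedBall_zero_iff, pi_norm_le_iff_of_nonneg h0]

/-- the sections of the relation: `Wr` first -/
def secF (c : Fin d.R.card → (Fin 2 → K)) (c' c'' : Fin 2 → K) : Fin (d.R.card + 1) → (d.R → ℂ) → ℂ :=
  Fin.cons (d.Wr c' c'') (fun j => d.tK (c j))

/-- the denominators -/
def secG : Fin (d.R.card + 1) → (d.R → ℂ) → ℂ :=
  Fin.cons (fun w => d.tK 0 w ^ 2) (fun _ => d.tK 0)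

/-- **the relation** -/
theorem rel (c : Fin d.R.card → (Fin 2 → K)) (c' c'' : Fin 2 → K) :
    ∃ P : MvPolynomial (Fin (d.R.card + 1)) ℂ, P ≠ 0 ∧ ∀ w ∈ {w | w ∈ d.Di ∧ d.tK 0 w ≠ 0},
      MvPolynomial.eval (Fin.cons (d.Wr c' c'' w / d.tK 0 w ^ 2)
        (fun j => d.tK (c j) w / d.tK 0 w)) P = 0 := by
  classical
  set cs : Finset (Fin 2 → K) := insert 0 (insert c' (insert c'' (Finset.univ.image c))) with hcs
  have m0 : (0 : Fin 2 → K) ∈ cs := Finset.mem_insert_self _ _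
  have m1 : c' ∈ cs := Finset.mem_insert_of_mem (Finset.mem_insert_self _ _)
  have m2 : c'' ∈ cs := Finset.mem_insert_of_mem (Finset.mem_insert_of_mem (Finset.mem_insert_self _ _))
  have m3 : ∀ j, c j ∈ cs := fun j => Finset.mem_insert_of_mem (Finset.mem_insert_of_mem
    (Finset.mem_insert_of_mem (Finset.mem_image_of_mem _ (Finset.mem_univ j))))
  obtain ⟨N, hN1, hN⟩ := d.auto cs
  obtain ⟨ρ0, hρ1, hρ0, hcoc⟩ := d.cocompact N hN1
  have hF : ∀ k, DifferentiableOn ℂ (d.secF c c' c'' k) (ball 0 1) := by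
    intro k
    rw [← d.Di_ball]
    refine Fin.cases ?_ (fun j => ?_) k
    · exact d.Wr_hol c' c''
    · exact d.tK_hol (c j)
  have hG : ∀ k, DifferentiableOn ℂ (d.secG k) (ball 0 1) := by
    intro k
    rw [← d.Di_ball]
    refine Fin.cases ?_ (fun j => ?_) k
    · exact (d.tK_hol 0).pow 2
    · exact d.tK_hol 0
  obtain ⟨P, hP0, hP⟩ := ST.thimm (κ := Fin (d.R.card + 1)) (ι := d.R) (by simp) (d.secF c c' c'') d.secG hF hG
    (Fin.cons (fun w => d.Nm w ^ 2) (fun _ => d.Nm)) (by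
      intro ρ hρ
      obtain ⟨C, hC⟩ := d.Nm_le (le_max_left 0 ρ) (max_lt one_pos hρ)
      refine ⟨1, one_pos, max C (C ^ 2), fun w hw k => ?_⟩
      have hw' : ∀ i, ‖w i‖ ≤ max 0 ρ :=
        (d.mem_cball (le_max_left 0 ρ) w).1 (closedBall_subset_closedBall (le_max_right 0 ρ) hw)
      have hwD : w ∈ d.Di := fun i => (hw' i).trans_lt (max_lt one_pos hρ)
      have h1 := d.one_le_Nm hwD
      have h2 := hC w hw'
      refine Fin.cases ?_ (fun j => ?_) k
      · simp only [Fin.cons_zero]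
        exact ⟨one_le_pow₀ h1, le_max_of_le_right (pow_le_pow_left₀ (by linarith) h2 2)⟩
      · simp only [Fin.cons_succ]
        exact ⟨h1, le_max_of_le_left h2⟩) ρ0 hρ1 (by
      intro w hw
      rw [← d.Di_ball] at hw
      obtain ⟨x, y, hxy, hle⟩ := hcoc w hw
      obtain ⟨hwD, lam, hlam, h1, h2, h3⟩ := hN x y hxy w hw
      refine ⟨d.wg w x y, (d.mem_cball hρ0 _).2 hle, Fin.cons (lam ^ 2) (fun _ => lam), fun k => ?_⟩
      refine Fin.cases ?_ (fun j => ?_) k
      · simp only [Fin.cons_zero, secF, secG]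
        refine ⟨h2 c' m1 c'' m2, ?_, ?_⟩
        · rw [h1 0 m0, mul_pow]
        · rw [h3, mul_pow, norm_pow]
      · simp only [Fin.cons_succ, secF, secG]
        exact ⟨h1 (c j) (m3 j), h1 0 m0, h3⟩)
  refine ⟨P, hP0, fun w hw => ?_⟩
  have h1 := hP w (by rw [← d.Di_ball]; exact hw.1) (fun k => by
    refine Fin.cases ?_ (fun j => ?_) k
    · exact pow_ne_zero 2 hw.2
    · exact hw.2)
  rw [← h1]
  congr 2
  funext k
  refine Fin.cases ?_ (fun j => ?_) k
  · simp [secF, secG]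
  · simp [secF, secG]

end Dat

end

end Pool.Agent.RQ4
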