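import Pool.Agent.RQ4.PMain
import Pool.Agent.RQ4.SFin
import Pool.Agent.RQ4.IFin
import Pool.Agent.RQ4.Fin
import Pool.Agent.RQ4.NEx

/-!
# RQ4: the four-term relation (final assembly)
-/

set_option autoImplicit false

namespace Pool.Agent.RQ4

open Complex ComplexConjugate Finset

variable {K : Type} [Field K] [NumberField K] {g : ℕ}

namespace Dat

variable (d : Dat K g)

private theorem kv_zero' : d.kv 0 = 0 := by
  funext p; simp [Dat.kv]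

/-- what a derivation does at the CM points of pattern `S` -/
private theorem at_pt (IsC : (Fin g → K →+* ℂ) → Derivation ℚ ℂ ℂ → (Fin g → ℂ) → Prop)
    (hTH : TH2 d.toCM IsC) (S : Finset (Fin g)) (hS : S ⊆ d.R) (e : Fin 2 → K) (h : d.Ok S e)
    (hD : d.ze S e ∈ d.Di) (h0 : d.tK 0 (d.ze S e) ≠ 0) (δ : Derivation ℚ ℂ ℂ) :
    ∃ c3 c4 : Fin g → ℂ, IsC (d.fl S) δ c3 ∧ IsC (d.fl (d.R \ S)) δ c4 ∧
      (∀ c, δ (d.tK c (d.ze S e) / d.tK 0 (d.ze S e)) = 0) ∧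
      ∀ c c', δ (d.Wr c c' (d.ze S e) / d.tK 0 (d.ze S e) ^ 2) =
        (c3 d.s + c4 d.s) * (d.Wr c c' (d.ze S e) / d.tK 0 (d.ze S e) ^ 2) := by
  have h0' : d.tw (d.ze S e) 0 ≠ 0 := by
    have : d.tK 0 (d.ze S e) = d.tw (d.ze S e) 0 := by
      unfold Dat.tK; rw [d.kv_zero']
    rwa [this] at h0
  obtain ⟨c3, c4, γ, h3, h4, hc, hW⟩ := d.p_main IsC hTH S hS e h (d.isT_tw hD)
    (fun f hf => d.isT_unique hD hf) (d.tw_even _) h0' δ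
  refine ⟨c3, c4, h3, h4, fun c => ?_, fun c c' => ?_⟩
  · rw [Derivation.leibniz_div, hc, hc]
    simp only [smul_eq_mul]
    ring
  · rw [Derivation.leibniz_div, hW, Derivation.leibniz_pow, hc]
    simp only [smul_eq_mul, nsmul_eq_mul]
    field_simp
    push_cast
    ring

private theorem dense_pat (S : Finset (Fin g)) {D : Set (d.R → ℂ)} (hD : IsOpen D) (hDi : D ⊆ d.Di) :
    D ⊆ closure ({w | ∃ e, d.Ok S e ∧ w = d.ze S e} ∩ D) := by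
  intro x hx
  rw [mem_closure_iff]
  intro U hU hxU
  obtain ⟨e, he, hz, _⟩ := d.dense_ze S (hU.inter hD) ⟨x, ⟨⟨hxU, hx⟩, hDi hx⟩⟩
  exact ⟨d.ze S e, hz.1, ⟨e, he, rfl⟩, hz.2⟩

theorem r4_aux (IsC : (Fin g → K →+* ℂ) → Derivation ℚ ℂ ℂ → (Fin g → ℂ) → Prop)
    (hTH : TH2 d.toCM IsC) (hUC : UC IsC) (S : Finset (Fin g)) (hS : S ⊆ d.R)
    (δ : Derivation ℚ ℂ ℂ) :
    ∃ c1 c2 c3 c4 : Fin g → ℂ, IsC (d.fl ∅) δ c1 ∧ IsC (d.fl d.R) δ c2 ∧ IsC (d.fl S) δ c3 ∧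
      IsC (d.fl (d.R \ S)) δ c4 ∧ c1 d.s + c2 d.s = c3 d.s + c4 d.s := by
  obtain ⟨c, c', c'', hind, hW⟩ := d.indep
  have hop := d.Dd_open
  set D : Set (d.R → ℂ) := d.Dd with hDdef
  have hDi : D ⊆ d.Di := fun w hw => hw.1
  have hE0 := d.dense_pat ∅ hop hDi
  have hE1 := d.dense_pat S hop hDi
  have hx0 : (0 : d.R → ℂ) ∈ D := d.zero_Dd
  obtain ⟨y0, hy0⟩ : ({w | ∃ e, d.Ok ∅ e ∧ w = d.ze ∅ e} ∩ D).Nonempty := by
    by_contra hc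
    rw [Set.not_nonempty_iff_eq_empty] at hc
    have := hE0 hx0
    rw [hc, closure_empty] at this
    exact this
  obtain ⟨y1, hy1⟩ : ({w | ∃ e, d.Ok S e ∧ w = d.ze S e} ∩ D).Nonempty := by
    by_contra hc
    rw [Set.not_nonempty_iff_eq_empty] at hc
    have := hE1 hx0
    rw [hc, closure_empty] at this
    exact this
  obtain ⟨⟨e0, he0, rfl⟩, hy0D⟩ := hy0
  obtain ⟨⟨e1, he1, rfl⟩, hy1D⟩ := hy1
  obtain ⟨c1, c2, h1, h2, -, -⟩ := d.at_pt IsC hTH ∅ (Finset.empty_subset _) e0 he0 hy0D.1 hy0D.2 δ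
  obtain ⟨c3, c4, h3, h4, -, -⟩ := d.at_pt IsC hTH S hS e1 he1 hy1D.1 hy1D.2 δ
  refine ⟨c1, c2, c3, c4, h1, by rwa [Finset.sdiff_empty] at h2, h3, h4, ?_⟩
  have hcont0 : ContinuousOn (d.tK 0) D := (d.tK_hol 0).continuousOn.mono hDi
  refine fin_abs (fun j w => d.tK (c j) w / d.tK 0 w) (fun w => d.Wr c' c'' w / d.tK 0 w ^ 2) D hop
    ⟨0, hx0⟩ (fun j => ?_) ?_ (d.rel c c' c'') hind hW δ {w | ∃ e, d.Ok ∅ e ∧ w = d.ze ∅ e}
    {w | ∃ e, d.Ok S e ∧ w = d.ze S e} _ _ hE0 hE1 ?_ ?_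
  · exact ((d.tK_hol (c j)).continuousOn.mono hDi).div hcont0 (fun w hw => hw.2)
  · exact ((d.Wr_hol c' c'').continuousOn.mono hDi).div (hcont0.pow 2) (fun w hw => pow_ne_zero 2 hw.2)
  · rintro x ⟨⟨e, he, rfl⟩, hx⟩
    obtain ⟨k3, k4, g3, g4, hf, hw⟩ := d.at_pt IsC hTH ∅ (Finset.empty_subset _) e he hx.1 hx.2 δ
    have e3 : k3 = c1 := hUC _ _ _ _ g3 h1
    have e4 : k4 = c2 := hUC _ _ _ _ g4 h2
    subst e3 e4
    exact ⟨fun j => hf (c j), hw c' c''⟩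
  · rintro x ⟨⟨e, he, rfl⟩, hx⟩
    obtain ⟨k3, k4, g3, g4, hf, hw⟩ := d.at_pt IsC hTH S hS e he hx.1 hx.2 δ
    have e3 : k3 = c3 := hUC _ _ _ _ g3 h3
    have e4 : k4 = c4 := hUC _ _ _ _ g4 h4
    subst e3 e4
    exact ⟨fun j => hf (c j), hw c' c''⟩

end Dat

/-- **the four-term relation** -/
theorem r4s (cm : CM K g) (IsC : (Fin g → K →+* ℂ) → Derivation ℚ ℂ ℂ → (Fin g → ℂ) → Prop)
    (hTH : TH2 cm IsC) (hUC : UC IsC) : R4S cm IsC := by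
  intro R S s _ hs hSR δ
  obtain ⟨d, hd, hR, hs', -⟩ := cm.exists_dat R s hs
  subst hd hR hs'
  exact d.r4_aux IsC hTH hUC S hSR δ

end Pool.Agent.RQ4
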