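import Pool.Agent.RCM.Ifc
import Pool.Agent.RQ4.NCyc

/-!
# RQ4 (MP_c2409d_nt), block N: bridge from `RCM.CM` to the CM structure of `CyclotomicField D ℚ`
(helper91)
-/

set_option autoImplicit false

namespace Pool.Agent.RQ4

open Complex ComplexConjugate Finset

/-- the CM structure of `ℚ(ζ_D)` given by an enumeration of a CM type -/
theorem exists_bridge {D g : ℕ} {t : Fin g → ℕ} (h : Pool.Agent.RCM.CM D g t) :
    ∃ (_ : NeZero D) (_ : IsCyclotomicExtension {D} ℚ (CyclotomicField D ℚ))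
      (C : CM (CyclotomicField D ℚ) g),
      (∀ i, C.σ i (zt D (CyclotomicField D ℚ)) = rt D (t i)) ∧
      C.bar (zt D (CyclotomicField D ℚ)) = (zt D (CyclotomicField D ℚ))⁻¹ ∧
      (∀ (c : ℕ → ℤ) (i : Fin g), Pool.Agent.RHK.emb D c (t i) =
        C.σ i (∑ j ∈ range D, (c j : CyclotomicField D ℚ) *
          zt D (CyclotomicField D ℚ) ^ j)) ∧
      ∀ x : CyclotomicField D ℚ, IsIntegral ℤ x → ∃ c : ℕ → ℤ,
        x = ∑ j ∈ range D, (c j : CyclotomicField D ℚ) * zt D (CyclotomicField D ℚ) ^ j := by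
  have hD : NeZero D := ⟨h.pos.ne'⟩
  have hI : IsCyclotomicExtension {D} ℚ (CyclotomicField D ℚ) := cyc_inst D
  obtain ⟨C, hC, hb⟩ := exists_cyc D (CyclotomicField D ℚ) g t h.cop
    (fun i j hij => h.inj i j hij) h.opp h.card
  refine ⟨hD, hI, C, hC, hb, fun c i => ?_, fun x hx => integral_comb D _ hx⟩
  rw [sig_comb D (CyclotomicField D ℚ) C hC]
  rfl

end Pool.Agent.RQ4
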