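import Pool.Agent.RQ4.NEx

/-!
# RQ4 (MP_c2409d_nt), block N: the lattice inside `K²` (helper91)
-/

set_option autoImplicit false

namespace Pool.Agent.RQ4

open Complex ComplexConjugate Finset

variable {K : Type} [Field K] [NumberField K] {g : ℕ}

namespace CM

variable (C : CM K g)

/-- the trace of a real element -/
lemma trace_real {z : K} (hz : C.bar z = z) :
    ((Algebra.trace ℚ K z : ℚ) : ℂ) = 2 * ∑ i, C.σ i z := by
  have h1 := C.trace_eq z
  rw [eq_ratCast] at h1
  rw [h1, Finset.mul_sum]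
  refine sum_congr rfl fun i _ => ?_
  rw [C.im_F hz i]
  ring

/-- the trace is invariant under conjugation -/
lemma trace_bar (z : K) : Algebra.trace ℚ K (C.bar z) = Algebra.trace ℚ K z := by
  have h1 := C.trace_eq z
  have h2 := C.trace_eq (C.bar z)
  have h3 : (algebraMap ℚ ℂ (Algebra.trace ℚ K (C.bar z))) =
      algebraMap ℚ ℂ (Algebra.trace ℚ K z) := by
    rw [h1, h2]
    refine sum_congr rfl fun i _ => ?_
    rw [C.hbar, Complex.conj_conj, add_comm]
  exact (algebraMap ℚ ℂ).injective h3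

/-- expansion of a real element in the dual of a trace-dual pair -/
lemma expand {u v : Fin g → K} (hu : ∀ k, C.bar (u k) = u k) (hv : ∀ k, C.bar (v k) = v k)
    (huv : ∀ j k, ∑ i, C.σ i (v j * u k) = if j = k then 1 else 0) {x : K} (hx : C.bar x = x) :
    x = ∑ k, (Algebra.trace ℚ K (x * u k) / 2) • v k := by
  classical
  have htr : ∀ j k, Algebra.trace ℚ K (v j * u k) = if j = k then 2 else 0 := by
    intro j k
    have h1 : C.bar (v j * u k) = v j * u k := by rw [map_mul, hu, hv]
    have h2 := C.trace_real h1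
    rw [huv j k] at h2
    by_cases h : j = k
    · simp only [h, if_true, mul_one] at h2 ⊢
      exact_mod_cast h2
    · simp only [h, if_false, mul_zero] at h2 ⊢
      exact_mod_cast h2
  let uF : Fin g → C.F := fun k => ⟨u k, (C.mem_F _).2 (hu k)⟩
  have hli : LinearIndependent ℚ uF := by
    rw [Fintype.linearIndependent_iff]
    intro c hc j
    have h1 : ∑ k, c k • u k = 0 := by
      have := congrArg (fun y : C.F => (y : K)) hc
      simpa [uF] using this
    have h2 : Algebra.trace ℚ K (v j * ∑ k, c k • u k) = 2 * c j := by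
      rw [Finset.mul_sum, map_sum]
      have : ∀ k, Algebra.trace ℚ K (v j * (c k • u k)) = c k * (if j = k then 2 else 0) := by
        intro k
        rw [mul_smul_comm, map_smul, htr, smul_eq_mul]
      simp_rw [this]
      simp [mul_comm]
    rw [h1, mul_zero, map_zero] at h2
    linarith
  have hspan : Submodule.span ℚ (Set.range uF) = ⊤ := by
    refine hli.span_eq_top_of_card_eq_finrank' ?_
    rw [Fintype.card_fin, C.finrank_F]
  set y := x - ∑ k, (Algebra.trace ℚ K (x * u k) / 2) • v k with hy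
  have hyF : y ∈ C.F := by
    rw [hy]
    refine C.F.sub_mem ((C.mem_F _).2 hx) (C.F.sum_mem fun k _ => C.F.smul_mem _ ?_)
    exact (C.mem_F _).2 (hv k)
  have hyu : ∀ j, Algebra.trace ℚ K (y * u j) = 0 := by
    intro j
    rw [hy, sub_mul, map_sub, Finset.sum_mul, map_sum]
    have : ∀ k, Algebra.trace ℚ K ((Algebra.trace ℚ K (x * u k) / 2) • v k * u j) =
        Algebra.trace ℚ K (x * u k) / 2 * (if k = j then 2 else 0) := by
      intro k
      rw [smul_mul_assoc, map_smul, htr, smul_eq_mul]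
    simp_rw [this]
    simp
  have hB : ∀ z : C.F, Algebra.trace ℚ K (y * z) = 0 := by
    intro z
    have hz : z ∈ Submodule.span ℚ (Set.range uF) := by rw [hspan]; trivial
    obtain ⟨c, rfl⟩ := (Submodule.mem_span_range_iff_exists_fun ℚ).1 hz
    have h1 : ((∑ k, c k • uF k : C.F) : K) = ∑ k, c k • u k := by
      simp [uF]
    rw [h1, Finset.mul_sum, map_sum]
    refine Finset.sum_eq_zero fun k _ => ?_
    rw [mul_smul_comm, map_smul, hyu, smul_zero]
  have hy0 : (⟨y, hyF⟩ : C.F) = 0 := C.nondeg.1 _ fun z => hB z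
  have hy1 : y = 0 := congrArg (fun w : C.F => (w : K)) hy0
  exact sub_eq_zero.1 hy1

end CM

namespace Dat

variable (d : Dat K g)

lemma xi_ne : d.ξ ≠ 0 := by
  intro h
  obtain ⟨i⟩ := d.exists_place
  have := d.pξ i
  rw [h] at this
  simp at this

lemma nu_neN (i : Fin g) : d.nu i ≠ 0 := by
  by_cases hi : i ∈ d.R
  · exact (d.nR i hi).ne
  · exact (d.nN i hi).ne'

lemma nuK_ne : d.ν ≠ 0 := by
  intro h
  obtain ⟨i⟩ := d.exists_place
  have := d.sig_nu i
  rw [h, map_zero] at this
  exact d.nu_neN i (by exact_mod_cast this.symm)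

lemma c_posN (i : Fin g) : 0 < d.c i := by
  unfold Dat.c
  have := d.pξ i
  linarith

lemma sig_xi (i : Fin g) : d.σ i d.ξ = I * (d.c i / 2 : ℂ) := by
  have h := d.hbar i d.ξ
  rw [d.bξ, map_neg] at h
  have hre : (d.σ i d.ξ).re = 0 := by
    have := congrArg Complex.re h
    rw [Complex.neg_re, Complex.conj_re] at this
    linarith
  apply Complex.ext
  · simp [hre]
  · simp [Dat.c]

lemma sig_om (i : Fin g) : d.σ i d.om = I / d.c i := by
  have hc : (d.c i : ℂ) ≠ 0 := by exact_mod_cast (d.c_posN i).ne'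
  rw [Dat.om, map_div₀, map_neg, map_one, map_mul, d.sig_xi]
  have h2 : d.σ i 2 = 2 := map_ofNat _ 2
  rw [h2]
  have hI : (I : ℂ) ≠ 0 := Complex.I_ne_zero
  field_simp
  rw [Complex.I_sq]

lemma sig_f (k i : Fin g) : d.σ i (d.f k) = (d.fr k i : ℂ) :=
  (Complex.conj_eq_iff_re.1 (d.im_F (d.bf k) i)).symm

lemma sig_fd (k i : Fin g) : d.σ i (d.fd k) = (d.fdr k i : ℂ) :=
  (Complex.conj_eq_iff_re.1 (d.im_F (d.bfd k) i)).symm

/-- the weight of the component as an element of `K` -/
noncomputable def sgK (al : Fin 2) : K := if al = 0 then 1 else d.ν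

lemma sgK_ne (al : Fin 2) : d.sgK al ≠ 0 := by
  unfold sgK
  split_ifs
  · exact one_ne_zero
  · exact d.nuK_ne

lemma bar_sgK (al : Fin 2) : d.bar (d.sgK al) = d.sgK al := by
  unfold sgK
  split_ifs
  · exact map_one _
  · exact d.bν

lemma sig_sgK (al : Fin 2) (i : Fin g) : d.σ i (d.sgK al) = (d.sg al i : ℂ) := by
  unfold sgK Dat.sg
  split_ifs
  · simp
  · exact d.sig_nu i

lemma sg_neN (al : Fin 2) (i : Fin g) : d.sg al i ≠ 0 := by
  unfold Dat.sg
  split_ifs
  · exact one_ne_zero
  · exact d.nu_neN i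

/-- the element of `K²` with coordinates `a`, `b` -/
noncomputable def latK (a b : Ix g → ℚ) : Fin 2 → K := fun al =>
  (∑ k, a (k, al) • d.fd k) / d.sgK al + d.om * ∑ k, b (k, al) • d.f k

lemma kv_latK (a b : Ix g → ℚ) :
    d.kv (d.latK a b) = d.vst (fun p => (a p : ℝ)) (fun p => (b p : ℝ)) := by
  funext p
  have h1 : ∀ (c : Fin g → ℚ) (u : Fin g → K), d.σ p.1 (∑ k, c k • u k) =
      ∑ k, (c k : ℂ) * d.σ p.1 (u k) := by
    intro c u
    rw [map_sum]
    refine sum_congr rfl fun k _ => ?_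
    rw [Algebra.smul_def, map_mul, eq_ratCast, map_ratCast]
  simp only [Dat.kv, latK, Dat.vst, map_add, map_div₀, map_mul, h1, d.sig_om, d.sig_sgK, d.sig_f,
    d.sig_fd]
  push_cast
  rw [Finset.sum_div]

/-- the coordinates of an element of `K²` -/
noncomputable def cA (e : Fin 2 → K) (p : Ix g) : ℚ :=
  Algebra.trace ℚ K (d.sgK p.2 * e p.2 * d.f p.1) / 2

/-- the coordinates of an element of `K²` -/
noncomputable def cB (e : Fin 2 → K) (p : Ix g) : ℚ :=
  -Algebra.trace ℚ K (d.ξ * e p.2 * d.fd p.1)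

/-- every element of `K²` in coordinates -/
theorem latK_coord (e : Fin 2 → K) : d.latK (d.cA e) (d.cB e) = e := by
  classical
  funext al
  set x := e al with hx
  set sK := d.sgK al with hsK
  have hb := d.toCM.bar_bar
  -- the real part
  have h1 : d.bar (sK * ((x + d.bar x) / 2)) = sK * ((x + d.bar x) / 2) := by
    rw [map_mul, d.bar_sgK, map_div₀, map_add, hb, map_ofNat, add_comm (d.bar x)]
  have e1 := d.toCM.expand d.bf d.bfd d.dual h1
  have h2 : ∀ k, Algebra.trace ℚ K (sK * ((x + d.bar x) / 2) * d.f k) =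
      Algebra.trace ℚ K (sK * x * d.f k) := by
    intro k
    have h3 : sK * ((x + d.bar x) / 2) * d.f k =
        (1 / 2 : ℚ) • (sK * x * d.f k) + (1 / 2 : ℚ) • d.bar (sK * x * d.f k) := by
      rw [map_mul, map_mul, d.bar_sgK, d.bf, Algebra.smul_def, Algebra.smul_def, eq_ratCast]
      push_cast
      ring
    rw [h3, map_add, map_smul, map_smul, d.toCM.trace_bar, ← add_smul]
    norm_num
  simp_rw [h2] at e1
  -- the imaginary part
  have h4 : d.bar (-(d.ξ * (x - d.bar x))) = -(d.ξ * (x - d.bar x)) := by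
    rw [map_neg, map_mul, d.bξ, map_sub, hb]
    ring
  have hdual' : ∀ j k, ∑ i, d.σ i (d.f j * d.fd k) = if j = k then 1 else 0 := by
    intro j k
    have := d.dual k j
    simp_rw [mul_comm (d.fd k)] at this
    rw [this]
    by_cases h : j = k
    · simp [h]
    · have h' : k ≠ j := fun h' => h h'.symm
      simp [h, h']
  have e2 := d.toCM.expand d.bfd d.bf hdual' h4
  have h5 : ∀ k, Algebra.trace ℚ K (-(d.ξ * (x - d.bar x)) * d.fd k) / 2 =
      -Algebra.trace ℚ K (d.ξ * x * d.fd k) := by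
    intro k
    have h6 : -(d.ξ * (x - d.bar x)) * d.fd k =
        -(d.ξ * x * d.fd k) - d.bar (d.ξ * x * d.fd k) := by
      rw [map_mul, map_mul, d.bξ, d.bfd]
      ring
    rw [h6, map_sub, map_neg, d.toCM.trace_bar]
    ring
  simp_rw [h5] at e2
  have hξ := d.xi_ne
  have hs := d.sgK_ne al
  change (∑ k, (Algebra.trace ℚ K (sK * x * d.f k) / 2) • d.fd k) / sK +
    d.om * ∑ k, (-Algebra.trace ℚ K (d.ξ * x * d.fd k)) • d.f k = x
  rw [← e1, ← e2, Dat.om, hsK, mul_div_cancel_left₀ _ hs]
  field_simp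
  ring

/-- every element of `K²` is `latK` of rationals -/
theorem latK_surj (e : Fin 2 → K) : ∃ a b : Ix g → ℚ, d.latK a b = e :=
  ⟨_, _, d.latK_coord e⟩

lemma latK_smul (q : ℚ) (a b : Ix g → ℚ) :
    d.latK (fun p => q * a p) (fun p => q * b p) = q • d.latK a b := by
  funext al
  simp only [latK, Pi.smul_apply, smul_add]
  congr 1
  · rw [← smul_div_assoc, Finset.smul_sum]
    simp_rw [mul_smul]
  · rw [← mul_smul_comm, Finset.smul_sum]
    simp_rw [mul_smul]

/-- a common denominator for finitely many elements -/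
lemma exists_den {ι : Type} (s : Finset ι) (u : ι → K) :
    ∃ n : ℕ, 1 ≤ n ∧ ∀ k ∈ s, IsIntegral ℤ ((n : K) * u k) := by
  classical
  induction s using Finset.induction_on with
  | empty => exact ⟨1, le_rfl, by simp⟩
  | insert k s hk ih =>
    obtain ⟨n, hn, h⟩ := ih
    have halg : IsAlgebraic ℤ (u k) := by
      have : IsAlgebraic ℚ (u k) := Algebra.IsAlgebraic.isAlgebraic (u k)
      exact (IsFractionRing.isAlgebraic_iff ℤ ℚ K).2 this
    obtain ⟨m, hm0, hm⟩ := halg.exists_integral_multiple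
    have hm1 : 1 ≤ m.natAbs := Nat.one_le_iff_ne_zero.2 (Int.natAbs_ne_zero.2 hm0)
    have hmm : IsIntegral ℤ ((m.natAbs : K) * u k) := by
      rw [zsmul_eq_mul] at hm
      rcases Int.natAbs_eq m with h1 | h1
      · have : ((m.natAbs : ℕ) : K) = (m : K) := by
          rw [h1]; push_cast; simp
        rw [this]; exact hm
      · have : ((m.natAbs : ℕ) : K) = -(m : K) := by
          rw [h1]; push_cast; simp
        rw [this, neg_mul]; exact hm.neg
    refine ⟨m.natAbs * n, Nat.one_le_iff_ne_zero.2 (by positivity), fun j hj => ?_⟩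
    rcases Finset.mem_insert.1 hj with rfl | hj
    · have : ((m.natAbs * n : ℕ) : K) * u j = (n : K) * ((m.natAbs : K) * u j) := by
        push_cast; ring
      rw [this]
      exact (isIntegral_algebraMap (R := ℤ) (x := (n : ℤ))).mul hmm |> fun h => by simpa using h
    · have : ((m.natAbs * n : ℕ) : K) * u j = (m.natAbs : K) * ((n : K) * u j) := by
        push_cast; ring
      rw [this]
      exact (isIntegral_algebraMap (R := ℤ) (x := (m.natAbs : ℤ))).mul (h j hj) |> fun h => by
        simpa using h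

end Dat

end Pool.Agent.RQ4
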