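import Pool.Agent.RQ4.Defs

/-!
# RQ4, UCo: the real coordinates `s, t` of `V`

Proofs: inverse matrices and real parts.
-/

set_option autoImplicit false

namespace Pool.Agent.RQ4

open Complex ComplexConjugate Finset

namespace Dat

variable {K : Type} [Field K] [NumberField K] {g : ℕ} (d : Dat K g)

theorem c_pos (i : Fin g) : 0 < d.c i := by
  have h := d.pξ i
  unfold c
  linarith

theorem nu_ne (i : Fin g) : d.nu i ≠ 0 := by
  by_cases h : i ∈ d.R
  · exact (d.nR i h).ne
  · exact (d.nN i h).ne'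

theorem r_pos' (i : Fin g) : 0 < d.r i :=
  Real.sqrt_pos.2 (abs_pos.2 (d.nu_ne i))

/-- `r² = -ν` at the moving places -/
theorem r_sqR {i : Fin g} (h : i ∈ d.R) : d.r i ^ 2 = -d.nu i := by
  unfold r
  rw [Real.sq_sqrt (abs_nonneg _)]
  exact abs_of_neg (d.nR i h)

/-- `r² = ν` at the other places -/
theorem r_sqN {i : Fin g} (h : i ∉ d.R) : d.r i ^ 2 = d.nu i := by
  unfold r
  rw [Real.sq_sqrt (abs_nonneg _)]
  exact abs_of_pos (d.nN i h)

theorem sg_ne (al : Fin 2) (i : Fin g) : d.sg al i ≠ 0 := by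
  unfold sg
  split_ifs
  · exact one_ne_zero
  · exact d.nu_ne i

private theorem uco_real {x : K} (h : d.bar x = x) (i : Fin g) :
    d.σ i x = ((d.σ i x).re : ℂ) := by
  have h1 := d.hbar i x
  rw [h] at h1
  exact (Complex.conj_eq_iff_re.1 h1.symm).symm

theorem fr_sig (k i : Fin g) : d.σ i (d.f k) = (d.fr k i : ℂ) :=
  d.uco_real (d.bf k) i

theorem fdr_sig (k i : Fin g) : d.σ i (d.fd k) = (d.fdr k i : ℂ) :=
  d.uco_real (d.bfd k) i

theorem nu_sig (i : Fin g) : d.σ i d.ν = (d.nu i : ℂ) :=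
  d.uco_real d.bν i

theorem xi_sig (i : Fin g) : d.σ i d.ξ = I * (d.c i / 2 : ℝ) := by
  have h1 := d.hbar i d.ξ
  rw [d.bξ, map_neg] at h1
  have h2 := congrArg Complex.re h1
  rw [Complex.neg_re, Complex.conj_re] at h2
  have h3 : (d.σ i d.ξ).re = 0 := by linarith
  apply Complex.ext
  · rw [h3, mul_comm, Complex.re_ofReal_mul, Complex.I_re, mul_zero]
  · rw [mul_comm, Complex.im_ofReal_mul, Complex.I_im, mul_one]
    unfold c
    ring

theorem om_sig (i : Fin g) : d.σ i d.om = I / d.c i := by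
  have hc : (d.c i : ℂ) ≠ 0 := by exact_mod_cast (d.c_pos i).ne'
  unfold om
  rw [map_div₀, map_neg, map_one, map_mul, map_ofNat, d.xi_sig]
  push_cast
  have hI : I * I = -1 := Complex.I_mul_I
  rw [div_eq_div_iff (by simp [hc]) hc]
  linear_combination (-(d.c i : ℂ)) * hI

theorem dual1 (j k : Fin g) : ∑ i, d.fdr j i * d.fr k i = if j = k then 1 else 0 := by
  have h := d.dual j k
  simp only [map_mul, fr_sig, fdr_sig] at h
  have h2 : ((∑ i, d.fdr j i * d.fr k i : ℝ) : ℂ) = ((if j = k then 1 else 0 : ℝ) : ℂ) := by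
    push_cast
    rw [h]
    split_ifs <;> simp
  exact Complex.ofReal_injective h2

theorem dual2 (i i' : Fin g) : ∑ k, d.fdr k i * d.fr k i' = if i = i' then 1 else 0 := by
  have h1 : (Matrix.of fun j i : Fin g => d.fdr j i) * (Matrix.of fun i k : Fin g => d.fr k i) =
      1 := by
    ext j k
    rw [Matrix.mul_apply, Matrix.one_apply]
    simp only [Matrix.of_apply]
    exact d.dual1 j k
  have h2 := mul_eq_one_comm.1 h1
  have h3 := congrFun (congrFun h2 i') i
  rw [Matrix.mul_apply, Matrix.one_apply] at h3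
  simp only [Matrix.of_apply] at h3
  simp only [eq_comm (a := i) (b := i')]
  rw [← h3]
  refine Finset.sum_congr rfl fun k _ => mul_comm _ _

private theorem uco_pair (x y : Fin g → ℝ) :
    ∑ k, (∑ i, d.fdr k i * x i) * (∑ i, d.fr k i * y i) = ∑ i, x i * y i := by
  have h1 : ∀ k, (∑ i, d.fdr k i * x i) * (∑ i, d.fr k i * y i) =
      ∑ i, ∑ i', (d.fdr k i * d.fr k i') * (x i * y i') := by
    intro k
    rw [Finset.sum_mul_sum]
    refine Finset.sum_congr rfl fun i _ => Finset.sum_congr rfl fun i' _ => ?_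
    ring
  simp only [h1]
  rw [Finset.sum_comm]
  refine Finset.sum_congr rfl fun i _ => ?_
  rw [Finset.sum_comm]
  simp only [← Finset.sum_mul, d.dual2]
  rw [Finset.sum_eq_single i]
  · rw [if_pos rfl, one_mul]
  · intro j _ hj
    rw [if_neg (Ne.symm hj), zero_mul]
  · intro h
    exact absurd (Finset.mem_univ i) h

private theorem uco_re (s t : Ix g → ℝ) (p : Ix g) : (d.vst s t p).re =
    ∑ k, s (k, p.2) * d.fdr k p.1 / d.sg p.2 p.1 := by
  have e : d.vst s t p = ((∑ k, s (k, p.2) * d.fdr k p.1 / d.sg p.2 p.1 : ℝ) : ℂ) +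
      (((∑ k, t (k, p.2) * d.fr k p.1) / d.c p.1 : ℝ) : ℂ) * I := by
    unfold vst
    push_cast
    ring
  rw [e, Complex.add_re, Complex.ofReal_re, Complex.re_ofReal_mul, Complex.I_re, mul_zero,
    add_zero]

private theorem uco_im (s t : Ix g → ℝ) (p : Ix g) : (d.vst s t p).im =
    (∑ k, t (k, p.2) * d.fr k p.1) / d.c p.1 := by
  have e : d.vst s t p = ((∑ k, s (k, p.2) * d.fdr k p.1 / d.sg p.2 p.1 : ℝ) : ℂ) +
      (((∑ k, t (k, p.2) * d.fr k p.1) / d.c p.1 : ℝ) : ℂ) * I := by
    unfold vst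
    push_cast
    ring
  rw [e, Complex.add_im, Complex.ofReal_im, Complex.im_ofReal_mul, Complex.I_im, mul_one,
    zero_add]

theorem sc_vst (s t : Ix g → ℝ) (p : Ix g) : d.sc (d.vst s t) p = s p := by
  unfold sc
  have h1 : ∀ i, d.fr p.1 i * d.sg p.2 i * (d.vst s t (i, p.2)).re =
      ∑ k, s (k, p.2) * (d.fdr k i * d.fr p.1 i) := by
    intro i
    rw [d.uco_re, Finset.mul_sum]
    refine Finset.sum_congr rfl fun k _ => ?_
    have h := d.sg_ne p.2 i
    field_simp
  simp only [h1]
  rw [Finset.sum_comm]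
  simp only [← Finset.mul_sum, d.dual1]
  rw [Finset.sum_eq_single p.1]
  · rw [if_pos rfl, mul_one]
  · intro j _ hj
    rw [if_neg hj, mul_zero]
  · intro h
    exact absurd (Finset.mem_univ _) h

theorem tc_vst (s t : Ix g → ℝ) (p : Ix g) : d.tc (d.vst s t) p = t p := by
  unfold tc
  have h1 : ∀ i, d.fdr p.1 i * d.c i * (d.vst s t (i, p.2)).im =
      ∑ k, t (k, p.2) * (d.fdr p.1 i * d.fr k i) := by
    intro i
    rw [d.uco_im]
    have h := (d.c_pos i).ne'
    rw [mul_assoc, mul_div_cancel₀ _ h, Finset.mul_sum]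
    refine Finset.sum_congr rfl fun k _ => ?_
    ring
  simp only [h1]
  rw [Finset.sum_comm]
  simp only [← Finset.mul_sum, d.dual1]
  rw [Finset.sum_eq_single p.1]
  · rw [if_pos rfl, mul_one]
  · intro j _ hj
    rw [if_neg (Ne.symm hj), mul_zero]
  · intro h
    exact absurd (Finset.mem_univ _) h

theorem vst_sc_tc (u : Vs g) : d.vst (d.sc u) (d.tc u) = u := by
  funext p
  apply Complex.ext
  · rw [d.uco_re]
    unfold sc
    have h1 : ∀ k, (∑ i, d.fr k i * d.sg p.2 i * (u (i, p.2)).re) * d.fdr k p.1 / d.sg p.2 p.1 =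
        ∑ i, (d.fdr k p.1 * d.fr k i) * (d.sg p.2 i * (u (i, p.2)).re / d.sg p.2 p.1) := by
      intro k
      rw [Finset.sum_mul, Finset.sum_div]
      refine Finset.sum_congr rfl fun i _ => ?_
      ring
    simp only [h1]
    rw [Finset.sum_comm]
    simp only [← Finset.sum_mul, d.dual2]
    rw [Finset.sum_eq_single p.1]
    · rw [if_pos rfl, one_mul, mul_div_cancel_left₀ _ (d.sg_ne _ _)]
    · intro j _ hj
      rw [if_neg (Ne.symm hj), zero_mul]
    · intro h
      exact absurd (Finset.mem_univ _) h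
  · rw [d.uco_im]
    unfold tc
    have h1 : ∀ k, (∑ i, d.fdr k i * d.c i * (u (i, p.2)).im) * d.fr k p.1 =
        ∑ i, (d.fdr k i * d.fr k p.1) * (d.c i * (u (i, p.2)).im) := by
      intro k
      rw [Finset.sum_mul]
      refine Finset.sum_congr rfl fun i _ => ?_
      ring
    simp only [h1]
    rw [Finset.sum_comm]
    simp only [← Finset.sum_mul, d.dual2]
    rw [Finset.sum_eq_single p.1]
    · rw [if_pos rfl, one_mul, mul_div_cancel_left₀ _ (d.c_pos _).ne']
    · intro j _ hj
      rw [if_neg hj, zero_mul]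
    · intro h
      exact absurd (Finset.mem_univ _) h

theorem sc_add (u v : Vs g) (p : Ix g) : d.sc (u + v) p = d.sc u p + d.sc v p := by
  unfold sc
  rw [← Finset.sum_add_distrib]
  refine Finset.sum_congr rfl fun i _ => ?_
  rw [Pi.add_apply, Complex.add_re]
  ring

theorem tc_add (u v : Vs g) (p : Ix g) : d.tc (u + v) p = d.tc u p + d.tc v p := by
  unfold tc
  rw [← Finset.sum_add_distrib]
  refine Finset.sum_congr rfl fun i _ => ?_
  rw [Pi.add_apply, Complex.add_im]
  ring

theorem sc_smul (x : ℝ) (u : Vs g) (p : Ix g) : d.sc (x • u) p = x * d.sc u p := by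
  unfold sc
  rw [Finset.mul_sum]
  refine Finset.sum_congr rfl fun i _ => ?_
  rw [Pi.smul_apply, Complex.real_smul, Complex.re_ofReal_mul]
  ring

theorem tc_smul (x : ℝ) (u : Vs g) (p : Ix g) : d.tc (x • u) p = x * d.tc u p := by
  unfold tc
  rw [Finset.mul_sum]
  refine Finset.sum_congr rfl fun i _ => ?_
  rw [Pi.smul_apply, Complex.real_smul, Complex.im_ofReal_mul]
  ring

theorem vst_add (s t s' t' : Ix g → ℝ) : d.vst (s + s') (t + t') = d.vst s t + d.vst s' t' := by
  funext p
  rw [Pi.add_apply]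
  apply Complex.ext
  · rw [Complex.add_re, d.uco_re, d.uco_re, d.uco_re, ← Finset.sum_add_distrib]
    refine Finset.sum_congr rfl fun i _ => ?_
    rw [Pi.add_apply]
    ring
  · rw [Complex.add_im, d.uco_im, d.uco_im, d.uco_im, ← add_div, ← Finset.sum_add_distrib]
    congr 1
    refine Finset.sum_congr rfl fun i _ => ?_
    rw [Pi.add_apply]
    ring

theorem lat_add (a b a' b' : Ix g → ℤ) : d.lat (a + a') (b + b') = d.lat a b + d.lat a' b' := by
  unfold lat
  rw [← d.vst_add]
  congr 1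
  · funext p
    simp
  · funext p
    simp

theorem sc_lat (a b : Ix g → ℤ) (p : Ix g) : d.sc (d.lat a b) p = a p :=
  d.sc_vst _ _ p

theorem tc_lat (a b : Ix g → ℤ) (p : Ix g) : d.tc (d.lat a b) p = b p :=
  d.tc_vst _ _ p

theorem continuous_sc (p : Ix g) : Continuous fun u => d.sc u p := by
  unfold sc
  exact continuous_finsetSum _ fun i _ =>
    continuous_const.mul (Complex.continuous_re.comp (continuous_apply (i, p.2)))

theorem continuous_tc (p : Ix g) : Continuous fun u => d.tc u p := by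
  unfold tc
  exact continuous_finsetSum _ fun i _ =>
    continuous_const.mul (Complex.continuous_im.comp (continuous_apply (i, p.2)))

/-- the alternating form in the coordinates -/
theorem E_eq (u v : Vs g) : d.E u v = ∑ p, (d.tc u p * d.sc v p - d.sc u p * d.tc v p) := by
  have h1 : ∀ (u v : Vs g) (al : Fin 2), ∑ k, d.tc u (k, al) * d.sc v (k, al) =
      ∑ i, (d.c i * (u (i, al)).im) * (d.sg al i * (v (i, al)).re) := by
    intro u v al
    have h2 := d.uco_pair (fun i => d.c i * (u (i, al)).im) (fun i => d.sg al i * (v (i, al)).re)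
    rw [← h2]
    refine Finset.sum_congr rfl fun k _ => ?_
    unfold tc sc
    congr 1
    · refine Finset.sum_congr rfl fun i _ => ?_
      ring
    · refine Finset.sum_congr rfl fun i _ => ?_
      ring
  rw [Fintype.sum_prod_type, Finset.sum_comm]
  have h3 : ∀ al : Fin 2, ∑ k, (d.tc u (k, al) * d.sc v (k, al) - d.sc u (k, al) * d.tc v (k, al)) =
      ∑ i, d.c i * d.sg al i * (u (i, al) * conj (v (i, al))).im := by
    intro al
    rw [Finset.sum_sub_distrib, h1 u v al]
    have h4 : ∑ k, d.sc u (k, al) * d.tc v (k, al) = ∑ k, d.tc v (k, al) * d.sc u (k, al) :=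
      Finset.sum_congr rfl fun k _ => mul_comm _ _
    rw [h4, h1 v u al, ← Finset.sum_sub_distrib]
    refine Finset.sum_congr rfl fun i _ => ?_
    rw [Complex.mul_im, Complex.conj_re, Complex.conj_im]
    ring
  simp only [h3]
  rw [Fin.sum_univ_two, ← Finset.sum_add_distrib]
  unfold E
  refine Finset.sum_congr rfl fun i _ => ?_
  have e0 : d.sg 0 i = 1 := by simp [sg]
  have e1 : d.sg 1 i = d.nu i := by simp [sg]
  rw [e0, e1]
  ring

end Dat

end Pool.Agent.RQ4
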