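import Pool.Agent.RQ4.Defs

/-!
# RQ4, TQp: quasi-periods and parity of the Riemann theta series (no convergence needed)
-/

set_option autoImplicit false

namespace Pool.Agent.RQ4

open Complex Finset

variable {ι : Type} [Fintype ι]

private theorem TQp_quad (Om : ι → ι → ℂ) (hs : ∀ p q, Om p q = Om q p) (x y : ι → ℂ) :
    ∑ p, ∑ q, (x p + y p) * Om p q * (x q + y q) =
      (∑ p, ∑ q, x p * Om p q * x q) + 2 * (∑ p, x p * ∑ q, Om p q * y q) +
        ∑ p, ∑ q, y p * Om p q * y q := by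
  have h1 : ∑ p, ∑ q, y p * Om p q * x q = ∑ p, x p * ∑ q, Om p q * y q := by
    rw [Finset.sum_comm]
    refine Finset.sum_congr rfl fun p _ => ?_
    rw [Finset.mul_sum]
    refine Finset.sum_congr rfl fun q _ => ?_
    rw [hs q p]
    ring
  have h2 : ∑ p, ∑ q, x p * Om p q * y q = ∑ p, x p * ∑ q, Om p q * y q := by
    refine Finset.sum_congr rfl fun p _ => ?_
    rw [Finset.mul_sum]
    refine Finset.sum_congr rfl fun q _ => ?_
    ring
  have h3 : ∑ p, ∑ q, (x p + y p) * Om p q * (x q + y q) =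
      (∑ p, ∑ q, x p * Om p q * x q) + (∑ p, ∑ q, x p * Om p q * y q) +
        ((∑ p, ∑ q, y p * Om p q * x q) + ∑ p, ∑ q, y p * Om p q * y q) := by
    simp only [← Finset.sum_add_distrib]
    refine Finset.sum_congr rfl fun p _ => Finset.sum_congr rfl fun q _ => ?_
    ring
  rw [h3, h1, h2]
  ring

theorem th_add_int (Om : ι → ι → ℂ) (z : ι → ℂ) (n : ι → ℤ) :
    th Om (fun p => z p + n p) = th Om z := by
  unfold th
  refine tsum_congr fun m => ?_
  have h1 : ∑ p, (m p : ℂ) * (z p + n p) = (∑ p, (m p : ℂ) * z p) + ((∑ p, m p * n p : ℤ) : ℂ) := by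
    push_cast
    rw [← Finset.sum_add_distrib]
    refine Finset.sum_congr rfl fun p _ => ?_
    ring
  have h2 : Real.pi * I * (∑ p, ∑ q, (m p : ℂ) * Om p q * (m q : ℂ)) +
      2 * Real.pi * I * ∑ p, (m p : ℂ) * (z p + n p) =
      (Real.pi * I * (∑ p, ∑ q, (m p : ℂ) * Om p q * (m q : ℂ)) +
      2 * Real.pi * I * ∑ p, (m p : ℂ) * z p) +
        ((∑ p, m p * n p : ℤ) : ℂ) * (2 * Real.pi * I) := by
    rw [h1]
    ring
  rw [h2, Complex.exp_add, Complex.exp_int_mul_two_pi_mul_I, mul_one]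

theorem th_add_Om (Om : ι → ι → ℂ) (hs : ∀ p q, Om p q = Om q p) (z : ι → ℂ) (n : ι → ℤ) :
    th Om (fun p => z p + ∑ q, Om p q * n q) =
      cexp (-(Real.pi * I * (∑ p, ∑ q, (n p : ℂ) * Om p q * n q) +
        2 * Real.pi * I * ∑ p, (n p : ℂ) * z p)) * th Om z := by
  unfold th
  rw [← tsum_mul_left]
  rw [← (Equiv.addRight n).tsum_eq (fun m : ι → ℤ =>
    cexp (-(Real.pi * I * (∑ p, ∑ q, (n p : ℂ) * Om p q * n q) +
        2 * Real.pi * I * ∑ p, (n p : ℂ) * z p)) *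
      cexp (Real.pi * I * (∑ p, ∑ q, (m p : ℂ) * Om p q * (m q : ℂ)) +
        2 * Real.pi * I * ∑ p, (m p : ℂ) * z p))]
  refine tsum_congr fun m => ?_
  rw [← Complex.exp_add]
  congr 1
  have h1 := TQp_quad Om hs (fun p => (m p : ℂ)) (fun p => (n p : ℂ))
  have h2 : ∑ p, ∑ q, (((Equiv.addRight n) m p : ℤ) : ℂ) * Om p q *
      (((Equiv.addRight n) m q : ℤ) : ℂ) =
      ∑ p, ∑ q, ((m p : ℂ) + n p) * Om p q * ((m q : ℂ) + n q) := by
    refine Finset.sum_congr rfl fun p _ => Finset.sum_congr rfl fun q _ => ?_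
    simp only [Equiv.coe_addRight, Pi.add_apply]
    push_cast
    ring
  have h3 : ∑ p, (((Equiv.addRight n) m p : ℤ) : ℂ) * z p =
      (∑ p, (m p : ℂ) * z p) + ∑ p, (n p : ℂ) * z p := by
    rw [← Finset.sum_add_distrib]
    refine Finset.sum_congr rfl fun p _ => ?_
    simp only [Equiv.coe_addRight, Pi.add_apply]
    push_cast
    ring
  have h4 : ∑ p, (m p : ℂ) * (z p + ∑ q, Om p q * n q) =
      (∑ p, (m p : ℂ) * z p) + ∑ p, (m p : ℂ) * ∑ q, Om p q * n q := by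
    rw [← Finset.sum_add_distrib]
    refine Finset.sum_congr rfl fun p _ => ?_
    ring
  rw [h2, h3, h4, h1]
  ring

theorem th_neg (Om : ι → ι → ℂ) (z : ι → ℂ) : th Om (fun p => -z p) = th Om z := by
  unfold th
  rw [← (Equiv.neg (ι → ℤ)).tsum_eq (fun m : ι → ℤ =>
      cexp (Real.pi * I * (∑ p, ∑ q, (m p : ℂ) * Om p q * (m q : ℂ)) +
        2 * Real.pi * I * ∑ p, (m p : ℂ) * z p))]
  refine tsum_congr fun m => ?_
  have h2 : ∑ p, ∑ q, (((Equiv.neg (ι → ℤ)) m p : ℤ) : ℂ) * Om p q *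
      (((Equiv.neg (ι → ℤ)) m q : ℤ) : ℂ) =
      ∑ p, ∑ q, (m p : ℂ) * Om p q * (m q : ℂ) := by
    refine Finset.sum_congr rfl fun p _ => Finset.sum_congr rfl fun q _ => ?_
    simp only [Equiv.neg_apply, Pi.neg_apply]
    push_cast
    ring
  have h3 : ∑ p, (((Equiv.neg (ι → ℤ)) m p : ℤ) : ℂ) * z p = ∑ p, (m p : ℂ) * -z p := by
    refine Finset.sum_congr rfl fun p _ => ?_
    simp only [Equiv.neg_apply, Pi.neg_apply]
    push_cast
    ring
  rw [h2, h3]

/-- completing the square, no convergence needed -/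
theorem th_shift (Om : ι → ι → ℂ) (hs : ∀ p q, Om p q = Om q p) (s t : ι → ℂ) :
    th Om (fun p => s p + ∑ q, Om p q * t q) *
        cexp (Real.pi * I * ((∑ p, ∑ q, t p * Om p q * t q) + ∑ p, s p * t p)) =
      ∑' m : ι → ℤ, cexp (Real.pi * I * (∑ p, ∑ q, ((m p : ℂ) + t p) * Om p q * ((m q : ℂ) + t q)) +
        2 * Real.pi * I * (∑ p, (m p : ℂ) * s p) + Real.pi * I * ∑ p, s p * t p) := by
  unfold th
  rw [← tsum_mul_right]
  refine tsum_congr fun m => ?_
  rw [← Complex.exp_add]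
  congr 1
  have h1 := TQp_quad Om hs (fun p => (m p : ℂ)) t
  have h4 : ∑ p, (m p : ℂ) * (s p + ∑ q, Om p q * t q) =
      (∑ p, (m p : ℂ) * s p) + ∑ p, (m p : ℂ) * ∑ q, Om p q * t q := by
    rw [← Finset.sum_add_distrib]
    refine Finset.sum_congr rfl fun p _ => ?_
    ring
  rw [h4, h1]
  ring

end Pool.Agent.RQ4
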