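import Mathlib

/-!
# RQ4, TFou: Fourier coefficients of an absolutely convergent series on the `n`-torus
-/

set_option autoImplicit false

namespace Pool.Agent.RQ4

open Complex Finset MeasureTheory

variable {ι : Type} [Fintype ι]

/-- the unit box -/
def bx (ι : Type) : Set (ι → ℝ) := {x | ∀ p, x p ∈ Set.Ioc (0 : ℝ) 1}

/-- the character -/
noncomputable def ch (m : ι → ℤ) (x : ι → ℝ) : ℂ := cexp (2 * Real.pi * I * ∑ p, (m p : ℂ) * (x p : ℂ))

private theorem TFou_bx_eq : bx ι = Set.pi Set.univ (fun _ : ι => Set.Ioc (0 : ℝ) 1) := by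
  ext x
  rw [Set.mem_univ_pi]
  rfl

private theorem TFou_ch_prod (n : ι → ℤ) (x : ι → ℝ) :
    ch n x = ∏ p, cexp (2 * Real.pi * I * n p * x p) := by
  unfold ch
  rw [← Complex.exp_sum, Finset.mul_sum]
  congr 1
  refine Finset.sum_congr rfl fun p _ => ?_
  ring

private theorem TFou_ch_mul (n m : ι → ℤ) (x : ι → ℝ) : ch n x * ch (-m) x = ch (n - m) x := by
  unfold ch
  rw [← Complex.exp_add, ← mul_add, ← Finset.sum_add_distrib]
  congr 2
  refine Finset.sum_congr rfl fun p _ => ?_
  rw [Pi.neg_apply, Pi.sub_apply]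
  push_cast
  ring

private theorem TFou_ch_norm (n : ι → ℤ) (x : ι → ℝ) : ‖ch n x‖ = 1 := by
  unfold ch
  have e : (2 * Real.pi * I * ∑ p, (n p : ℂ) * (x p : ℂ)) =
      ((2 * Real.pi * ∑ p, (n p : ℝ) * x p : ℝ) : ℂ) * I := by
    push_cast
    ring
  rw [e, Complex.norm_exp_ofReal_mul_I]

private theorem TFou_ch_cont (n : ι → ℤ) : Continuous (ch n) := by
  unfold ch
  refine Complex.continuous_exp.comp (continuous_const.mul ?_)
  refine continuous_finsetSum _ fun p _ => ?_
  exact continuous_const.mul (Complex.continuous_ofReal.comp (continuous_apply p))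

private theorem TFou_one {k : ℤ} (hk : k ≠ 0) :
    ∫ t : ℝ in Set.Ioc (0 : ℝ) 1, cexp (2 * Real.pi * I * k * t) = 0 := by
  have hc : (2 * Real.pi * I * k : ℂ) ≠ 0 := by
    have hk' : (k : ℂ) ≠ 0 := Int.cast_ne_zero.2 hk
    exact mul_ne_zero Complex.two_pi_I_ne_zero hk'
  rw [← intervalIntegral.integral_of_le zero_le_one, integral_exp_mul_complex hc]
  have e : cexp (2 * Real.pi * I * k * (1 : ℝ)) = 1 := by
    rw [Complex.exp_eq_one_iff]
    exact ⟨k, by push_cast; ring⟩
  rw [e]
  simp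

theorem bx_measurable : MeasurableSet (bx ι) := by
  rw [TFou_bx_eq]
  exact MeasurableSet.univ_pi fun _ => measurableSet_Ioc

theorem bx_volume : volume (bx ι) = 1 := by
  rw [TFou_bx_eq, Real.volume_pi_Ioc]
  simp

theorem integral_ch [DecidableEq ι] (n : ι → ℤ) : ∫ x in bx ι, ch n x = if n = 0 then 1 else 0 := by
  by_cases hn : n = 0
  · rw [if_pos hn, hn]
    have h1 : ∀ x : ι → ℝ, ch (0 : ι → ℤ) x = 1 := by
      intro x
      unfold ch
      simp
    simp only [h1]
    rw [setIntegral_const, Measure.real, bx_volume]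
    simp
  · rw [if_neg hn]
    obtain ⟨p, hp⟩ := Function.ne_iff.1 hn
    rw [TFou_bx_eq, volume_pi, Measure.restrict_pi_pi]
    simp only [TFou_ch_prod]
    rw [integral_fintype_prod_eq_prod (𝕜 := ℂ) (E := fun _ : ι => ℝ)
      (f := fun (p : ι) (t : ℝ) => cexp (2 * Real.pi * I * n p * t))
      (μ := fun _ => volume.restrict (Set.Ioc (0 : ℝ) 1))]
    exact Finset.prod_eq_zero (Finset.mem_univ p) (TFou_one hp)

/-- the Fourier coefficients of an absolutely convergent series -/
theorem four_coef {a : (ι → ℤ) → ℂ} (ha : Summable fun m => ‖a m‖) (m : ι → ℤ) :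
    ∫ x in bx ι, (∑' n, a n * ch n x) * ch (-m) x = a m := by
  classical
  have hvol : volume (bx ι) < ⊤ := by
    rw [bx_volume]
    exact ENNReal.one_lt_top
  have hmul : ∀ n x, a n * ch n x * ch (-m) x = a n * ch (n - m) x := by
    intro n x
    rw [mul_assoc, TFou_ch_mul]
  have hint : ∀ n, Integrable (fun x => a n * ch n x * ch (-m) x) (volume.restrict (bx ι)) := by
    intro n
    refine IntegrableOn.of_bound hvol ?_ (‖a n‖) (Filter.Eventually.of_forall fun x => ?_)
    · exact ((continuous_const.mul (TFou_ch_cont n)).mul (TFou_ch_cont (-m))).aestronglyMeasurable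
    · rw [hmul, norm_mul, TFou_ch_norm, mul_one]
  have hnorm : ∀ n, ∫ x in bx ι, ‖a n * ch n x * ch (-m) x‖ = ‖a n‖ := by
    intro n
    have h1 : ∀ x, ‖a n * ch n x * ch (-m) x‖ = ‖a n‖ := fun x => by
      rw [hmul, norm_mul, TFou_ch_norm, mul_one]
    simp only [h1]
    rw [setIntegral_const, Measure.real, bx_volume]
    simp
  have hs := hasSum_integral_of_summable_integral_norm hint (by
    simp only [hnorm]
    exact ha)
  have e1 : ∀ n, ∫ x in bx ι, a n * ch n x * ch (-m) x = if n = m then a n else 0 := by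
    intro n
    simp only [hmul]
    rw [integral_const_mul, integral_ch]
    by_cases h : n = m
    · rw [if_pos (by rw [h, sub_self]), if_pos h, mul_one]
    · rw [if_neg (fun h2 => h (sub_eq_zero.1 h2)), if_neg h, mul_zero]
  have e2 : ∀ x, (∑' n, a n * ch n x) * ch (-m) x = ∑' n, a n * ch n x * ch (-m) x := by
    intro x
    rw [tsum_mul_right]
  simp only [e2]
  rw [← hs.tsum_eq]
  simp only [e1]
  rw [tsum_ite_eq]

theorem four_inj {a : (ι → ℤ) → ℂ} (ha : Summable fun m => ‖a m‖)
    (h : ∀ x : ι → ℝ, ∑' m, a m * ch m x = 0) : ∀ m, a m = 0 := by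
  intro m
  have h1 := four_coef ha m
  simp only [h, zero_mul] at h1
  rw [integral_zero] at h1
  exact h1.symm

end Pool.Agent.RQ4
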