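import Pool.Agent.RQ4.TGau
import Pool.Agent.RQ4.TQp
import Pool.Agent.RQ4.TFou
import Pool.Agent.RQ4.TSum
import Pool.Agent.CMT.FU3

/-!
# RQ4, TUni: the theta function is entire, its Fourier coefficients, uniqueness
-/

set_option autoImplicit false

namespace Pool.Agent.RQ4

open Complex Finset MeasureTheory

variable {ι : Type} [Fintype ι] [DecidableEq ι]

theorem th_diff {Om : ι → ι → ℂ} {δ : ℝ} (hδ : 0 < δ) (h : Pos Om δ) : Differentiable ℂ (th Om) := by
  have h1 : DifferentiableOn ℂ (fun z : ι → ℂ => ∑' m : ι → ℤ,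
      cexp (Real.pi * I * (∑ p, ∑ q, (m p : ℂ) * Om p q * (m q : ℂ)) +
        2 * Real.pi * I * ∑ p, (m p : ℂ) * z p)) Set.univ := by
    apply diff_tsum isOpen_univ
    · intro m
      apply Differentiable.differentiableOn
      apply Differentiable.cexp
      apply Differentiable.const_add
      apply Differentiable.const_mul
      apply Differentiable.fun_sum
      intro p _
      apply Differentiable.const_mul
      exact differentiable_apply p
    · intro x _
      refine ⟨1, one_pos, _, gau_sum (ι := ι) (δ := Real.pi * δ) (by positivity)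
        (2 * Real.pi * (‖x‖ + 1)), ?_⟩
      intro m y _ hy
      apply term_le h
      intro p
      have h2 : ‖y‖ ≤ ‖x‖ + 1 := by
        have h3 : ‖y‖ ≤ ‖x‖ + ‖y - x‖ := by
          have h4 : y = x + (y - x) := by abel
          calc ‖y‖ = ‖x + (y - x)‖ := by rw [← h4]
            _ ≤ ‖x‖ + ‖y - x‖ := norm_add_le _ _
        linarith
      calc |(y p).im| ≤ ‖y p‖ := Complex.abs_im_le_norm _
        _ ≤ ‖y‖ := norm_le_pi_norm y p
        _ ≤ _ := h2
  intro z
  exact (h1 z (Set.mem_univ z)).differentiableAt Filter.univ_mem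

theorem th_series (Om : ι → ι → ℂ) (x : ι → ℝ) : th Om (fun p => (x p : ℂ)) =
    ∑' m : ι → ℤ, cexp (Real.pi * I * ∑ p, ∑ q, (m p : ℂ) * Om p q * (m q : ℂ)) * ch m x := by
  unfold th ch
  congr 1
  ext m
  rw [← Complex.exp_add]

private theorem tuni_sum {Om : ι → ι → ℂ} {δ : ℝ} (hδ : 0 < δ) (h : Pos Om δ) :
    Summable fun m : ι → ℤ =>
      ‖cexp (Real.pi * I * ∑ p, ∑ q, (m p : ℂ) * Om p q * (m q : ℂ))‖ := by
  have h1 := th_summable hδ h (0 : ι → ℂ)
  simpa using h1

/-- the supremum of the theta function on `ℝ^ι` is at least `1` -/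
theorem th_sup {Om : ι → ι → ℂ} {δ : ℝ} (hδ : 0 < δ) (h : Pos Om δ) {B : ℝ}
    (hB : ∀ x : ι → ℝ, ‖th Om (fun p => (x p : ℂ))‖ ≤ B) : 1 ≤ B := by
  have h1 := four_coef (tuni_sum hδ h) (0 : ι → ℤ)
  have h2 : cexp (Real.pi * I * ∑ p, ∑ q, (((0 : ι → ℤ) p : ℤ) : ℂ) * Om p q *
      (((0 : ι → ℤ) q : ℤ) : ℂ)) = 1 := by
    simp
  rw [h2] at h1
  have h3 : ‖∫ x in bx ι, (∑' m : ι → ℤ,
      cexp (Real.pi * I * ∑ p, ∑ q, (m p : ℂ) * Om p q * (m q : ℂ)) * ch m x) *
        ch (-(0 : ι → ℤ)) x‖ ≤ B * (volume : Measure (ι → ℝ)).real (bx ι) := by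
    apply norm_setIntegral_le_of_norm_le_const
    · rw [bx_volume]
      exact ENNReal.one_lt_top
    · intro x _
      rw [← th_series]
      have h4 : ch (-(0 : ι → ℤ)) x = 1 := by
        unfold ch
        simp
      rw [h4, mul_one]
      exact hB x
  rw [h1] at h3
  have h5 : (volume : Measure (ι → ℝ)).real (bx ι) = 1 := by
    unfold Measure.real
    rw [bx_volume]
    rfl
  rw [h5] at h3
  simpa using h3

theorem th_ne {Om : ι → ι → ℂ} {δ : ℝ} (hδ : 0 < δ) (h : Pos Om δ) : ∃ z, th Om z ≠ 0 := by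
  by_contra hc
  push Not at hc
  have h1 := th_sup hδ h (B := 0) (fun x => by rw [hc]; simp)
  linarith

private theorem tuni_step {Om : ι → ι → ℂ} {G : (ι → ℂ) → ℂ}
    (hG : ∀ (z : ι → ℂ) (p : ι), G (fun q => z q + Om q p) =
      cexp (-(Real.pi * I * Om p p + 2 * Real.pi * I * z p)) * G z) (k : ι) (z : ι → ℂ) :
    G (z + fun q => -Om q k) = cexp (-(Real.pi * I * Om k k)) * cexp (2 * Real.pi * I * z k) *
      G z := by
  have h1 := hG (z + fun q => -Om q k) k
  have h2 : (fun q => (z + fun q => -Om q k) q + Om q k) = z := by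
    ext q
    simp
  rw [h2] at h1
  rw [h1, ← mul_assoc, ← Complex.exp_add, ← Complex.exp_add]
  have h3 : -(Real.pi * I * Om k k) + 2 * Real.pi * I * z k +
      -(Real.pi * I * Om k k + 2 * Real.pi * I * (z + fun q => -Om q k) k) = 0 := by
    simp only [Pi.add_apply]
    ring
  rw [h3, Complex.exp_zero, one_mul]

/-- **uniqueness** -/
theorem th_unique {Om : ι → ι → ℂ} (hs : ∀ p q, Om p q = Om q p) {δ : ℝ} (hδ : 0 < δ)
    (h : Pos Om δ) {f : (ι → ℂ) → ℂ} (hf : Differentiable ℂ f)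
    (h1 : ∀ (z : ι → ℂ) (n : ι → ℤ), f (fun p => z p + n p) = f z)
    (h2 : ∀ (z : ι → ℂ) (p : ι), f (fun q => z q + Om q p) =
      cexp (-(Real.pi * I * Om p p + 2 * Real.pi * I * z p)) * f z) :
    ∃ c : ℂ, ∀ z, f z = c * th Om z := by
  have hper : ∀ G : (ι → ℂ) → ℂ, (∀ (z : ι → ℂ) (n : ι → ℤ), G (fun p => z p + n p) = G z) →
      ∀ (j : ι) (z : ι → ℂ), G (z + Pi.single j 1) = 1 * G z := by
    intro G hG j z
    have h3 := hG z (Pi.single j 1)
    have h4 : (fun p => z p + (((Pi.single j 1 : ι → ℤ) p : ℤ) : ℂ)) = z + Pi.single j 1 := by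
      ext p
      by_cases hp : p = j
      · subst hp
        simp
      · simp [hp]
    rw [h4] at h3
    rw [h3, one_mul]
  have hth : ∀ (z : ι → ℂ) (p : ι), th Om (fun q => z q + Om q p) =
      cexp (-(Real.pi * I * Om p p + 2 * Real.pi * I * z p)) * th Om z := by
    intro z p
    have h3 := th_add_Om Om hs z (Pi.single p 1)
    have h4 : (fun q => z q + ∑ r, Om q r * (((Pi.single p 1 : ι → ℤ) r : ℤ) : ℂ)) =
        fun q => z q + Om q p := by
      ext q
      rw [Fintype.sum_eq_single p]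
      · simp
      · intro r hr
        simp [hr]
    have h5 : ∑ q, ∑ r, (((Pi.single p 1 : ι → ℤ) q : ℤ) : ℂ) * Om q r *
        (((Pi.single p 1 : ι → ℤ) r : ℤ) : ℂ) = Om p p := by
      rw [Fintype.sum_eq_single p]
      · rw [Fintype.sum_eq_single p]
        · simp
        · intro r hr
          simp [hr]
      · intro q hq
        apply Finset.sum_eq_zero
        intro r _
        simp [hq]
    have h6 : ∑ q, (((Pi.single p 1 : ι → ℤ) q : ℤ) : ℂ) * z q = z p := by
      rw [Fintype.sum_eq_single p]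
      · simp
      · intro r hr
        simp [hr]
    rw [h4, h5, h6] at h3
    exact h3
  exact CMT.four_unique' (fun _ => 1) (fun k => cexp (-(Real.pi * I * Om k k)))
    (fun _ => one_ne_zero) (fun _ => Complex.exp_ne_zero _) (fun k q => -Om q k) (th Om) f
    (th_diff hδ h) hf (hper _ (th_add_int Om)) (hper _ h1) (tuni_step hth) (tuni_step h2)
    (th_ne hδ h)

/-- a theta function with purely imaginary period matrix is positive at `0` -/
theorem th_zero_ne {Om : ι → ι → ℂ} {δ : ℝ} (hδ : 0 < δ) (h : Pos Om δ)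
    (hi : ∀ p q, (Om p q).re = 0) : th Om 0 ≠ 0 := by
  have h1 : ∀ m : ι → ℤ, cexp (Real.pi * I * (∑ p, ∑ q, (m p : ℂ) * Om p q * (m q : ℂ)) +
      2 * Real.pi * I * ∑ p, (m p : ℂ) * (0 : ι → ℂ) p) =
      ((Real.exp (-(Real.pi * ∑ p, ∑ q, (m p : ℝ) * (Om p q).im * (m q : ℝ))) : ℝ) : ℂ) := by
    intro m
    have h2 : (∑ p, ∑ q, (m p : ℂ) * Om p q * (m q : ℂ)) =
        I * ((∑ p, ∑ q, (m p : ℝ) * (Om p q).im * (m q : ℝ) : ℝ) : ℂ) := by
      push_cast
      rw [Finset.mul_sum]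
      refine Finset.sum_congr rfl fun p _ => ?_
      rw [Finset.mul_sum]
      refine Finset.sum_congr rfl fun q _ => ?_
      have h3 : Om p q = I * ((Om p q).im : ℂ) := by
        apply Complex.ext
        · simp [hi]
        · simp
      rw [h3]
      simp
      ring
    rw [h2, Complex.ofReal_exp]
    congr 1
    simp only [Pi.zero_apply, mul_zero, Finset.sum_const_zero, add_zero, Complex.ofReal_neg,
      Complex.ofReal_mul]
    have h4 : (Real.pi : ℂ) * I * (I * ((∑ p, ∑ q, (m p : ℝ) * (Om p q).im * (m q : ℝ) : ℝ) : ℂ)) =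
        (I * I) * (Real.pi * ((∑ p, ∑ q, (m p : ℝ) * (Om p q).im * (m q : ℝ) : ℝ) : ℂ)) := by
      ring
    rw [h4, Complex.I_mul_I]
    ring
  have hsum : Summable fun m : ι → ℤ =>
      Real.exp (-(Real.pi * ∑ p, ∑ q, (m p : ℝ) * (Om p q).im * (m q : ℝ))) := by
    have h5 := th_summable hδ h (0 : ι → ℂ)
    refine h5.congr fun m => ?_
    rw [h1 m, Complex.norm_real, Real.norm_eq_abs, abs_of_pos (Real.exp_pos _)]
  unfold th
  rw [tsum_congr h1, ← Complex.ofReal_tsum]
  rw [Complex.ofReal_ne_zero]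
  exact (hsum.tsum_pos (fun m => (Real.exp_pos _).le) 0 (Real.exp_pos _)).ne'

end Pool.Agent.RQ4
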