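import Pool.Agent.RQ4.Defs

/-!
# RQ4, TGau: Gaussian majorants over `ℤ^ι`
-/

set_option autoImplicit false

namespace Pool.Agent.RQ4

open Complex Finset

variable {ι : Type} [Fintype ι]

/-- positivity of the imaginary part of a period matrix, with constant `δ` -/
def Pos (Om : ι → ι → ℂ) (δ : ℝ) : Prop :=
  ∀ x : ι → ℝ, δ * ∑ p, x p ^ 2 ≤ ∑ p, ∑ q, x p * (Om p q).im * x q

private theorem tgau_prod {g : ι → ℤ → ℝ} (h0 : ∀ i k, 0 ≤ g i k)
    (hg : ∀ i, Summable (g i)) : Summable (fun x : ι → ℤ => ∏ i, g i (x i)) := by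
  classical
  refine summable_of_sum_le (c := ∏ i, ∑' k, g i k)
    (fun x => Finset.prod_nonneg fun i _ => h0 i _) fun s => ?_
  have h1 : s ⊆ Fintype.piFinset (fun i => s.image (fun x => x i)) := by
    intro x hx
    rw [Fintype.mem_piFinset]
    intro i
    exact Finset.mem_image_of_mem _ hx
  refine (Finset.sum_le_sum_of_subset_of_nonneg h1
    (fun x _ _ => Finset.prod_nonneg fun i _ => h0 i _)).trans ?_
  rw [← Finset.prod_univ_sum]
  refine Finset.prod_le_prod (fun i _ => Finset.sum_nonneg fun k _ => h0 i k) fun i _ => ?_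
  exact (hg i).sum_le_tsum _ (fun k _ => h0 i k)

private theorem tgau_one {δ : ℝ} (hδ : 0 < δ) (B : ℝ) :
    Summable fun n : ℤ => Real.exp (-(δ * (n : ℝ) ^ 2) + B * |(n : ℝ)|) := by
  have h1 : Summable fun n : ℤ => Real.exp (-|(n : ℝ)|) := by
    refine Summable.of_nat_of_neg ?_ ?_
    · refine Real.summable_exp_neg_nat.congr fun n => ?_
      rw [Int.cast_natCast, abs_of_nonneg (Nat.cast_nonneg n)]
    · refine Real.summable_exp_neg_nat.congr fun n => ?_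
      rw [Int.cast_neg, Int.cast_natCast, abs_neg, abs_of_nonneg (Nat.cast_nonneg n)]
  refine Summable.of_nonneg_of_le (fun n => (Real.exp_pos _).le) (fun n => ?_)
    (h1.mul_left (Real.exp ((B + 1) ^ 2 / (4 * δ))))
  rw [← Real.exp_add]
  apply Real.exp_le_exp.2
  have h2 : (n : ℝ) ^ 2 = |(n : ℝ)| ^ 2 := (sq_abs _).symm
  rw [h2]
  have h3 : (B + 1) ^ 2 / (4 * δ) - ((B + 1) * |(n : ℝ)| - δ * |(n : ℝ)| ^ 2) =
      δ * (|(n : ℝ)| - (B + 1) / (2 * δ)) ^ 2 := by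
    field_simp
    ring
  have h4 : 0 ≤ δ * (|(n : ℝ)| - (B + 1) / (2 * δ)) ^ 2 := by positivity
  linarith

theorem gau_sum {δ : ℝ} (hδ : 0 < δ) (B : ℝ) :
    Summable fun m : ι → ℤ => Real.exp (-(δ * ∑ p, (m p : ℝ) ^ 2) + B * ∑ p, |(m p : ℝ)|) := by
  refine (tgau_prod (g := fun (_ : ι) (k : ℤ) => Real.exp (-(δ * (k : ℝ) ^ 2) + B * |(k : ℝ)|))
    (fun i k => (Real.exp_pos _).le) (fun i => tgau_one hδ B)).congr fun m => ?_
  rw [← Real.exp_sum, Finset.sum_add_distrib, Finset.sum_neg_distrib, Finset.mul_sum,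
    Finset.mul_sum]

theorem gau_shift {δ : ℝ} (hδ : 0 < δ) : ∃ C : ℝ, ∀ t : ι → ℝ,
    Summable (fun m : ι → ℤ => Real.exp (-(δ * ∑ p, ((m p : ℝ) + t p) ^ 2))) ∧
      ∑' m : ι → ℤ, Real.exp (-(δ * ∑ p, ((m p : ℝ) + t p) ^ 2)) ≤ C := by
  have hS := gau_sum (ι := ι) hδ δ
  refine ⟨∑' m : ι → ℤ, Real.exp (-(δ * ∑ p, (m p : ℝ) ^ 2) + δ * ∑ p, |(m p : ℝ)|), fun t => ?_⟩
  have hle : ∀ m : ι → ℤ, Real.exp (-(δ * ∑ p, ((m p : ℝ) + (t p - round (t p))) ^ 2)) ≤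
      Real.exp (-(δ * ∑ p, (m p : ℝ) ^ 2) + δ * ∑ p, |(m p : ℝ)|) := by
    intro m
    apply Real.exp_le_exp.2
    have h1 : ∑ p, ((m p : ℝ) ^ 2 - |(m p : ℝ)|) ≤ ∑ p, ((m p : ℝ) + (t p - round (t p))) ^ 2 := by
      refine Finset.sum_le_sum fun p _ => ?_
      have h2 := abs_sub_round (t p)
      have h3 : -(|(m p : ℝ)| * (1 / 2)) ≤ (m p : ℝ) * (t p - round (t p)) := by
        have h4 : |(m p : ℝ) * (t p - round (t p))| ≤ |(m p : ℝ)| * (1 / 2) := by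
          rw [abs_mul]
          exact mul_le_mul_of_nonneg_left h2 (abs_nonneg _)
        exact (abs_le.1 h4).1
      nlinarith [sq_nonneg (t p - (round (t p) : ℝ))]
    rw [Finset.sum_sub_distrib] at h1
    have h5 := mul_le_mul_of_nonneg_left h1 hδ.le
    rw [mul_sub] at h5
    linarith
  have hS' : Summable (fun m : ι → ℤ =>
      Real.exp (-(δ * ∑ p, ((m p : ℝ) + (t p - round (t p))) ^ 2))) :=
    Summable.of_nonneg_of_le (fun m => (Real.exp_pos _).le) hle hS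
  have he : (fun m : ι → ℤ => Real.exp (-(δ * ∑ p, ((m p : ℝ) + t p) ^ 2))) =
      (fun m : ι → ℤ => Real.exp (-(δ * ∑ p, ((m p : ℝ) + (t p - round (t p))) ^ 2))) ∘
        (Equiv.addRight (fun p => round (t p))) := by
    funext m
    simp only [Function.comp_apply, Equiv.coe_addRight, Pi.add_apply]
    congr 3
    refine Finset.sum_congr rfl fun p _ => ?_
    push_cast
    congr 1
    ring
  rw [he]
  refine ⟨(Equiv.summable_iff _).2 hS', ?_⟩
  have h6 := (Equiv.addRight (fun p => round (t p))).tsum_eq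
    (fun m : ι → ℤ => Real.exp (-(δ * ∑ p, ((m p : ℝ) + (t p - round (t p))) ^ 2)))
  have h7 : ∑' m : ι → ℤ, ((fun m : ι → ℤ =>
      Real.exp (-(δ * ∑ p, ((m p : ℝ) + (t p - round (t p))) ^ 2))) ∘
        (Equiv.addRight (fun p => round (t p)))) m =
      ∑' m : ι → ℤ, Real.exp (-(δ * ∑ p, ((m p : ℝ) + (t p - round (t p))) ^ 2)) := h6
  rw [h7]
  exact hS'.tsum_le_tsum hle hS

private theorem tgau_re (Om : ι → ι → ℂ) (x : ι → ℝ) (w v : ℂ) :
    (Real.pi * I * (∑ p, ∑ q, (x p : ℂ) * Om p q * (x q : ℂ)) + w + v).re =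
      -(Real.pi * ∑ p, ∑ q, x p * (Om p q).im * x q) + w.re + v.re := by
  have h1 : (∑ p, ∑ q, (x p : ℂ) * Om p q * (x q : ℂ)).im =
      ∑ p, ∑ q, x p * (Om p q).im * x q := by
    rw [Complex.im_sum]
    refine Finset.sum_congr rfl fun p _ => ?_
    rw [Complex.im_sum]
    refine Finset.sum_congr rfl fun q _ => ?_
    rw [Complex.im_mul_ofReal, Complex.im_ofReal_mul]
  have h2 : ∀ S : ℂ, (Real.pi * I * S).re = -(Real.pi * S.im) := by
    intro S
    rw [mul_assoc, Complex.re_ofReal_mul, Complex.I_mul_re]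
    ring
  rw [Complex.add_re, Complex.add_re, h2, h1]

theorem term_norm (Om : ι → ι → ℂ) (z : ι → ℂ) (m : ι → ℤ) :
    ‖cexp (Real.pi * I * (∑ p, ∑ q, (m p : ℂ) * Om p q * (m q : ℂ)) +
      2 * Real.pi * I * ∑ p, (m p : ℂ) * z p)‖ =
      Real.exp (-(Real.pi * ∑ p, ∑ q, (m p : ℝ) * (Om p q).im * m q) -
        2 * Real.pi * ∑ p, (m p : ℝ) * (z p).im) := by
  rw [Complex.norm_exp]
  congr 1
  have h1 := tgau_re Om (fun p => (m p : ℝ)) (2 * Real.pi * I * ∑ p, (m p : ℂ) * z p) 0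
  simp only [Complex.ofReal_intCast, add_zero, Complex.zero_re] at h1
  rw [h1]
  have h2 : (2 * Real.pi * I * ∑ p, (m p : ℂ) * z p).re =
      -(2 * Real.pi * ∑ p, (m p : ℝ) * (z p).im) := by
    have h3 : (∑ p, (m p : ℂ) * z p).im = ∑ p, (m p : ℝ) * (z p).im := by
      rw [Complex.im_sum]
      refine Finset.sum_congr rfl fun p _ => ?_
      rw [← Complex.ofReal_intCast, Complex.im_ofReal_mul]
    have h4 : (2 * Real.pi * I * ∑ p, (m p : ℂ) * z p) =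
        ((2 * Real.pi : ℝ) : ℂ) * (I * ∑ p, (m p : ℂ) * z p) := by
      push_cast
      ring
    rw [h4, Complex.re_ofReal_mul, Complex.I_mul_re, h3]
    ring
  rw [h2]
  ring

theorem term_le {Om : ι → ι → ℂ} {δ B : ℝ} (h : Pos Om δ) {z : ι → ℂ} (hz : ∀ p, |(z p).im| ≤ B)
    (m : ι → ℤ) :
    ‖cexp (Real.pi * I * (∑ p, ∑ q, (m p : ℂ) * Om p q * (m q : ℂ)) +
      2 * Real.pi * I * ∑ p, (m p : ℂ) * z p)‖ ≤
      Real.exp (-((Real.pi * δ) * ∑ p, (m p : ℝ) ^ 2) + (2 * Real.pi * B) * ∑ p, |(m p : ℝ)|) := by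
  rw [term_norm]
  apply Real.exp_le_exp.2
  have h1 := mul_le_mul_of_nonneg_left (h fun p => (m p : ℝ)) Real.pi_pos.le
  have h2 : -(B * ∑ p, |(m p : ℝ)|) ≤ ∑ p, (m p : ℝ) * (z p).im := by
    rw [Finset.mul_sum, ← Finset.sum_neg_distrib]
    refine Finset.sum_le_sum fun p _ => ?_
    have h3 : |(m p : ℝ) * (z p).im| ≤ B * |(m p : ℝ)| := by
      rw [abs_mul, mul_comm]
      exact mul_le_mul_of_nonneg_right (hz p) (abs_nonneg _)
    exact (abs_le.1 h3).1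
  have h4 := mul_le_mul_of_nonneg_left h2 (by positivity : (0 : ℝ) ≤ 2 * Real.pi)
  linarith

/-- the theta series converges absolutely -/
theorem th_summable {Om : ι → ι → ℂ} {δ : ℝ} (hδ : 0 < δ) (h : Pos Om δ) (z : ι → ℂ) :
    Summable fun m : ι → ℤ => ‖cexp (Real.pi * I * (∑ p, ∑ q, (m p : ℂ) * Om p q * (m q : ℂ)) +
      2 * Real.pi * I * ∑ p, (m p : ℂ) * z p)‖ := by
  have hz : ∀ p, |(z p).im| ≤ ∑ q, |(z q).im| := fun p =>
    Finset.single_le_sum (f := fun q => |(z q).im|) (fun q _ => abs_nonneg _) (Finset.mem_univ p)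
  exact Summable.of_nonneg_of_le (fun m => norm_nonneg _) (fun m => term_le h hz m)
    (gau_sum (by positivity) _)

/-- the shifted series is bounded by its Gaussian majorant -/
theorem shift_le {Om : ι → ι → ℂ} {δ : ℝ} (h : Pos Om δ) (s t : ι → ℝ) (m : ι → ℤ) :
    ‖cexp (Real.pi * I * (∑ p, ∑ q, ((m p : ℂ) + t p) * Om p q * ((m q : ℂ) + t q)) +
        2 * Real.pi * I * (∑ p, (m p : ℂ) * s p) + Real.pi * I * ∑ p, (s p : ℂ) * t p)‖ ≤
      Real.exp (-((Real.pi * δ) * ∑ p, ((m p : ℝ) + t p) ^ 2)) := by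
  rw [Complex.norm_exp]
  apply Real.exp_le_exp.2
  have h1 := tgau_re Om (fun p => (m p : ℝ) + t p) (2 * Real.pi * I * (∑ p, (m p : ℂ) * s p))
    (Real.pi * I * ∑ p, (s p : ℂ) * t p)
  have e : ∀ p, ((((m p : ℝ) + t p : ℝ)) : ℂ) = (m p : ℂ) + t p := fun p => by push_cast; rfl
  simp only [e] at h1
  rw [h1]
  have h2 : (2 * Real.pi * I * (∑ p, (m p : ℂ) * s p)).re = 0 := by
    have h3 : (∑ p, (m p : ℂ) * s p) = ((∑ p, (m p : ℝ) * s p : ℝ) : ℂ) := by push_cast; rfl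
    have h4 : (2 * Real.pi * I * (∑ p, (m p : ℂ) * s p)) =
        ((2 * Real.pi * ∑ p, (m p : ℝ) * s p : ℝ) : ℂ) * I := by
      rw [h3]
      push_cast
      ring
    rw [h4, Complex.re_ofReal_mul, Complex.I_re, mul_zero]
  have h5 : (Real.pi * I * ∑ p, (s p : ℂ) * t p).re = 0 := by
    have h3 : (∑ p, (s p : ℂ) * t p) = ((∑ p, s p * t p : ℝ) : ℂ) := by push_cast; rfl
    have h4 : (Real.pi * I * ∑ p, (s p : ℂ) * t p) =
        ((Real.pi * ∑ p, s p * t p : ℝ) : ℂ) * I := by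
      rw [h3]
      push_cast
      ring
    rw [h4, Complex.re_ofReal_mul, Complex.I_re, mul_zero]
  rw [h2, h5]
  have h6 := mul_le_mul_of_nonneg_left (h fun p => (m p : ℝ) + t p) Real.pi_pos.le
  linarith

end Pool.Agent.RQ4
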