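import Pool.Agent.RQ4.UHol
import Pool.Agent.RQ4.UNm
import Pool.Agent.RQ4.NLat

/-!
# RQ4, block I: the series at `w = 0`

`tm w u m` is the term of the series of `tw w u`. `coef`: a series `∑ b m tm 0 u m` which vanishes for all rational
`s` (fixed `t`) has `b = 0`. `hasSum_dir`: derivative in the direction `x` at `w = 0`. `hasSum_gd`: the gradient at the
place `s`.
-/

set_option autoImplicit false

namespace Pool.Agent.RQ4

open Complex ComplexConjugate Finset Filter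

noncomputable section

variable {K : Type} [Field K] [NumberField K] {g : ℕ}

namespace Dat

variable (d : Dat K g)

/-- the term of the series -/
def tm (w : d.R → ℂ) (u : Vs g) (m : Ix g → ℤ) : ℂ :=
  cexp (Real.pi * I * (∑ p, ∑ q, ((m p : ℂ) + d.tc u p) * d.Om w p q * ((m q : ℂ) + d.tc u q)) +
    2 * Real.pi * I * (∑ p, (m p : ℂ) * d.sc u p) + Real.pi * I * ∑ p, (d.sc u p : ℂ) * d.tc u p)

theorem tw_tm (w : d.R → ℂ) (u : Vs g) : d.tw w u = ∑' m, d.tm w u m := d.tw_series w u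

theorem tm_major {ρ : ℝ} (h0 : 0 ≤ ρ) (h1 : ρ < 1) (u : Vs g) : ∃ b : (Ix g → ℤ) → ℝ, Summable b ∧
    ∀ w : d.R → ℂ, (∀ i, ‖w i‖ ≤ ρ) → ∀ m, ‖d.tm w u m‖ ≤ b m := by
  obtain ⟨δ, hδ, hpos⟩ := d.Om_pos h0 h1
  obtain ⟨C, hC⟩ := gau_shift (ι := Ix g) (mul_pos Real.pi_pos hδ)
  exact ⟨_, (hC (d.tc u)).1, fun w hw m => shift_le (hpos w hw) (d.sc u) (d.tc u) m⟩

theorem tm_summable {w : d.R → ℂ} (hw : w ∈ d.Di) (u : Vs g) : Summable fun m => ‖d.tm w u m‖ := by
  obtain ⟨δ, hδ, hpos⟩ := d.Om_pt hw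
  obtain ⟨C, hC⟩ := gau_shift (ι := Ix g) (mul_pos Real.pi_pos hδ)
  exact (hC (d.tc u)).1.of_nonneg_of_le (fun _ => norm_nonneg _) fun m => shift_le hpos (d.sc u) (d.tc u) m

theorem zero_mem : (0 : d.R → ℂ) ∈ d.Di := fun i => by simp

/-- the term without `s` -/
def tm0 (t : Ix g → ℝ) (m : Ix g → ℤ) : ℂ :=
  cexp (Real.pi * I * (∑ p, ∑ q, ((m p : ℂ) + t p) * d.Om 0 p q * ((m q : ℂ) + t q)))

theorem tm_vst (s t : Ix g → ℝ) (m : Ix g → ℤ) : d.tm 0 (d.vst s t) m =
    d.tm0 t m * ch m s * cexp (Real.pi * I * ∑ p, (s p : ℂ) * t p) := by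
  unfold tm tm0 ch
  rw [← Complex.exp_add, ← Complex.exp_add]
  simp only [d.sc_vst, d.tc_vst]

omit [NumberField K] [Field K] in
theorem dense_rat : DenseRange (fun (q : Ix g → ℚ) (p : Ix g) => (q p : ℝ)) :=
  DenseRange.piMap (f := fun (_ : Ix g) (x : ℚ) => (x : ℝ)) fun _ => Rat.denseRange_cast

/-- coefficients of a series vanishing at all rational `s` -/
theorem coef (t : Ix g → ℝ) (b : (Ix g → ℤ) → ℂ)
    (hb : Summable fun m => ‖b m * d.tm 0 (d.vst 0 t) m‖)
    (h : ∀ s : Ix g → ℚ, ∑' m, b m * d.tm 0 (d.vst (fun p => (s p : ℝ)) t) m = 0) : ∀ m, b m = 0 := by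
  set a : (Ix g → ℤ) → ℂ := fun m => b m * d.tm0 t m with ha
  have hch : ∀ (m : Ix g → ℤ) (s : Ix g → ℝ), ‖ch m s‖ = 1 := by
    intro m s
    unfold ch
    have h1 : (2 * (Real.pi : ℂ) * I * ∑ p, (m p : ℂ) * (s p : ℂ)) =
        ((2 * Real.pi * ∑ p, (m p : ℝ) * s p : ℝ) : ℂ) * I := by
      push_cast
      ring
    rw [h1, Complex.norm_exp_ofReal_mul_I]
  have hexp : ∀ s : Ix g → ℝ, cexp (Real.pi * I * ∑ p, (s p : ℂ) * (t p : ℂ)) ≠ 0 := fun s => Complex.exp_ne_zero _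
  have hnorm : ∀ m, ‖b m * d.tm 0 (d.vst 0 t) m‖ = ‖a m‖ := by
    intro m
    rw [d.tm_vst, ha, norm_mul, norm_mul, norm_mul, norm_mul, hch]
    simp
  have hsa : Summable fun m => ‖a m‖ := by
    refine hb.congr fun m => ?_
    rw [hnorm]
  have hcont : Continuous fun s : Ix g → ℝ => ∑' m, a m * ch m s := by
    refine continuous_tsum (fun m => ?_) hsa fun m s => ?_
    · unfold ch
      fun_prop
    · rw [norm_mul, hch, mul_one]
  have hzero : ∀ s : Ix g → ℚ, ∑' m, a m * ch m (fun p => (s p : ℝ)) = 0 := by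
    intro s
    have h1 := h s
    have h2 : ∀ m, b m * d.tm 0 (d.vst (fun p => (s p : ℝ)) t) m =
        (a m * ch m (fun p => (s p : ℝ))) * cexp (Real.pi * I * ∑ p, (((s p : ℝ)) : ℂ) * (t p : ℂ)) := by
      intro m
      rw [d.tm_vst, ha]
      ring
    rw [tsum_congr h2, tsum_mul_right] at h1
    rcases mul_eq_zero.1 h1 with h3 | h3
    · exact h3
    · exact absurd h3 (hexp _)
  have hall : ∀ s : Ix g → ℝ, ∑' m, a m * ch m s = 0 := by
    have h1 : (fun s : Ix g → ℝ => ∑' m, a m * ch m s) = fun _ => 0 := by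
      refine dense_rat.equalizer hcont continuous_const ?_
      funext s
      exact hzero s
    exact fun s => congrFun h1 s
  intro m
  have h1 := four_inj hsa hall m
  rcases mul_eq_zero.1 h1 with h2 | h2
  · exact h2
  · exact absurd h2 (Complex.exp_ne_zero _)

/-- the quadratic form of the derivative in the direction `x` -/
def Qd (x : d.R → ℂ) (y : Ix g → ℝ) : ℂ :=
  ∑ i, 4 * I * d.r i * d.wx x i / d.c i * (∑ k, (d.fr k i : ℂ) * y (k, 0)) * (∑ k, (d.fr k i : ℂ) * y (k, 1))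

theorem wx_smul (a : ℂ) (x : d.R → ℂ) (i : Fin g) : d.wx (a • x) i = a * d.wx x i := by
  unfold wx
  split_ifs <;> simp

theorem om2_deriv (a : ℂ) (i : Fin g) (al be : Fin 2) : HasDerivAt (fun τ : ℂ => d.om2 (τ * a) i al be)
    (if al = be then 0 else I / d.c i * (2 * a * d.r i)) 0 := by
  have h1 : HasDerivAt (fun τ : ℂ => τ * a) a 0 := by simpa using (hasDerivAt_id (0 : ℂ)).mul_const a
  have h2 : HasDerivAt (fun τ : ℂ => (τ * a) ^ 2) 0 0 := by simpa using h1.fun_pow 2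
  have h3 : HasDerivAt (fun τ : ℂ => I / d.c i / (1 - (τ * a) ^ 2)) 0 0 := by
    have h4 : HasDerivAt (fun τ : ℂ => 1 - (τ * a) ^ 2) 0 0 := by simpa using h2.const_sub 1
    have h5 := (hasDerivAt_const (0 : ℂ) (I / (d.c i : ℂ))).fun_div h4 (by simp)
    simpa using h5
  by_cases hab : al = be
  · set k : ℂ := if al = 0 then 1 else (d.r i : ℂ) ^ 2 with hk
    have h4 : HasDerivAt (fun τ : ℂ => (1 + (τ * a) ^ 2) * k) 0 0 := by
      simpa using (h2.const_add 1).mul_const k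
    have h5 := h3.fun_mul h4
    have h6 : (fun τ : ℂ => d.om2 (τ * a) i al be) =
        fun τ : ℂ => I / d.c i / (1 - (τ * a) ^ 2) * ((1 + (τ * a) ^ 2) * k) := by
      funext τ
      rw [om2, if_pos hab]
    rw [h6, if_pos hab]
    simpa using h5
  · have h4 : HasDerivAt (fun τ : ℂ => 2 * (τ * a) * (d.r i : ℂ)) (2 * a * d.r i) 0 :=
      (h1.const_mul 2).mul_const _
    have h5 := h3.fun_mul h4
    have h6 : (fun τ : ℂ => d.om2 (τ * a) i al be) =
        fun τ : ℂ => I / d.c i / (1 - (τ * a) ^ 2) * (2 * (τ * a) * (d.r i : ℂ)) := by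
      funext τ
      rw [om2, if_neg hab]
    rw [h6, if_neg hab]
    simpa using h5

omit [NumberField K] [Field K] in
theorem quad_two (f : Ix g → ℂ) (D : ℂ) : ∑ p : Ix g, ∑ q : Ix g, f p * (if p.2 = q.2 then 0 else D) * f q =
    2 * D * (∑ k, f (k, 0)) * (∑ k, f (k, 1)) := by
  simp only [Fintype.sum_prod_type, Fin.sum_univ_two]
  have e01 : ((0 : Fin 2) = 1) = False := by simp
  have e10 : ((1 : Fin 2) = 0) = False := by simp
  simp only [e01, e10, if_true, if_false, mul_zero, zero_mul, zero_add, add_zero, ← Finset.mul_sum]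
  rw [Finset.sum_add_distrib, ← Finset.sum_mul, ← Finset.sum_mul, ← Finset.sum_mul, ← Finset.sum_mul]
  ring

theorem quad_deriv (x : d.R → ℂ) (y : Ix g → ℝ) :
    HasDerivAt (fun τ : ℂ => ∑ p, ∑ q, (y p : ℂ) * d.Om (τ • x) p q * (y q : ℂ)) (d.Qd x y) 0 := by
  have h1 : ∀ p q : Ix g, HasDerivAt (fun τ : ℂ => d.Om (τ • x) p q)
      (∑ i, (d.fr p.1 i : ℂ) * d.fr q.1 i *
        (if p.2 = q.2 then 0 else I / d.c i * (2 * d.wx x i * d.r i))) 0 := by
    intro p q
    unfold Om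
    refine HasDerivAt.fun_sum fun i _ => ?_
    simp only [d.wx_smul]
    exact (d.om2_deriv (d.wx x i) i p.2 q.2).const_mul _
  have h2 : HasDerivAt (fun τ : ℂ => ∑ p, ∑ q, (y p : ℂ) * d.Om (τ • x) p q * (y q : ℂ))
      (∑ p : Ix g, ∑ q : Ix g, (y p : ℂ) * (∑ i, (d.fr p.1 i : ℂ) * d.fr q.1 i *
        (if p.2 = q.2 then 0 else I / d.c i * (2 * d.wx x i * d.r i))) * (y q : ℂ)) 0 := by
    refine HasDerivAt.fun_sum fun p _ => HasDerivAt.fun_sum fun q _ => ?_
    exact ((h1 p q).const_mul _).mul_const _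
  convert h2 using 1
  unfold Qd
  symm
  calc ∑ p : Ix g, ∑ q : Ix g, (y p : ℂ) * (∑ i, (d.fr p.1 i : ℂ) * d.fr q.1 i *
        (if p.2 = q.2 then 0 else I / d.c i * (2 * d.wx x i * d.r i))) * (y q : ℂ) =
      ∑ p : Ix g, ∑ q : Ix g, ∑ i, ((d.fr p.1 i : ℂ) * y p) *
        (if p.2 = q.2 then 0 else I / d.c i * (2 * d.wx x i * d.r i)) * ((d.fr q.1 i : ℂ) * y q) := by
        refine Finset.sum_congr rfl fun p _ => Finset.sum_congr rfl fun q _ => ?_
        rw [Finset.mul_sum, Finset.sum_mul]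
        refine Finset.sum_congr rfl fun i _ => ?_
        ring
    _ = ∑ i, ∑ p : Ix g, ∑ q : Ix g, ((d.fr p.1 i : ℂ) * y p) *
        (if p.2 = q.2 then 0 else I / d.c i * (2 * d.wx x i * d.r i)) * ((d.fr q.1 i : ℂ) * y q) := by
        rw [Finset.sum_comm]
        have h3 : ∀ q : Ix g, ∑ p : Ix g, ∑ i, ((d.fr p.1 i : ℂ) * y p) *
            (if p.2 = q.2 then 0 else I / d.c i * (2 * d.wx x i * d.r i)) * ((d.fr q.1 i : ℂ) * y q) =
            ∑ i, ∑ p : Ix g, ((d.fr p.1 i : ℂ) * y p) *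
            (if p.2 = q.2 then 0 else I / d.c i * (2 * d.wx x i * d.r i)) * ((d.fr q.1 i : ℂ) * y q) :=
          fun q => Finset.sum_comm
        rw [Finset.sum_congr rfl fun q _ => h3 q, Finset.sum_comm]
        refine Finset.sum_congr rfl fun i _ => Finset.sum_comm
    _ = _ := by
        refine Finset.sum_congr rfl fun i _ => ?_
        rw [quad_two (fun p => (d.fr p.1 i : ℂ) * y p)]
        ring

theorem smul_small (x : d.R → ℂ) {τ : ℂ} (hτ : τ ∈ Metric.ball (0 : ℂ) (1 / (2 * (‖x‖ + 1)))) (i : d.R) :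
    ‖(τ • x) i‖ ≤ 1 / 2 := by
  rw [mem_ball_zero_iff] at hτ
  have h0 : 0 ≤ ‖x‖ := norm_nonneg _
  rw [Pi.smul_apply, smul_eq_mul, norm_mul]
  calc ‖τ‖ * ‖x i‖ ≤ 1 / (2 * (‖x‖ + 1)) * (‖x‖ + 1) :=
        mul_le_mul hτ.le ((norm_le_pi_norm x i).trans (by linarith)) (norm_nonneg _) (by positivity)
    _ = 1 / 2 := by field_simp

theorem smul_mem (x : d.R → ℂ) {τ : ℂ} (hτ : τ ∈ Metric.ball (0 : ℂ) (1 / (2 * (‖x‖ + 1)))) :
    τ • x ∈ d.Di := fun i => (d.smul_small x hτ i).trans_lt (by norm_num)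

theorem hasSum_dir (x : d.R → ℂ) (u : Vs g) :
    HasSum (fun m : Ix g → ℤ => Real.pi * I * d.Qd x (fun p => (m p : ℝ) + d.tc u p) * d.tm 0 u m)
      (deriv (fun τ : ℂ => d.tw (τ • x) u) 0) := by
  obtain ⟨b, hb, hbd⟩ := d.tm_major (ρ := 1 / 2) (by norm_num) (by norm_num) u
  set U : Set ℂ := Metric.ball (0 : ℂ) (1 / (2 * (‖x‖ + 1))) with hU
  have h0 : 0 ≤ ‖x‖ := norm_nonneg _
  have h0U : (0 : ℂ) ∈ U := Metric.mem_ball_self (by positivity)
  have hdiff : ∀ m : Ix g → ℤ, DifferentiableOn ℂ (fun τ : ℂ => d.tm (τ • x) u m) U := by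
    intro m
    have h1 : ∀ p q : Ix g, DifferentiableOn ℂ (fun τ : ℂ => d.Om (τ • x) p q) U := by
      intro p q
      refine (d.Om_diff p q).comp (s := U) (f := fun τ : ℂ => τ • x) ?_ fun τ hτ => d.smul_mem x hτ
      fun_prop
    unfold tm
    refine DifferentiableOn.cexp ?_
    refine ((DifferentiableOn.const_mul ?_ _).add_const _).add_const _
    refine DifferentiableOn.fun_sum fun p _ => DifferentiableOn.fun_sum fun q _ => ?_
    exact ((h1 p q).const_mul _).mul_const _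
  have key := Complex.hasSum_deriv_of_summable_norm (F := fun (m : Ix g → ℤ) (τ : ℂ) => d.tm (τ • x) u m) hb
    hdiff Metric.isOpen_ball (fun m τ hτ => hbd _ (d.smul_small x hτ) m) h0U
  have h1 : (fun τ : ℂ => d.tw (τ • x) u) = fun τ : ℂ => ∑' m, d.tm (τ • x) u m := by
    funext τ
    exact d.tw_tm _ u
  rw [h1]
  suffices hfe : (fun m : Ix g → ℤ => Real.pi * I * d.Qd x (fun p => (m p : ℝ) + d.tc u p) * d.tm 0 u m) =
      fun m => deriv (fun τ : ℂ => d.tm (τ • x) u m) 0 by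
    rw [hfe]
    exact key
  funext m
  have h2 := d.quad_deriv x (fun p => (m p : ℝ) + d.tc u p)
  have h3 : HasDerivAt (fun τ : ℂ => d.tm (τ • x) u m)
      (d.tm ((0 : ℂ) • x) u m * (Real.pi * I * d.Qd x (fun p => (m p : ℝ) + d.tc u p))) 0 := by
    unfold tm
    refine HasDerivAt.cexp ?_
    refine (HasDerivAt.add_const _ ?_).add_const _
    have h4 := h2.const_mul (Real.pi * I : ℂ)
    simp only [Complex.ofReal_add, Complex.ofReal_intCast] at h4
    exact h4
  rw [h3.deriv, zero_smul]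
  ring

/-- the linear form of the gradient -/
def Lf (v : Fin 2 → ℂ) (y : Ix g → ℝ) : ℂ := ∑ p : Ix g, (y p : ℂ) * (v p.2 * d.fr p.1 d.s * d.sg p.2 d.s)

theorem tm_zc (w : d.R → ℂ) (u : Vs g) (m : Ix g → ℤ) :
    cexp (Real.pi * I * (∑ p, ∑ q, (m p : ℂ) * d.Om w p q * (m q : ℂ)) +
      2 * Real.pi * I * ∑ p, (m p : ℂ) * d.zc w u p) * cexp (d.qw w u) = d.tm w u m := by
  unfold tm qw zc
  rw [← Complex.exp_add]
  congr 1
  have h1 : ∑ p, ∑ q, ((m p : ℂ) + d.tc u p) * d.Om w p q * ((m q : ℂ) + d.tc u q) =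
      (∑ p, ∑ q, (m p : ℂ) * d.Om w p q * (m q : ℂ)) + (∑ p, (m p : ℂ) * ∑ q, d.Om w p q * d.tc u q) +
      (∑ p, (m p : ℂ) * ∑ q, d.Om w p q * d.tc u q) + ∑ p, ∑ q, (d.tc u p : ℂ) * d.Om w p q * d.tc u q := by
    have h2 : ∑ p, (m p : ℂ) * ∑ q, d.Om w p q * d.tc u q = ∑ p, ∑ q, (d.tc u p : ℂ) * d.Om w p q * (m q : ℂ) := by
      rw [Finset.sum_comm]
      refine Finset.sum_congr rfl fun p _ => ?_
      rw [Finset.mul_sum]
      refine Finset.sum_congr rfl fun q _ => ?_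
      rw [d.Om_symm w q p]
      ring
    conv_rhs => rw [add_assoc, add_assoc]
    conv_rhs =>
      enter [2, 2, 1]
      rw [h2]
    rw [← Finset.sum_add_distrib, ← Finset.sum_add_distrib, ← Finset.sum_add_distrib]
    refine Finset.sum_congr rfl fun p _ => ?_
    rw [Finset.mul_sum, ← Finset.sum_add_distrib, ← Finset.sum_add_distrib, ← Finset.sum_add_distrib]
    refine Finset.sum_congr rfl fun q _ => ?_
    ring
  have h3 : ∑ p, (m p : ℂ) * ((d.sc u p : ℂ) + ∑ q, d.Om w p q * d.tc u q) =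
      (∑ p, (m p : ℂ) * d.sc u p) + ∑ p, (m p : ℂ) * ∑ q, d.Om w p q * d.tc u q := by
    rw [← Finset.sum_add_distrib]
    exact Finset.sum_congr rfl fun p _ => mul_add _ _ _
  rw [h1, h3]
  ring

theorem gd_deriv {w : d.R → ℂ} (hw : w ∈ d.Di) (P : Vs g) (v : Fin 2 → ℂ) :
    d.gd w P v = deriv (fun ε : ℂ => d.gp w P (ε • v)) 0 := by
  have h1 : HasDerivAt (fun ε : ℂ => ε • v) v 0 := by
    simpa using (hasDerivAt_id (0 : ℂ)).smul_const v
  have h2 : HasFDerivAt (d.gp w P) (fderiv ℂ (d.gp w P) ((0 : ℂ) • v)) ((0 : ℂ) • v) :=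
    (d.gp_diff hw P _).hasFDerivAt
  have h3 := h2.comp_hasDerivAt (0 : ℂ) h1
  rw [zero_smul] at h3
  exact h3.deriv.symm

theorem hasSum_gd {w : d.R → ℂ} (hw : w ∈ d.Di) (P : Vs g) (v : Fin 2 → ℂ) :
    HasSum (fun m : Ix g → ℤ => 2 * Real.pi * I * d.Lf v (fun p => (m p : ℝ) + d.tc P p) * d.tm w P m)
      (d.gd w P v) := by
  obtain ⟨δ, hδ, hpos⟩ := d.Om_pt hw
  set f : Ix g → ℂ := fun p => v p.2 * d.fr p.1 d.s * d.sg p.2 d.s with hf
  set A : ℂ := (Real.pi / 2 * d.c d.s : ℝ) * (∑ al, (d.sg al d.s : ℂ) * v al ^ 2) with hA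
  set B : ℂ := 2 * Real.pi * I * d.c d.s * ∑ al, (d.sg al d.s : ℂ) * ((P (d.s, al)).im : ℂ) * v al with hB
  set F : (Ix g → ℤ) → ℂ → ℂ := fun m ε => cexp (Real.pi * I * (∑ p, ∑ q, (m p : ℂ) * d.Om w p q * (m q : ℂ)) +
      2 * Real.pi * I * ∑ p, (m p : ℂ) * (d.zc w P p + ε * f p)) * cexp (d.qw w P + ε ^ 2 * A + ε * B) with hF
  have hgp : ∀ ε : ℂ, d.gp w P (ε • v) = ∑' m, F m ε := by
    intro ε
    rw [d.gp_eq, th, ← tsum_mul_right]
    refine tsum_congr fun m => ?_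
    rw [hF]
    simp only [Pi.smul_apply, smul_eq_mul]
    congr 2
    · congr 2
      refine Finset.sum_congr rfl fun p _ => ?_
      rw [hf]
      ring
    · rw [hA, hB]
      simp only [mul_pow, Finset.mul_sum]
      congr 1
      · congr 1
        refine Finset.sum_congr rfl fun al _ => ?_
        ring
      · refine Finset.sum_congr rfl fun al _ => ?_
        ring
  set Bd : ℝ := ∑ p, (‖d.zc w P p‖ + ‖f p‖) with hBd
  set Cd : ℝ := Real.exp (‖d.qw w P‖ + ‖A‖ + ‖B‖) with hCd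
  have hsum : Summable fun m : Ix g → ℤ => Real.exp (-((Real.pi * δ) * ∑ p, (m p : ℝ) ^ 2) +
      (2 * Real.pi * Bd) * ∑ p, |(m p : ℝ)|) * Cd :=
    (gau_sum (mul_pos Real.pi_pos hδ) _).mul_right _
  have key := Complex.hasSum_deriv_of_summable_norm (F := F) (U := Metric.ball (0 : ℂ) 1) (z := 0) hsum
    (by
      intro m
      refine Differentiable.differentiableOn ?_
      rw [hF]
      refine Differentiable.mul ?_ ?_
      · refine Differentiable.cexp ?_
        refine (Differentiable.const_mul ?_ _).const_add _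
        refine Differentiable.fun_sum fun p _ => ?_
        exact ((differentiable_id.mul_const _).const_add _).const_mul _
      · refine Differentiable.cexp ?_
        exact (((differentiable_id.pow 2).mul_const _).const_add _).add (differentiable_id.mul_const _))
    Metric.isOpen_ball (by
      intro m ε hε
      rw [mem_ball_zero_iff] at hε
      rw [hF]
      simp only
      rw [norm_mul]
      refine mul_le_mul ?_ ?_ (norm_nonneg _) (Real.exp_pos _).le
      · refine term_le hpos (fun p => ?_) m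
        calc |(d.zc w P p + ε * f p).im| ≤ ‖d.zc w P p + ε * f p‖ := Complex.abs_im_le_norm _
          _ ≤ ‖d.zc w P p‖ + ‖ε * f p‖ := norm_add_le _ _
          _ ≤ ‖d.zc w P p‖ + ‖f p‖ := by
              rw [norm_mul]
              have := mul_le_mul_of_nonneg_right hε.le (norm_nonneg (f p))
              linarith
          _ ≤ Bd := Finset.single_le_sum (f := fun p => ‖d.zc w P p‖ + ‖f p‖)
              (fun p _ => by positivity) (Finset.mem_univ p)
      · rw [Complex.norm_exp, hCd, Real.exp_le_exp]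
        refine (Complex.re_le_norm _).trans ?_
        refine (norm_add₃_le).trans ?_
        have h1 : ‖ε ^ 2 * A‖ ≤ ‖A‖ := by
          have h2 : ‖ε‖ ^ 2 ≤ 1 := pow_le_one₀ (norm_nonneg _) hε.le
          rw [norm_mul (ε ^ 2) A, norm_pow]
          nlinarith [norm_nonneg A]
        have h2 : ‖ε * B‖ ≤ ‖B‖ := by
          rw [norm_mul ε B]
          nlinarith [norm_nonneg B]
        linarith)
    (Metric.mem_ball_self one_pos)
  rw [d.gd_deriv hw P v, funext hgp]
  suffices hfe : (fun m : Ix g → ℤ => 2 * Real.pi * I * d.Lf v (fun p => (m p : ℝ) + d.tc P p) * d.tm w P m) =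
      fun m => deriv (F m) 0 by
    rw [hfe]
    exact key
  funext m
  have h1 : HasDerivAt (F m) (F m 0 * (2 * Real.pi * I * ∑ p, (m p : ℂ) * f p) + F m 0 * B) 0 := by
    have h2 : HasDerivAt (fun ε : ℂ => cexp (Real.pi * I * (∑ p, ∑ q, (m p : ℂ) * d.Om w p q * (m q : ℂ)) +
        2 * Real.pi * I * ∑ p, (m p : ℂ) * (d.zc w P p + ε * f p)))
        (cexp (Real.pi * I * (∑ p, ∑ q, (m p : ℂ) * d.Om w p q * (m q : ℂ)) +
        2 * Real.pi * I * ∑ p, (m p : ℂ) * (d.zc w P p + 0 * f p)) * (2 * Real.pi * I * ∑ p, (m p : ℂ) * f p)) 0 := by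
      refine HasDerivAt.cexp ?_
      refine HasDerivAt.const_add _ (HasDerivAt.const_mul _ ?_)
      refine HasDerivAt.fun_sum fun p _ => HasDerivAt.const_mul _ ?_
      have h3 := ((hasDerivAt_id (0 : ℂ)).mul_const (f p)).const_add (d.zc w P p)
      simpa using h3
    have h3 : HasDerivAt (fun ε : ℂ => cexp (d.qw w P + ε ^ 2 * A + ε * B))
        (cexp (d.qw w P + 0 ^ 2 * A + 0 * B) * B) 0 := by
      refine HasDerivAt.cexp ?_
      have h4 : HasDerivAt (fun ε : ℂ => ε ^ 2 * A) 0 0 := by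
        simpa using ((hasDerivAt_id (0 : ℂ)).fun_pow 2).mul_const A
      have h5 : HasDerivAt (fun ε : ℂ => ε * B) B 0 := by
        simpa using (hasDerivAt_id (0 : ℂ)).mul_const B
      simpa using (h4.const_add (d.qw w P)).fun_add h5
    have h4 := h2.fun_mul h3
    have h5 : F m 0 * (2 * Real.pi * I * ∑ p, (m p : ℂ) * f p) + F m 0 * B =
        cexp (Real.pi * I * (∑ p, ∑ q, (m p : ℂ) * d.Om w p q * (m q : ℂ)) +
          2 * Real.pi * I * ∑ p, (m p : ℂ) * (d.zc w P p + 0 * f p)) * (2 * Real.pi * I * ∑ p, (m p : ℂ) * f p) *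
          cexp (d.qw w P + 0 ^ 2 * A + 0 * B) +
        cexp (Real.pi * I * (∑ p, ∑ q, (m p : ℂ) * d.Om w p q * (m q : ℂ)) +
          2 * Real.pi * I * ∑ p, (m p : ℂ) * (d.zc w P p + 0 * f p)) *
          (cexp (d.qw w P + 0 ^ 2 * A + 0 * B) * B) := by
      simp only [hF]
      ring
    rw [h5]
    exact h4
  have h2 : F m 0 = d.tm w P m := by
    rw [← d.tm_zc w P m, hF]
    simp
  rw [h1.deriv, h2]
  have h3 : B = 2 * Real.pi * I * ∑ p, (d.tc P p : ℂ) * f p := by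
    have h4 : ∀ al : Fin 2, ∑ k, d.tc P (k, al) * d.fr k d.s = d.c d.s * (P (d.s, al)).im := by
      intro al
      unfold tc
      simp only [Finset.sum_mul]
      rw [Finset.sum_comm]
      have h5 : ∀ i, ∑ k, d.fdr k i * d.c i * (P (i, al)).im * d.fr k d.s =
          if i = d.s then d.c i * (P (i, al)).im else 0 := by
        intro i
        have h6 : ∑ k, d.fdr k i * d.c i * (P (i, al)).im * d.fr k d.s =
            (∑ k, d.fdr k i * d.fr k d.s) * (d.c i * (P (i, al)).im) := by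
          rw [Finset.sum_mul]
          exact Finset.sum_congr rfl fun k _ => by ring
        rw [h6, d.dual2]
        split_ifs <;> simp
      rw [Finset.sum_congr rfl fun i _ => h5 i]
      simp
    have h5 : ∑ p, (d.tc P p : ℂ) * f p = d.c d.s * ∑ al, (d.sg al d.s : ℂ) * ((P (d.s, al)).im : ℂ) * v al := by
      rw [Fintype.sum_prod_type_right, Finset.mul_sum]
      refine Finset.sum_congr rfl fun al _ => ?_
      have h6 : ∑ k, (d.tc P (k, al) : ℂ) * f (k, al) =
          ((∑ k, d.tc P (k, al) * d.fr k d.s : ℝ) : ℂ) * (v al * d.sg al d.s) := by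
        push_cast
        rw [Finset.sum_mul]
        refine Finset.sum_congr rfl fun k _ => ?_
        rw [hf]
        ring
      rw [h6, h4]
      push_cast
      ring
    rw [h5, hB]
    ring
  rw [h3, Lf]
  have h4 : ∑ p : Ix g, (((m p : ℝ) + d.tc P p : ℝ) : ℂ) * (v p.2 * d.fr p.1 d.s * d.sg p.2 d.s) =
      (∑ p, (m p : ℂ) * f p) + ∑ p, (d.tc P p : ℂ) * f p := by
    rw [← Finset.sum_add_distrib]
    refine Finset.sum_congr rfl fun p _ => ?_
    push_cast
    rw [hf]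
    ring
  rw [h4]
  ring

end Dat

end

end Pool.Agent.RQ4
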