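import Pool.Agent.RQ4.NLat

/-!
# RQ4 (MP_c2409d_nt), block N: integral elements and the lattice (helper91)
-/

set_option autoImplicit false

namespace Pool.Agent.RQ4

open Complex ComplexConjugate Finset

variable {K : Type} [Field K] [NumberField K] {g : ℕ}

/-- the trace of an integral element is an integer -/
lemma trace_int {z : K} (hz : IsIntegral ℤ z) : ∃ m : ℤ, Algebra.trace ℚ K z = m := by
  have h1 : IsIntegral ℤ (Algebra.trace ℚ K z) := Algebra.isIntegral_trace hz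
  obtain ⟨m, hm⟩ := IsIntegrallyClosed.isIntegral_iff.1 h1
  exact ⟨m, by rw [← hm]; simp⟩

namespace Dat

variable (d : Dat K g)

/-- `h` is anisotropic -/
theorem h_ne {e : Fin 2 → K} (he : e ≠ 0) : d.h e e ≠ 0 := by
  intro h0
  have h1 := d.sig_h d.s e
  rw [h0, map_zero] at h1
  have h2 : ‖d.σ d.s (e 0)‖ ^ 2 + d.nu d.s * ‖d.σ d.s (e 1)‖ ^ 2 = 0 := by exact_mod_cast h1.symm
  have hnu : 0 < d.nu d.s := d.nN d.s d.hs
  have h3 : ‖d.σ d.s (e 0)‖ ^ 2 = 0 := by
    have := sq_nonneg ‖d.σ d.s (e 0)‖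
    have := mul_nonneg hnu.le (sq_nonneg ‖d.σ d.s (e 1)‖)
    linarith
  have h4 : ‖d.σ d.s (e 1)‖ ^ 2 = 0 := by
    rw [h3, zero_add] at h2
    exact (mul_eq_zero.1 h2).resolve_left hnu.ne'
  have h5 : e 0 = 0 := by
    have := norm_eq_zero.1 (pow_eq_zero_iff (two_ne_zero) |>.1 h3)
    exact (map_eq_zero _).1 this
  have h6 : e 1 = 0 := by
    have := norm_eq_zero.1 (pow_eq_zero_iff (two_ne_zero) |>.1 h4)
    exact (map_eq_zero _).1 this
  apply he
  funext al
  fin_cases al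
  · exact h5
  · exact h6

/-- a multiple of every integral vector is in the lattice -/
theorem int_le_lat : ∃ N1 : ℕ, 1 ≤ N1 ∧ ∀ e : Fin 2 → K, (∀ al, IsIntegral ℤ (e al)) →
    ∃ a b : Ix g → ℤ, (N1 : K) • e = d.latK (fun p => (a p : ℚ)) (fun p => (b p : ℚ)) := by
  classical
  obtain ⟨n1, hn1, h1⟩ := exists_den (K := K) (univ : Finset (Ix g))
    (fun p => d.sgK p.2 * d.f p.1)
  obtain ⟨n2, hn2, h2⟩ := exists_den (K := K) (univ : Finset (Ix g)) (fun p => d.ξ * d.fd p.1)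
  refine ⟨2 * (n1 * n2), by
    have := Nat.mul_le_mul hn1 hn2
    omega, fun e he => ?_⟩
  have hint : ∀ n : ℕ, IsIntegral ℤ (n : K) := fun n => by
    simpa using (isIntegral_algebraMap (R := ℤ) (A := K) (x := (n : ℤ)))
  have hA : ∀ p, ∃ m : ℤ, d.cA (((2 * (n1 * n2) : ℕ) : K) • e) p = m := by
    intro p
    have h3 : IsIntegral ℤ ((n2 : K) * (e p.2 * ((n1 : K) * (d.sgK p.2 * d.f p.1)))) :=
      (hint n2).mul ((he p.2).mul (h1 p (mem_univ p)))
    obtain ⟨m, hm⟩ := trace_int h3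
    refine ⟨m, ?_⟩
    rw [← hm, Dat.cA]
    have h4 : d.sgK p.2 * (((2 * (n1 * n2) : ℕ) : K) • e) p.2 * d.f p.1 =
        (2 : ℚ) • ((n2 : K) * (e p.2 * ((n1 : K) * (d.sgK p.2 * d.f p.1)))) := by
      rw [Pi.smul_apply, smul_eq_mul, Algebra.smul_def]
      push_cast
      rw [map_ofNat]
      ring
    rw [h4, map_smul, smul_eq_mul]
    ring
  have hB : ∀ p, ∃ m : ℤ, d.cB (((2 * (n1 * n2) : ℕ) : K) • e) p = m := by
    intro p
    have h3 : IsIntegral ℤ (((2 * n1 : ℕ) : K) * (e p.2 * ((n2 : K) * (d.ξ * d.fd p.1)))) :=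
      (hint _).mul ((he p.2).mul (h2 p (mem_univ p)))
    obtain ⟨m, hm⟩ := trace_int h3
    refine ⟨-m, ?_⟩
    rw [Int.cast_neg, ← hm, Dat.cB]
    congr 2
    rw [Pi.smul_apply, smul_eq_mul]
    push_cast
    ring
  choose a ha using hA
  choose b hb using hB
  refine ⟨a, b, ?_⟩
  conv_lhs => rw [← d.latK_coord (((2 * (n1 * n2) : ℕ) : K) • e)]
  congr 1
  · funext p; exact ha p
  · funext p; exact hb p

/-- a multiple of every lattice vector is integral -/
theorem lat_le_int : ∃ N2 : ℕ, 1 ≤ N2 ∧ ∀ a b : Ix g → ℤ, ∀ al,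
    IsIntegral ℤ ((N2 : K) * d.latK (fun p => (a p : ℚ)) (fun p => (b p : ℚ)) al) := by
  classical
  obtain ⟨n1, hn1, h1⟩ := exists_den (K := K) (univ : Finset (Ix g))
    (fun p => d.fd p.1 / d.sgK p.2)
  obtain ⟨n2, hn2, h2⟩ := exists_den (K := K) (univ : Finset (Ix g)) (fun p => d.om * d.f p.1)
  refine ⟨n1 * n2, Nat.mul_le_mul hn1 hn2, fun a b al => ?_⟩
  have hint : ∀ n : ℤ, IsIntegral ℤ (n : K) := fun n => by
    simpa using (isIntegral_algebraMap (R := ℤ) (A := K) (x := n))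
  have h3 : ((n1 * n2 : ℕ) : K) * d.latK (fun p => (a p : ℚ)) (fun p => (b p : ℚ)) al =
      (∑ k, (((n2 : ℤ) * a (k, al) : ℤ) : K) * ((n1 : K) * (d.fd k / d.sgK al))) +
      ∑ k, (((n1 : ℤ) * b (k, al) : ℤ) : K) * ((n2 : K) * (d.om * d.f k)) := by
    simp only [Dat.latK]
    rw [mul_add]
    congr 1
    · rw [Finset.sum_div, Finset.mul_sum]
      refine sum_congr rfl fun k _ => ?_
      rw [Algebra.smul_def, eq_ratCast]
      push_cast
      ring
    · rw [Finset.mul_sum, Finset.mul_sum]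
      refine sum_congr rfl fun k _ => ?_
      rw [Algebra.smul_def, eq_ratCast]
      push_cast
      ring
  rw [h3]
  refine IsIntegral.add (IsIntegral.sum _ fun k _ => ?_) (IsIntegral.sum _ fun k _ => ?_)
  · exact (hint _).mul (h1 (k, al) (mem_univ _))
  · exact (hint _).mul (h2 (k, al) (mem_univ _))

end Dat

end Pool.Agent.RQ4
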