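import Pool.Agent.RQ4.PDefs
import Pool.Agent.RQ4.NInt
import Pool.Agent.RQ4.DensZ

/-!
# Project RQ4, block P: elementary facts on `ν`, `r`, `h(e,e)`
(`CM.bar_bar`, `Dat.sig_nu`, `Dat.nu_ne`, `Dat.c_pos`, `Dat.sig_xi`, `Dat.sig_om` are in block N)
-/

set_option autoImplicit false

namespace Pool.Agent.RQ4

open Complex ComplexConjugate Finset

namespace Dat

variable {K : Type} [Field K] [NumberField K] {g : ℕ} (d : Dat K g)

theorem P_r_pos (i : Fin g) : 0 < d.r i := by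
  unfold r
  exact Real.sqrt_pos.2 (abs_pos.2 (d.nu_neN i))

theorem P_r_sq (i : Fin g) : d.r i ^ 2 = |d.nu i| := by
  unfold r
  exact Real.sq_sqrt (abs_nonneg _)

theorem nu_R (i : Fin g) (hi : i ∈ d.R) : d.nu i = -d.r i ^ 2 := by
  have h : d.nu i < 0 := d.nR i hi
  rw [P_r_sq, abs_of_neg h, neg_neg]

theorem nu_N (i : Fin g) (hi : i ∉ d.R) : d.nu i = d.r i ^ 2 := by
  have h : 0 < d.nu i := d.nN i hi
  rw [P_r_sq, abs_of_pos h]

theorem bar_h (e : Fin 2 → K) : d.bar (d.h e e) = d.h e e := by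
  unfold h
  simp only [map_add, map_mul, d.bar_bar, d.bν]
  ring

theorem sig_he (e : Fin 2 → K) (i : Fin g) : d.σ i (d.h e e) = (d.he e i : ℂ) := by
  have h1 : conj (d.σ i (d.h e e)) = d.σ i (d.h e e) := by
    rw [← d.hbar, d.bar_h]
  unfold he
  exact (Complex.conj_eq_iff_re.1 h1).symm

theorem he_eq (e : Fin 2 → K) (i : Fin g) :
    d.he e i = ‖d.σ i (e 0)‖ ^ 2 + d.nu i * ‖d.σ i (e 1)‖ ^ 2 := by
  have h1 := d.sig_he e i
  unfold h at h1
  simp only [map_add, map_mul, d.hbar, d.sig_nu, Complex.mul_conj, Complex.normSq_eq_norm_sq] at h1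
  exact_mod_cast h1.symm

theorem he_S (S : Finset (Fin g)) (hS : S ⊆ d.R) (e : Fin 2 → K) (h : d.Ok S e) (i : Fin g) (hi : i ∈ S) :
    d.he e i < 0 := by
  have := h.2 i (hS hi)
  rwa [if_pos hi] at this

theorem he_RS (S : Finset (Fin g)) (e : Fin 2 → K) (h : d.Ok S e) (i : Fin g) (hi : i ∈ d.R) (hi' : i ∉ S) :
    0 < d.he e i := by
  have := h.2 i hi
  rwa [if_neg hi'] at this

theorem he_N (S : Finset (Fin g)) (e : Fin 2 → K) (h : d.Ok S e) (i : Fin g) (hi : i ∉ d.R) :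
    0 < d.he e i := by
  rw [he_eq]
  have hnu : 0 < d.nu i := d.nN i hi
  have hne : ¬ (d.σ i (e 0) = 0 ∧ d.σ i (e 1) = 0) := by
    rintro ⟨h0, h1⟩
    apply h.1
    funext j
    fin_cases j
    · exact (map_eq_zero _).1 h0
    · exact (map_eq_zero _).1 h1
  by_cases h0 : d.σ i (e 0) = 0
  · have h1 : d.σ i (e 1) ≠ 0 := fun h1 => hne ⟨h0, h1⟩
    have := norm_pos_iff.2 h1
    positivity
  · have := norm_pos_iff.2 h0
    positivity

theorem he_ne (S : Finset (Fin g)) (hS : S ⊆ d.R) (e : Fin 2 → K) (h : d.Ok S e) (i : Fin g) :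
    d.he e i ≠ 0 := by
  by_cases hR : i ∈ d.R
  · by_cases hi : i ∈ S
    · exact (d.he_S S hS e h i hi).ne
    · exact (d.he_RS S e h i hR hi).ne'
  · exact (d.he_N S e h i hR).ne'

theorem hee_ne (S : Finset (Fin g)) (hS : S ⊆ d.R) (e : Fin 2 → K) (h : d.Ok S e) : d.h e e ≠ 0 := by
  intro h0
  have h1 := d.sig_he e d.s
  rw [h0, map_zero] at h1
  exact d.he_ne S hS e h d.s (by exact_mod_cast h1.symm)

theorem e1_ne (S : Finset (Fin g)) (hS : S ⊆ d.R) (e : Fin 2 → K) (h : d.Ok S e) (i : Fin g) (hi : i ∈ S) :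
    d.σ i (e 1) ≠ 0 := by
  intro h0
  have h1 := d.he_S S hS e h i hi
  rw [he_eq, h0] at h1
  simp only [norm_zero, ne_eq, OfNat.ofNat_ne_zero, not_false_eq_true, zero_pow, mul_zero, add_zero] at h1
  exact absurd h1 (not_lt.2 (by positivity))

theorem e0_ne (S : Finset (Fin g)) (e : Fin 2 → K) (h : d.Ok S e) (i : Fin g) (hi : i ∈ d.R) (hi' : i ∉ S) :
    d.σ i (e 0) ≠ 0 := by
  intro h0
  have h1 := d.he_RS S e h i hi hi'
  rw [he_eq, h0, d.nu_R i hi] at h1
  simp only [norm_zero, ne_eq, OfNat.ofNat_ne_zero, not_false_eq_true, zero_pow, zero_add] at h1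
  nlinarith [sq_nonneg (d.r i * ‖d.σ i (e 1)‖)]

theorem ah_pos (S : Finset (Fin g)) (hS : S ⊆ d.R) (e : Fin 2 → K) (h : d.Ok S e) (p : Ix g) :
    0 < d.ah e p := by
  unfold ah
  have h1 := d.c_posN p.1
  have h2 := abs_pos.2 (d.he_ne S hS e h p.1)
  have h3 := abs_pos.2 (d.nu_neN p.1)
  split_ifs <;> positivity

theorem ah_alg (e : Fin 2 → K) (p : Ix g) : IsAlgebraic ℚ (d.ah e p / Real.pi) := by
  have halg : ∀ (i : Fin g) (x : K), IsAlgebraic ℚ (d.σ i x) := fun i x =>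
    (Algebra.IsAlgebraic.isAlgebraic (R := ℚ) x).algHom (d.σ i).toRatAlgHom
  have hreal : ∀ x : ℝ, IsAlgebraic ℚ (x : ℂ) → IsAlgebraic ℚ x := fun x hx =>
    (isAlgebraic_algebraMap_iff (algebraMap ℝ ℂ).injective).1 hx
  have habs : ∀ x : ℝ, IsAlgebraic ℚ x → IsAlgebraic ℚ |x| := by
    intro x hx
    rcases abs_choice x with h | h <;> rw [h]
    · exact hx
    · exact hx.neg
  have h1 : IsAlgebraic ℚ (d.c p.1) := by
    apply hreal
    have h2 := d.sig_xi p.1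
    have h3 : ((d.c p.1 : ℝ) : ℂ) = -(2 * I) * d.σ p.1 d.ξ := by
      rw [h2]
      ring_nf
      rw [Complex.I_sq]
      ring
    rw [h3]
    have h2' : IsAlgebraic ℚ (2 : ℂ) := by
      have := isAlgebraic_algebraMap (R := ℚ) (A := ℂ) (2 : ℚ)
      simpa using this
    have hI : IsAlgebraic ℚ (2 * I : ℂ) := h2'.mul Complex.isIntegral_rat_I.isAlgebraic
    exact hI.neg.mul (halg _ _)
  have h4 : IsAlgebraic ℚ (d.he e p.1) := by
    apply hreal
    rw [← d.sig_he]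
    exact halg _ _
  have h5 : IsAlgebraic ℚ (d.nu p.1) := by
    apply hreal
    rw [← d.sig_nu]
    exact halg _ _
  have h6 : d.ah e p / Real.pi = d.c p.1 * |d.he e p.1| * (if p.2 = 0 then 1 else |d.nu p.1|) := by
    unfold ah
    field_simp
  rw [h6]
  refine (h1.mul (habs _ h4)).mul ?_
  split_ifs
  · exact isAlgebraic_one
  · exact habs _ h5

theorem ze_mem (S : Finset (Fin g)) (hS : S ⊆ d.R) (e : Fin 2 → K) (h : d.Ok S e) : d.ze S e ∈ d.Di := by
  intro i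
  have hr := d.P_r_pos i
  unfold ze
  by_cases hi : (i : Fin g) ∈ S
  · rw [if_pos hi, norm_neg, norm_div]
    have h1 := d.he_S S hS e h i hi
    have h2 := norm_pos_iff.2 (d.e1_ne S hS e h i hi)
    rw [he_eq, d.nu_R i i.2] at h1
    rw [norm_mul, Complex.norm_real, Real.norm_of_nonneg hr.le, div_lt_one (by positivity)]
    exact lt_of_pow_lt_pow_left₀ 2 (by positivity) (by nlinarith)
  · rw [if_neg hi, norm_neg, Complex.norm_conj, norm_div]
    have h1 := d.he_RS S e h i i.2 hi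
    have h2 := norm_pos_iff.2 (d.e0_ne S e h i i.2 hi)
    rw [he_eq, d.nu_R i i.2] at h1
    rw [norm_mul, Complex.norm_real, Real.norm_of_nonneg hr.le, div_lt_one h2]
    exact lt_of_pow_lt_pow_left₀ 2 (by positivity) (by nlinarith)

end Dat

end Pool.Agent.RQ4
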