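import Pool.Agent.RQ4.PAlg

/-!
# Project RQ4, block P: the coordinates `X` and their inverse
-/

set_option autoImplicit false

namespace Pool.Agent.RQ4

open Complex ComplexConjugate Finset

namespace Dat

variable {K : Type} [Field K] [NumberField K] {g : ℕ} (d : Dat K g)

private theorem PCoo_ka_add (e : Fin 2 → K) (u v : Vs g) (i : Fin g) :
    d.ka e (u + v) i = d.ka e u i + d.ka e v i := by
  simp only [ka, Pi.add_apply]
  ring

private theorem PCoo_kb_add (e : Fin 2 → K) (u v : Vs g) (i : Fin g) :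
    d.kb e (u + v) i = d.kb e u i + d.kb e v i := by
  simp only [kb, Pi.add_apply]
  ring

private theorem PCoo_ka_neg (e : Fin 2 → K) (u : Vs g) (i : Fin g) :
    d.ka e (-u) i = -d.ka e u i := by
  simp only [ka, Pi.neg_apply]
  ring

private theorem PCoo_kb_neg (e : Fin 2 → K) (u : Vs g) (i : Fin g) :
    d.kb e (-u) i = -d.kb e u i := by
  simp only [kb, Pi.neg_apply]
  ring

private theorem PCoo_h (i : Fin g) (e : Fin 2 → K) : d.σ i (d.h e e) =
    d.σ i (e 0) * conj (d.σ i (e 0)) + d.nu i * (d.σ i (e 1) * conj (d.σ i (e 1))) := by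
  unfold h
  simp only [map_add, map_mul, d.hbar, d.sig_nu]

private theorem PCoo_ep0 (i : Fin g) (e : Fin 2 → K) :
    d.σ i (d.ep e 0) = -(d.nu i : ℂ) * conj (d.σ i (e 1)) := by
  have h1 : d.ep e 0 = -d.ν * d.bar (e 1) := rfl
  rw [h1, map_mul, map_neg, d.hbar, d.sig_nu]

private theorem PCoo_ep1 (i : Fin g) (e : Fin 2 → K) :
    d.σ i (d.ep e 1) = conj (d.σ i (e 0)) := by
  have h1 : d.ep e 1 = d.bar (e 0) := rfl
  rw [h1, d.hbar]

/-- the inverse matrix at one place -/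
private theorem PCoo_mat {E0 E1 F0 F1 n H : ℂ} (hH : H = E0 * F0 + n * (E1 * F1)) (h0 : H ≠ 0)
    (A B : ℂ) :
    ((A * E0 + B * (-n * F1)) * F0 + n * ((A * E1 + B * F0) * F1)) / H = A ∧
      ((A * E1 + B * F0) * E0 - (A * E0 + B * (-n * F1)) * E1) / H = B := by
  constructor
  · rw [div_eq_iff h0, hH]
    ring
  · rw [div_eq_iff h0, hH]
    ring

private theorem PCoo_mat' {E0 E1 F0 F1 n H : ℂ} (hH : H = E0 * F0 + n * (E1 * F1)) (h0 : H ≠ 0)
    (u0 u1 : ℂ) :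
    (u0 * F0 + n * (u1 * F1)) / H * E0 + (u1 * E0 - u0 * E1) / H * (-n * F1) = u0 ∧
      (u0 * F0 + n * (u1 * F1)) / H * E1 + (u1 * E0 - u0 * E1) / H * F0 = u1 := by
  constructor
  · have h1 : (u0 * F0 + n * (u1 * F1)) / H * E0 + (u1 * E0 - u0 * E1) / H * (-n * F1) =
        u0 * (E0 * F0 + n * (E1 * F1)) / H := by ring
    rw [h1, ← hH, mul_div_assoc, div_self h0, mul_one]
  · have h1 : (u0 * F0 + n * (u1 * F1)) / H * E1 + (u1 * E0 - u0 * E1) / H * F0 =
        u1 * (E0 * F0 + n * (E1 * F1)) / H := by ring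
    rw [h1, ← hH, mul_div_assoc, div_self h0, mul_one]

private theorem PCoo_H0 (S : Finset (Fin g)) (hS : S ⊆ d.R) (e : Fin 2 → K) (h : d.Ok S e)
    (i : Fin g) : d.σ i (d.h e e) ≠ 0 := by
  rw [d.sig_he]
  exact_mod_cast d.he_ne S hS e h i

/-- the coordinates of a vector given by `A`, `B` at the place `i` -/
private theorem PCoo_kab (S : Finset (Fin g)) (hS : S ⊆ d.R) (e : Fin 2 → K) (h : d.Ok S e)
    (u : Vs g) (i : Fin g) (A B : ℂ)
    (hu : ∀ j : Fin 2, u (i, j) = A * d.σ i (e j) + B * d.σ i (d.ep e j)) :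
    d.ka e u i = A ∧ d.kb e u i = B := by
  have h1 := PCoo_mat (PCoo_h d i e) (PCoo_H0 d S hS e h i) A B
  unfold ka kb
  rw [hu 0, hu 1, PCoo_ep0, PCoo_ep1]
  exact h1

private theorem PCoo_cc (P : Prop) [Decidable P] (x : ℂ) :
    (if P then conj (if P then conj x else x) else (if P then conj x else x)) = x := by
  by_cases hP : P
  · rw [if_pos hP, if_pos hP, Complex.conj_conj]
  · rw [if_neg hP, if_neg hP]

theorem Xe_add (S : Finset (Fin g)) (e : Fin 2 → K) (u v : Vs g) :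
    d.Xe S e (u + v) = d.Xe S e u + d.Xe S e v := by
  funext p
  simp only [Xe, Pi.add_apply, PCoo_ka_add, PCoo_kb_add, map_add]
  split_ifs <;> rfl

theorem Xe_neg (S : Finset (Fin g)) (e : Fin 2 → K) (u : Vs g) : d.Xe S e (-u) = -d.Xe S e u := by
  funext p
  simp only [Xe, Pi.neg_apply, PCoo_ka_neg, PCoo_kb_neg, map_neg]
  split_ifs <;> rfl

/-- PLAN: at the place `i` the matrix with columns `σ_i e`, `σ_i e'` has determinant `h_i(e, e) ≠ 0`
(`ep e = (-ν bar e_1, bar e_0)`); cases `i ∈ S`, `i ∈ R∖S`, `conj_conj`. -/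
theorem Ue_Xe (S : Finset (Fin g)) (hS : S ⊆ d.R) (e : Fin 2 → K) (h : d.Ok S e) (u : Vs g) :
    d.Ue S e (d.Xe S e u) = u := by
  funext p
  obtain ⟨i, j⟩ := p
  have h0 : (if i ∈ S then conj (d.Xe S e u (i, 0)) else d.Xe S e u (i, 0)) = d.ka e u i := by
    show (if i ∈ S then conj (if i ∈ S then conj (d.ka e u i) else d.ka e u i) else
      (if i ∈ S then conj (d.ka e u i) else d.ka e u i)) = d.ka e u i
    exact PCoo_cc _ _
  have h1 : (if i ∈ d.R \ S then conj (d.Xe S e u (i, 1)) else d.Xe S e u (i, 1)) =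
      d.kb e u i := by
    show (if i ∈ d.R \ S then conj (if i ∈ d.R \ S then conj (d.kb e u i) else d.kb e u i) else
      (if i ∈ d.R \ S then conj (d.kb e u i) else d.kb e u i)) = d.kb e u i
    exact PCoo_cc _ _
  show (if i ∈ S then conj (d.Xe S e u (i, 0)) else d.Xe S e u (i, 0)) * d.σ i (e j) +
    (if i ∈ d.R \ S then conj (d.Xe S e u (i, 1)) else d.Xe S e u (i, 1)) * d.σ i (d.ep e j) =
      u (i, j)
  rw [h0, h1]
  have h2 := PCoo_mat' (PCoo_h d i e) (PCoo_H0 d S hS e h i) (u (i, 0)) (u (i, 1))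
  fin_cases j
  · show d.ka e u i * d.σ i (e 0) + d.kb e u i * d.σ i (d.ep e 0) = u (i, 0)
    rw [PCoo_ep0]
    exact h2.1
  · show d.ka e u i * d.σ i (e 1) + d.kb e u i * d.σ i (d.ep e 1) = u (i, 1)
    rw [PCoo_ep1]
    exact h2.2

theorem Xe_Ue (S : Finset (Fin g)) (hS : S ⊆ d.R) (e : Fin 2 → K) (h : d.Ok S e) (z : Vs g) :
    d.Xe S e (d.Ue S e z) = z := by
  funext p
  obtain ⟨i, j⟩ := p
  obtain ⟨h1, h2⟩ := PCoo_kab d S hS e h (d.Ue S e z) i
    (if i ∈ S then conj (z (i, 0)) else z (i, 0))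
    (if i ∈ d.R \ S then conj (z (i, 1)) else z (i, 1)) fun _ => rfl
  fin_cases j
  · show (if i ∈ S then conj (d.ka e (d.Ue S e z) i) else d.ka e (d.Ue S e z) i) = z (i, 0)
    rw [h1]
    exact PCoo_cc _ _
  · show (if i ∈ d.R \ S then conj (d.kb e (d.Ue S e z) i) else d.kb e (d.Ue S e z) i) = z (i, 1)
    rw [h2]
    exact PCoo_cc _ _

/-- PLAN: `ka e (kv (vk e l)) i = σ_i (l 0)`, `kb e (kv (vk e l)) i = σ_i (l 1)` (the same computation). -/
theorem Xe_kv (S : Finset (Fin g)) (hS : S ⊆ d.R) (e : Fin 2 → K) (h : d.Ok S e) (l : Fin 2 → K) :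
    d.Xe S e (d.kv (d.vk e l)) = ex (d.fl S) (d.fl (d.R \ S)) l := by
  funext p
  obtain ⟨i, j⟩ := p
  obtain ⟨h1, h2⟩ := PCoo_kab d S hS e h (d.kv (d.vk e l)) i (d.σ i (l 0)) (d.σ i (l 1)) (by
    intro j
    show d.σ i (l 0 * e j + l 1 * d.ep e j) = _
    rw [map_add, map_mul, map_mul])
  fin_cases j
  · show (if i ∈ S then conj (d.ka e (d.kv (d.vk e l)) i) else d.ka e (d.kv (d.vk e l)) i) =
      d.fl S i (l 0)
    rw [h1]
    unfold CM.fl
    by_cases hi : i ∈ S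
    · rw [if_pos hi, if_pos hi]
      rfl
    · rw [if_neg hi, if_neg hi]
  · show (if i ∈ d.R \ S then conj (d.kb e (d.kv (d.vk e l)) i) else d.kb e (d.kv (d.vk e l)) i) =
      d.fl (d.R \ S) i (l 1)
    rw [h2]
    unfold CM.fl
    by_cases hi : i ∈ d.R \ S
    · rw [if_pos hi, if_pos hi]
      rfl
    · rw [if_neg hi, if_neg hi]

/-- PLAN: `hee_ne`, `field_simp`, `ring`. -/
theorem vk_ck (S : Finset (Fin g)) (hS : S ⊆ d.R) (e : Fin 2 → K) (h : d.Ok S e) (c : Fin 2 → K) :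
    d.vk e (d.ck e c) = c := by
  have h0 := d.hee_ne S hS e h
  have hh : d.h e e = e 0 * d.bar (e 0) + d.ν * (e 1 * d.bar (e 1)) := rfl
  funext j
  fin_cases j
  · show (c 0 * d.bar (e 0) + d.ν * (c 1 * d.bar (e 1))) / d.h e e * e 0 +
      (c 1 * e 0 - c 0 * e 1) / d.h e e * (-d.ν * d.bar (e 1)) = c 0
    have h1 : (c 0 * d.bar (e 0) + d.ν * (c 1 * d.bar (e 1))) / d.h e e * e 0 +
        (c 1 * e 0 - c 0 * e 1) / d.h e e * (-d.ν * d.bar (e 1)) =
        c 0 * (e 0 * d.bar (e 0) + d.ν * (e 1 * d.bar (e 1))) / d.h e e := by ring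
    rw [h1, ← hh, mul_div_assoc, div_self h0, mul_one]
  · show (c 0 * d.bar (e 0) + d.ν * (c 1 * d.bar (e 1))) / d.h e e * e 1 +
      (c 1 * e 0 - c 0 * e 1) / d.h e e * d.bar (e 0) = c 1
    have h1 : (c 0 * d.bar (e 0) + d.ν * (c 1 * d.bar (e 1))) / d.h e e * e 1 +
        (c 1 * e 0 - c 0 * e 1) / d.h e e * d.bar (e 0) =
        c 1 * (e 0 * d.bar (e 0) + d.ν * (e 1 * d.bar (e 1))) / d.h e e := by ring
    rw [h1, ← hh, mul_div_assoc, div_self h0, mul_one]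

/-- at the definite place the coordinates are `ℂ`-linear: `X (ut τ)` is supported at `s`, with the vector
`(h_s(τ, e), τ_1 e_0 - τ_0 e_1) / h_s(e, e)` there. -/
theorem Xe_ut (S : Finset (Fin g)) (hS : S ⊆ d.R) (e : Fin 2 → K) (τ : Fin 2 → ℂ) :
    d.Xe S e (d.ut τ) =
      (((τ 0 * conj (d.σ d.s (e 0)) + d.nu d.s * (τ 1 * conj (d.σ d.s (e 1)))) / d.σ d.s (d.h e e)) •
        (Pi.single (d.s, 0) 1 : Vs g)) +
      (((τ 1 * d.σ d.s (e 0) - τ 0 * d.σ d.s (e 1)) / d.σ d.s (d.h e e)) •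
        (Pi.single (d.s, 1) 1 : Vs g)) := by
  have hsS : d.s ∉ S := fun hc => d.hs (hS hc)
  have hsR : d.s ∉ d.R \ S := fun hc => d.hs (Finset.mem_sdiff.1 hc).1
  have hut : ∀ al : Fin 2, d.ut τ (d.s, al) = τ al := fun al => if_pos rfl
  have hut' : ∀ (i : Fin g) (al : Fin 2), i ≠ d.s → d.ut τ (i, al) = 0 := fun i al hi => if_neg hi
  funext p
  obtain ⟨i, j⟩ := p
  rw [Pi.add_apply, Pi.smul_apply, Pi.smul_apply]
  by_cases hi : i = d.s
  · subst hi
    fin_cases j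
    · show (if d.s ∈ S then conj (d.ka e (d.ut τ) d.s) else d.ka e (d.ut τ) d.s) =
        _ • (Pi.single (d.s, 0) 1 : Vs g) (d.s, 0) + _ • (Pi.single (d.s, 1) 1 : Vs g) (d.s, 0)
      rw [if_neg hsS, Pi.single_eq_same, Pi.single_eq_of_ne (by simp), smul_zero, add_zero,
        smul_eq_mul, mul_one]
      unfold ka
      rw [hut, hut]
    · show (if d.s ∈ d.R \ S then conj (d.kb e (d.ut τ) d.s) else d.kb e (d.ut τ) d.s) =
        _ • (Pi.single (d.s, 0) 1 : Vs g) (d.s, 1) + _ • (Pi.single (d.s, 1) 1 : Vs g) (d.s, 1)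
      rw [if_neg hsR, Pi.single_eq_same, Pi.single_eq_of_ne (by simp), smul_zero, zero_add,
        smul_eq_mul, mul_one]
      unfold kb
      rw [hut, hut]
  · have h1 : d.ka e (d.ut τ) i = 0 := by
      unfold ka
      rw [hut' i 0 hi, hut' i 1 hi]
      simp
    have h2 : d.kb e (d.ut τ) i = 0 := by
      unfold kb
      rw [hut' i 0 hi, hut' i 1 hi]
      simp
    have h3 : ∀ al : Fin 2, (Pi.single (d.s, al) 1 : Vs g) (i, j) = 0 := fun al =>
      Pi.single_eq_of_ne (fun hc => hi (congrArg Prod.fst hc)) _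
    rw [h3, h3, smul_zero, smul_zero, add_zero]
    unfold Xe
    rw [h1, h2, map_zero]
    simp

end Dat

end Pool.Agent.RQ4
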