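import Pool.Agent.RQ4.Ifc

/-!
# Project RQ4 (MP_c2409d_nt), block P: the CM points `x(e)`. Definitions

At `w = ze S e` the complex structure is diagonal in the basis `e`, `e' = ep e` of `K²`:
`u = κ e + κ' e'`, coordinates `X = Xe u` = (`κ_i` or its conjugate, `κ'_i` or its conjugate).
-/

set_option autoImplicit false

namespace Pool.Agent.RQ4

open Complex ComplexConjugate Finset

noncomputable section

namespace Dat

variable {K : Type} [Field K] [NumberField K] {g : ℕ} (d : Dat K g)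

/-- the first coordinate of `u` in the basis `e`, `e'` at the place `i` -/
def ka (e : Fin 2 → K) (u : Vs g) (i : Fin g) : ℂ :=
  (u (i, 0) * conj (d.σ i (e 0)) + d.nu i * (u (i, 1) * conj (d.σ i (e 1)))) / d.σ i (d.h e e)

/-- the second coordinate of `u` in the basis `e`, `e'` at the place `i` -/
def kb (e : Fin 2 → K) (u : Vs g) (i : Fin g) : ℂ :=
  (u (i, 1) * d.σ i (e 0) - u (i, 0) * d.σ i (e 1)) / d.σ i (d.h e e)

/-- the eigen-coordinates -/
def Xe (S : Finset (Fin g)) (e : Fin 2 → K) (u : Vs g) : Vs g := fun p =>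
  if p.2 = 0 then (if p.1 ∈ S then conj (d.ka e u p.1) else d.ka e u p.1)
  else (if p.1 ∈ d.R \ S then conj (d.kb e u p.1) else d.kb e u p.1)

/-- the inverse of `Xe` -/
def Ue (S : Finset (Fin g)) (e : Fin 2 → K) (z : Vs g) : Vs g := fun p =>
  (if p.1 ∈ S then conj (z (p.1, 0)) else z (p.1, 0)) * d.σ p.1 (e p.2) +
    (if p.1 ∈ d.R \ S then conj (z (p.1, 1)) else z (p.1, 1)) * d.σ p.1 (d.ep e p.2)

/-- `h_i(e, e)` -/
def he (e : Fin 2 → K) (i : Fin g) : ℝ := (d.σ i (d.h e e)).re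

/-- the coefficients of the hermitian form in the coordinates `X`, times `π` -/
def ah (e : Fin 2 → K) (p : Ix g) : ℝ :=
  Real.pi * d.c p.1 * |d.he e p.1| * (if p.2 = 0 then 1 else |d.nu p.1|)

/-- `L_w = Am ∘ X` at `w = ze S e` -/
def Am (S : Finset (Fin g)) (e : Fin 2 → K) (z : Vs g) : Vs g := fun p =>
  if p.1 ∈ S then (if p.2 = 0 then z (p.1, 1) * (-d.he e p.1 / d.σ p.1 (e 1))
    else z (p.1, 0) * (-d.he e p.1 / (d.r p.1 * d.σ p.1 (e 1))))
  else if p.1 ∈ d.R then z p * (d.he e p.1 / conj (d.σ p.1 (e 0))) * (if p.2 = 0 then 1 else (d.r p.1 : ℂ))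
  else if p.2 = 0 then d.σ p.1 (e 0) * z (p.1, 0) - d.nu p.1 * conj (d.σ p.1 (e 1)) * z (p.1, 1)
  else d.r p.1 * (d.σ p.1 (e 1) * z (p.1, 0) + conj (d.σ p.1 (e 0)) * z (p.1, 1))

/-- the inverse of `Am` -/
def Bm (S : Finset (Fin g)) (e : Fin 2 → K) (z : Vs g) : Vs g := fun p =>
  if p.1 ∈ S then (if p.2 = 0 then z (p.1, 1) / (-d.he e p.1 / (d.r p.1 * d.σ p.1 (e 1)))
    else z (p.1, 0) / (-d.he e p.1 / d.σ p.1 (e 1)))
  else if p.1 ∈ d.R then z p / (d.he e p.1 / conj (d.σ p.1 (e 0))) / (if p.2 = 0 then 1 else (d.r p.1 : ℂ))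
  else if p.2 = 0 then
    (z (p.1, 0) * conj (d.σ p.1 (e 0)) + d.nu p.1 * (z (p.1, 1) / d.r p.1 * conj (d.σ p.1 (e 1)))) / d.he e p.1
  else (z (p.1, 1) / d.r p.1 * d.σ p.1 (e 0) - z (p.1, 0) * d.σ p.1 (e 1)) / d.he e p.1

/-- the element `κ e + κ' e'` of `K²` -/
def vk (e : Fin 2 → K) (l : Fin 2 → K) : Fin 2 → K := fun j => l 0 * e j + l 1 * d.ep e j

/-- the coordinates of `c ∈ K²` in the basis `e`, `e'` -/
def ck (e : Fin 2 → K) (c : Fin 2 → K) : Fin 2 → K :=
  ![(c 0 * d.bar (e 0) + d.ν * (c 1 * d.bar (e 1))) / d.h e e, (c 1 * e 0 - c 0 * e 1) / d.h e e]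

/-- the lattice in the coordinates `κ`, `κ'` -/
def Le (e : Fin 2 → K) : AddSubgroup (Fin 2 → K) where
  carrier := {l | ∃ a b : Ix g → ℤ, d.kv (d.vk e l) = d.lat a b}
  add_mem' := by
    rintro l l' ⟨a, b, h⟩ ⟨a', b', h'⟩
    refine ⟨a + a', b + b', ?_⟩
    have h1 : d.kv (d.vk e (l + l')) = d.kv (d.vk e l) + d.kv (d.vk e l') := by
      ext p
      simp only [kv, vk, Pi.add_apply, map_add, map_mul]
      ring
    have h2 : d.lat (a + a') (b + b') = d.lat a b + d.lat a' b' := by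
      ext p
      simp only [lat, vst, Pi.add_apply]
      push_cast
      simp only [add_mul, Finset.sum_add_distrib, add_div]
      ring
    rw [h1, h2, h, h']
  zero_mem' := by
    refine ⟨0, 0, ?_⟩
    ext p
    simp [kv, vk, lat, vst]
  neg_mem' := by
    rintro l ⟨a, b, h⟩
    refine ⟨-a, -b, ?_⟩
    have h1 : d.kv (d.vk e (-l)) = -d.kv (d.vk e l) := by
      ext p
      simp only [kv, vk, Pi.neg_apply, map_add, map_mul, map_neg]
      ring
    have h2 : d.lat (-a) (-b) = -d.lat a b := by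
      ext p
      simp only [lat, vst, Pi.neg_apply]
      push_cast
      simp only [neg_mul, Finset.sum_neg_distrib, neg_div]
      ring
    rw [h1, h2, h]

/-- the semicharacter -/
def ch (e : Fin 2 → K) (l : Fin 2 → K) : ℂ :=
  cexp (Real.pi * I * ((∑ p, d.sc (d.kv (d.vk e l)) p * d.tc (d.kv (d.vk e l)) p : ℝ) : ℂ))

end Dat

end

end Pool.Agent.RQ4
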