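import Pool.Agent.RQ4.PT

/-!
# Project RQ4, block P: values and gradients at torsion points in terms of the canonical translates
-/

set_option autoImplicit false

namespace Pool.Agent.RQ4

open Complex ComplexConjugate Finset

namespace Dat

variable {K : Type} [Field K] [NumberField K] {g : ℕ} (d : Dat K g)

private lemma PG_wx (w : d.R → ℂ) : d.wx w d.s = 0 := by
  unfold wx
  rw [dif_neg d.hs]

private lemma PG_ut_ne (τ : Fin 2 → ℂ) {i : Fin g} (hi : i ≠ d.s) (al : Fin 2) :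
    d.ut τ (i, al) = 0 := by
  unfold ut
  exact if_neg hi

private lemma PG_ut_s (τ : Fin 2 → ℂ) (al : Fin 2) : d.ut τ (d.s, al) = τ al := by
  unfold ut
  exact if_pos rfl

theorem P_Hs (S : Finset (Fin g)) (e : Fin 2 → K) (τ : Fin 2 → ℂ) (P : Vs g) :
    ((d.Hw (d.ze S e) (d.ut τ) : ℝ) : ℂ) = d.Hs τ τ ∧ d.E (d.ut τ) P = (d.Hs τ (d.ps P)).im := by
  constructor
  · have h1 : d.Hw (d.ze S e) (d.ut τ) = d.c d.s * (‖τ 0‖ ^ 2 + d.nu d.s * ‖τ 1‖ ^ 2) := by
      unfold Hw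
      rw [Finset.sum_eq_single d.s]
      · unfold Hi
        rw [PG_wx, PG_ut_s, PG_ut_s]
        have h2 : d.r d.s ^ 2 = d.nu d.s := by
          rw [d.P_r_sq, abs_of_pos]
          exact d.nN d.s d.hs
        have h3 : ‖(d.r d.s : ℂ) * τ 1‖ ^ 2 = d.nu d.s * ‖τ 1‖ ^ 2 := by
          rw [norm_mul, mul_pow, Complex.norm_real, Real.norm_eq_abs, sq_abs, h2]
        simp only [zero_mul, add_zero, map_zero, norm_zero]
        rw [h3]
        norm_num
      · intro i _ hi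
        unfold Hi
        rw [PG_ut_ne _ _ hi, PG_ut_ne _ _ hi]
        simp
      · intro h
        exact absurd (Finset.mem_univ _) h
    rw [h1]
    unfold Hs
    rw [Complex.mul_conj, Complex.mul_conj, Complex.normSq_eq_norm_sq, Complex.normSq_eq_norm_sq]
    push_cast
    ring
  · unfold E
    rw [Finset.sum_eq_single d.s]
    · rw [PG_ut_s, PG_ut_s]
      unfold Hs ps
      rw [Complex.im_ofReal_mul, Complex.add_im, Complex.im_ofReal_mul]
    · intro i _ hi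
      rw [PG_ut_ne _ _ hi, PG_ut_ne _ _ hi]
      simp
    · intro h
      exact absurd (Finset.mem_univ _) h

theorem gp_eqP (S : Finset (Fin g)) (hS : S ⊆ d.R) (e : Fin 2 → K) (h : d.Ok S e) (T : Vs g → ℂ)
    (hT : ∀ u, T (d.Xe S e u) = d.tw (d.ze S e) u * cexp ((Real.pi / 2 * d.Hw (d.ze S e) u : ℝ)))
    (c : Fin 2 → K) (τ : Fin 2 → ℂ) :
    d.gp (d.ze S e) (d.kv c) τ =
      tr (d.ah e) (ex (d.fl S) (d.fl (d.R \ S)) (d.ck e c)) T (d.Xe S e (d.ut τ)) := by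
  have h1 : ex (d.fl S) (d.fl (d.R \ S)) (d.ck e c) = d.Xe S e (d.kv c) := by
    have h2 := d.Xe_kv S hS e h (d.ck e c)
    rw [d.vk_ck S hS e h c] at h2
    exact h2.symm
  have h3 := d.P_exp S hS e h (d.ut τ) (d.kv c)
  obtain ⟨h4, h5⟩ := d.P_Hs S e τ (d.kv c)
  unfold tr
  rw [h1, ← d.Xe_add, hT, add_comm (d.ut τ) (d.kv c)]
  rw [add_comm (d.ut τ) (d.kv c)] at h3
  unfold gp
  rw [mul_left_comm, ← Complex.exp_add]
  congr 1
  · congr 1
    have h6 : ((Real.pi / 2 * d.Hw (d.ze S e) (d.ut τ) : ℝ) : ℂ) = Real.pi / 2 * d.Hs τ τ := by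
      rw [← h4]
      push_cast
      ring
    rw [h6, h5] at h3
    linear_combination -h3

theorem tK_eq (S : Finset (Fin g)) (hS : S ⊆ d.R) (e : Fin 2 → K) (h : d.Ok S e) (T : Vs g → ℂ)
    (hT : ∀ u, T (d.Xe S e u) = d.tw (d.ze S e) u * cexp ((Real.pi / 2 * d.Hw (d.ze S e) u : ℝ)))
    (c : Fin 2 → K) :
    d.tK c (d.ze S e) = tr (d.ah e) (ex (d.fl S) (d.fl (d.R \ S)) (d.ck e c)) T 0 := by
  have h1 := d.gp_eqP S hS e h T hT c 0
  have h2 : d.ut 0 = 0 := by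
    ext p
    unfold ut
    simp
  have h3 : d.Xe S e 0 = 0 := by
    have h4 := d.Xe_add S e 0 0
    rw [add_zero] at h4
    exact left_eq_add.1 h4
  rw [h2, h3] at h1
  rw [← h1]
  unfold gp tK
  rw [h2, add_zero]
  have h5 : ∀ τ' : Fin 2 → ℂ, d.Hs 0 τ' = 0 := by
    intro τ'
    unfold Hs
    simp
  rw [h5, h5]
  simp

end Dat

end Pool.Agent.RQ4
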