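import Pool.Agent.RQ4.PAlg

/-!
# Project RQ4, block P: `H_w` and `E` are diagonal in the coordinates `X` at `w = ze S e`
-/

set_option autoImplicit false

namespace Pool.Agent.RQ4

open Complex ComplexConjugate Finset

namespace Dat

variable {K : Type} [Field K] [NumberField K] {g : ℕ} (d : Dat K g)

private theorem ph_heC (e : Fin 2 → K) (i : Fin g) : (d.he e i : ℂ) =
    d.σ i (e 0) * conj (d.σ i (e 0)) + d.nu i * (d.σ i (e 1) * conj (d.σ i (e 1))) := by
  rw [d.he_eq, Complex.mul_conj', Complex.mul_conj']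
  push_cast
  rfl

private theorem ph_conj_im (a b : ℂ) : (conj a * conj (conj b)).im = -(a * conj b).im := by
  simp only [Complex.mul_im, Complex.conj_re, Complex.conj_im]
  ring

private theorem ph_sum2 (f : Ix g → ℝ) : ∑ p, f p = ∑ i, (f (i, 0) + f (i, 1)) := by
  rw [Fintype.sum_prod_type]
  refine Finset.sum_congr rfl fun i _ => ?_
  rw [Fin.sum_univ_two]

private theorem ph_nk (e : Fin 2 → K) (u : Vs g) (i : Fin g) (hne : d.he e i ≠ 0) :
    d.he e i * (‖d.ka e u i‖ ^ 2 + d.nu i * ‖d.kb e u i‖ ^ 2) =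
      ‖u (i, 0)‖ ^ 2 + d.nu i * ‖u (i, 1)‖ ^ 2 := by
  have h1 : ((d.he e i * (‖d.ka e u i‖ ^ 2 + d.nu i * ‖d.kb e u i‖ ^ 2) : ℝ) : ℂ) =
      ((‖u (i, 0)‖ ^ 2 + d.nu i * ‖u (i, 1)‖ ^ 2 : ℝ) : ℂ) := by
    push_cast
    simp only [← Complex.mul_conj']
    unfold ka kb
    rw [d.sig_he]
    simp only [map_div₀, map_add, map_sub, map_mul, Complex.conj_conj, Complex.conj_ofReal]
    have h2 := d.ph_heC e i
    have h3 : (d.he e i : ℂ) ≠ 0 := by exact_mod_cast hne
    field_simp
    rw [h2]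
    ring
  exact_mod_cast h1

private theorem ph_Hi (S : Finset (Fin g)) (hS : S ⊆ d.R) (e : Fin 2 → K) (h : d.Ok S e) (u : Vs g)
    (i : Fin g) : d.Hi (d.ze S e) i u =
      |d.he e i| * (‖d.ka e u i‖ ^ 2 + |d.nu i| * ‖d.kb e u i‖ ^ 2) := by
  have hne := d.he_ne S hS e h i
  have hr := d.P_r_pos i
  have hrC : (d.r i : ℂ) ≠ 0 := by exact_mod_cast hr.ne'
  have hneC : (d.he e i : ℂ) ≠ 0 := by exact_mod_cast hne
  have hh := d.he_eq e i
  by_cases hR : i ∈ d.R
  · have hnu := d.nu_R i hR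
    have hnuC : (d.nu i : ℂ) = -(d.r i : ℂ) ^ 2 := by rw [hnu]; push_cast; ring
    have habs : |d.nu i| = d.r i ^ 2 := (d.P_r_sq i).symm
    by_cases hi : i ∈ S
    · have hneg := d.he_S S hS e h i hi
      have hE := d.e1_ne S hS e h i hi
      have hE' : conj (d.σ i (e 1)) ≠ 0 := (map_ne_zero _).2 hE
      have hEn : ‖d.σ i (e 1)‖ ≠ 0 := norm_ne_zero_iff.2 hE
      have hw : d.wx (d.ze S e) i = -(d.σ i (e 0) / (d.r i * d.σ i (e 1))) := by
        simp [wx, ze, hR, hi]
      have hZ : u (i, 0) + d.wx (d.ze S e) i * (d.r i * u (i, 1)) =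
          -(d.kb e u i * d.he e i / d.σ i (e 1)) := by
        rw [hw]
        unfold kb
        rw [d.sig_he]
        field_simp
        ring
      have hW : d.r i * u (i, 1) + conj (d.wx (d.ze S e) i) * u (i, 0) =
          -(d.ka e u i * d.he e i / (d.r i * conj (d.σ i (e 1)))) := by
        rw [hw]
        unfold ka
        rw [d.sig_he, hnuC]
        simp only [map_neg, map_div₀, map_mul, Complex.conj_ofReal]
        field_simp
        ring
      have hn : ‖d.wx (d.ze S e) i‖ ^ 2 = ‖d.σ i (e 0)‖ ^ 2 / (d.r i ^ 2 * ‖d.σ i (e 1)‖ ^ 2) := by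
        rw [hw, norm_neg, norm_div, norm_mul, Complex.norm_real, Real.norm_eq_abs, abs_of_pos hr]
        ring
      unfold Hi
      rw [hZ, hW, hn, norm_neg, norm_neg, norm_div, norm_div, norm_mul, norm_mul, norm_mul,
        Complex.norm_conj, Complex.norm_real, Complex.norm_real, Real.norm_eq_abs,
        Real.norm_eq_abs, abs_of_pos hr, habs, abs_of_neg hneg]
      have hd : 1 - ‖d.σ i (e 0)‖ ^ 2 / (d.r i ^ 2 * ‖d.σ i (e 1)‖ ^ 2) =
          -d.he e i / (d.r i ^ 2 * ‖d.σ i (e 1)‖ ^ 2) := by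
        rw [hh, hnu]
        field_simp
        ring
      rw [hd]
      field_simp
      ring
    · have hpos := d.he_RS S e h i hR hi
      have hE := d.e0_ne S e h i hR hi
      have hE' : conj (d.σ i (e 0)) ≠ 0 := (map_ne_zero _).2 hE
      have hEn : ‖d.σ i (e 0)‖ ≠ 0 := norm_ne_zero_iff.2 hE
      have hw : d.wx (d.ze S e) i = -conj (d.r i * d.σ i (e 1) / d.σ i (e 0)) := by
        simp [wx, ze, hR, hi]
      have hZ : u (i, 0) + d.wx (d.ze S e) i * (d.r i * u (i, 1)) =
          d.ka e u i * d.he e i / conj (d.σ i (e 0)) := by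
        rw [hw]
        unfold ka
        rw [d.sig_he, hnuC]
        simp only [map_div₀, map_mul, Complex.conj_ofReal]
        field_simp
      have hW : d.r i * u (i, 1) + conj (d.wx (d.ze S e) i) * u (i, 0) =
          d.r i * (d.kb e u i * d.he e i / d.σ i (e 0)) := by
        rw [hw]
        unfold kb
        rw [d.sig_he]
        simp only [map_neg, Complex.conj_conj]
        field_simp
        ring
      have hn : ‖d.wx (d.ze S e) i‖ ^ 2 = d.r i ^ 2 * ‖d.σ i (e 1)‖ ^ 2 / ‖d.σ i (e 0)‖ ^ 2 := by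
        rw [hw, norm_neg, Complex.norm_conj, norm_div, norm_mul, Complex.norm_real,
          Real.norm_eq_abs, abs_of_pos hr]
        ring
      unfold Hi
      rw [hZ, hW, hn, norm_mul, norm_div, norm_div, norm_mul, norm_mul,
        Complex.norm_conj, Complex.norm_real, Complex.norm_real, Real.norm_eq_abs,
        Real.norm_eq_abs, abs_of_pos hr, habs, abs_of_pos hpos]
      have hd : 1 - d.r i ^ 2 * ‖d.σ i (e 1)‖ ^ 2 / ‖d.σ i (e 0)‖ ^ 2 =
          d.he e i / ‖d.σ i (e 0)‖ ^ 2 := by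
        rw [hh, hnu]
        field_simp
        ring
      rw [hd]
      field_simp
  · have hnu := d.nu_N i hR
    have hpos := d.he_N S e h i hR
    have hw : d.wx (d.ze S e) i = 0 := by
      unfold wx
      rw [dif_neg hR]
    have hnp : 0 < d.nu i := d.nN i hR
    rw [abs_of_pos hpos, abs_of_pos hnp, d.ph_nk e u i hne]
    unfold Hi
    rw [hw]
    simp only [map_zero, zero_mul, add_zero, norm_zero, norm_mul, Complex.norm_real,
      Real.norm_eq_abs, abs_of_pos hr]
    rw [hnu]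
    ring

/-- `π H_w` is diagonal in the coordinates `X` -/
theorem Hw_eq (S : Finset (Fin g)) (hS : S ⊆ d.R) (e : Fin 2 → K) (h : d.Ok S e) (u : Vs g) :
    Real.pi * d.Hw (d.ze S e) u = ∑ p, d.ah e p * ‖d.Xe S e u p‖ ^ 2 := by
  rw [ph_sum2]
  unfold Hw
  rw [Finset.mul_sum]
  refine Finset.sum_congr rfl fun i _ => ?_
  rw [d.ph_Hi S hS e h u i]
  have e0 : ‖d.Xe S e u (i, 0)‖ = ‖d.ka e u i‖ := by
    simp only [Xe, if_true]
    split_ifs
    · rw [Complex.norm_conj]
    · rfl
  have e1 : ‖d.Xe S e u (i, 1)‖ = ‖d.kb e u i‖ := by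
    simp only [Xe, one_ne_zero, if_false]
    split_ifs
    · rw [Complex.norm_conj]
    · rfl
  rw [e0, e1]
  unfold ah
  simp only [if_true, one_ne_zero, if_false]
  ring

/-- `π E` is diagonal in the coordinates `X` -/
theorem E_eqP (S : Finset (Fin g)) (hS : S ⊆ d.R) (e : Fin 2 → K) (h : d.Ok S e) (u v : Vs g) :
    Real.pi * d.E u v = (∑ p, (d.ah e p : ℂ) * (d.Xe S e u p * conj (d.Xe S e v p))).im := by
  have key : ∀ i, d.he e i * (d.ka e u i * conj (d.ka e v i) +
      d.nu i * (d.kb e u i * conj (d.kb e v i))) =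
      u (i, 0) * conj (v (i, 0)) + d.nu i * (u (i, 1) * conj (v (i, 1))) := by
    intro i
    have h2 := d.ph_heC e i
    have h3 : (d.he e i : ℂ) ≠ 0 := by exact_mod_cast d.he_ne S hS e h i
    unfold ka kb
    rw [d.sig_he]
    simp only [map_div₀, map_add, map_sub, map_mul, Complex.conj_conj, Complex.conj_ofReal]
    field_simp
    rw [h2]
    ring
  rw [Complex.im_sum, ph_sum2]
  unfold E
  rw [Finset.mul_sum]
  refine Finset.sum_congr rfl fun i _ => ?_
  have hk := congrArg Complex.im (key i)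
  simp only [Complex.im_ofReal_mul, Complex.add_im] at hk
  rw [← hk, Complex.im_ofReal_mul, Complex.im_ofReal_mul]
  have e0 : (d.Xe S e u (i, 0) * conj (d.Xe S e v (i, 0))).im =
      if i ∈ S then -(d.ka e u i * conj (d.ka e v i)).im else (d.ka e u i * conj (d.ka e v i)).im := by
    simp only [Xe, if_true]
    split_ifs
    · rw [ph_conj_im]
    · rfl
  have e1 : (d.Xe S e u (i, 1) * conj (d.Xe S e v (i, 1))).im =
      if i ∈ d.R \ S then -(d.kb e u i * conj (d.kb e v i)).im
      else (d.kb e u i * conj (d.kb e v i)).im := by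
    simp only [Xe, one_ne_zero, if_false]
    split_ifs
    · rw [ph_conj_im]
    · rfl
  rw [e0, e1]
  unfold ah
  simp only [if_true, one_ne_zero, if_false]
  by_cases hR : i ∈ d.R
  · have hn : d.nu i < 0 := d.nR i hR
    by_cases hi : i ∈ S
    · have hneg := d.he_S S hS e h i hi
      have hm : i ∉ d.R \ S := fun h' => (Finset.mem_sdiff.1 h').2 hi
      rw [if_pos hi, if_neg hm, abs_of_neg hneg, abs_of_neg hn]
      ring
    · have hpos := d.he_RS S e h i hR hi
      have hm : i ∈ d.R \ S := Finset.mem_sdiff.2 ⟨hR, hi⟩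
      rw [if_neg hi, if_pos hm, abs_of_pos hpos, abs_of_neg hn]
      ring
  · have hn : 0 < d.nu i := d.nN i hR
    have hi : i ∉ S := fun h' => hR (hS h')
    have hm : i ∉ d.R \ S := fun h' => hR (Finset.mem_sdiff.1 h').1
    have hpos := d.he_N S e h i hR
    rw [if_neg hi, if_neg hm, abs_of_pos hpos, abs_of_pos hn]
    ring

end Dat

end Pool.Agent.RQ4
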