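import Pool.Agent.RQ4.PAlg

/-!
# Project RQ4, block P: `L_w` in the coordinates `X` at `w = ze S e`
-/

set_option autoImplicit false

namespace Pool.Agent.RQ4

open Complex ComplexConjugate Finset

namespace Dat

variable {K : Type} [Field K] [NumberField K] {g : ℕ} (d : Dat K g)

private theorem PL_he (e : Fin 2 → K) (i : Fin g) :
    (d.he e i : ℂ) = d.σ i (e 0) * conj (d.σ i (e 0)) +
      d.nu i * (d.σ i (e 1) * conj (d.σ i (e 1))) := by
  rw [← d.sig_he]
  unfold h
  simp only [map_add, map_mul, d.hbar, d.sig_nu]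

theorem L_eqP (S : Finset (Fin g)) (hS : S ⊆ d.R) (e : Fin 2 → K) (h : d.Ok S e) (u : Vs g) :
    d.L (d.ze S e) u = d.Am S e (d.Xe S e u) := by
  funext p
  obtain ⟨i, al⟩ := p
  have hr : (d.r i : ℂ) ≠ 0 := by exact_mod_cast (d.P_r_pos i).ne'
  have hhe : (d.he e i : ℂ) ≠ 0 := by exact_mod_cast d.he_ne S hS e h i
  have h1 := PL_he d e i
  by_cases hiS : i ∈ S
  · have hiR : i ∈ d.R := hS hiS
    have hb := d.e1_ne S hS e h i hiS
    have hw : d.wx (d.ze S e) i = -(d.σ i (e 0) / (d.r i * d.σ i (e 1))) := by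
      unfold wx ze
      rw [dif_pos hiR]
      simp only [if_pos hiS]
    have hRS : i ∉ d.R \ S := fun hh => (Finset.mem_sdiff.1 hh).2 hiS
    have hnu : (d.nu i : ℂ) = -(d.r i : ℂ) ^ 2 := by
      rw [d.nu_R i hiR]; push_cast; ring
    fin_cases al
    · simp only [L, Am, Xe, ka, kb, hiS, hRS, hw, d.sig_he, if_true, if_false, Fin.zero_eta,
        Fin.mk_one, Fin.isValue, one_ne_zero]
      field_simp
      ring
    · simp only [L, Am, Xe, ka, kb, hiS, hiR, hRS, hw, d.sig_he, if_true, if_false, Fin.zero_eta,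
        Fin.mk_one, Fin.isValue, one_ne_zero, map_div₀, map_add, map_mul, map_neg, map_pow,
        Complex.conj_ofReal, Complex.conj_conj, hnu]
      field_simp
      ring
  · by_cases hiR : i ∈ d.R
    · have ha := d.e0_ne S e h i hiR hiS
      have ha' : conj (d.σ i (e 0)) ≠ 0 := (map_ne_zero _).2 ha
      have hw : d.wx (d.ze S e) i = -conj (d.r i * d.σ i (e 1) / d.σ i (e 0)) := by
        unfold wx ze
        rw [dif_pos hiR]
        simp only [if_neg hiS]
      have hRS : i ∈ d.R \ S := Finset.mem_sdiff.2 ⟨hiR, hiS⟩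
      have hnu : (d.nu i : ℂ) = -(d.r i : ℂ) ^ 2 := by
        rw [d.nu_R i hiR]; push_cast; ring
      fin_cases al
      · simp only [L, Am, Xe, ka, kb, hiS, hiR, hRS, hw, d.sig_he, if_true, if_false, Fin.zero_eta,
          Fin.mk_one, Fin.isValue, one_ne_zero, map_div₀, map_add, map_mul, Complex.conj_ofReal,
          Complex.conj_conj, hnu]
        field_simp
      · simp only [L, Am, Xe, ka, kb, hiS, hiR, hRS, hw, d.sig_he, if_true, if_false, Fin.zero_eta,
          Fin.mk_one, Fin.isValue, one_ne_zero, map_div₀, map_add, map_sub, map_mul,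
          Complex.conj_ofReal, Complex.conj_conj, hnu]
        field_simp
        ring
    · have hw : d.wx (d.ze S e) i = 0 := by
        unfold wx
        rw [dif_neg hiR]
      have hRS : i ∉ d.R \ S := fun hh => hiR (Finset.mem_sdiff.1 hh).1
      fin_cases al
      · simp only [L, Am, Xe, ka, kb, hiS, hiR, hRS, hw, d.sig_he, if_true, if_false, Fin.zero_eta,
          Fin.mk_one, Fin.isValue, one_ne_zero]
        field_simp
        rw [h1]
        ring
      · simp only [L, Am, Xe, ka, kb, hiS, hiR, hRS, hw, d.sig_he, if_true, if_false, Fin.zero_eta,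
          Fin.mk_one, Fin.isValue, one_ne_zero]
        field_simp
        rw [h1]
        ring

theorem Bm_Am (S : Finset (Fin g)) (hS : S ⊆ d.R) (e : Fin 2 → K) (h : d.Ok S e) (z : Vs g) :
    d.Bm S e (d.Am S e z) = z := by
  funext p
  obtain ⟨i, al⟩ := p
  have hr : (d.r i : ℂ) ≠ 0 := by exact_mod_cast (d.P_r_pos i).ne'
  have hhe : (d.he e i : ℂ) ≠ 0 := by exact_mod_cast d.he_ne S hS e h i
  have h1 := PL_he d e i
  by_cases hiS : i ∈ S
  · have hb := d.e1_ne S hS e h i hiS
    fin_cases al
    · simp only [Am, Bm, hiS, if_true, if_false, Fin.zero_eta, Fin.mk_one, Fin.isValue, one_ne_zero]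
      field_simp
    · simp only [Am, Bm, hiS, if_true, if_false, Fin.zero_eta, Fin.mk_one, Fin.isValue, one_ne_zero]
      field_simp
  · by_cases hiR : i ∈ d.R
    · have ha := d.e0_ne S e h i hiR hiS
      have ha' : conj (d.σ i (e 0)) ≠ 0 := (map_ne_zero _).2 ha
      fin_cases al
      · simp only [Am, Bm, hiS, hiR, if_true, if_false, Fin.zero_eta, Fin.mk_one, Fin.isValue,
          one_ne_zero]
        field_simp
      · simp only [Am, Bm, hiS, hiR, if_true, if_false, Fin.zero_eta, Fin.mk_one, Fin.isValue,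
          one_ne_zero]
        field_simp
    · fin_cases al
      · simp only [Am, Bm, hiS, hiR, if_true, if_false, Fin.zero_eta, Fin.mk_one, Fin.isValue,
          one_ne_zero]
        field_simp
        rw [h1]
        ring
      · simp only [Am, Bm, hiS, hiR, if_true, if_false, Fin.zero_eta, Fin.mk_one, Fin.isValue,
          one_ne_zero]
        field_simp
        rw [h1]
        ring

theorem Am_diff (S : Finset (Fin g)) (e : Fin 2 → K) : Differentiable ℂ (d.Am S e) := by
  rw [differentiable_pi]
  intro p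
  unfold Am
  split_ifs <;> fun_prop

theorem Bm_diff (S : Finset (Fin g)) (e : Fin 2 → K) : Differentiable ℂ (d.Bm S e) := by
  rw [differentiable_pi]
  intro p
  unfold Bm
  split_ifs <;> fun_prop

end Dat

end Pool.Agent.RQ4
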