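import Pool.Agent.RQ4.PAlg

/-!
# Project RQ4, block P: the lattice `Le e` in the coordinates of `e`, `e'`
-/

set_option autoImplicit false

namespace Pool.Agent.RQ4

open Complex ComplexConjugate Finset

namespace Dat

variable {K : Type} [Field K] [NumberField K] {g : ℕ} (d : Dat K g)

private theorem plat_dual (j k : Fin g) :
    ∑ i, d.fdr j i * d.fr k i = if j = k then 1 else 0 := by
  have h1 := d.dual j k
  have h2 : ((∑ i, d.fdr j i * d.fr k i : ℝ) : ℂ) = ((if j = k then 1 else 0 : ℝ) : ℂ) := by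
    rw [Complex.ofReal_sum]
    have h3 : ∀ i, ((d.fdr j i * d.fr k i : ℝ) : ℂ) = d.σ i (d.fd j * d.f k) := by
      intro i
      rw [map_mul, d.sig_fd, d.sig_f, Complex.ofReal_mul]
    simp only [h3]
    rw [h1]
    split_ifs <;> simp
  exact_mod_cast h2

theorem P_sc_lat (a b : Ix g → ℤ) (p : Ix g) : d.sc (d.lat a b) p = a p := by
  obtain ⟨j, al⟩ := p
  have h1 : ∀ i, (d.lat a b (i, al)).re = ∑ k, (a (k, al) : ℝ) * d.fdr k i / d.sg al i := by
    intro i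
    have h2 : d.lat a b (i, al) = ((∑ k, (a (k, al) : ℝ) * d.fdr k i / d.sg al i : ℝ) : ℂ) +
      I / d.c i * ((∑ k, (b (k, al) : ℝ) * d.fr k i : ℝ) : ℂ) := rfl
    have h3 : I / (d.c i : ℂ) * ((∑ k, (b (k, al) : ℝ) * d.fr k i : ℝ) : ℂ) =
        (((∑ k, (b (k, al) : ℝ) * d.fr k i) / d.c i : ℝ) : ℂ) * I := by
      push_cast
      ring
    rw [h2, h3, Complex.add_re, Complex.ofReal_re, Complex.re_ofReal_mul, Complex.I_re, mul_zero,
      add_zero]
  show ∑ i, d.fr j i * d.sg al i * (d.lat a b (i, al)).re = a (j, al)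
  have h4 : ∀ i, d.fr j i * d.sg al i * (d.lat a b (i, al)).re =
      ∑ k, (a (k, al) : ℝ) * (d.fdr k i * d.fr j i) := by
    intro i
    rw [h1, Finset.mul_sum]
    refine Finset.sum_congr rfl fun k _ => ?_
    have := d.sg_neN al i
    field_simp
  simp only [h4]
  rw [Finset.sum_comm]
  simp only [← Finset.mul_sum, plat_dual]
  simp

theorem P_tc_lat (a b : Ix g → ℤ) (p : Ix g) : d.tc (d.lat a b) p = b p := by
  obtain ⟨j, al⟩ := p
  have h1 : ∀ i, (d.lat a b (i, al)).im = (∑ k, (b (k, al) : ℝ) * d.fr k i) / d.c i := by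
    intro i
    have h2 : d.lat a b (i, al) = ((∑ k, (a (k, al) : ℝ) * d.fdr k i / d.sg al i : ℝ) : ℂ) +
      I / d.c i * ((∑ k, (b (k, al) : ℝ) * d.fr k i : ℝ) : ℂ) := rfl
    have h3 : I / (d.c i : ℂ) * ((∑ k, (b (k, al) : ℝ) * d.fr k i : ℝ) : ℂ) =
        (((∑ k, (b (k, al) : ℝ) * d.fr k i) / d.c i : ℝ) : ℂ) * I := by
      push_cast
      ring
    rw [h2, h3, Complex.add_im, Complex.ofReal_im, Complex.im_ofReal_mul, Complex.I_im, mul_one,
      zero_add]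
  show ∑ i, d.fdr j i * d.c i * (d.lat a b (i, al)).im = b (j, al)
  have h4 : ∀ i, d.fdr j i * d.c i * (d.lat a b (i, al)).im =
      ∑ k, (b (k, al) : ℝ) * (d.fdr j i * d.fr k i) := by
    intro i
    have h5 : ∑ k, (b (k, al) : ℝ) * (d.fdr j i * d.fr k i) =
        d.fdr j i * ∑ k, (b (k, al) : ℝ) * d.fr k i := by
      rw [Finset.mul_sum]
      refine Finset.sum_congr rfl fun k _ => ?_
      ring
    rw [h1, h5]
    have := (d.c_posN i).ne'
    field_simp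
  simp only [h4]
  rw [Finset.sum_comm]
  simp only [← Finset.mul_sum, plat_dual]
  simp

private theorem plat_kv (a b : Ix g → ℤ) :
    d.kv (d.latK (fun p => (a p : ℚ)) (fun p => (b p : ℚ))) = d.lat a b := by
  rw [d.kv_latK]
  unfold lat
  simp only [Rat.cast_intCast]

theorem P_lat_kv (a b : Ix g → ℤ) : ∃ y : Fin 2 → K, d.kv y = d.lat a b := by
  exact ⟨_, plat_kv d a b⟩

private theorem plat_den {ι : Type} [Fintype ι] (a : ι → ℚ) :
    ∃ n : ℕ, 0 < n ∧ ∃ a' : ι → ℤ, ∀ p, (n : ℚ) * a p = a' p := by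
  classical
  refine ⟨∏ p, (a p).den, Finset.prod_pos fun p _ => (a p).den_pos,
    fun p => (∏ q ∈ univ.erase p, ((a q).den : ℤ)) * (a p).num, fun p => ?_⟩
  rw [← Finset.mul_prod_erase univ (fun p => (a p).den) (Finset.mem_univ p)]
  push_cast
  have h1 : ((a p).den : ℚ) * a p = (a p).num := Rat.den_mul_eq_num _
  rw [← h1]
  ring

theorem P_full (x : Fin 2 → K) : ∃ n : ℕ, 0 < n ∧ ∃ a b : Ix g → ℤ, d.kv (n • x) = d.lat a b := by
  obtain ⟨a, b, hab⟩ := d.latK_surj x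
  obtain ⟨n1, h1, a', ha⟩ := plat_den a
  obtain ⟨n2, h2, b', hb⟩ := plat_den b
  refine ⟨n1 * n2, Nat.mul_pos h1 h2, fun p => n2 * a' p, fun p => n1 * b' p, ?_⟩
  rw [← plat_kv]
  congr 1
  have h3 : ((n1 * n2 : ℕ) : ℚ) • x = (n1 * n2) • x := Nat.cast_smul_eq_nsmul ℚ _ _
  rw [← h3, ← hab, ← d.latK_smul]
  congr 1
  · funext p
    have := ha p
    push_cast
    rw [← this]
    ring
  · funext p
    have := hb p
    push_cast
    rw [← this]
    ring

private theorem plat_inj {x y : Fin 2 → K} (h : d.kv x = d.kv y) : x = y := by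
  funext al
  exact (d.σ d.s).injective (congrFun h (d.s, al))

private theorem plat_vk_ck {e : Fin 2 → K} (hh : d.h e e ≠ 0) (c : Fin 2 → K) :
    d.vk e (d.ck e c) = c := by
  have hd : d.h e e = e 0 * d.bar (e 0) + d.ν * (e 1 * d.bar (e 1)) := rfl
  funext j
  fin_cases j
  · show (c 0 * d.bar (e 0) + d.ν * (c 1 * d.bar (e 1))) / d.h e e * e 0 +
      (c 1 * e 0 - c 0 * e 1) / d.h e e * (-d.ν * d.bar (e 1)) = c 0
    have h1 : (c 0 * d.bar (e 0) + d.ν * (c 1 * d.bar (e 1))) / d.h e e * e 0 +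
      (c 1 * e 0 - c 0 * e 1) / d.h e e * (-d.ν * d.bar (e 1)) =
        c 0 * (e 0 * d.bar (e 0) + d.ν * (e 1 * d.bar (e 1))) / d.h e e := by
      ring
    rw [h1, ← hd, mul_div_assoc, div_self hh, mul_one]
  · show (c 0 * d.bar (e 0) + d.ν * (c 1 * d.bar (e 1))) / d.h e e * e 1 +
      (c 1 * e 0 - c 0 * e 1) / d.h e e * d.bar (e 0) = c 1
    have h1 : (c 0 * d.bar (e 0) + d.ν * (c 1 * d.bar (e 1))) / d.h e e * e 1 +
      (c 1 * e 0 - c 0 * e 1) / d.h e e * d.bar (e 0) =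
        c 1 * (e 0 * d.bar (e 0) + d.ν * (e 1 * d.bar (e 1))) / d.h e e := by
      ring
    rw [h1, ← hd, mul_div_assoc, div_self hh, mul_one]

private theorem plat_ck_vk {e : Fin 2 → K} (hh : d.h e e ≠ 0) (l : Fin 2 → K) :
    d.ck e (d.vk e l) = l := by
  have hd : d.h e e = e 0 * d.bar (e 0) + d.ν * (e 1 * d.bar (e 1)) := rfl
  have v0 : d.vk e l 0 = l 0 * e 0 + l 1 * (-d.ν * d.bar (e 1)) := rfl
  have v1 : d.vk e l 1 = l 0 * e 1 + l 1 * d.bar (e 0) := rfl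
  funext j
  fin_cases j
  · show (d.vk e l 0 * d.bar (e 0) + d.ν * (d.vk e l 1 * d.bar (e 1))) / d.h e e = l 0
    rw [div_eq_iff hh, v0, v1, hd]
    ring
  · show (d.vk e l 1 * e 0 - d.vk e l 0 * e 1) / d.h e e = l 1
    rw [div_eq_iff hh, v0, v1, hd]
    ring

private theorem plat_ck_add (e c c' : Fin 2 → K) : d.ck e (c + c') = d.ck e c + d.ck e c' := by
  funext j
  fin_cases j
  · show ((c 0 + c' 0) * d.bar (e 0) + d.ν * ((c 1 + c' 1) * d.bar (e 1))) / d.h e e =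
      (c 0 * d.bar (e 0) + d.ν * (c 1 * d.bar (e 1))) / d.h e e +
        (c' 0 * d.bar (e 0) + d.ν * (c' 1 * d.bar (e 1))) / d.h e e
    ring
  · show ((c 1 + c' 1) * e 0 - (c 0 + c' 0) * e 1) / d.h e e =
      (c 1 * e 0 - c 0 * e 1) / d.h e e + (c' 1 * e 0 - c' 0 * e 1) / d.h e e
    ring

private theorem plat_latK_add (a b a' b' : Ix g → ℚ) :
    d.latK (fun p => a p + a' p) (fun p => b p + b' p) = d.latK a b + d.latK a' b' := by
  funext al
  simp only [latK, Pi.add_apply, add_smul, Finset.sum_add_distrib, add_div, mul_add]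
  ring

theorem Le_fg (S : Finset (Fin g)) (hS : S ⊆ d.R) (e : Fin 2 → K) (h : d.Ok S e) : (d.Le e).FG := by
  have hh := d.hee_ne S hS e h
  obtain ⟨φ, hφ⟩ : ∃ φ : ((Ix g → ℤ) × (Ix g → ℤ)) →+ (Fin 2 → K), ∀ x, φ x =
      d.ck e (d.latK (fun p => (x.1 p : ℚ)) (fun p => (x.2 p : ℚ))) :=
    ⟨AddMonoidHom.mk' (fun x => d.ck e (d.latK (fun p => (x.1 p : ℚ)) (fun p => (x.2 p : ℚ))))
      fun x y => by
        rw [← plat_ck_add, ← plat_latK_add]
        congr 2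
        · funext p
          simp
        · funext p
          simp, fun x => rfl⟩
  have h1 : d.Le e = φ.range := by
    ext l
    rw [AddMonoidHom.mem_range]
    constructor
    · rintro ⟨a, b, hab⟩
      refine ⟨(a, b), ?_⟩
      rw [hφ]
      have h2 : d.vk e l = d.latK (fun p => (a p : ℚ)) (fun p => (b p : ℚ)) :=
        plat_inj d (by rw [hab, plat_kv])
      rw [← h2, plat_ck_vk d hh]
    · rintro ⟨⟨a, b⟩, hab⟩
      rw [hφ] at hab
      refine ⟨a, b, ?_⟩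
      rw [← hab, plat_vk_ck d hh, plat_kv]
  rw [h1]
  have : AddGroup.FG ((Ix g → ℤ) × (Ix g → ℤ)) :=
    Module.Finite.iff_addGroup_fg.1 inferInstance
  exact (AddGroup.fg_iff_addSubgroup_fg _).1 (AddGroup.fg_range φ)

theorem Le_full (e : Fin 2 → K) (x : Fin 2 → K) : ∃ n : ℕ, 0 < n ∧ n • x ∈ d.Le e := by
  obtain ⟨n, hn, a, b, hab⟩ := d.P_full (d.vk e x)
  refine ⟨n, hn, a, b, ?_⟩
  rw [← hab]
  congr 1
  funext j
  simp only [vk, Pi.smul_apply, smul_add, nsmul_eq_mul]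
  ring

theorem ch_lat (e l : Fin 2 → K) (a b : Ix g → ℤ) (h : d.kv (d.vk e l) = d.lat a b) :
    d.ch e l = (-1) ^ (∑ p, a p * b p) := by
  unfold ch
  rw [h]
  simp only [P_sc_lat, P_tc_lat]
  have h1 : Real.pi * I * ((∑ p, (a p : ℝ) * (b p : ℝ) : ℝ) : ℂ) =
      ((∑ p, a p * b p : ℤ) : ℂ) * (Real.pi * I) := by
    push_cast
    ring
  rw [h1, Complex.exp_int_mul, Complex.exp_pi_mul_I]

theorem ch_pm (e l : Fin 2 → K) (h : l ∈ d.Le e) : d.ch e l = 1 ∨ d.ch e l = -1 := by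
  obtain ⟨a, b, hab⟩ := h
  rw [d.ch_lat e l a b hab]
  rcases Int.even_or_odd (∑ p, a p * b p) with h1 | h1
  · exact Or.inl (h1.neg_one_zpow)
  · exact Or.inr (h1.neg_one_zpow)

end Dat

end Pool.Agent.RQ4
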