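import Pool.Agent.RQ4.PW
import Pool.Agent.DRV.Ext

/-!
# Project RQ4, block P: values of a derivation at a CM point
-/

set_option autoImplicit false

namespace Pool.Agent.RQ4

open Complex ComplexConjugate Finset

namespace Dat

variable {K : Type} [Field K] [NumberField K] {g : ℕ} (d : Dat K g)

/-- values of a derivation at a CM point -/
theorem p_main (IsC : (Fin g → K →+* ℂ) → Derivation ℚ ℂ ℂ → (Fin g → ℂ) → Prop)
    (hTH : TH2 d.toCM IsC) (S : Finset (Fin g)) (hS : S ⊆ d.R) (e : Fin 2 → K) (h : d.Ok S e)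
    (hIs : d.IsT (d.ze S e) (d.tw (d.ze S e)))
    (hU : ∀ f, d.IsT (d.ze S e) f → ∃ c : ℂ, ∀ u, f u = c * d.tw (d.ze S e) u)
    (hev : ∀ u, d.tw (d.ze S e) (-u) = d.tw (d.ze S e) u) (h0 : d.tw (d.ze S e) 0 ≠ 0)
    (δ : Derivation ℚ ℂ ℂ) : ∃ (c3 c4 : Fin g → ℂ) (γ : ℂ),
      IsC (d.fl S) δ c3 ∧ IsC (d.fl (d.R \ S)) δ c4 ∧
      (∀ c, δ (d.tK c (d.ze S e)) = γ * d.tK c (d.ze S e)) ∧
      ∀ c c', δ (d.Wr c c' (d.ze S e)) = (2 * γ + c3 d.s + c4 d.s) * d.Wr c c' (d.ze S e) := by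
  obtain ⟨T, hT1, hT2, hT3, hT4, hT5⟩ := d.exists_T S hS e h hIs hU hev h0
  obtain ⟨c3, c4, γ, h3, h4, hρ⟩ := hTH S (d.R \ S) (d.ah e) (d.Le e) (d.ch e) T (d.ah_pos S hS e h)
    (d.ah_alg e) (d.Le_fg S hS e h) (d.Le_full e) (fun l hl => d.ch_pm e l hl) hT1 hT2 hT3 hT4 δ
  refine ⟨c3, c4, γ, h3, h4, fun c => ?_, fun c c' => ?_⟩
  · rw [d.tK_eq S hS e h T hT5]
    exact (hρ (d.ck e c)).1
  · have halg : δ ((d.σ d.s (d.h e e))⁻¹) = 0 := by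
      have h1 : IsAlgebraic ℚ (d.σ d.s (d.h e e)) :=
        (Algebra.IsAlgebraic.isAlgebraic (R := ℚ) (d.h e e)).algHom (d.σ d.s).toRatAlgHom
      have h2 : δ (d.σ d.s (d.h e e)) = 0 := by
        exact DRV.eq_zero_of_isAlgebraic δ h1
      rw [Derivation.leibniz_inv, h2]; simp
    rw [d.Wr_eq S hS e h T hT1.1 hT5]
    obtain ⟨_, hc⟩ := hρ (d.ck e c)
    obtain ⟨_, hc'⟩ := hρ (d.ck e c')
    rw [Derivation.leibniz, halg, map_sub, Derivation.leibniz, Derivation.leibniz, hc, hc, hc', hc']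
    simp only [smul_eq_mul, mul_zero, add_zero, if_true, Fin.isValue, one_ne_zero, if_false]
    ring

end Dat

end Pool.Agent.RQ4
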