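import Pool.Agent.RQ4.PCoo
import Pool.Agent.RQ4.PL
import Pool.Agent.RQ4.PH
import Pool.Agent.RQ4.PLat

/-!
# Project RQ4, block P: the theta function of rank two at a CM point
-/

set_option autoImplicit false

namespace Pool.Agent.RQ4

open Complex ComplexConjugate Finset

namespace Dat

variable {K : Type} [Field K] [NumberField K] {g : ℕ} (d : Dat K g)

/-- the exponent: `π/2 H(u+v) = π/2 H(u) + π/2 H(v) + Re B`, `πE(u,v) = Im B`, `B = ∑ a X(u) conj X(v)`.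
PLAN: `Hw_eq`, `E_eqP`, `Xe_add`, `Complex.ext`. -/
theorem P_exp (S : Finset (Fin g)) (hS : S ⊆ d.R) (e : Fin 2 → K) (h : d.Ok S e) (u v : Vs g) :
    ((Real.pi / 2 * d.Hw (d.ze S e) (u + v) : ℝ) : ℂ) + Real.pi * I * (d.E u v : ℝ) =
      ((Real.pi / 2 * d.Hw (d.ze S e) u : ℝ) : ℂ) + me (d.ah e) (d.Xe S e u) (d.Xe S e v) := by
  have hE := d.E_eqP S hS e h u v
  have hu := d.Hw_eq S hS e h u
  have huv := d.Hw_eq S hS e h (u + v)
  have hB : (∑ p, (d.ah e p : ℂ) * (d.Xe S e u p * conj (d.Xe S e v p))).re =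
      ∑ p, d.ah e p * (d.Xe S e u p * conj (d.Xe S e v p)).re := by
    rw [Complex.re_sum]
    exact Finset.sum_congr rfl (fun p _ => by rw [Complex.re_ofReal_mul])
  have hre : Real.pi / 2 * d.Hw (d.ze S e) (u + v) = Real.pi / 2 * d.Hw (d.ze S e) u +
      ((∑ p, (d.ah e p : ℂ) * (d.Xe S e u p * conj (d.Xe S e v p))).re +
        ∑ p, d.ah e p * (‖d.Xe S e v p‖ ^ 2 / 2)) := by
    have e1 : Real.pi / 2 * d.Hw (d.ze S e) (u + v) = 1 / 2 * (Real.pi * d.Hw (d.ze S e) (u + v)) := by ring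
    have e2 : Real.pi / 2 * d.Hw (d.ze S e) u = 1 / 2 * (Real.pi * d.Hw (d.ze S e) u) := by ring
    rw [e1, e2, huv, hu, hB, d.Xe_add, Finset.mul_sum, Finset.mul_sum, ← Finset.sum_add_distrib,
      ← Finset.sum_add_distrib]
    refine Finset.sum_congr rfl (fun p _ => ?_)
    have e3 : ‖(d.Xe S e u + d.Xe S e v) p‖ ^ 2 = ‖d.Xe S e u p‖ ^ 2 + ‖d.Xe S e v p‖ ^ 2 +
        2 * (d.Xe S e u p * conj (d.Xe S e v p)).re := by
      rw [Pi.add_apply, ← Complex.normSq_eq_norm_sq, ← Complex.normSq_eq_norm_sq,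
        ← Complex.normSq_eq_norm_sq, Complex.normSq_add]
    rw [e3]
    ring
  have hme : me (d.ah e) (d.Xe S e u) (d.Xe S e v) =
      (∑ p, (d.ah e p : ℂ) * (d.Xe S e u p * conj (d.Xe S e v p))) +
        ((∑ p, d.ah e p * (‖d.Xe S e v p‖ ^ 2 / 2) : ℝ) : ℂ) := by
    unfold me
    push_cast
    rw [← Finset.sum_add_distrib]
    exact Finset.sum_congr rfl (fun p _ => by ring)
  have hc : Real.pi * I * ((d.E u v : ℝ) : ℂ) = ((Real.pi * d.E u v : ℝ) : ℂ) * I := by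
    push_cast
    ring
  rw [hme, hc, hE, hre]
  have hz := Complex.re_add_im (∑ p, (d.ah e p : ℂ) * (d.Xe S e u p * conj (d.Xe S e v p)))
  rw [Complex.ofReal_add, Complex.ofReal_add]
  linear_combination hz

private theorem PT_Xe_zero (S : Finset (Fin g)) (e : Fin 2 → K) : d.Xe S e 0 = 0 := by
  have h1 := d.Xe_add S e 0 0
  rw [add_zero] at h1
  exact left_eq_add.1 h1

private theorem PT_Hw_neg (S : Finset (Fin g)) (hS : S ⊆ d.R) (e : Fin 2 → K) (h : d.Ok S e) (u : Vs g) :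
    d.Hw (d.ze S e) (-u) = d.Hw (d.ze S e) u := by
  have h1 := d.Hw_eq S hS e h u
  have h2 := d.Hw_eq S hS e h (-u)
  have h3 : Real.pi * d.Hw (d.ze S e) (-u) = Real.pi * d.Hw (d.ze S e) u := by
    rw [h1, h2, d.Xe_neg]
    exact Finset.sum_congr rfl (fun p _ => by rw [Pi.neg_apply, norm_neg])
  exact mul_left_cancel₀ Real.pi_ne_zero h3

/-- PLAN: from the entire `G` of `IsT`: `T = G ∘ Am`; `L_eqP`. Quasi-periodicity: `z = X u` (`Xe_Ue`), `l ∈ Le e`,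
`v = kv (vk e l) = lat a b`, `X v = ex .. l` (`Xe_kv`), `P_exp`, `ch_lat`. -/
theorem isTh_of_isT (S : Finset (Fin g)) (hS : S ⊆ d.R) (e : Fin 2 → K) (h : d.Ok S e) (f : Vs g → ℂ)
    (hf : d.IsT (d.ze S e) f) : ∃ T : Vs g → ℂ,
      IsTh (d.ah e) (d.Le e) (d.ch e) (d.fl S) (d.fl (d.R \ S)) T ∧
      ∀ u, T (d.Xe S e u) = f u * cexp ((Real.pi / 2 * d.Hw (d.ze S e) u : ℝ)) := by
  obtain ⟨hq, G, hG, hfG⟩ := hf
  have hT : ∀ u, G (d.Am S e (d.Xe S e u)) = f u * cexp ((Real.pi / 2 * d.Hw (d.ze S e) u : ℝ)) := by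
    intro u
    rw [hfG u, d.L_eqP S hS e h u]
  refine ⟨fun z => G (d.Am S e z), ⟨hG.comp (d.Am_diff S e), ?_⟩, hT⟩
  rintro l ⟨a, b, hab⟩ z
  have hz : z = d.Xe S e (d.Ue S e z) := (d.Xe_Ue S hS e h z).symm
  generalize hu : d.Ue S e z = u at hz
  have hzl : z + ex (d.fl S) (d.fl (d.R \ S)) l = d.Xe S e (u + d.kv (d.vk e l)) := by
    rw [d.Xe_add, ← hz, d.Xe_kv S hS e h l]
  have hex : ex (d.fl S) (d.fl (d.R \ S)) l = d.Xe S e (d.kv (d.vk e l)) := (d.Xe_kv S hS e h l).symm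
  have hP := d.P_exp S hS e h u (d.kv (d.vk e l))
  show G (d.Am S e (z + ex (d.fl S) (d.fl (d.R \ S)) l)) =
    d.ch e l * cexp (me (d.ah e) z (ex (d.fl S) (d.fl (d.R \ S)) l)) * G (d.Am S e z)
  rw [hzl, hT, hex, hz, hT, d.ch_lat e l a b hab]
  have hq' := hq a b u
  rw [← hab] at hq'
  rw [hq']
  have hexp : cexp (Real.pi * I * (d.E u (d.kv (d.vk e l)) : ℝ)) *
      cexp ((Real.pi / 2 * d.Hw (d.ze S e) (u + d.kv (d.vk e l)) : ℝ)) =
      cexp (me (d.ah e) (d.Xe S e u) (d.Xe S e (d.kv (d.vk e l)))) *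
        cexp ((Real.pi / 2 * d.Hw (d.ze S e) u : ℝ)) := by
    rw [← Complex.exp_add, ← Complex.exp_add]
    congr 1
    linear_combination hP
  linear_combination ((-1 : ℂ) ^ (∑ p, a p * b p)) * f u * hexp

/-- PLAN: the converse: `f u = T (X u) exp (-π/2 H u)`, `G = T ∘ Bm`, `Bm_Am`; for `a, b` take `l = ck e y`,
`kv y = lat a b` (`P_lat_kv`), `vk_ck`. -/
theorem isT_of_isTh (S : Finset (Fin g)) (hS : S ⊆ d.R) (e : Fin 2 → K) (h : d.Ok S e) (T : Vs g → ℂ)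
    (hT : IsTh (d.ah e) (d.Le e) (d.ch e) (d.fl S) (d.fl (d.R \ S)) T) :
    d.IsT (d.ze S e) (fun u => T (d.Xe S e u) * cexp (-((Real.pi / 2 * d.Hw (d.ze S e) u : ℝ) : ℂ))) := by
  obtain ⟨hTd, hTq⟩ := hT
  refine ⟨?_, fun z => T (d.Bm S e z), hTd.comp (d.Bm_diff S e), ?_⟩
  · intro a b u
    obtain ⟨y, hy⟩ := d.P_lat_kv a b
    have hvk : d.vk e (d.ck e y) = y := d.vk_ck S hS e h y
    have hab : d.kv (d.vk e (d.ck e y)) = d.lat a b := by rw [hvk, hy]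
    have hl : d.ck e y ∈ d.Le e := ⟨a, b, hab⟩
    have h1 := hTq (d.ck e y) hl (d.Xe S e u)
    have hex : ex (d.fl S) (d.fl (d.R \ S)) (d.ck e y) = d.Xe S e (d.lat a b) := by
      rw [← hab]
      exact (d.Xe_kv S hS e h (d.ck e y)).symm
    rw [hex, ← d.Xe_add, d.ch_lat e (d.ck e y) a b hab] at h1
    have hP := d.P_exp S hS e h u (d.lat a b)
    show T (d.Xe S e (u + d.lat a b)) *
        cexp (-((Real.pi / 2 * d.Hw (d.ze S e) (u + d.lat a b) : ℝ) : ℂ)) =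
      (-1) ^ (∑ p, a p * b p) * cexp (Real.pi * I * (d.E u (d.lat a b) : ℝ)) *
        (T (d.Xe S e u) * cexp (-((Real.pi / 2 * d.Hw (d.ze S e) u : ℝ) : ℂ)))
    rw [h1]
    have hexp : cexp (me (d.ah e) (d.Xe S e u) (d.Xe S e (d.lat a b))) *
        cexp (-((Real.pi / 2 * d.Hw (d.ze S e) (u + d.lat a b) : ℝ) : ℂ)) =
        cexp (Real.pi * I * (d.E u (d.lat a b) : ℝ)) *
          cexp (-((Real.pi / 2 * d.Hw (d.ze S e) u : ℝ) : ℂ)) := by
      rw [← Complex.exp_add, ← Complex.exp_add]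
      congr 1
      linear_combination -hP
    linear_combination ((-1 : ℂ) ^ (∑ p, a p * b p)) * T (d.Xe S e u) * hexp
  · intro u
    show T (d.Xe S e u) * cexp (-((Real.pi / 2 * d.Hw (d.ze S e) u : ℝ) : ℂ)) *
      cexp ((Real.pi / 2 * d.Hw (d.ze S e) u : ℝ)) = T (d.Bm S e (d.L (d.ze S e) u))
    rw [d.L_eqP S hS e h u, d.Bm_Am S hS e h, mul_assoc, ← Complex.exp_add, neg_add_cancel,
      Complex.exp_zero, mul_one]

/-- PLAN: assembly; evenness by `Xe_neg`, `Hw (-u) = Hw u` (`Hw_eq`), surjectivity of `X`. -/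
theorem exists_T (S : Finset (Fin g)) (hS : S ⊆ d.R) (e : Fin 2 → K) (h : d.Ok S e)
    (hIs : d.IsT (d.ze S e) (d.tw (d.ze S e)))
    (hU : ∀ f, d.IsT (d.ze S e) f → ∃ c : ℂ, ∀ u, f u = c * d.tw (d.ze S e) u)
    (hev : ∀ u, d.tw (d.ze S e) (-u) = d.tw (d.ze S e) u) (h0 : d.tw (d.ze S e) 0 ≠ 0) :
    ∃ T : Vs g → ℂ, IsTh (d.ah e) (d.Le e) (d.ch e) (d.fl S) (d.fl (d.R \ S)) T ∧ (∀ z, T (-z) = T z) ∧
      T 0 ≠ 0 ∧
      (∀ f, IsTh (d.ah e) (d.Le e) (d.ch e) (d.fl S) (d.fl (d.R \ S)) f → ∃ c : ℂ, ∀ z, f z = c * T z) ∧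
      ∀ u, T (d.Xe S e u) = d.tw (d.ze S e) u * cexp ((Real.pi / 2 * d.Hw (d.ze S e) u : ℝ)) := by
  obtain ⟨T, hT, hTX⟩ := d.isTh_of_isT S hS e h _ hIs
  refine ⟨T, hT, ?_, ?_, ?_, hTX⟩
  · intro z
    have hz : z = d.Xe S e (d.Ue S e z) := (d.Xe_Ue S hS e h z).symm
    generalize d.Ue S e z = u at hz
    rw [hz, ← d.Xe_neg, hTX, hTX, hev, d.PT_Hw_neg S hS e h]
  · have h1 := hTX 0
    rw [d.PT_Xe_zero] at h1
    rw [h1]
    exact mul_ne_zero h0 (Complex.exp_ne_zero _)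
  · intro f hf
    obtain ⟨c, hc⟩ := hU _ (d.isT_of_isTh S hS e h f hf)
    refine ⟨c, fun z => ?_⟩
    have hz : z = d.Xe S e (d.Ue S e z) := (d.Xe_Ue S hS e h z).symm
    generalize d.Ue S e z = u at hz
    have h1 := hc u
    rw [hz, hTX]
    have h2 : f (d.Xe S e u) = f (d.Xe S e u) * cexp (-((Real.pi / 2 * d.Hw (d.ze S e) u : ℝ) : ℂ)) *
        cexp ((Real.pi / 2 * d.Hw (d.ze S e) u : ℝ)) := by
      rw [mul_assoc, ← Complex.exp_add, neg_add_cancel, Complex.exp_zero, mul_one]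
    rw [h2]
    have h3 : f (d.Xe S e u) * cexp (-((Real.pi / 2 * d.Hw (d.ze S e) u : ℝ) : ℂ)) =
      c * d.tw (d.ze S e) u := h1
    rw [h3]
    ring

end Dat

end Pool.Agent.RQ4
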