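import Pool.Agent.RQ4.PG

/-!
# Project RQ4, block P: the gradient determinant at a CM point
-/

set_option autoImplicit false

namespace Pool.Agent.RQ4

open Complex ComplexConjugate Finset

namespace Dat

variable {K : Type} [Field K] [NumberField K] {g : ℕ} (d : Dat K g)

private noncomputable def PWA (e : Fin 2 → K) (τ : Fin 2 → ℂ) : ℂ :=
  (τ 0 * conj (d.σ d.s (e 0)) + d.nu d.s * (τ 1 * conj (d.σ d.s (e 1)))) / d.σ d.s (d.h e e)

private noncomputable def PWB (e : Fin 2 → K) (τ : Fin 2 → ℂ) : ℂ :=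
  (τ 1 * d.σ d.s (e 0) - τ 0 * d.σ d.s (e 1)) / d.σ d.s (d.h e e)

private noncomputable def PWl (e : Fin 2 → K) : (Fin 2 → ℂ) →ₗ[ℂ] Vs g where
  toFun τ := d.PWA e τ • (Pi.single (d.s, 0) 1 : Vs g) + d.PWB e τ • (Pi.single (d.s, 1) 1 : Vs g)
  map_add' := by
    intro τ τ'
    ext p
    simp only [PWA, PWB, Pi.add_apply, Pi.smul_apply, smul_eq_mul]
    ring
  map_smul' := by
    intro m τ
    ext p
    simp only [PWA, PWB, Pi.add_apply, Pi.smul_apply, smul_eq_mul, RingHom.id_apply]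
    ring

private theorem PW_Xe (S : Finset (Fin g)) (hS : S ⊆ d.R) (e : Fin 2 → K) (τ : Fin 2 → ℂ) :
    d.Xe S e (d.ut τ) = d.PWl e τ := by
  ext ⟨i, al⟩
  show d.Xe S e (d.ut τ) (i, al) =
    d.PWA e τ * (Pi.single (d.s, 0) 1 : Vs g) (i, al) + d.PWB e τ * (Pi.single (d.s, 1) 1 : Vs g) (i, al)
  by_cases hi : i = d.s
  · subst hi
    have h1 : d.s ∉ S := fun h => d.hs (hS h)
    have h2 : d.s ∉ d.R \ S := fun h => d.hs (Finset.mem_sdiff.1 h).1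
    fin_cases al
    · simp [Xe, h1, ka, ut, PWA]
    · simp [Xe, h2, kb, ut, PWB]
  · have h3 : ∀ be : Fin 2, (Pi.single (d.s, be) 1 : Vs g) (i, al) = 0 := by
      intro be
      rw [Pi.single_apply, if_neg]
      intro h
      exact hi (Prod.ext_iff.1 h).1
    have h4 : d.ka e (d.ut τ) i = 0 := by simp [ka, ut, hi]
    have h5 : d.kb e (d.ut τ) i = 0 := by simp [kb, ut, hi]
    rw [h3, h3]
    simp [Xe, h4, h5]

private theorem PW_tr (a : Ix g → ℝ) (ρ : Vs g) (T : Vs g → ℂ) (hTd : Differentiable ℂ T) :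
    Differentiable ℂ (tr a ρ T) := by
  unfold tr
  have h1 : Differentiable ℂ (fun z : Vs g => me a z ρ) := by
    unfold me
    fun_prop
  exact (h1.neg.cexp).mul (hTd.comp (differentiable_id.add_const ρ))

private theorem PW_gd (S : Finset (Fin g)) (hS : S ⊆ d.R) (e : Fin 2 → K) (h : d.Ok S e) (T : Vs g → ℂ)
    (hTd : Differentiable ℂ T)
    (hT : ∀ u, T (d.Xe S e u) = d.tw (d.ze S e) u * cexp ((Real.pi / 2 * d.Hw (d.ze S e) u : ℝ)))
    (c : Fin 2 → K) (τ : Fin 2 → ℂ) :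
    d.gd (d.ze S e) (d.kv c) τ =
      d.PWA e τ * fderiv ℂ (tr (d.ah e) (ex (d.fl S) (d.fl (d.R \ S)) (d.ck e c)) T) 0 (Pi.single (d.s, 0) 1) +
      d.PWB e τ * fderiv ℂ (tr (d.ah e) (ex (d.fl S) (d.fl (d.R \ S)) (d.ck e c)) T) 0 (Pi.single (d.s, 1) 1) := by
  set F := tr (d.ah e) (ex (d.fl S) (d.fl (d.R \ S)) (d.ck e c)) T with hF
  have hFd : Differentiable ℂ F := PW_tr _ _ _ hTd
  set L : (Fin 2 → ℂ) →L[ℂ] Vs g := LinearMap.toContinuousLinearMap (d.PWl e) with hL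
  have h1 : d.gp (d.ze S e) (d.kv c) = F ∘ L := by
    funext τ
    rw [d.gp_eqP S hS e h T hT c τ, d.PW_Xe S hS e τ]
    rfl
  unfold gd D1
  rw [h1, fderiv_comp 0 (hFd _) L.differentiableAt, ContinuousLinearMap.fderiv, map_zero]
  have h2 : L τ = d.PWA e τ • (Pi.single (d.s, 0) 1 : Vs g) + d.PWB e τ • (Pi.single (d.s, 1) 1 : Vs g) := rfl
  rw [ContinuousLinearMap.comp_apply, h2, map_add, map_smul, map_smul, smul_eq_mul, smul_eq_mul]

/-- PLAN: `gp_eqP`, `Xe_ut`: `X (ut τ)` is a continuous linear function of `τ`, chain rule at `0`: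
`gd w P τ = A(τ) ∂_(s,0) T_ρ(0) + B(τ) ∂_(s,1) T_ρ(0)`, `A(ee 0) = conj e_0 / h`, `B(ee 0) = -e_1 / h`, `A(ee 1) = ν conj e_1 / h`,
`B(ee 1) = e_0 / h`; `A(ee 0) B(ee 1) - A(ee 1) B(ee 0) = 1 / h_s(e,e)` (`sig_he`, `he_eq`). -/
theorem Wr_eq (S : Finset (Fin g)) (hS : S ⊆ d.R) (e : Fin 2 → K) (h : d.Ok S e) (T : Vs g → ℂ)
    (hTd : Differentiable ℂ T)
    (hT : ∀ u, T (d.Xe S e u) = d.tw (d.ze S e) u * cexp ((Real.pi / 2 * d.Hw (d.ze S e) u : ℝ)))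
    (c c' : Fin 2 → K) :
    d.Wr c c' (d.ze S e) = (d.σ d.s (d.h e e))⁻¹ *
      (fderiv ℂ (tr (d.ah e) (ex (d.fl S) (d.fl (d.R \ S)) (d.ck e c)) T) 0 (Pi.single (d.s, 0) 1) *
        fderiv ℂ (tr (d.ah e) (ex (d.fl S) (d.fl (d.R \ S)) (d.ck e c')) T) 0 (Pi.single (d.s, 1) 1) -
       fderiv ℂ (tr (d.ah e) (ex (d.fl S) (d.fl (d.R \ S)) (d.ck e c)) T) 0 (Pi.single (d.s, 1) 1) *
        fderiv ℂ (tr (d.ah e) (ex (d.fl S) (d.fl (d.R \ S)) (d.ck e c')) T) 0 (Pi.single (d.s, 0) 1)) := by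
  have hh : d.σ d.s (d.h e e) ≠ 0 := by
    rw [d.sig_he]
    exact_mod_cast d.he_ne S hS e h d.s
  have hd : d.PWA e (ee 0) * d.PWB e (ee 1) - d.PWA e (ee 1) * d.PWB e (ee 0) = (d.σ d.s (d.h e e))⁻¹ := by
    have h1 : d.σ d.s (d.h e e) =
        d.σ d.s (e 0) * conj (d.σ d.s (e 0)) + d.nu d.s * (d.σ d.s (e 1) * conj (d.σ d.s (e 1))) := by
      unfold Dat.h
      simp only [map_add, map_mul, d.hbar, d.sig_nu]
    have h2 : d.PWA e (ee 0) * d.PWB e (ee 1) - d.PWA e (ee 1) * d.PWB e (ee 0) =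
        (d.σ d.s (e 0) * conj (d.σ d.s (e 0)) + d.nu d.s * (d.σ d.s (e 1) * conj (d.σ d.s (e 1)))) /
          (d.σ d.s (d.h e e) * d.σ d.s (d.h e e)) := by
      simp only [PWA, PWB, ee]
      simp
      field_simp
      ring
    rw [h2, ← h1]
    field_simp
  unfold Wr
  rw [d.PW_gd S hS e h T hTd hT, d.PW_gd S hS e h T hTd hT, d.PW_gd S hS e h T hTd hT,
    d.PW_gd S hS e h T hTd hT, ← hd]
  ring

end Dat

end Pool.Agent.RQ4
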