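import Pool.Agent.RQ4.SBox

/-!
# RQ4, block S (Siegel-Thimm), part 2: algebraic dependence of `N + 1` quotients of sections on the polydisc of dimension `N`

`thimm`: abstract form; `F k, G k` are two sections of the same weight for every `k`, every point of the polydisc is
equivalent to a point of the compact polydisc of radius `ρ0`.
-/

set_option autoImplicit false

namespace Pool.Agent.RQ4.ST

open Filter Metric
open scoped Topology

noncomputable section

variable {ι κ : Type} [Fintype ι] [DecidableEq ι] [Fintype κ] [DecidableEq κ]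

/-- the monomial of exponents `m k` in `F k` and `n - m k` in `G k` -/
def mon (F G : κ → (ι → ℂ) → ℂ) (n : ℕ) (m : κ → Fin (n + 1)) (w : ι → ℂ) : ℂ :=
  ∏ k, (F k w ^ (m k : ℕ) * G k w ^ (n - (m k : ℕ)))

omit [DecidableEq ι] [DecidableEq κ] in
theorem mon_diff {F G : κ → (ι → ℂ) → ℂ} {U : Set (ι → ℂ)}
    (hF : ∀ k, DifferentiableOn ℂ (F k) U) (hG : ∀ k, DifferentiableOn ℂ (G k) U) (n : ℕ)
    (m : κ → Fin (n + 1)) : DifferentiableOn ℂ (mon F G n m) U := by
  classical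
  have key : ∀ s : Finset κ, DifferentiableOn ℂ
      (fun w => ∏ k ∈ s, (F k w ^ (m k : ℕ) * G k w ^ (n - (m k : ℕ)))) U := by
    intro s
    induction s using Finset.induction_on with
    | empty => simp
    | insert a s ha ih =>
      simp only [Finset.prod_insert ha]
      exact (((hF a).pow _).mul ((hG a).pow _)).mul ih
  exact key Finset.univ

omit [DecidableEq ι] [DecidableEq κ] [Fintype ι] in
theorem mon_mul {F G : κ → (ι → ℂ) → ℂ} (n : ℕ) (m : κ → Fin (n + 1)) (w w' : ι → ℂ) (lam : κ → ℂ)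
    (h : ∀ k, F k w = lam k * F k w' ∧ G k w = lam k * G k w') :
    mon F G n m w = (∏ k, lam k ^ n) * mon F G n m w' := by
  unfold mon
  rw [← Finset.prod_mul_distrib]
  refine Finset.prod_congr rfl fun k _ => ?_
  rw [(h k).1, (h k).2]
  have h1 : (m k : ℕ) + (n - (m k : ℕ)) = n := Nat.add_sub_cancel' (Nat.lt_succ_iff.1 (m k).2)
  calc (lam k * F k w') ^ (m k : ℕ) * (lam k * G k w') ^ (n - (m k : ℕ)) =
        lam k ^ ((m k : ℕ) + (n - (m k : ℕ))) * (F k w' ^ (m k : ℕ) * G k w' ^ (n - (m k : ℕ))) := by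
          rw [pow_add, mul_pow, mul_pow]
          ring
    _ = _ := by rw [h1]

/-- SIEGEL-THIMM -/
theorem thimm (hκ : Fintype.card κ = Fintype.card ι + 1)
    (F G : κ → (ι → ℂ) → ℂ) (hF : ∀ k, DifferentiableOn ℂ (F k) (ball 0 1))
    (hG : ∀ k, DifferentiableOn ℂ (G k) (ball 0 1)) (Nn : κ → (ι → ℂ) → ℝ)
    (hN : ∀ ρ < 1, ∃ A > 0, ∃ B, ∀ w ∈ closedBall (0 : ι → ℂ) ρ, ∀ k, A ≤ Nn k w ∧ Nn k w ≤ B)
    (ρ0 : ℝ) (hρ0 : ρ0 < 1)
    (hcov : ∀ w ∈ ball (0 : ι → ℂ) 1, ∃ w' ∈ closedBall (0 : ι → ℂ) ρ0, ∃ lam : κ → ℂ,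
      ∀ k, F k w = lam k * F k w' ∧ G k w = lam k * G k w' ∧ Nn k w = ‖lam k‖ * Nn k w') :
    ∃ P : MvPolynomial κ ℂ, P ≠ 0 ∧ ∀ w ∈ ball (0 : ι → ℂ) 1, (∀ k, G k w ≠ 0) →
      MvPolynomial.eval (fun k => F k w / G k w) P = 0 := by
  classical
  -- radii
  have hρ00 : 0 ≤ ρ0 := by
    obtain ⟨w', hw', _⟩ := hcov 0 (mem_ball_self one_pos)
    exact (dist_nonneg).trans (mem_closedBall.1 hw')
  set ρ1 : ℝ := (1 + ρ0) / 2 with hρ1
  have h01 : ρ0 < ρ1 := by rw [hρ1]; linarith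
  have h11 : ρ1 < 1 := by rw [hρ1]; linarith
  set r : ℝ := (ρ1 - ρ0) / 4 with hr
  have hr0 : 0 < r := by rw [hr]; linarith
  have h4r : ρ0 + 4 * r = ρ1 := by rw [hr]; ring
  obtain ⟨A, hA, B, hAB⟩ := hN ρ1 h11
  have hz1 : (0 : ι → ℂ) ∈ closedBall (0 : ι → ℂ) ρ1 := mem_closedBall_self (by linarith)
  have hk : Nonempty κ := by
    rw [← Fintype.card_pos_iff, hκ]
    exact Nat.succ_pos _
  have hBA : A ≤ B := (hAB 0 hz1 hk.some).1.trans (hAB 0 hz1 hk.some).2
  have hB : 0 < B := hA.trans_le hBA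
  -- the cover
  obtain ⟨t, htK, htf, htc⟩ := (isCompact_closedBall (0 : ι → ℂ) ρ0).elim_finite_subcover_image
    (b := closedBall (0 : ι → ℂ) ρ0) (c := fun p => ball p r) (fun _ _ => isOpen_ball) (by
      intro x hx
      exact Set.mem_iUnion₂.2 ⟨x, hx, mem_ball_self hr0⟩)
  set q : ℕ := htf.toFinset.card with hq
  let p : htf.toFinset → (ι → ℂ) := fun x => (x : ι → ℂ)
  have hpK : ∀ i, p i ∈ closedBall (0 : ι → ℂ) ρ0 := fun i => htK (htf.mem_toFinset.1 i.2)
  have hball : ∀ i, ball (p i) (4 * r) ⊆ closedBall (0 : ι → ℂ) ρ1 := by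
    intro i x hx
    rw [mem_closedBall]
    calc dist x 0 ≤ dist x (p i) + dist (p i) 0 := dist_triangle _ _ _
      _ ≤ 4 * r + ρ0 := add_le_add (mem_ball.1 hx).le (mem_closedBall.1 (hpK i))
      _ = ρ1 := by rw [← h4r]; ring
  have hsub : closedBall (0 : ι → ℂ) ρ1 ⊆ ball (0 : ι → ℂ) 1 := closedBall_subset_ball h11
  have hsub0 : closedBall (0 : ι → ℂ) ρ0 ⊆ closedBall (0 : ι → ℂ) ρ1 := closedBall_subset_closedBall h01.le
  -- the orders
  obtain ⟨c, hc⟩ := pow_unbounded_of_one_lt ((B / A) ^ Fintype.card κ) (by norm_num : (1 : ℝ) < 4)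
  set N := Fintype.card ι with hNN
  set n : ℕ := q * c ^ N + 1 with hn
  have hn1 : 1 ≤ n := Nat.le_add_left 1 _
  set T : ℕ := c * n with hT
  have hcard : Fintype.card htf.toFinset * T ^ Fintype.card ι < Fintype.card (κ → Fin (n + 1)) := by
    rw [Fintype.card_coe, Fintype.card_fun, Fintype.card_fin, hκ, ← hNN, ← hq, hT, mul_pow, ← mul_assoc]
    calc q * c ^ N * n ^ N < (n + 1) * n ^ N := by
          refine Nat.mul_lt_mul_of_pos_right ?_ (pow_pos hn1 N)
          omega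
      _ ≤ (n + 1) * (n + 1) ^ N := Nat.mul_le_mul_left _ (Nat.pow_le_pow_left (Nat.le_succ n) N)
      _ = (n + 1) ^ (N + 1) := by ring
  obtain ⟨a, ha, hav⟩ := box (mon F G n) (U := ball (0 : ι → ℂ) 1) isOpen_ball p
    (fun i => hsub (hsub0 (hpK i))) (fun m => mon_diff hF hG n m) T hcard
  set H : (ι → ℂ) → ℂ := fun x => ∑ m, a m * mon F G n m x with hH
  have hHd : DifferentiableOn ℂ H (ball 0 1) := by
    rw [hH]
    refine DifferentiableOn.fun_sum fun m _ => (mon_diff hF hG n m).const_mul _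
  obtain ⟨z, hz, hzmax⟩ := (isCompact_closedBall (0 : ι → ℂ) ρ1).exists_isMaxOn ⟨0, hz1⟩
    ((hHd.mono hsub).continuousOn.norm)
  set S : ℝ := ‖H z‖ with hS
  have hSmax : ∀ x ∈ closedBall (0 : ι → ℂ) ρ1, ‖H x‖ ≤ S := fun x hx => hzmax hx
  have hS0 : 0 ≤ S := norm_nonneg _
  -- the equivalence
  have hHmul : ∀ w w' : ι → ℂ, ∀ lam : κ → ℂ, (∀ k, F k w = lam k * F k w' ∧ G k w = lam k * G k w') →
      H w = (∏ k, lam k ^ n) * H w' := by
    intro w w' lam h
    rw [hH]
    simp only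
    rw [Finset.mul_sum]
    refine Finset.sum_congr rfl fun m _ => ?_
    rw [mon_mul n m w w' lam h]
    ring
  -- bound on the small polydisc
  have hsmall : ∀ x ∈ closedBall (0 : ι → ℂ) ρ0, ‖H x‖ ≤ S * (1 / 4) ^ T := by
    intro x hx
    obtain ⟨p', hp', hxp⟩ := Set.mem_iUnion₂.1 (htc hx)
    have hp'' : p' ∈ htf.toFinset := htf.mem_toFinset.2 hp'
    have h1 := schwarz (F := H) (p := p') (R := 4 * r) (M := S) (by positivity)
      (hHd.mono ((hball ⟨p', hp''⟩).trans hsub)) (fun y hy => hSmax y (hball ⟨p', hp''⟩ hy)) T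
      (fun k hk y => hav ⟨p', hp''⟩ k hk y) x (ball_subset_ball (by linarith) hxp)
    refine h1.trans (mul_le_mul_of_nonneg_left (pow_le_pow_left₀ (by positivity) ?_ T) hS0)
    rw [div_le_iff₀ (by positivity), ← dist_eq_norm]
    have := (mem_ball.1 hxp).le
    linarith
  -- bound everywhere on the large polydisc
  have hlarge : S ≤ S * (1 / 4) ^ T * (B / A) ^ (Fintype.card κ * n) := by
    obtain ⟨w', hw', lam, hl⟩ := hcov z (hsub hz)
    have h1 := hHmul z w' lam (fun k => ⟨(hl k).1, (hl k).2.1⟩)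
    have h2 : ∀ k, ‖lam k‖ ≤ B / A := by
      intro k
      rw [le_div_iff₀ hA]
      calc ‖lam k‖ * A ≤ ‖lam k‖ * Nn k w' :=
            mul_le_mul_of_nonneg_left (hAB w' (hsub0 hw') k).1 (norm_nonneg _)
        _ = Nn k z := (hl k).2.2.symm
        _ ≤ B := (hAB z hz k).2
    have h3 : ‖∏ k, lam k ^ n‖ ≤ (B / A) ^ (Fintype.card κ * n) := by
      rw [norm_prod]
      calc ∏ k, ‖lam k ^ n‖ ≤ ∏ _k : κ, (B / A) ^ n := by
            refine Finset.prod_le_prod (fun _ _ => norm_nonneg _) fun k _ => ?_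
            rw [norm_pow]
            exact pow_le_pow_left₀ (norm_nonneg _) (h2 k) n
        _ = (B / A) ^ (Fintype.card κ * n) := by
            rw [Finset.prod_const, Finset.card_univ, ← pow_mul, mul_comm]
    calc S = ‖∏ k, lam k ^ n‖ * ‖H w'‖ := by rw [hS, h1, norm_mul]
      _ ≤ (B / A) ^ (Fintype.card κ * n) * (S * (1 / 4) ^ T) :=
          mul_le_mul h3 (hsmall w' hw') (norm_nonneg _) (by positivity)
      _ = S * (1 / 4) ^ T * (B / A) ^ (Fintype.card κ * n) := by ring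
  have hS00 : S = 0 := by
    by_contra hne
    have hSpos : 0 < S := lt_of_le_of_ne hS0 (Ne.symm hne)
    have h1 : (1 / 4 : ℝ) ^ T * (B / A) ^ (Fintype.card κ * n) < 1 := by
      rw [hT, pow_mul, pow_mul, ← mul_pow]
      refine pow_lt_one₀ (by positivity) ?_ (by omega)
      rw [one_div, inv_pow, inv_mul_lt_iff₀ (by positivity), mul_one]
      exact hc
    have h2 : S * ((1 / 4 : ℝ) ^ T * (B / A) ^ (Fintype.card κ * n)) < S * 1 :=
      mul_lt_mul_of_pos_left h1 hSpos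
    rw [mul_one, ← mul_assoc] at h2
    exact absurd hlarge (not_le.2 h2)
  have hH0 : ∀ w ∈ ball (0 : ι → ℂ) 1, H w = 0 := by
    intro w hw
    obtain ⟨w', hw', lam, hl⟩ := hcov w hw
    rw [hHmul w w' lam (fun k => ⟨(hl k).1, (hl k).2.1⟩)]
    have h1 := hSmax w' (hsub0 hw')
    rw [hS00] at h1
    rw [norm_le_zero_iff.1 h1, mul_zero]
  -- the polynomial
  let e : (κ → Fin (n + 1)) → (κ →₀ ℕ) := fun m => Finsupp.equivFunOnFinite.symm (fun k => (m k : ℕ))
  have he : Function.Injective e := by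
    intro m m' h
    have h1 := Finsupp.equivFunOnFinite.symm.injective h
    funext k
    exact Fin.ext (congrFun h1 k)
  refine ⟨∑ m, MvPolynomial.monomial (e m) (a m), ?_, ?_⟩
  · intro h0
    apply ha
    funext m
    have h1 := congrArg (MvPolynomial.coeff (e m)) h0
    rw [MvPolynomial.coeff_sum, Finset.sum_eq_single m] at h1
    · simpa using h1
    · intro m' _ hm'
      rw [MvPolynomial.coeff_monomial, if_neg fun hh => hm' (he hh)]
    · intro h
      exact absurd (Finset.mem_univ m) h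
  · intro w hw hGw
    have h1 : (∏ k, G k w ^ n) * MvPolynomial.eval (fun k => F k w / G k w)
        (∑ m, MvPolynomial.monomial (e m) (a m)) = H w := by
      rw [map_sum, Finset.mul_sum, hH]
      refine Finset.sum_congr rfl fun m _ => ?_
      rw [MvPolynomial.eval_monomial, Finsupp.prod_fintype _ _ (fun _ => pow_zero _), mul_left_comm,
        ← Finset.prod_mul_distrib]
      congr 1
      unfold mon
      refine Finset.prod_congr rfl fun k _ => ?_
      have h2 : (m k : ℕ) + (n - (m k : ℕ)) = n := Nat.add_sub_cancel' (Nat.lt_succ_iff.1 (m k).2)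
      have h3 : e m k = (m k : ℕ) := rfl
      have h4 : G k w ^ (m k : ℕ) ≠ 0 := pow_ne_zero _ (hGw k)
      have h5 : G k w ^ n = G k w ^ (m k : ℕ) * G k w ^ (n - (m k : ℕ)) := by
        rw [← pow_add, h2]
      rw [h3, div_pow, h5]
      field_simp
    rw [hH0 w hw] at h1
    rcases mul_eq_zero.1 h1 with h2 | h2
    · exact absurd h2 (Finset.prod_ne_zero_iff.2 fun k _ => pow_ne_zero _ (hGw k))
    · exact h2

end

end Pool.Agent.RQ4.ST
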