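import Mathlib

/-!
# RQ4, block S: functions differentiable on an open set of a finite dimensional complex space are smooth there

`osg_fderiv`: local version of `RHK.ent_fderiv` (Cauchy's formula on a small circle, differentiation under the integral).
-/

set_option autoImplicit false

namespace Pool.Agent.RQ4.ST

open Complex Finset

private lemma osg_line {X : Type} [NormedAddCommGroup X] [NormedSpace ℂ X] {U : Set X} (hU : IsOpen U)
    {Φ : X → ℂ} (h : DifferentiableOn ℂ Φ U) (v w : X) (s : ℂ) (hs : v + s • w ∈ U) :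
    HasDerivAt (fun t : ℂ => Φ (v + t • w)) (fderiv ℂ Φ (v + s • w) w) s := by
  have h1 : HasDerivAt (fun t : ℂ => v + t • w) w s := by
    simpa using ((hasDerivAt_id s).smul_const w).const_add v
  exact (h.differentiableAt (hU.mem_nhds hs)).hasFDerivAt.comp_hasDerivAt s h1

private lemma osg_bound {X : Type} [NormedAddCommGroup X] [NormedSpace ℂ X] {U : Set X} (hU : IsOpen U)
    {Φ : X → ℂ} (h : DifferentiableOn ℂ Φ U) (x : X) (δ M : ℝ) (hδ : 0 < δ)
    (hx : ∀ y, ‖y - x‖ ≤ δ → y ∈ U) (hM : ∀ y, ‖y - x‖ ≤ δ → ‖Φ y‖ ≤ M) :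
    ‖fderiv ℂ Φ x‖ ≤ M / δ := by
  have hM0 : 0 ≤ M := (norm_nonneg _).trans (hM x (by simpa using hδ.le))
  refine ContinuousLinearMap.opNorm_le_bound _ (by positivity) (fun u => ?_)
  by_cases hu : u = 0
  · simp [hu]
  have hu' : 0 < ‖u‖ := norm_pos_iff.2 hu
  have h1 := osg_line hU h x u 0 (by rw [zero_smul, add_zero]; exact hx x (by simpa using hδ.le))
  rw [zero_smul, add_zero] at h1
  have hin : ∀ t : ℂ, ‖t‖ ≤ δ / ‖u‖ → ‖(x + t • u) - x‖ ≤ δ := by
    intro t ht
    rw [add_sub_cancel_left, norm_smul]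
    calc ‖t‖ * ‖u‖ ≤ δ / ‖u‖ * ‖u‖ := mul_le_mul_of_nonneg_right ht hu'.le
      _ = δ := div_mul_cancel₀ _ hu'.ne'
  have h2 : DiffContOnCl ℂ (fun t : ℂ => Φ (x + t • u)) (Metric.ball 0 (δ / ‖u‖)) := by
    refine DifferentiableOn.diffContOnCl (fun t ht => ?_)
    rw [closure_ball _ (by positivity : δ / ‖u‖ ≠ 0), mem_closedBall_zero_iff] at ht
    exact (osg_line hU h x u t (hx _ (hin t ht))).differentiableAt.differentiableWithinAt
  have h3 := Complex.norm_deriv_le_of_forall_mem_sphere_norm_le (c := 0) (R := δ / ‖u‖) (C := M)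
    (by positivity) h2 (fun z hz => hM _ (by
      rw [mem_sphere_iff_norm, sub_zero] at hz
      exact hin z hz.le))
  rw [h1.deriv] at h3
  calc ‖fderiv ℂ Φ x u‖ ≤ M / (δ / ‖u‖) := h3
    _ = M / δ * ‖u‖ := by field_simp

private theorem osg_fderiv_small {X : Type} [NormedAddCommGroup X] [NormedSpace ℂ X] [FiniteDimensional ℂ X]
    {U : Set X} (hU : IsOpen U) {Φ : X → ℂ} (h : DifferentiableOn ℂ Φ U) (x₀ : X) (δ : ℝ) (hδ : 0 < δ)
    (hB : Metric.closedBall x₀ (3 * δ) ⊆ U) (w : X) (hw : ‖w‖ = δ) :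
    DifferentiableAt ℂ (fun v => fderiv ℂ Φ v w) x₀ := by
  haveI : ProperSpace X := FiniteDimensional.proper ℂ X
  haveI : ProperSpace (X →L[ℂ] ℂ) := FiniteDimensional.proper ℂ (X →L[ℂ] ℂ)
  letI : MeasurableSpace X := borel X
  haveI : BorelSpace X := ⟨rfl⟩
  set c : ℝ → ℂ := fun θ => deriv (circleMap 0 1) θ * (1 / (circleMap 0 1 θ - 0) ^ 2) with hc
  have hcm : ∀ θ, ‖circleMap 0 1 θ‖ = 1 := fun θ => by simp
  have hcn : ∀ θ, ‖c θ‖ = 1 := fun θ => by
    rw [hc]; simp
  have hne : ∀ θ, circleMap 0 1 θ ≠ 0 := fun θ h0 => by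
    have := hcm θ
    rw [h0] at this
    simp at this
  have hcc : Continuous c := by
    rw [hc]
    have e : (fun θ => deriv (circleMap 0 1) θ * (1 / (circleMap 0 1 θ - 0) ^ 2)) =
        fun θ : ℝ => (circleMap 0 1 θ * I) * (1 / (circleMap 0 1 θ - 0) ^ 2) := by
      funext θ; rw [deriv_circleMap]
    rw [e]
    have h1 : Continuous (circleMap 0 1) := continuous_circleMap 0 1
    refine (h1.mul continuous_const).mul (continuous_const.div ((h1.sub continuous_const).pow 2) ?_)
    intro θ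
    rw [sub_zero]
    exact pow_ne_zero _ (hne θ)
  -- points `v + t w`, `|t| ≤ 1`, `v` near `x₀`
  have hin : ∀ v ∈ Metric.ball x₀ δ, ∀ t : ℂ, ‖t‖ ≤ 1 → v + t • w ∈ Metric.closedBall x₀ (2 * δ) := by
    intro v hv t ht
    rw [Metric.mem_closedBall, dist_eq_norm]
    rw [Metric.mem_ball, dist_eq_norm] at hv
    calc ‖v + t • w - x₀‖ = ‖(v - x₀) + t • w‖ := by congr 1; abel
      _ ≤ ‖v - x₀‖ + ‖t • w‖ := norm_add_le _ _
      _ ≤ δ + 1 * δ := by
          rw [norm_smul, hw]
          exact add_le_add hv.le (mul_le_mul_of_nonneg_right ht hδ.le)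
      _ = 2 * δ := by ring
  have hsub : Metric.closedBall x₀ (2 * δ) ⊆ U :=
    (Metric.closedBall_subset_closedBall (by linarith)).trans hB
  have hint : ∀ v ∈ Metric.ball x₀ δ, fderiv ℂ Φ v w = (2 * Real.pi * I)⁻¹ *
      ∫ θ in (0 : ℝ)..2 * Real.pi, c θ * Φ (v + circleMap 0 1 θ • w) := by
    intro v hv
    have h2 : DifferentiableOn ℂ (fun t : ℂ => Φ (v + t • w)) (Metric.closedBall 0 1) := fun s hs =>
      (osg_line hU h v w s (hsub (hin v hv s (by simpa using hs)))).differentiableAt.differentiableWithinAt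
    have h3 := h2.deriv_eq_smul_circleIntegral (c := 0) (R := 1) one_pos
    have h4 := (osg_line hU h v w 0 (hsub (hin v hv 0 (by simp)))).deriv
    rw [zero_smul, add_zero] at h4
    rw [h4, smul_eq_mul] at h3
    have h5 : (∮ z in C(0, 1), (1 / (z - 0) ^ 2) • Φ (v + z • w)) =
        ∫ θ in (0 : ℝ)..2 * Real.pi, c θ * Φ (v + circleMap 0 1 θ • w) := by
      rw [circleIntegral]
      refine intervalIntegral.integral_congr (fun θ _ => ?_)
      simp only [smul_eq_mul, hc]
      ring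
    rw [h5] at h3
    rw [h3, inv_mul_cancel_left₀]
    exact Complex.two_pi_I_ne_zero
  have hev : (fun v => fderiv ℂ Φ v w) =ᶠ[nhds x₀] fun v => (2 * Real.pi * I)⁻¹ *
      ∫ θ in (0 : ℝ)..2 * Real.pi, c θ * Φ (v + circleMap 0 1 θ • w) := by
    filter_upwards [Metric.ball_mem_nhds x₀ hδ] with v hv
    exact hint v hv
  refine DifferentiableAt.congr_of_eventuallyEq ?_ hev
  refine DifferentiableAt.const_mul ?_ _
  obtain ⟨M, hM⟩ := (isCompact_closedBall x₀ (3 * δ)).exists_bound_of_continuousOn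
    (f := Φ) (h.continuousOn.mono hB)
  have hcs : Continuous (fun θ : ℝ => circleMap 0 1 θ • w) :=
    (continuous_circleMap 0 1).smul continuous_const
  have hcont : ∀ v ∈ Metric.ball x₀ δ, Continuous (fun θ : ℝ => c θ * Φ (v + circleMap 0 1 θ • w)) := by
    intro v hv
    refine hcc.mul (h.continuousOn.comp_continuous (continuous_const.add hcs) fun θ => ?_)
    exact hsub (hin v hv _ (hcm θ).le)
  have key := intervalIntegral.hasFDerivAt_integral_of_dominated_of_fderiv_le (𝕜 := ℂ)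
    (μ := MeasureTheory.volume) (a := 0) (b := 2 * Real.pi)
    (F := fun (x : X) (θ : ℝ) => c θ * Φ (x + circleMap 0 1 θ • w))
    (F' := fun (x : X) (θ : ℝ) => c θ • fderiv ℂ Φ (x + circleMap 0 1 θ • w))
    (x₀ := x₀) (s := Metric.ball x₀ δ) (bound := fun _ => M / δ) (Metric.ball_mem_nhds x₀ hδ)
    ?_ ?_ ?_ ?_ ?_ ?_
  · exact key.differentiableAt
  · filter_upwards [Metric.ball_mem_nhds x₀ hδ] with x hx
    exact (hcont x hx).aestronglyMeasurable
  · exact (hcont x₀ (Metric.mem_ball_self hδ)).intervalIntegrable _ _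
  · refine Measurable.aestronglyMeasurable ?_
    refine hcc.measurable.smul ?_
    exact (measurable_fderiv ℂ Φ).comp (continuous_const.add hcs).measurable
  · refine Filter.Eventually.of_forall (fun θ _ x hx => ?_)
    rw [norm_smul, hcn, one_mul]
    have h6 := hin x hx (circleMap 0 1 θ) (hcm θ).le
    rw [Metric.mem_closedBall, dist_eq_norm] at h6
    have h7 : ∀ y, ‖y - (x + circleMap 0 1 θ • w)‖ ≤ δ → y ∈ Metric.closedBall x₀ (3 * δ) := by
      intro y hy
      rw [Metric.mem_closedBall, dist_eq_norm]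
      calc ‖y - x₀‖ = ‖(y - (x + circleMap 0 1 θ • w)) + (x + circleMap 0 1 θ • w - x₀)‖ := by
            congr 1; abel
        _ ≤ ‖y - (x + circleMap 0 1 θ • w)‖ + ‖x + circleMap 0 1 θ • w - x₀‖ := norm_add_le _ _
        _ ≤ δ + 2 * δ := add_le_add hy h6
        _ = 3 * δ := by ring
    exact osg_bound hU h _ δ M hδ (fun y hy => hB (h7 y hy)) (fun y hy => hM y (h7 y hy))
  · exact intervalIntegrable_const
  · refine Filter.Eventually.of_forall (fun θ _ x hx => ?_)
    have h1 : HasFDerivAt (fun x : X => x + circleMap 0 1 θ • w) (ContinuousLinearMap.id ℂ X) x :=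
      (hasFDerivAt_id x).add_const _
    have h2 := (h.differentiableAt (hU.mem_nhds (hsub (hin x hx _ (hcm θ).le)))).hasFDerivAt.comp x h1
    rw [ContinuousLinearMap.comp_id] at h2
    exact h2.const_mul (c θ)

/-- directional derivatives of a function differentiable on an open set are differentiable there -/
theorem osg_fderiv {X : Type} [NormedAddCommGroup X] [NormedSpace ℂ X] [FiniteDimensional ℂ X]
    {U : Set X} (hU : IsOpen U) {Φ : X → ℂ} (h : DifferentiableOn ℂ Φ U) (w : X) :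
    DifferentiableOn ℂ (fun v => fderiv ℂ Φ v w) U := by
  intro x₀ hx₀
  refine DifferentiableAt.differentiableWithinAt ?_
  by_cases hw : w = 0
  · simp [hw]
  obtain ⟨ε, hε, hεU⟩ := Metric.nhds_basis_closedBall.mem_iff.1 (hU.mem_nhds hx₀)
  have hw' : 0 < ‖w‖ := norm_pos_iff.2 hw
  set δ : ℝ := ε / 3 with hδ
  have hδ0 : 0 < δ := by positivity
  have h1 := osg_fderiv_small hU h x₀ δ hδ0 (by rw [hδ, mul_div_cancel₀ _ (by norm_num)]; exact hεU)
    (((δ / ‖w‖ : ℝ) : ℂ) • w) (by
      rw [norm_smul, Complex.norm_real, Real.norm_of_nonneg (by positivity), div_mul_cancel₀ _ hw'.ne'])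
  have h2 : (fun v => fderiv ℂ Φ v w) = fun v => ((‖w‖ / δ : ℝ) : ℂ) * fderiv ℂ Φ v (((δ / ‖w‖ : ℝ) : ℂ) • w) := by
    funext v
    rw [map_smul, smul_eq_mul, ← mul_assoc, ← Complex.ofReal_mul]
    have : ‖w‖ / δ * (δ / ‖w‖) = 1 := by field_simp
    rw [this, Complex.ofReal_one, one_mul]
  rw [h2]
  exact h1.const_mul _

/-- functions differentiable on an open set are smooth there -/
theorem osg_contDiffOn {X : Type} [NormedAddCommGroup X] [NormedSpace ℂ X] [FiniteDimensional ℂ X]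
    {U : Set X} (hU : IsOpen U) {Φ : X → ℂ} (h : DifferentiableOn ℂ Φ U) (n : ℕ) :
    ContDiffOn ℂ n Φ U := by
  induction n generalizing Φ with
  | zero =>
    rw [Nat.cast_zero]
    exact contDiffOn_zero.2 h.continuousOn
  | succ n ih =>
    rw [Nat.cast_add, Nat.cast_one, contDiffOn_succ_iff_fderiv_of_isOpen hU]
    refine ⟨h, fun hn => absurd hn (by simp), ?_⟩
    exact contDiffOn_clm_apply.2 fun w => ih (osg_fderiv hU h w)

end Pool.Agent.RQ4.ST
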