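import Pool.Agent.RQ4.UZ

/-!
# RQ4, UAct: the action of the group on `V`, on the complex structures and on the forms

Notation at a moving place `i`: `a = σ_i x`, `b = r_i σ_i y`, `|a|² - |b|² = 1` (from `G1`, `ν_i = -r_i²`),
`ξ' = a ξ + conj b η`, `η' = b ξ + conj a η`, `w' = (conj b + conj a w)/(a + b w) = wg w x y i`,
`j = a + b w`. Then `ξ' + w η' = j (ξ + w' η)`, `conj η' + w conj ξ' = j (conj η + w' conj ξ)`,
`|j|² (1 - |w'|²) = 1 - |w|²`. At the other places the matrix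
`(a, -conj b; b, conj a)`, `b = r_i σ_i y`, is unitary for the coordinates `L(i,0) = u(i,0)`, `L(i,1) = r_i u(i,1)`.
-/

set_option autoImplicit false

namespace Pool.Agent.RQ4

open Complex ComplexConjugate Finset

namespace Dat

variable {K : Type} [Field K] [NumberField K] {g : ℕ} (d : Dat K g)

/-- `L_w ∘ γ = Mg ∘ L_(wγ)` -/
noncomputable def Mg (x y : K) (w : d.R → ℂ) (l : Vs g) : Vs g := fun p =>
  if p.1 ∈ d.R then d.jf x y w p.1 * l p
  else if p.2 = 0 then d.σ p.1 x * l (p.1, 0) - d.r p.1 * conj (d.σ p.1 y) * l (p.1, 1)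
  else d.r p.1 * d.σ p.1 y * l (p.1, 0) + conj (d.σ p.1 x) * l (p.1, 1)

/-- the action at the place `s` -/
noncomputable def gs (x y : K) (τ : Fin 2 → ℂ) : Fin 2 → ℂ :=
  ![d.σ d.s x * τ 0 - d.nu d.s * conj (d.σ d.s y) * τ 1, d.σ d.s y * τ 0 + conj (d.σ d.s x) * τ 1]

private theorem uact_nu (i : Fin g) : d.σ i d.ν = (d.nu i : ℂ) := by
  have h1 : conj (d.σ i d.ν) = d.σ i d.ν := by rw [← d.hbar, d.bν]
  exact (Complex.conj_eq_iff_re.1 h1).symm

private theorem uact_G {x y : K} (h : d.G1 x y) (i : Fin g) :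
    d.σ i x * conj (d.σ i x) + (d.nu i : ℂ) * (d.σ i y * conj (d.σ i y)) = 1 := by
  have h1 := congrArg (d.σ i) h
  rw [map_add, map_mul, map_mul, map_mul, map_one, d.hbar, d.hbar, uact_nu] at h1
  exact h1

private theorem uact_R {i : Fin g} (hi : i ∈ d.R) : ((d.r i : ℝ) : ℂ) ^ 2 = -(d.nu i : ℂ) := by
  have h1 : d.nu i < 0 := d.nR i hi
  have h2 : d.r i ^ 2 = -d.nu i := by
    unfold r
    rw [Real.sq_sqrt (abs_nonneg _), abs_of_neg h1]
  exact_mod_cast congrArg (fun t : ℝ => (t : ℂ)) h2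

private theorem uact_N {i : Fin g} (hi : i ∉ d.R) : ((d.r i : ℝ) : ℂ) ^ 2 = (d.nu i : ℂ) := by
  have h1 : 0 < d.nu i := d.nN i hi
  have h2 : d.r i ^ 2 = d.nu i := by
    unfold r
    rw [Real.sq_sqrt (abs_nonneg _), abs_of_pos h1]
  exact_mod_cast congrArg (fun t : ℝ => (t : ℂ)) h2

private theorem uact_bar (x : K) : d.bar (d.bar x) = x := by
  apply (d.σ d.s).injective
  rw [d.hbar, d.hbar, Complex.conj_conj]

private theorem uact_wx {w : d.R → ℂ} {i : Fin g} (hi : i ∈ d.R) : d.wx w i = w ⟨i, hi⟩ := by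
  unfold wx
  rw [dif_pos hi]

private theorem uact_wx' {w : d.R → ℂ} {i : Fin g} (hi : i ∉ d.R) : d.wx w i = 0 := by
  unfold wx
  rw [dif_neg hi]

theorem G1_sig {x y : K} (h : d.G1 x y) (i : Fin g) :
    ‖d.σ i x‖ ^ 2 + d.nu i * ‖d.σ i y‖ ^ 2 = 1 := by
  have h1 := uact_G d h i
  rw [Complex.mul_conj, Complex.mul_conj, Complex.normSq_eq_norm_sq, Complex.normSq_eq_norm_sq]
    at h1
  exact_mod_cast h1

theorem G1_inv {x y : K} (h : d.G1 x y) : d.G1 (d.bar x) (-y) := by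
  unfold G1 at h ⊢
  rw [uact_bar, map_neg, ← h]
  ring

/-- `|j|² - |conj b + conj a w|² = 1 - |w|²` -/
private theorem uact_normId {x y : K} (h : d.G1 x y) (w : d.R → ℂ) (i : d.R) :
    ‖d.jf x y w i‖ ^ 2 - ‖(d.r i : ℂ) * conj (d.σ i y) + conj (d.σ i x) * w i‖ ^ 2 =
      1 - ‖w i‖ ^ 2 := by
  have h1 := uact_G d h i
  have h2 := uact_R d i.2
  have h3 : ∀ z : ℂ, ((‖z‖ ^ 2 : ℝ) : ℂ) = z * conj z := by
    intro z
    rw [Complex.mul_conj, Complex.normSq_eq_norm_sq]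
  have h4 : (((‖d.jf x y w i‖ ^ 2 - ‖(d.r i : ℂ) * conj (d.σ i y) + conj (d.σ i x) * w i‖ ^ 2 :
      ℝ)) : ℂ) = ((1 - ‖w i‖ ^ 2 : ℝ) : ℂ) := by
    rw [Complex.ofReal_sub, Complex.ofReal_sub, h3, h3, h3, Complex.ofReal_one]
    unfold jf
    rw [uact_wx d i.2]
    simp only [map_add, map_mul, Complex.conj_ofReal, Complex.conj_conj]
    linear_combination (1 - w i * conj (w i)) * h1 -
      (1 - w i * conj (w i)) * (d.σ i y * conj (d.σ i y)) * h2
  exact_mod_cast h4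

theorem jf_ne {x y : K} (h : d.G1 x y) {w : d.R → ℂ} (hw : w ∈ d.Di) (i : d.R) :
    d.jf x y w i ≠ 0 := by
  intro h0
  have h1 := uact_normId d h w i
  rw [h0] at h1
  have h2 := hw i
  have h3 : 0 ≤ ‖w i‖ := norm_nonneg _
  have h4 : 0 ≤ ‖(d.r i : ℂ) * conj (d.σ i y) + conj (d.σ i x) * w i‖ ^ 2 := sq_nonneg _
  rw [norm_zero] at h1
  nlinarith

private theorem uact_jw {x y : K} (h : d.G1 x y) {w : d.R → ℂ} (hw : w ∈ d.Di) (i : d.R) :
    d.jf x y w i * d.wg w x y i = (d.r i : ℂ) * conj (d.σ i y) + conj (d.σ i x) * w i := by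
  have h0 := jf_ne d h hw i
  have h1 : d.jf x y w i = d.σ i x + d.r i * d.σ i y * w i := by
    unfold jf
    rw [uact_wx d i.2]
  unfold wg
  rw [← h1]
  exact mul_div_cancel₀ _ h0

theorem jf_norm {x y : K} (h : d.G1 x y) {w : d.R → ℂ} (hw : w ∈ d.Di) (i : d.R) :
    ‖d.jf x y w i‖ ^ 2 * (1 - ‖d.wg w x y i‖ ^ 2) = 1 - ‖w i‖ ^ 2 := by
  have h0 := jf_ne d h hw i
  have h1 := uact_normId d h w i
  have h2 : ‖d.jf x y w i‖ ^ 2 * ‖d.wg w x y i‖ ^ 2 =
      ‖(d.r i : ℂ) * conj (d.σ i y) + conj (d.σ i x) * w i‖ ^ 2 := by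
    rw [← mul_pow, ← norm_mul, uact_jw d h hw i]
  rw [mul_sub, mul_one, h2, h1]

theorem wg_mem {x y : K} (h : d.G1 x y) {w : d.R → ℂ} (hw : w ∈ d.Di) : d.wg w x y ∈ d.Di := by
  intro i
  have h1 := jf_norm d h hw i
  have h2 := jf_ne d h hw i
  have h3 := hw i
  have h4 : 0 < ‖d.jf x y w i‖ ^ 2 := by positivity
  have h5 : 0 ≤ ‖w i‖ := norm_nonneg _
  have h6 : 0 ≤ ‖d.wg w x y i‖ := norm_nonneg _
  by_contra hc
  have h7 : 1 ≤ ‖d.wg w x y i‖ := not_lt.1 hc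
  have h8 : 0 < 1 - ‖w i‖ ^ 2 := by nlinarith
  have h9 : 1 - ‖d.wg w x y i‖ ^ 2 ≤ 0 := by nlinarith
  have h10 := mul_nonpos_of_nonneg_of_nonpos h4.le h9
  linarith

theorem L_act {x y : K} (h : d.G1 x y) {w : d.R → ℂ} (hw : w ∈ d.Di) (u : Vs g) :
    d.L w (d.gv x y u) = d.Mg x y w (d.L (d.wg w x y) u) := by
  funext p
  obtain ⟨i, al⟩ := p
  by_cases hi : i ∈ d.R
  · have h1 := uact_jw d h hw ⟨i, hi⟩
    have h2 := uact_R d hi
    have e1 : d.wx w i = w ⟨i, hi⟩ := uact_wx d hi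
    have e2 : d.wx (d.wg w x y) i = d.wg w x y ⟨i, hi⟩ := uact_wx d hi
    have e3 : d.jf x y w i = d.σ i x + d.r i * d.σ i y * w ⟨i, hi⟩ := by
      unfold jf
      rw [e1]
    fin_cases al
    · show d.gv x y u (i, 0) + d.wx w i * (d.r i * d.gv x y u (i, 1)) =
        d.Mg x y w (d.L (d.wg w x y) u) (i, 0)
      have h3 : d.Mg x y w (d.L (d.wg w x y) u) (i, 0) =
          d.jf x y w i * (u (i, 0) + d.wx (d.wg w x y) i * (d.r i * u (i, 1))) := by
        unfold Mg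
        rw [if_pos hi]
        rfl
      rw [h3, e1, e2]
      show d.σ i x * u (i, 0) - d.nu i * conj (d.σ i y) * u (i, 1) + w ⟨i, hi⟩ * (d.r i *
        (d.σ i y * u (i, 0) + conj (d.σ i x) * u (i, 1))) = _
      simp only [] at h1
      linear_combination (-(d.r i : ℂ) * u (i, 1)) * h1 - u (i, 0) * e3 -
        (conj (d.σ i y) * u (i, 1)) * h2
    · have h3 : d.Mg x y w (d.L (d.wg w x y) u) (i, 1) =
          d.jf x y w i * (conj (d.r i * u (i, 1)) + d.wx (d.wg w x y) i * conj (u (i, 0))) := by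
        unfold Mg
        rw [if_pos hi]
        unfold L
        simp [hi]
      have h4 : d.L w (d.gv x y u) (i, 1) = conj (d.r i * (d.σ i y * u (i, 0) +
          conj (d.σ i x) * u (i, 1))) + d.wx w i * conj (d.σ i x * u (i, 0) -
            d.nu i * conj (d.σ i y) * u (i, 1)) := by
        unfold L gv
        simp [hi]
      show d.L w (d.gv x y u) (i, 1) = d.Mg x y w (d.L (d.wg w x y) u) (i, 1)
      rw [h3, h4, e1, e2]
      simp only [map_add, map_sub, map_mul, Complex.conj_ofReal, Complex.conj_conj]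
      linear_combination (-conj (u (i, 0))) * h1 - ((d.r i : ℂ) * conj (u (i, 1))) * e3 -
        (w ⟨i, hi⟩ * d.σ i y * conj (u (i, 1))) * h2
  · have h2 := uact_N d hi
    have e1 : d.wx w i = 0 := uact_wx' d hi
    have e2 : d.wx (d.wg w x y) i = 0 := uact_wx' d hi
    fin_cases al
    · show d.L w (d.gv x y u) (i, 0) = d.Mg x y w (d.L (d.wg w x y) u) (i, 0)
      have h3 : d.L w (d.gv x y u) (i, 0) =
          d.σ i x * u (i, 0) - d.nu i * conj (d.σ i y) * u (i, 1) := by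
        unfold L gv
        simp [e1]
      have h4 : d.Mg x y w (d.L (d.wg w x y) u) (i, 0) =
          d.σ i x * u (i, 0) - d.r i * conj (d.σ i y) * (d.r i * u (i, 1)) := by
        unfold Mg L
        simp [hi, e2]
      rw [h3, h4]
      linear_combination (conj (d.σ i y) * u (i, 1)) * h2
    · show d.L w (d.gv x y u) (i, 1) = d.Mg x y w (d.L (d.wg w x y) u) (i, 1)
      have h3 : d.L w (d.gv x y u) (i, 1) =
          d.r i * (d.σ i y * u (i, 0) + conj (d.σ i x) * u (i, 1)) := by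
        unfold L gv
        simp [hi]
      have h4 : d.Mg x y w (d.L (d.wg w x y) u) (i, 1) =
          d.r i * d.σ i y * u (i, 0) + conj (d.σ i x) * (d.r i * u (i, 1)) := by
        unfold Mg L
        simp [hi, e2]
      rw [h3, h4]
      ring

theorem Mg_diff (x y : K) (w : d.R → ℂ) : Differentiable ℂ (d.Mg x y w) := by
  rw [differentiable_pi]
  intro p
  unfold Mg
  by_cases h1 : p.1 ∈ d.R
  · simp only [if_pos h1]
    fun_prop
  · simp only [if_neg h1]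
    by_cases h2 : p.2 = 0
    · simp only [if_pos h2]
      fun_prop
    · simp only [if_neg h2]
      fun_prop

private theorem uact_HiL {w : d.R → ℂ} {i : Fin g} (hi : i ∈ d.R) (u : Vs g) :
    d.Hi w i u = (‖d.L w u (i, 0)‖ ^ 2 + ‖d.L w u (i, 1)‖ ^ 2) / (1 - ‖d.wx w i‖ ^ 2) := by
  have h1 : ‖d.r i * u (i, 1) + conj (d.wx w i) * u (i, 0)‖ = ‖d.L w u (i, 1)‖ := by
    rw [← Complex.norm_conj]
    congr 1
    unfold L
    simp [hi]
  unfold Hi
  rw [h1]
  rfl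

theorem Hi_act {x y : K} (h : d.G1 x y) {w : d.R → ℂ} (hw : w ∈ d.Di) (i : Fin g) (u : Vs g) :
    d.Hi w i (d.gv x y u) = d.Hi (d.wg w x y) i u := by
  by_cases hi : i ∈ d.R
  · have h1 := L_act d h hw u
    have e1 : d.wx w i = w ⟨i, hi⟩ := uact_wx d hi
    have e2 : d.wx (d.wg w x y) i = d.wg w x y ⟨i, hi⟩ := uact_wx d hi
    have hj : d.jf x y w i ≠ 0 := jf_ne d h hw ⟨i, hi⟩
    have hn : ‖d.jf x y w i‖ ^ 2 * (1 - ‖d.wg w x y ⟨i, hi⟩‖ ^ 2) = 1 - ‖w ⟨i, hi⟩‖ ^ 2 :=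
      jf_norm d h hw ⟨i, hi⟩
    have k0 : d.L w (d.gv x y u) (i, 0) = d.jf x y w i * d.L (d.wg w x y) u (i, 0) := by
      rw [h1]
      unfold Mg
      rw [if_pos hi]
    have k1 : d.L w (d.gv x y u) (i, 1) = d.jf x y w i * d.L (d.wg w x y) u (i, 1) := by
      rw [h1]
      unfold Mg
      rw [if_pos hi]
    rw [uact_HiL d hi, uact_HiL d hi, k0, k1, e1, e2, norm_mul, norm_mul, ← hn]
    have h3 : ‖d.jf x y w i‖ ^ 2 ≠ 0 := pow_ne_zero 2 (norm_ne_zero_iff.2 hj)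
    rw [mul_pow, mul_pow, ← mul_add, mul_div_mul_left _ _ h3]
  · have h1 := uact_G d h i
    have h2 := uact_N d hi
    have e1 : d.wx w i = 0 := uact_wx' d hi
    have e2 : d.wx (d.wg w x y) i = 0 := uact_wx' d hi
    have h3 : ∀ z : ℂ, ((‖z‖ ^ 2 : ℝ) : ℂ) = z * conj z := by
      intro z
      rw [Complex.mul_conj, Complex.normSq_eq_norm_sq]
    unfold Hi
    rw [e1, e2]
    simp only [map_zero, zero_mul, add_zero, norm_zero]
    congr 1
    have h4 : ((‖d.gv x y u (i, 0)‖ ^ 2 + ‖(d.r i : ℂ) * d.gv x y u (i, 1)‖ ^ 2 : ℝ) : ℂ) =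
        ((‖u (i, 0)‖ ^ 2 + ‖(d.r i : ℂ) * u (i, 1)‖ ^ 2 : ℝ) : ℂ) := by
      rw [Complex.ofReal_add, Complex.ofReal_add, h3, h3, h3, h3]
      show (d.σ i x * u (i, 0) - d.nu i * conj (d.σ i y) * u (i, 1)) *
        conj (d.σ i x * u (i, 0) - d.nu i * conj (d.σ i y) * u (i, 1)) +
        d.r i * (d.σ i y * u (i, 0) + conj (d.σ i x) * u (i, 1)) *
        conj (d.r i * (d.σ i y * u (i, 0) + conj (d.σ i x) * u (i, 1))) = _
      simp only [map_add, map_sub, map_mul, Complex.conj_ofReal, Complex.conj_conj]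
      linear_combination (u (i, 0) * conj (u (i, 0)) + d.nu i * (u (i, 1) * conj (u (i, 1)))) * h1 +
        ((d.σ i y * u (i, 0) + conj (d.σ i x) * u (i, 1)) *
          (conj (d.σ i y) * conj (u (i, 0)) + d.σ i x * conj (u (i, 1))) -
            u (i, 1) * conj (u (i, 1))) * h2
    exact_mod_cast h4

theorem Hw_act {x y : K} (h : d.G1 x y) {w : d.R → ℂ} (hw : w ∈ d.Di) (u : Vs g) :
    d.Hw w (d.gv x y u) = d.Hw (d.wg w x y) u := by
  unfold Hw
  exact Finset.sum_congr rfl fun i _ => by rw [Hi_act d h hw]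

/-- `H_i` dominates the absolute value of the hermitian form -/
theorem Hi_ge {w : d.R → ℂ} (hw : w ∈ d.Di) (i : Fin g) (u : Vs g) :
    |‖u (i, 0)‖ ^ 2 + d.nu i * ‖u (i, 1)‖ ^ 2| ≤ d.Hi w i u := by
  have h3 : ∀ z : ℂ, ((‖z‖ ^ 2 : ℝ) : ℂ) = z * conj z := by
    intro z
    rw [Complex.mul_conj, Complex.normSq_eq_norm_sq]
  have hlt : ‖d.wx w i‖ < 1 := by
    by_cases hi : i ∈ d.R
    · rw [uact_wx d hi]
      exact hw _
    · rw [uact_wx' d hi, norm_zero]
      exact one_pos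
  have hp : 0 < 1 - ‖d.wx w i‖ ^ 2 := by
    have := norm_nonneg (d.wx w i)
    nlinarith
  by_cases hi : i ∈ d.R
  · have h2 := uact_R d hi
    have key : (1 - ‖d.wx w i‖ ^ 2) * (‖u (i, 0)‖ ^ 2 + d.nu i * ‖u (i, 1)‖ ^ 2) =
        ‖u (i, 0) + d.wx w i * (d.r i * u (i, 1))‖ ^ 2 -
          ‖d.r i * u (i, 1) + conj (d.wx w i) * u (i, 0)‖ ^ 2 := by
      have h4 : (((1 - ‖d.wx w i‖ ^ 2) * (‖u (i, 0)‖ ^ 2 + d.nu i * ‖u (i, 1)‖ ^ 2) : ℝ) : ℂ) =
          ((‖u (i, 0) + d.wx w i * (d.r i * u (i, 1))‖ ^ 2 -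
            ‖d.r i * u (i, 1) + conj (d.wx w i) * u (i, 0)‖ ^ 2 : ℝ) : ℂ) := by
        rw [Complex.ofReal_mul, Complex.ofReal_sub, Complex.ofReal_add, Complex.ofReal_mul,
          Complex.ofReal_sub, h3, h3, h3, h3, h3, Complex.ofReal_one]
        simp only [map_add, map_mul, Complex.conj_ofReal, Complex.conj_conj]
        linear_combination (-(u (i, 1) * conj (u (i, 1))) *
          (d.wx w i * conj (d.wx w i) - 1)) * h2
      exact_mod_cast h4
    unfold Hi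
    rw [le_div_iff₀ hp, ← abs_of_pos hp, ← abs_mul, mul_comm, key, abs_le]
    constructor
    · nlinarith [sq_nonneg ‖u (i, 0) + d.wx w i * (d.r i * u (i, 1))‖,
        sq_nonneg ‖d.r i * u (i, 1) + conj (d.wx w i) * u (i, 0)‖]
    · nlinarith [sq_nonneg ‖u (i, 0) + d.wx w i * (d.r i * u (i, 1))‖,
        sq_nonneg ‖d.r i * u (i, 1) + conj (d.wx w i) * u (i, 0)‖]
  · have h1 : 0 < d.nu i := d.nN i hi
    have h2 : d.r i ^ 2 = d.nu i := by exact_mod_cast uact_N d hi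
    have e1 : d.wx w i = 0 := uact_wx' d hi
    unfold Hi
    rw [e1]
    simp only [map_zero, zero_mul, add_zero, norm_zero]
    rw [norm_mul, mul_pow, Complex.norm_real, Real.norm_eq_abs, sq_abs, h2,
      abs_of_nonneg (by positivity)]
    norm_num

/-- the hermitian form at the place `i` is invariant -/
private theorem uact_H {x y : K} (h : d.G1 x y) (i : Fin g) (u0 u1 v0 v1 : ℂ) :
    (d.σ i x * u0 - d.nu i * conj (d.σ i y) * u1) *
      conj (d.σ i x * v0 - d.nu i * conj (d.σ i y) * v1) +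
    d.nu i * ((d.σ i y * u0 + conj (d.σ i x) * u1) *
      conj (d.σ i y * v0 + conj (d.σ i x) * v1)) = u0 * conj v0 + d.nu i * (u1 * conj v1) := by
  have h1 := uact_G d h i
  simp only [map_add, map_sub, map_mul, Complex.conj_ofReal, Complex.conj_conj]
  linear_combination (u0 * conj v0 + d.nu i * (u1 * conj v1)) * h1

theorem E_act {x y : K} (h : d.G1 x y) (u v : Vs g) : d.E (d.gv x y u) (d.gv x y v) = d.E u v := by
  unfold E
  refine Finset.sum_congr rfl fun i _ => ?_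
  congr 1
  have h1 := uact_H d h i (u (i, 0)) (u (i, 1)) (v (i, 0)) (v (i, 1))
  have h2 := congrArg Complex.im h1
  rw [Complex.add_im, Complex.add_im, Complex.im_ofReal_mul, Complex.im_ofReal_mul] at h2
  exact h2

theorem gv_add (x y : K) (u v : Vs g) : d.gv x y (u + v) = d.gv x y u + d.gv x y v := by
  funext p
  rw [Pi.add_apply]
  unfold gv
  split_ifs
  · simp only [Pi.add_apply]
    ring
  · simp only [Pi.add_apply]
    ring

theorem gv_inv {x y : K} (h : d.G1 x y) (u : Vs g) : d.gv (d.bar x) (-y) (d.gv x y u) = u := by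
  funext p
  obtain ⟨i, al⟩ := p
  have h1 := uact_G d h i
  fin_cases al
  · show d.σ i (d.bar x) * (d.σ i x * u (i, 0) - d.nu i * conj (d.σ i y) * u (i, 1)) -
      d.nu i * conj (d.σ i (-y)) * (d.σ i y * u (i, 0) + conj (d.σ i x) * u (i, 1)) = u (i, 0)
    rw [d.hbar, map_neg, map_neg]
    linear_combination u (i, 0) * h1
  · show d.σ i (-y) * (d.σ i x * u (i, 0) - d.nu i * conj (d.σ i y) * u (i, 1)) +
      conj (d.σ i (d.bar x)) * (d.σ i y * u (i, 0) + conj (d.σ i x) * u (i, 1)) = u (i, 1)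
    rw [d.hbar, map_neg, Complex.conj_conj]
    linear_combination u (i, 1) * h1

theorem gv_inv' {x y : K} (h : d.G1 x y) (u : Vs g) : d.gv x y (d.gv (d.bar x) (-y) u) = u := by
  have h1 := gv_inv d (G1_inv d h) u
  rw [uact_bar, neg_neg] at h1
  exact h1

theorem kv_gk (x y : K) (u : Fin 2 → K) : d.kv (d.gk x y u) = d.gv x y (d.kv u) := by
  funext p
  obtain ⟨i, al⟩ := p
  fin_cases al
  · show d.σ i (x * u 0 - d.ν * d.bar y * u 1) =
      d.σ i x * d.σ i (u 0) - d.nu i * conj (d.σ i y) * d.σ i (u 1)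
    rw [map_sub, map_mul, map_mul, map_mul, d.hbar, uact_nu]
  · show d.σ i (y * u 0 + d.bar x * u 1) =
      d.σ i y * d.σ i (u 0) + conj (d.σ i x) * d.σ i (u 1)
    rw [map_add, map_mul, map_mul, d.hbar]

theorem gv_ut (x y : K) (τ : Fin 2 → ℂ) : d.gv x y (d.ut τ) = d.ut (d.gs x y τ) := by
  funext p
  obtain ⟨i, al⟩ := p
  by_cases hi : i = d.s
  · subst hi
    fin_cases al
    · show d.σ d.s x * (if d.s = d.s then τ 0 else 0) -
        d.nu d.s * conj (d.σ d.s y) * (if d.s = d.s then τ 1 else 0) =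
          if d.s = d.s then d.gs x y τ 0 else 0
      simp [gs]
    · show d.σ d.s y * (if d.s = d.s then τ 0 else 0) +
        conj (d.σ d.s x) * (if d.s = d.s then τ 1 else 0) =
          if d.s = d.s then d.gs x y τ 1 else 0
      simp [gs]
  · unfold gv ut
    simp [hi]

theorem ps_gv (x y : K) (P : Vs g) : d.ps (d.gv x y P) = d.gs x y (d.ps P) := by
  funext al
  fin_cases al
  · rfl
  · rfl

theorem Hs_act {x y : K} (h : d.G1 x y) (τ τ' : Fin 2 → ℂ) :
    d.Hs (d.gs x y τ) (d.gs x y τ') = d.Hs τ τ' := by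
  unfold Hs
  congr 1
  exact uact_H d h d.s (τ 0) (τ 1) (τ' 0) (τ' 1)

/-- the determinant of the action at `s` is `1` -/
theorem gs_det {x y : K} (h : d.G1 x y) :
    d.gs x y (ee 0) 0 * d.gs x y (ee 1) 1 - d.gs x y (ee 0) 1 * d.gs x y (ee 1) 0 = 1 := by
  have h1 := uact_G d h d.s
  have e1 : d.gs x y (ee 0) 0 = d.σ d.s x := by simp [gs, ee]
  have e2 : d.gs x y (ee 1) 1 = conj (d.σ d.s x) := by simp [gs, ee]
  have e3 : d.gs x y (ee 0) 1 = d.σ d.s y := by simp [gs, ee]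
  have e4 : d.gs x y (ee 1) 0 = -(d.nu d.s * conj (d.σ d.s y)) := by simp [gs, ee]
  rw [e1, e2, e3, e4]
  linear_combination h1

end Dat

end Pool.Agent.RQ4
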