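import Pool.Agent.RQ4.UAct
import Pool.Agent.RQ4.NLat
import Pool.Agent.RQ4.NInt

/-!
# RQ4, UGam: a congruence subgroup preserves the lattice, the multipliers and given torsion points
-/

set_option autoImplicit false

namespace Pool.Agent.RQ4

open Complex ComplexConjugate Finset

namespace Dat

variable {K : Type} [Field K] [NumberField K] {g : ℕ} (d : Dat K g)

private lemma ug_kv_add (u v : Fin 2 → K) : d.kv (u + v) = d.kv u + d.kv v := by
  funext p
  simp [Dat.kv]

private lemma ug_den (e : Fin 2 → K) : ∃ n : ℕ, 1 ≤ n ∧ ∀ M : ℕ, ∀ x y : K, d.GN (M * n) x y →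
    ∃ A B : Ix g → ℤ, d.gv x y (d.kv e) =
      d.kv e + d.lat (fun p => M * A p) (fun p => M * B p) := by
  classical
  obtain ⟨N1, hN1, h1⟩ := d.int_le_lat
  obtain ⟨n, hn, h2⟩ := exists_den (K := K) (univ : Finset (Fin 3)) ![e 0, d.ν * e 1, e 1]
  have he0 : IsIntegral ℤ ((n : K) * e 0) := h2 0 (mem_univ _)
  have he1 : IsIntegral ℤ ((n : K) * (d.ν * e 1)) := h2 1 (mem_univ _)
  have he2 : IsIntegral ℤ ((n : K) * e 1) := h2 2 (mem_univ _)
  refine ⟨N1 * n, Nat.mul_le_mul hN1 hn, fun M x y hG => ?_⟩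
  obtain ⟨hG1, ⟨a, ha, hx⟩, ⟨b, hb, hy⟩⟩ := hG
  have hba : IsIntegral ℤ (d.bar a) := map_isIntegral_int d.bar ha
  have hbb : IsIntegral ℤ (d.bar b) := map_isIntegral_int d.bar hb
  have hN : ∀ m : ℕ, d.bar (m : K) = m := fun m => map_natCast d.bar m
  obtain ⟨A, B, hAB⟩ := h1 ((n : K) • ![a * e 0 - d.ν * d.bar b * e 1, b * e 0 + d.bar a * e 1])
    (by
      intro al
      fin_cases al
      · have : (n : K) * (a * e 0 - d.ν * d.bar b * e 1) =
            a * ((n : K) * e 0) - d.bar b * ((n : K) * (d.ν * e 1)) := by ring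
        simp only [Pi.smul_apply, smul_eq_mul]
        change IsIntegral ℤ ((n : K) * (a * e 0 - d.ν * d.bar b * e 1))
        rw [this]
        exact (ha.mul he0).sub (hbb.mul he1)
      · have : (n : K) * (b * e 0 + d.bar a * e 1) =
            b * ((n : K) * e 0) + d.bar a * ((n : K) * e 1) := by ring
        simp only [Pi.smul_apply, smul_eq_mul]
        change IsIntegral ℤ ((n : K) * (b * e 0 + d.bar a * e 1))
        rw [this]
        exact (hb.mul he0).add (hba.mul he2))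
  refine ⟨A, B, ?_⟩
  rw [← d.kv_gk]
  have h4 : (M : K) • d.latK (fun p => (A p : ℚ)) (fun p => (B p : ℚ)) =
      d.latK (fun p => ((M * A p : ℤ) : ℚ)) (fun p => ((M * B p : ℤ) : ℚ)) := by
    have := d.latK_smul (M : ℚ) (fun p => (A p : ℚ)) (fun p => (B p : ℚ))
    push_cast
    rw [this]
    funext al
    rw [Pi.smul_apply, Pi.smul_apply, smul_eq_mul, Algebra.smul_def, map_natCast]
  have h3 : d.gk x y e = e + (M : K) • d.latK (fun p => (A p : ℚ)) (fun p => (B p : ℚ)) := by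
    rw [← hAB]
    have hxb : d.bar x = 1 + ((M * (N1 * n) : ℕ) : K) * d.bar a := by
      rw [hx, map_add, map_one, map_mul, hN]
    have hyb : d.bar y = ((M * (N1 * n) : ℕ) : K) * d.bar b := by
      rw [hy, map_mul, hN]
    funext al
    fin_cases al
    · change x * e 0 - d.ν * d.bar y * e 1 =
        e 0 + (M : K) * ((N1 : K) * ((n : K) * (a * e 0 - d.ν * d.bar b * e 1)))
      rw [hyb, hx]
      push_cast
      ring
    · change y * e 0 + d.bar x * e 1 =
        e 1 + (M : K) * ((N1 : K) * ((n : K) * (b * e 0 + d.bar a * e 1)))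
      rw [hxb, hy]
      push_cast
      ring
  rw [h3, h4, ug_kv_add, d.kv_latK]
  congr 1

private lemma ug_top {ι : Type} [Fintype ι] [DecidableEq ι] (T : AddSubgroup (ι → ℤ))
    (h : ∀ p, Pi.single p 1 ∈ T) (a : ι → ℤ) : a ∈ T := by
  have h1 : a = ∑ p, a p • (Pi.single p 1 : ι → ℤ) := by
    funext q
    rw [Finset.sum_apply]
    simp [Pi.single_apply]
  rw [h1]
  exact T.sum_mem fun p _ => T.zsmul_mem (h p) _

private lemma ug_lat_neg (a b : Ix g → ℤ) : d.lat (-a) (-b) = -d.lat a b := by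
  have h1 := d.lat_add a b (-a) (-b)
  have h0 : d.lat (0 : Ix g → ℤ) 0 = 0 := by
    have := d.lat_add 0 0 0 0
    rw [add_zero] at this
    exact left_eq_add.1 this
  rw [add_neg_cancel, add_neg_cancel, h0] at h1
  exact (neg_eq_of_add_eq_zero_right h1.symm).symm

private lemma ug_lat_zero : d.lat (0 : Ix g → ℤ) 0 = 0 := by
  have := d.lat_add 0 0 0 0
  rw [add_zero] at this
  exact left_eq_add.1 this

private lemma ug_gv_zero (x y : K) : d.gv x y 0 = 0 := by
  funext p
  simp [Dat.gv]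

private lemma ug_gv_neg (x y : K) (u : Vs g) : d.gv x y (-u) = -d.gv x y u := by
  have h1 := d.gv_add x y u (-u)
  rw [add_neg_cancel, ug_gv_zero] at h1
  exact (neg_eq_of_add_eq_zero_right h1.symm).symm

/-- the vectors moved by twice a lattice vector -/
private def ugS (x y : K) : AddSubgroup (Vs g) where
  carrier := {v | ∃ a b : Ix g → ℤ, d.gv x y v = v + d.lat (2 * a) (2 * b)}
  add_mem' := by
    rintro u v ⟨a, b, h⟩ ⟨a', b', h'⟩
    refine ⟨a + a', b + b', ?_⟩
    rw [d.gv_add, h, h', mul_add, mul_add, d.lat_add]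
    abel
  zero_mem' := ⟨0, 0, by rw [ug_gv_zero, mul_zero, ug_lat_zero, add_zero]⟩
  neg_mem' := by
    rintro u ⟨a, b, h⟩
    refine ⟨-a, -b, ?_⟩
    rw [ug_gv_neg, h, mul_neg, mul_neg, ug_lat_neg]
    abel

private lemma ug_lat (x y : K)
    (h1 : ∀ p, d.lat (Pi.single p 1) 0 ∈ d.ugS x y) (h2 : ∀ p, d.lat 0 (Pi.single p 1) ∈ d.ugS x y)
    (a b : Ix g → ℤ) : d.lat a b ∈ d.ugS x y := by
  classical
  let f1 : (Ix g → ℤ) →+ Vs g :=
    { toFun := fun a => d.lat a 0
      map_zero' := d.ug_lat_zero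
      map_add' := fun a b => by
        have := d.lat_add a 0 b 0
        rwa [add_zero] at this }
  let f2 : (Ix g → ℤ) →+ Vs g :=
    { toFun := fun a => d.lat 0 a
      map_zero' := d.ug_lat_zero
      map_add' := fun a b => by
        have := d.lat_add 0 a 0 b
        rwa [add_zero] at this }
  have h3 : a ∈ (d.ugS x y).comap f1 := ug_top _ (fun p => h1 p) a
  have h4 : b ∈ (d.ugS x y).comap f2 := ug_top _ (fun p => h2 p) b
  have h5 : d.lat a b = f1 a + f2 b := by
    have := d.lat_add a 0 0 b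
    rw [add_zero, zero_add] at this
    exact this
  rw [h5]
  exact (d.ugS x y).add_mem h3 h4

theorem gam (cs : Finset (Fin 2 → K)) : ∃ N : ℕ, 1 ≤ N ∧ ∀ x y : K, d.GN N x y →
    (∀ a b : Ix g → ℤ, ∃ a' b' : Ix g → ℤ,
      d.gv x y (d.lat a b) = d.lat (fun p => a p + 2 * a' p) (fun p => b p + 2 * b' p)) ∧
    (∀ c ∈ cs, ∃ (a' b' : Ix g → ℤ) (n : ℤ),
      d.gv x y (d.kv c) = d.kv c + d.lat (fun p => 2 * a' p) (fun p => 2 * b' p) ∧
      d.E (d.kv c) (d.lat (fun p => 2 * a' p) (fun p => 2 * b' p)) = 2 * n) := by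
  classical
  choose n hn hden using d.ug_den
  -- the finite set of vectors
  set E1 : Finset (Fin 2 → K) := univ.image (fun p : Ix g =>
    d.latK (fun q => ((Pi.single p 1 : Ix g → ℤ) q : ℚ)) (fun _ => ((0 : ℤ) : ℚ))) with hE1
  set E2 : Finset (Fin 2 → K) := univ.image (fun p : Ix g =>
    d.latK (fun _ => ((0 : ℤ) : ℚ)) (fun q => ((Pi.single p 1 : Ix g → ℤ) q : ℚ))) with hE2
  set ES : Finset (Fin 2 → K) := E1 ∪ E2 ∪ cs with hES
  set q : ℕ := ∏ c ∈ cs, ∏ p : Ix g, ((d.cA c p).den * (d.cB c p).den) with hq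
  have hqA : ∀ c ∈ cs, ∀ p, ∃ m : ℤ, (q : ℚ) * d.cA c p = m := by
    intro c hc p
    have h1 : (d.cA c p).den ∣ q :=
      (Dvd.intro _ rfl : (d.cA c p).den ∣ (d.cA c p).den * (d.cB c p).den).trans
        ((Finset.dvd_prod_of_mem (fun p => (d.cA c p).den * (d.cB c p).den) (mem_univ p)).trans
          (Finset.dvd_prod_of_mem (fun c => ∏ p : Ix g, ((d.cA c p).den * (d.cB c p).den)) hc))
    obtain ⟨m, hm⟩ := h1
    refine ⟨m * (d.cA c p).num, ?_⟩
    rw [hm]
    have h2 := Rat.mul_den_eq_num (d.cA c p)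
    push_cast
    rw [← h2]
    ring
  have hqB : ∀ c ∈ cs, ∀ p, ∃ m : ℤ, (q : ℚ) * d.cB c p = m := by
    intro c hc p
    have h1 : (d.cB c p).den ∣ q :=
      (Dvd.intro_left _ rfl : (d.cB c p).den ∣ (d.cA c p).den * (d.cB c p).den).trans
        ((Finset.dvd_prod_of_mem (fun p => (d.cA c p).den * (d.cB c p).den) (mem_univ p)).trans
          (Finset.dvd_prod_of_mem (fun c => ∏ p : Ix g, ((d.cA c p).den * (d.cB c p).den)) hc))
    obtain ⟨m, hm⟩ := h1
    refine ⟨m * (d.cB c p).num, ?_⟩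
    rw [hm]
    have h2 := Rat.mul_den_eq_num (d.cB c p)
    push_cast
    rw [← h2]
    ring
  have hq1 : 1 ≤ q := by
    rw [hq]
    refine Nat.one_le_iff_ne_zero.2 (Finset.prod_ne_zero_iff.2 fun c _ =>
      Finset.prod_ne_zero_iff.2 fun p _ => ?_)
    exact mul_ne_zero (Rat.den_ne_zero _) (Rat.den_ne_zero _)
  set P : ℕ := ∏ e ∈ ES, n e with hP
  have hP1 : 1 ≤ P := Nat.one_le_iff_ne_zero.2
    (Finset.prod_ne_zero_iff.2 fun e _ => by have := hn e; omega)
  refine ⟨2 * q * P, ?_, ?_⟩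
  · have := Nat.mul_le_mul hq1 hP1
    nlinarith
  intro x y hG
  -- the action on the vectors of `ES`
  have key : ∀ e ∈ ES, ∃ (m : ℕ) (A B : Ix g → ℤ), d.gv x y (d.kv e) = d.kv e +
      d.lat (fun p => ((2 * q * m : ℕ) : ℤ) * A p) (fun p => ((2 * q * m : ℕ) : ℤ) * B p) := by
    intro e he
    obtain ⟨m, hm⟩ := Finset.dvd_prod_of_mem n he
    have h1 : 2 * q * P = (2 * q * m) * n e := by
      rw [hP, hm]; ring
    rw [h1] at hG
    obtain ⟨A, B, h2⟩ := hden e (2 * q * m) x y hG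
    exact ⟨m, A, B, h2⟩
  have h1 : ∀ p, d.lat (Pi.single p 1) 0 ∈ d.ugS x y := by
    intro p
    obtain ⟨m, A, B, h⟩ := key (d.latK (fun q => ((Pi.single p 1 : Ix g → ℤ) q : ℚ))
      (fun _ => ((0 : ℤ) : ℚ))) (by
        rw [hES, Finset.mem_union, Finset.mem_union]
        exact Or.inl (Or.inl (Finset.mem_image.2 ⟨p, mem_univ _, rfl⟩)))
    have h3 : d.kv (d.latK (fun q => ((Pi.single p 1 : Ix g → ℤ) q : ℚ))
        (fun _ => ((0 : ℤ) : ℚ))) = d.lat (Pi.single p 1) 0 := by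
      rw [d.kv_latK]
      unfold Dat.lat
      congr 1
    rw [h3] at h
    refine ⟨fun p => ((q * m : ℕ) : ℤ) * A p, fun p => ((q * m : ℕ) : ℤ) * B p, ?_⟩
    rw [h]
    congr 2
    · funext p
      simp only [Pi.mul_apply, Pi.ofNat_apply]
      push_cast
      ring
    · funext p
      simp only [Pi.mul_apply, Pi.ofNat_apply]
      push_cast
      ring
  have h2 : ∀ p, d.lat 0 (Pi.single p 1) ∈ d.ugS x y := by
    intro p
    obtain ⟨m, A, B, h⟩ := key (d.latK (fun _ => ((0 : ℤ) : ℚ))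
      (fun q => ((Pi.single p 1 : Ix g → ℤ) q : ℚ))) (by
        rw [hES, Finset.mem_union, Finset.mem_union]
        exact Or.inl (Or.inr (Finset.mem_image.2 ⟨p, mem_univ _, rfl⟩)))
    have h3 : d.kv (d.latK (fun _ => ((0 : ℤ) : ℚ))
        (fun q => ((Pi.single p 1 : Ix g → ℤ) q : ℚ))) = d.lat 0 (Pi.single p 1) := by
      rw [d.kv_latK]
      unfold Dat.lat
      congr 1
    rw [h3] at h
    refine ⟨fun p => ((q * m : ℕ) : ℤ) * A p, fun p => ((q * m : ℕ) : ℤ) * B p, ?_⟩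
    rw [h]
    congr 2
    · funext p
      simp only [Pi.mul_apply, Pi.ofNat_apply]
      push_cast
      ring
    · funext p
      simp only [Pi.mul_apply, Pi.ofNat_apply]
      push_cast
      ring
  refine ⟨fun a b => ?_, fun c hc => ?_⟩
  · obtain ⟨a', b', h⟩ := d.ug_lat x y h1 h2 a b
    refine ⟨a', b', ?_⟩
    rw [h, ← d.lat_add]
    rfl
  · obtain ⟨m, A, B, h⟩ := key c (by rw [hES, Finset.mem_union]; exact Or.inr hc)
    choose mA hmA using hqA c hc
    choose mB hmB using hqB c hc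
    refine ⟨fun p => ((q * m : ℕ) : ℤ) * A p, fun p => ((q * m : ℕ) : ℤ) * B p,
      ∑ p, (mB p * (m * A p) - mA p * (m * B p)), ?_, ?_⟩
    · rw [h]
      congr 2
      · funext p
        push_cast
        ring
      · funext p
        push_cast
        ring
    · rw [d.E_eq]
      push_cast
      rw [Finset.mul_sum]
      refine sum_congr rfl fun p _ => ?_
      rw [d.sc_lat, d.tc_lat]
      have hk : d.kv c = d.vst (fun p => (d.cA c p : ℝ)) (fun p => (d.cB c p : ℝ)) := by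
        conv_lhs => rw [← d.latK_coord c]
        rw [d.kv_latK]
      rw [hk, d.sc_vst, d.tc_vst]
      have e1 : (q : ℝ) * (d.cA c p : ℝ) = (mA p : ℝ) := by exact_mod_cast hmA p
      have e2 : (q : ℝ) * (d.cB c p : ℝ) = (mB p : ℝ) := by exact_mod_cast hmB p
      rw [← e1, ← e2]
      push_cast
      ring

end Dat

end Pool.Agent.RQ4
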