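import Pool.Agent.RQ4.UCo
import Pool.Agent.RQ4.TGau

/-!
# RQ4, UPos: the period matrices `Om(w)` are symmetric with positive imaginary part, locally
uniformly and holomorphically in `w`

Proofs: diagonalisation of the local `2 × 2` forms, Cauchy-Schwarz with the dual basis.
-/

set_option autoImplicit false

namespace Pool.Agent.RQ4

open Complex ComplexConjugate Finset

namespace Dat

variable {K : Type} [Field K] [NumberField K] {g : ℕ} (d : Dat K g)

private theorem upos_wx {w : d.R → ℂ} {ρ : ℝ} (h0 : 0 ≤ ρ) (hw : ∀ i, ‖w i‖ ≤ ρ) (i : Fin g) :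
    ‖d.wx w i‖ ≤ ρ := by
  unfold wx
  split_ifs with h
  · exact hw _
  · rw [norm_zero]
    exact h0

private theorem upos_wx1 {w : d.R → ℂ} (hw : w ∈ d.Di) (i : Fin g) : ‖d.wx w i‖ < 1 := by
  unfold wx
  split_ifs with h
  · exact hw _
  · rw [norm_zero]
    exact one_pos

private theorem upos_ne {w : ℂ} (h : ‖w‖ < 1) : 1 - w ≠ 0 ∧ 1 + w ≠ 0 := by
  constructor
  · intro h1
    have h2 : w = 1 := (sub_eq_zero.1 h1).symm
    rw [h2, norm_one] at h
    exact lt_irrefl _ h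
  · intro h1
    have h2 : w = -1 := by linear_combination h1
    rw [h2, norm_neg, norm_one] at h
    exact lt_irrefl _ h

private theorem upos_re {w : ℂ} {ρ : ℝ} (h1 : ρ < 1) (hw : ‖w‖ ≤ ρ) :
    (1 - ρ ^ 2) / 4 ≤ ((1 + w) / (1 - w)).re := by
  have h0 : 0 ≤ ρ := (norm_nonneg _).trans hw
  have hne := (upos_ne (hw.trans_lt h1)).1
  have hn : 0 < Complex.normSq (1 - w) := Complex.normSq_pos.2 hne
  have e1 : w.re * w.re + w.im * w.im ≤ ρ ^ 2 := by
    rw [← Complex.normSq_apply, ← Complex.sq_norm]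
    exact pow_le_pow_left₀ (norm_nonneg _) hw 2
  have e2 : ((1 + w) / (1 - w)).re = (1 - (w.re * w.re + w.im * w.im)) / Complex.normSq (1 - w) := by
    rw [Complex.div_re, ← add_div]
    congr 1
    rw [Complex.add_re, Complex.sub_re, Complex.add_im, Complex.sub_im, Complex.one_re,
      Complex.one_im]
    ring
  have e3 : Complex.normSq (1 - w) ≤ 4 := by
    rw [Complex.normSq_apply, Complex.sub_re, Complex.sub_im, Complex.one_re, Complex.one_im]
    have e4 : ρ ^ 2 ≤ 1 := by nlinarith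
    nlinarith [sq_nonneg (1 + w.re), sq_nonneg w.im, mul_self_nonneg w.re]
  rw [e2]
  have e5 : 0 ≤ 1 - ρ ^ 2 := by nlinarith
  exact div_le_div₀ (by linarith) (by linarith) hn e3

private theorem upos_om2 {w : ℂ} (h1 : 1 - w ≠ 0) (h2 : 1 + w ≠ 0) (i : Fin g) (al be : Fin 2) :
    (d.om2 w i al be).im = (if al = be then
      (((1 + w) / (1 - w)).re + ((1 - w) / (1 + w)).re) / 2 * (if al = 0 then 1 else d.r i ^ 2)
      else (((1 + w) / (1 - w)).re - ((1 - w) / (1 + w)).re) / 2 * d.r i) / d.c i := by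
  have hc : (d.c i : ℂ) ≠ 0 := by exact_mod_cast (d.c_pos i).ne'
  have hw : 1 - w ^ 2 ≠ 0 := by
    have h3 : 1 - w ^ 2 = (1 - w) * (1 + w) := by ring
    rw [h3]
    exact mul_ne_zero h1 h2
  have hu : (1 + w ^ 2) / (1 - w ^ 2) = ((1 + w) / (1 - w) + (1 - w) / (1 + w)) / 2 := by
    have h3 : 1 - w ^ 2 = (1 - w) * (1 + w) := by ring
    rw [h3]
    field_simp
    ring
  have hv : 2 * w / (1 - w ^ 2) = ((1 + w) / (1 - w) - (1 - w) / (1 + w)) / 2 := by
    have h3 : 1 - w ^ 2 = (1 - w) * (1 + w) := by ring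
    rw [h3]
    field_simp
    ring
  by_cases hab : al = be
  · rw [if_pos hab]
    have e1 : d.om2 w i al be = I * ((((if al = 0 then 1 else d.r i ^ 2) / (2 * d.c i) : ℝ) : ℂ) *
        ((1 + w) / (1 - w) + (1 - w) / (1 + w))) := by
      have e2 : (1 + w) / (1 - w) + (1 - w) / (1 + w) = 2 * ((1 + w ^ 2) / (1 - w ^ 2)) := by
        rw [hu]
        ring
      rw [e2]
      unfold om2
      rw [if_pos hab]
      split_ifs <;> push_cast <;> field_simp
    rw [e1, Complex.I_mul_im, Complex.re_ofReal_mul, Complex.add_re]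
    ring
  · rw [if_neg hab]
    have e1 : d.om2 w i al be = I * (((d.r i / (2 * d.c i) : ℝ) : ℂ) *
        ((1 + w) / (1 - w) - (1 - w) / (1 + w))) := by
      have e2 : (1 + w) / (1 - w) - (1 - w) / (1 + w) = 2 * (2 * w / (1 - w ^ 2)) := by
        rw [hv]
        ring
      rw [e2]
      unfold om2
      rw [if_neg hab]
      push_cast
      field_simp
    rw [e1, Complex.I_mul_im, Complex.re_ofReal_mul, Complex.sub_re]
    ring

private theorem upos_im (w : d.R → ℂ) (p q : Ix g) : (d.Om w p q).im =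
    ∑ i, d.fr p.1 i * d.fr q.1 i * (d.om2 (d.wx w i) i p.2 q.2).im := by
  unfold Om
  rw [Complex.im_sum]
  refine Finset.sum_congr rfl fun i _ => ?_
  rw [← Complex.ofReal_mul, Complex.im_ofReal_mul]

private theorem upos_sum (w : d.R → ℂ) (x : Ix g → ℝ) :
    ∑ p, ∑ q, x p * (d.Om w p q).im * x q = ∑ i, ∑ al : Fin 2, ∑ be : Fin 2,
      (∑ k, d.fr k i * x (k, al)) * (∑ k, d.fr k i * x (k, be)) *
        (d.om2 (d.wx w i) i al be).im := by
  calc ∑ p, ∑ q, x p * (d.Om w p q).im * x q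
      = ∑ p : Ix g, ∑ q : Ix g, ∑ i, (d.fr p.1 i * x p) * (d.fr q.1 i * x q) *
          (d.om2 (d.wx w i) i p.2 q.2).im := by
        refine Finset.sum_congr rfl fun p _ => Finset.sum_congr rfl fun q _ => ?_
        rw [d.upos_im, Finset.mul_sum, Finset.sum_mul]
        refine Finset.sum_congr rfl fun i _ => ?_
        ring
    _ = ∑ i, ∑ p : Ix g, ∑ q : Ix g, (d.fr p.1 i * x p) * (d.fr q.1 i * x q) *
          (d.om2 (d.wx w i) i p.2 q.2).im := by
        rw [Finset.sum_congr rfl (fun p _ => Finset.sum_comm), Finset.sum_comm]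
    _ = _ := by
        refine Finset.sum_congr rfl fun i _ => ?_
        rw [Fintype.sum_prod_type_right]
        refine Finset.sum_congr rfl fun al _ => ?_
        simp only [Fintype.sum_prod_type_right (γ := ℝ)]
        rw [Finset.sum_comm]
        refine Finset.sum_congr rfl fun be _ => ?_
        rw [Finset.sum_mul_sum, Finset.sum_mul]
        refine Finset.sum_congr rfl fun k _ => ?_
        rw [Finset.sum_mul]

private theorem upos_loc {ρ : ℝ} (h1 : ρ < 1) {w : ℂ} (hw : ‖w‖ ≤ ρ) (i : Fin g)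
    (P : Fin 2 → ℝ) : (1 - ρ ^ 2) / 4 * ∑ al : Fin 2, (if al = 0 then 1 else d.r i ^ 2) / d.c i *
      P al ^ 2 ≤ ∑ al : Fin 2, ∑ be : Fin 2, P al * P be * (d.om2 w i al be).im := by
  have hne := upos_ne (hw.trans_lt h1)
  have hc := d.c_pos i
  have hA := upos_re h1 hw
  have hB : (1 - ρ ^ 2) / 4 ≤ ((1 - w) / (1 + w)).re := by
    have h2 := upos_re (w := -w) h1 (by rw [norm_neg]; exact hw)
    rwa [← sub_eq_add_neg, sub_neg_eq_add] at h2
  simp only [d.upos_om2 hne.1 hne.2, Fin.sum_univ_two]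
  have e1 : ((0 : Fin 2) = 1) = False := by simp
  have e2 : ((1 : Fin 2) = 0) = False := by simp
  simp only [e1, e2, if_true, if_false]
  generalize ((1 + w) / (1 - w)).re = A at hA ⊢
  generalize ((1 - w) / (1 + w)).re = B at hB ⊢
  generalize (1 - ρ ^ 2) / 4 = m at hA hB ⊢
  generalize P 0 = p
  generalize P 1 = q
  generalize d.r i = r
  have key : m * (p ^ 2 + r ^ 2 * q ^ 2) ≤ A / 2 * (p + r * q) ^ 2 + B / 2 * (p - r * q) ^ 2 := by
    have h3 := mul_nonneg (sub_nonneg.2 hA) (sq_nonneg (p + r * q))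
    have h4 := mul_nonneg (sub_nonneg.2 hB) (sq_nonneg (p - r * q))
    nlinarith
  have key2 := div_le_div_of_nonneg_right key hc.le
  calc m * (1 / d.c i * p ^ 2 + r ^ 2 / d.c i * q ^ 2)
      = m * (p ^ 2 + r ^ 2 * q ^ 2) / d.c i := by ring
    _ ≤ (A / 2 * (p + r * q) ^ 2 + B / 2 * (p - r * q) ^ 2) / d.c i := key2
    _ = _ := by ring

private theorem upos_wt : ∃ ω > 0, ∀ (i : Fin g) (al : Fin 2),
    ω ≤ (if al = 0 then 1 else d.r i ^ 2) / d.c i := by
  have hpos : ∀ (i : Fin g) (al : Fin 2), 0 < (if al = 0 then 1 else d.r i ^ 2) / d.c i := by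
    intro i al
    refine div_pos ?_ (d.c_pos i)
    split_ifs
    · exact one_pos
    · exact pow_pos (d.r_pos' i) 2
  obtain ⟨T, hT⟩ : ∃ T : ℝ, T = ∑ i : Fin g, ∑ al : Fin 2,
      ((if al = 0 then 1 else d.r i ^ 2) / d.c i)⁻¹ := ⟨_, rfl⟩
  have hT0 : 0 ≤ T := by
    rw [hT]
    exact Finset.sum_nonneg fun i _ => Finset.sum_nonneg fun al _ => (inv_pos.2 (hpos i al)).le
  refine ⟨(1 + T)⁻¹, by positivity, fun i al => ?_⟩
  rw [inv_le_comm₀ (by linarith) (hpos i al)]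
  have h1 : ((if al = 0 then 1 else d.r i ^ 2) / d.c i)⁻¹ ≤ T := by
    rw [hT]
    refine le_trans ?_ (Finset.single_le_sum (f := fun i => ∑ al : Fin 2,
      ((if al = 0 then 1 else d.r i ^ 2) / d.c i)⁻¹)
      (fun j _ => Finset.sum_nonneg fun al _ => (inv_pos.2 (hpos j al)).le) (Finset.mem_univ i))
    exact Finset.single_le_sum (f := fun al : Fin 2 =>
      ((if al = 0 then 1 else d.r i ^ 2) / d.c i)⁻¹)
      (fun al _ => (inv_pos.2 (hpos i al)).le) (Finset.mem_univ al)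
  linarith

private theorem upos_dual (y : Fin g → ℝ) (k : Fin g) :
    y k = ∑ i, d.fdr k i * ∑ j, d.fr j i * y j := by
  have h1 : ∀ i, d.fdr k i * ∑ j, d.fr j i * y j = ∑ j, d.fdr k i * d.fr j i * y j := by
    intro i
    rw [Finset.mul_sum]
    refine Finset.sum_congr rfl fun j _ => ?_
    ring
  simp only [h1]
  rw [Finset.sum_comm]
  simp only [← Finset.sum_mul, d.dual1]
  rw [Finset.sum_eq_single k]
  · rw [if_pos rfl, one_mul]
  · intro j _ hj
    rw [if_neg (Ne.symm hj), zero_mul]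
  · intro h
    exact absurd (Finset.mem_univ k) h

private theorem upos_cs (x : Ix g → ℝ) : ∑ p, x p ^ 2 ≤ (∑ k, ∑ i, d.fdr k i ^ 2) *
    ∑ i, ∑ al : Fin 2, (∑ k, d.fr k i * x (k, al)) ^ 2 := by
  rw [Fintype.sum_prod_type_right]
  have h1 : ∀ al : Fin 2, ∑ k, x (k, al) ^ 2 ≤ (∑ k, ∑ i, d.fdr k i ^ 2) *
      ∑ i, (∑ k, d.fr k i * x (k, al)) ^ 2 := by
    intro al
    rw [Finset.sum_mul]
    refine Finset.sum_le_sum fun k _ => ?_
    rw [d.upos_dual (fun k => x (k, al)) k]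
    exact Finset.sum_mul_sq_le_sq_mul_sq _ _ _
  refine (Finset.sum_le_sum fun al _ => h1 al).trans ?_
  rw [← Finset.mul_sum]
  refine le_of_eq ?_
  congr 1
  exact Finset.sum_comm

theorem Om_symm (w : d.R → ℂ) (p q : Ix g) : d.Om w p q = d.Om w q p := by
  unfold Om
  refine Finset.sum_congr rfl fun i _ => ?_
  have h : ∀ al be : Fin 2, d.om2 (d.wx w i) i al be = d.om2 (d.wx w i) i be al := by
    intro al be
    unfold om2
    by_cases hab : al = be
    · subst hab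
      rfl
    · rw [if_neg hab, if_neg (Ne.symm hab)]
  rw [h p.2 q.2]
  ring

theorem Di_open : IsOpen d.Di := by
  have h : d.Di = ⋂ i, {w : d.R → ℂ | ‖w i‖ < 1} := by
    ext w
    simp [Di]
  rw [h]
  exact isOpen_iInter_of_finite fun i =>
    isOpen_lt ((continuous_apply i).norm) continuous_const

theorem Di_convex : Convex ℝ d.Di := by
  have h : d.Di = Set.pi Set.univ (fun _ : d.R => Metric.ball (0 : ℂ) 1) := by
    ext w
    simp [Di, Set.mem_pi]
  rw [h]
  exact convex_pi fun i _ => convex_ball 0 1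

theorem Om_diff (p q : Ix g) : DifferentiableOn ℂ (fun w => d.Om w p q) d.Di := by
  intro w hw
  unfold Om
  refine DifferentiableWithinAt.fun_sum fun i _ => ?_
  refine (differentiableWithinAt_const _).mul ?_
  have hwx : DifferentiableAt ℂ (fun w => d.wx w i) w := by
    unfold wx
    by_cases h : i ∈ d.R
    · simp only [h, dif_pos]
      exact differentiableAt_apply _ _
    · simp only [h, dif_neg, not_false_eq_true]
      exact differentiableAt_const _
  have hne : 1 - (d.wx w i) ^ 2 ≠ 0 := by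
    have h1 := upos_ne (d.upos_wx1 hw i)
    have h3 : 1 - (d.wx w i) ^ 2 = (1 - d.wx w i) * (1 + d.wx w i) := by ring
    rw [h3]
    exact mul_ne_zero h1.1 h1.2
  refine DifferentiableAt.differentiableWithinAt ?_
  have hd : DifferentiableAt ℂ (fun w' => 1 - (d.wx w' i) ^ 2) w :=
    (differentiableAt_const _).fun_sub (hwx.fun_pow 2)
  unfold om2
  refine DifferentiableAt.mul ?_ ?_
  · simp only [div_eq_mul_inv]
    exact (differentiableAt_const _).fun_mul (hd.fun_inv hne)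
  · by_cases hab : p.2 = q.2
    · simp only [hab, if_true]
      exact ((differentiableAt_const _).fun_add (hwx.fun_pow 2)).mul (differentiableAt_const _)
    · simp only [hab, if_false]
      exact (hwx.const_mul _).mul (differentiableAt_const _)

theorem Om_pos {ρ : ℝ} (h0 : 0 ≤ ρ) (h1 : ρ < 1) :
    ∃ δ > 0, ∀ w : d.R → ℂ, (∀ i, ‖w i‖ ≤ ρ) → Pos (d.Om w) δ := by
  obtain ⟨ω, hω, hωW⟩ := d.upos_wt
  obtain ⟨S, hS⟩ : ∃ S, S = ∑ k, ∑ i, d.fdr k i ^ 2 := ⟨_, rfl⟩
  have hS0 : 0 ≤ S := by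
    rw [hS]
    exact Finset.sum_nonneg fun k _ => Finset.sum_nonneg fun i _ => sq_nonneg _
  have hm : 0 < (1 - ρ ^ 2) / 4 := by nlinarith
  refine ⟨(1 - ρ ^ 2) / 4 * ω / (S + 1), by positivity, fun w hw x => ?_⟩
  rw [d.upos_sum]
  obtain ⟨Z, hZ⟩ : ∃ Z, Z = ∑ i, ∑ al : Fin 2, (∑ k, d.fr k i * x (k, al)) ^ 2 := ⟨_, rfl⟩
  have hZ0 : 0 ≤ Z := by
    rw [hZ]
    exact Finset.sum_nonneg fun k _ => Finset.sum_nonneg fun i _ => sq_nonneg _
  have h2 : ∑ p, x p ^ 2 ≤ S * Z := by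
    rw [hS, hZ]
    exact d.upos_cs x
  have h3 : (1 - ρ ^ 2) / 4 * ω * Z ≤ ∑ i, ∑ al : Fin 2, ∑ be : Fin 2,
      (∑ k, d.fr k i * x (k, al)) * (∑ k, d.fr k i * x (k, be)) *
        (d.om2 (d.wx w i) i al be).im := by
    rw [hZ, Finset.mul_sum]
    refine Finset.sum_le_sum fun i _ => ?_
    refine le_trans ?_ (d.upos_loc h1 (d.upos_wx h0 hw i) i fun al => ∑ k, d.fr k i * x (k, al))
    rw [mul_assoc]
    refine mul_le_mul_of_nonneg_left ?_ hm.le
    rw [Finset.mul_sum]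
    exact Finset.sum_le_sum fun al _ => mul_le_mul_of_nonneg_right (hωW i al) (sq_nonneg _)
  refine le_trans ?_ h3
  have h4 : (1 - ρ ^ 2) / 4 * ω / (S + 1) * ∑ p, x p ^ 2 ≤
      (1 - ρ ^ 2) / 4 * ω / (S + 1) * (S * Z) :=
    mul_le_mul_of_nonneg_left h2 (by positivity)
  refine h4.trans ?_
  have h5 : (1 - ρ ^ 2) / 4 * ω / (S + 1) * (S * Z) = (1 - ρ ^ 2) / 4 * ω * Z * (S / (S + 1)) := by
    ring
  rw [h5]
  have h6 : S / (S + 1) ≤ 1 := by
    rw [div_le_one (by linarith)]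
    linarith
  exact mul_le_of_le_one_right (by positivity) h6

theorem Om_local : ∀ w ∈ d.Di, ∃ ε > 0, ∃ δ > 0, ∀ w' ∈ d.Di, ‖w' - w‖ ≤ ε → Pos (d.Om w') δ := by
  intro w hw
  have h1 : ‖w‖ < 1 := (pi_norm_lt_iff one_pos).2 hw
  have h0 : 0 ≤ ‖w‖ := norm_nonneg w
  obtain ⟨δ, hδ, h⟩ := d.Om_pos (ρ := (1 + ‖w‖) / 2) (by linarith) (by linarith)
  refine ⟨(1 - ‖w‖) / 2, by linarith, δ, hδ, fun w' _ hww => h w' fun i => ?_⟩
  have h2 : ‖w'‖ ≤ ‖w' - w‖ + ‖w‖ := by
    have := norm_add_le (w' - w) w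
    rwa [sub_add_cancel] at this
  have h3 := norm_le_pi_norm w' i
  linarith

theorem Om_pt {w : d.R → ℂ} (hw : w ∈ d.Di) : ∃ δ > 0, Pos (d.Om w) δ := by
  have h1 : ‖w‖ < 1 := (pi_norm_lt_iff one_pos).2 hw
  obtain ⟨δ, hδ, h⟩ := d.Om_pos (ρ := ‖w‖) (norm_nonneg w) h1
  exact ⟨δ, hδ, h w fun i => norm_le_pi_norm w i⟩

theorem Om_zero_re (p q : Ix g) : (d.Om 0 p q).re = 0 := by
  unfold Om
  rw [Complex.re_sum]
  refine Finset.sum_eq_zero fun i _ => ?_
  rw [← Complex.ofReal_mul, Complex.re_ofReal_mul]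
  have hwx : d.wx 0 i = 0 := by
    unfold wx
    split_ifs <;> rfl
  rw [hwx]
  have h : d.om2 0 i p.2 q.2 = I * (((if p.2 = q.2 then (if p.2 = 0 then 1 else d.r i ^ 2)
      else 0) / d.c i : ℝ) : ℂ) := by
    unfold om2
    split_ifs <;> push_cast <;> ring
  rw [h, Complex.I_mul_re, Complex.ofReal_im, neg_zero, mul_zero]

end Dat

end Pool.Agent.RQ4
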