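import Pool.Agent.RQ4.UCo

/-!
# RQ4, UZ: `L_w` is a complex linear function of `z_w`, and `q_w + π/2 H_w` is a holomorphic quadratic form
-/

set_option autoImplicit false

namespace Pool.Agent.RQ4

open Complex ComplexConjugate Finset

namespace Dat

variable {K : Type} [Field K] [NumberField K] {g : ℕ} (d : Dat K g)

/-- the local combination `∑_k fdr k i z(k,α)` -/
noncomputable def zl (z : Ix g → ℂ) (i : Fin g) (al : Fin 2) : ℂ := ∑ k, (d.fdr k i : ℂ) * z (k, al)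

/-- the complex linear map with `L w u = Aw w (zc w u)` -/
noncomputable def Aw (w : d.R → ℂ) (z : Ix g → ℂ) : Vs g := fun p =>
  if p.1 ∈ d.R then
    (if p.2 = 0 then d.zl z p.1 0 - d.wx w p.1 / d.r p.1 * d.zl z p.1 1
      else d.wx w p.1 * d.zl z p.1 0 - d.zl z p.1 1 / d.r p.1)
  else (if p.2 = 0 then d.zl z p.1 0 else d.zl z p.1 1 / d.r p.1)

/-- its inverse -/
noncomputable def Bw (w : d.R → ℂ) (l : Vs g) : Ix g → ℂ := fun p =>
  ∑ i, (d.fr p.1 i : ℂ) * (if i ∈ d.R then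
    (if p.2 = 0 then (l (i, 0) - d.wx w i * l (i, 1)) / (1 - d.wx w i ^ 2)
      else -(d.r i * (l (i, 1) - d.wx w i * l (i, 0))) / (1 - d.wx w i ^ 2))
    else (if p.2 = 0 then l (i, 0) else d.r i * l (i, 1)))

/-- the quadratic form -/
noncomputable def Rw (w : d.R → ℂ) (l : Vs g) : ℂ :=
  ∑ i, (Real.pi / 2 * d.c i : ℝ) * (l (i, 0) ^ 2 + l (i, 1) ^ 2 +
    2 * l (i, 0) * l (i, 1) * (conj (d.wx w i) - d.wx w i) / (1 - (‖d.wx w i‖ ^ 2 : ℝ))) /
      (1 - d.wx w i ^ 2)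

theorem wx_lt {w : d.R → ℂ} (hw : w ∈ d.Di) (i : Fin g) : ‖d.wx w i‖ < 1 := by
  unfold wx
  split_ifs with h
  · exact hw ⟨i, h⟩
  · simp

theorem one_sub_ne {w : d.R → ℂ} (hw : w ∈ d.Di) (i : Fin g) : 1 - d.wx w i ^ 2 ≠ 0 := by
  intro h
  have h1 := d.wx_lt hw i
  have h2 : d.wx w i ^ 2 = 1 := (sub_eq_zero.1 h).symm
  have h3 : ‖d.wx w i‖ ^ 2 = 1 := by rw [← norm_pow, h2, norm_one]
  nlinarith [norm_nonneg (d.wx w i)]

private theorem uz_fr_tc (u : Vs g) (i : Fin g) (al : Fin 2) :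
    ∑ k, d.fr k i * d.tc u (k, al) = d.c i * (u (i, al)).im := by
  unfold tc
  simp only [Finset.mul_sum]
  rw [Finset.sum_comm]
  have e : ∀ l, ∑ k, d.fr k i * (d.fdr k l * d.c l * (u (l, al)).im) =
      (if l = i then 1 else 0) * (d.c l * (u (l, al)).im) := by
    intro l
    rw [← d.dual2 l i, Finset.sum_mul]
    refine Finset.sum_congr rfl fun k _ => ?_
    ring
  rw [Finset.sum_congr rfl (fun l _ => e l)]
  simp

private theorem uz_fdr_sc (u : Vs g) (i : Fin g) (al : Fin 2) :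
    ∑ k, d.fdr k i * d.sc u (k, al) = d.sg al i * (u (i, al)).re := by
  unfold sc
  simp only [Finset.mul_sum]
  rw [Finset.sum_comm]
  have e : ∀ l, ∑ k, d.fdr k i * (d.fr k l * d.sg al l * (u (l, al)).re) =
      (if i = l then 1 else 0) * (d.sg al l * (u (l, al)).re) := by
    intro l
    rw [← d.dual2 i l, Finset.sum_mul]
    refine Finset.sum_congr rfl fun k _ => ?_
    ring
  rw [Finset.sum_congr rfl (fun l _ => e l)]
  simp

private theorem uz_fdr_Om (w : d.R → ℂ) (i : Fin g) (al : Fin 2) (q : Ix g) :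
    ∑ k, (d.fdr k i : ℂ) * d.Om w (k, al) q = d.fr q.1 i * d.om2 (d.wx w i) i al q.2 := by
  unfold Om
  simp only [Finset.mul_sum]
  rw [Finset.sum_comm]
  have e : ∀ l, ∑ k, (d.fdr k i : ℂ) * ((d.fr k l : ℂ) * d.fr q.1 l * d.om2 (d.wx w l) l al q.2) =
      ((if i = l then 1 else 0 : ℝ) : ℂ) * ((d.fr q.1 l : ℂ) * d.om2 (d.wx w l) l al q.2) := by
    intro l
    rw [← d.dual2 i l, Complex.ofReal_sum, Finset.sum_mul]
    refine Finset.sum_congr rfl fun k _ => ?_
    push_cast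
    ring
  rw [Finset.sum_congr rfl (fun l _ => e l), Finset.sum_eq_single i]
  · simp
  · intro b _ hb
    simp [hb.symm]
  · intro hi
    exact absurd (Finset.mem_univ i) hi

theorem zl_eq (w : d.R → ℂ) (u : Vs g) (i : Fin g) (al : Fin 2) :
    d.zl (d.zc w u) i al = (d.sg al i * (u (i, al)).re : ℝ) +
      d.c i * ∑ be, d.om2 (d.wx w i) i al be * ((u (i, be)).im : ℂ) := by
  unfold zl zc
  simp only [mul_add, Finset.sum_add_distrib]
  congr 1
  · rw [← uz_fdr_sc, Complex.ofReal_sum]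
    refine Finset.sum_congr rfl fun k _ => ?_
    push_cast
    rfl
  · simp only [Finset.mul_sum]
    rw [Finset.sum_comm]
    have e : ∀ q : Ix g, ∑ k, (d.fdr k i : ℂ) * (d.Om w (k, al) q * (d.tc u q : ℂ)) =
        d.om2 (d.wx w i) i al q.2 * ((d.fr q.1 i * d.tc u q : ℝ) : ℂ) := by
      intro q
      have h1 := d.uz_fdr_Om w i al q
      have h2 : ∑ k, (d.fdr k i : ℂ) * (d.Om w (k, al) q * (d.tc u q : ℂ)) =
          (∑ k, (d.fdr k i : ℂ) * d.Om w (k, al) q) * (d.tc u q : ℂ) := by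
        rw [Finset.sum_mul]
        refine Finset.sum_congr rfl fun k _ => ?_
        ring
      rw [h2, h1]
      push_cast
      ring
    rw [Finset.sum_congr rfl (fun q _ => e q), Fintype.sum_prod_type, Finset.sum_comm]
    refine Finset.sum_congr rfl fun be _ => ?_
    simp only
    rw [← Finset.mul_sum, ← Complex.ofReal_sum, d.uz_fr_tc u i be]
    push_cast
    ring

private theorem uz_im2 (z : ℂ) : (z.im : ℂ) = -(I / 2) * (z - conj z) := by
  apply Complex.ext <;> simp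
  ring

private theorem uz_re2 (z : ℂ) : (z.re : ℂ) = (z + conj z) / 2 := by
  apply Complex.ext <;> simp

private theorem uz_zl0 (w : d.R → ℂ) (u : Vs g) (i : Fin g) :
    d.zl (d.zc w u) i 0 = (u (i, 0) + conj (u (i, 0))) / 2 +
      ((1 + d.wx w i ^ 2) * ((u (i, 0) - conj (u (i, 0))) / 2) +
        d.wx w i * d.r i * (u (i, 1) - conj (u (i, 1)))) / (1 - d.wx w i ^ 2) := by
  have hc : (d.c i : ℂ) ≠ 0 := by
    have := d.c_pos i
    exact_mod_cast this.ne'
  rw [d.zl_eq]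
  simp only [Fin.sum_univ_two, om2, sg, if_true, one_mul, Fin.isValue]
  rw [if_neg (by decide), uz_im2, uz_im2, uz_re2]
  have hI : I * I = -1 := Complex.I_mul_I
  have e : ∀ A : ℂ, (d.c i : ℂ) * (I / d.c i / (1 - d.wx w i ^ 2) * A) =
      I * A / (1 - d.wx w i ^ 2) := by
    intro A
    field_simp
  have e2 : (d.c i : ℂ) * (I / d.c i / (1 - d.wx w i ^ 2) * ((1 + d.wx w i ^ 2) * 1) *
        (-(I / 2) * (u (i, 0) - conj (u (i, 0)))) +
      I / d.c i / (1 - d.wx w i ^ 2) * (2 * d.wx w i * d.r i) *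
        (-(I / 2) * (u (i, 1) - conj (u (i, 1))))) =
      (d.c i : ℂ) * (I / d.c i / (1 - d.wx w i ^ 2) * (-(I) * ((1 + d.wx w i ^ 2) *
        ((u (i, 0) - conj (u (i, 0))) / 2) + d.wx w i * d.r i * (u (i, 1) - conj (u (i, 1)))))) := by
    ring
  rw [e2, e]
  congr 1
  congr 1
  linear_combination (-((1 + d.wx w i ^ 2) *
        ((u (i, 0) - conj (u (i, 0))) / 2) + d.wx w i * d.r i * (u (i, 1) - conj (u (i, 1))))) * hI

private theorem uz_zl1 (w : d.R → ℂ) (u : Vs g) (i : Fin g) :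
    d.zl (d.zc w u) i 1 = d.nu i * ((u (i, 1) + conj (u (i, 1))) / 2) +
      (d.wx w i * d.r i * (u (i, 0) - conj (u (i, 0))) + (1 + d.wx w i ^ 2) * d.r i ^ 2 *
        ((u (i, 1) - conj (u (i, 1))) / 2)) / (1 - d.wx w i ^ 2) := by
  have hc : (d.c i : ℂ) ≠ 0 := by
    have := d.c_pos i
    exact_mod_cast this.ne'
  rw [d.zl_eq]
  simp only [Fin.sum_univ_two, om2, sg, if_true, Fin.isValue]
  rw [if_neg (by decide), if_neg (by decide), if_neg (by decide), uz_im2, uz_im2,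
    Complex.ofReal_mul, uz_re2]
  have hI : I * I = -1 := Complex.I_mul_I
  have e : ∀ A : ℂ, (d.c i : ℂ) * (I / d.c i / (1 - d.wx w i ^ 2) * A) =
      I * A / (1 - d.wx w i ^ 2) := by
    intro A
    field_simp
  have e2 : (d.c i : ℂ) * (I / d.c i / (1 - d.wx w i ^ 2) * (2 * d.wx w i * d.r i) *
        (-(I / 2) * (u (i, 0) - conj (u (i, 0)))) +
      I / d.c i / (1 - d.wx w i ^ 2) * ((1 + d.wx w i ^ 2) * (d.r i : ℂ) ^ 2) *
        (-(I / 2) * (u (i, 1) - conj (u (i, 1))))) =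
      (d.c i : ℂ) * (I / d.c i / (1 - d.wx w i ^ 2) * (-(I) * (d.wx w i * d.r i *
        (u (i, 0) - conj (u (i, 0))) + (1 + d.wx w i ^ 2) * d.r i ^ 2 *
        ((u (i, 1) - conj (u (i, 1))) / 2)))) := by
    ring
  rw [e2, e]
  congr 1
  congr 1
  linear_combination (-(d.wx w i * d.r i *
        (u (i, 0) - conj (u (i, 0))) + (1 + d.wx w i ^ 2) * d.r i ^ 2 *
        ((u (i, 1) - conj (u (i, 1))) / 2))) * hI

private theorem uz_rne (i : Fin g) : (d.r i : ℂ) ≠ 0 := by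
  have := d.r_pos' i
  exact_mod_cast this.ne'

private theorem uz_nuR {i : Fin g} (h : i ∈ d.R) : (d.nu i : ℂ) = -(d.r i : ℂ) ^ 2 := by
  have h1 := d.r_sqR h
  have h2 : d.nu i = -(d.r i ^ 2) := by linarith
  rw [h2]
  push_cast
  ring

private theorem uz_nuN {i : Fin g} (h : i ∉ d.R) : (d.nu i : ℂ) = (d.r i : ℂ) ^ 2 := by
  have h1 := d.r_sqN h
  rw [← h1]
  push_cast
  ring

private theorem uz_wx0 (w : d.R → ℂ) {i : Fin g} (h : i ∉ d.R) : d.wx w i = 0 := by
  unfold wx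
  rw [dif_neg h]

private theorem uz_L0 (w : d.R → ℂ) (u : Vs g) (i : Fin g) :
    d.L w u (i, 0) = u (i, 0) + d.wx w i * (d.r i * u (i, 1)) := by
  simp [L]

private theorem uz_L1 (w : d.R → ℂ) (u : Vs g) {i : Fin g} (h : i ∈ d.R) :
    d.L w u (i, 1) = d.r i * conj (u (i, 1)) + d.wx w i * conj (u (i, 0)) := by
  simp [L, h]

private theorem uz_L1' (w : d.R → ℂ) (u : Vs g) {i : Fin g} (h : i ∉ d.R) :
    d.L w u (i, 1) = d.r i * u (i, 1) := by
  simp [L, h]

private theorem uz_A0 (w : d.R → ℂ) (z : Ix g → ℂ) {i : Fin g} (h : i ∈ d.R) :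
    d.Aw w z (i, 0) = d.zl z i 0 - d.wx w i / d.r i * d.zl z i 1 := by
  simp [Aw, h]

private theorem uz_A1 (w : d.R → ℂ) (z : Ix g → ℂ) {i : Fin g} (h : i ∈ d.R) :
    d.Aw w z (i, 1) = d.wx w i * d.zl z i 0 - d.zl z i 1 / d.r i := by
  simp [Aw, h]

private theorem uz_A0' (w : d.R → ℂ) (z : Ix g → ℂ) {i : Fin g} (h : i ∉ d.R) :
    d.Aw w z (i, 0) = d.zl z i 0 := by
  simp [Aw, h]

private theorem uz_A1' (w : d.R → ℂ) (z : Ix g → ℂ) {i : Fin g} (h : i ∉ d.R) :
    d.Aw w z (i, 1) = d.zl z i 1 / d.r i := by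
  simp [Aw, h]

theorem L_eq {w : d.R → ℂ} (hw : w ∈ d.Di) (u : Vs g) : d.L w u = d.Aw w (d.zc w u) := by
  funext p
  obtain ⟨i, al⟩ := p
  have hr := d.uz_rne i
  have h1 := d.one_sub_ne hw i
  by_cases h : i ∈ d.R
  · fin_cases al
    · change d.L w u (i, 0) = d.Aw w (d.zc w u) (i, 0)
      rw [d.uz_L0, d.uz_A0 w _ h, d.uz_zl0, d.uz_zl1, d.uz_nuR h]
      field_simp
      ring
    · change d.L w u (i, 1) = d.Aw w (d.zc w u) (i, 1)
      rw [d.uz_L1 w u h, d.uz_A1 w _ h, d.uz_zl0, d.uz_zl1, d.uz_nuR h]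
      field_simp
      ring
  · have h0 := d.uz_wx0 w h
    fin_cases al
    · change d.L w u (i, 0) = d.Aw w (d.zc w u) (i, 0)
      rw [d.uz_L0, d.uz_A0' w _ h, d.uz_zl0, h0]
      simp only [ne_eq, OfNat.ofNat_ne_zero, not_false_eq_true, zero_pow, zero_mul, add_zero,
        sub_zero, one_mul, div_one]
      ring
    · change d.L w u (i, 1) = d.Aw w (d.zc w u) (i, 1)
      rw [d.uz_L1' w u h, d.uz_A1' w _ h, d.uz_zl1, h0, d.uz_nuN h]
      simp only [ne_eq, OfNat.ofNat_ne_zero, not_false_eq_true, zero_pow, zero_mul, add_zero,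
        sub_zero, one_mul, div_one, zero_add]
      field_simp
      ring

private theorem uz_zl_inv (z : Ix g → ℂ) (k : Fin g) (al : Fin 2) :
    ∑ i, (d.fr k i : ℂ) * d.zl z i al = z (k, al) := by
  unfold zl
  simp only [Finset.mul_sum]
  rw [Finset.sum_comm]
  have e : ∀ l, ∑ i, (d.fr k i : ℂ) * ((d.fdr l i : ℂ) * z (l, al)) =
      ((if l = k then 1 else 0 : ℝ) : ℂ) * z (l, al) := by
    intro l
    rw [← d.dual1 l k, Complex.ofReal_sum, Finset.sum_mul]
    refine Finset.sum_congr rfl fun i _ => ?_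
    push_cast
    ring
  rw [Finset.sum_congr rfl (fun l _ => e l), Finset.sum_eq_single k]
  · simp
  · intro b _ hb
    simp [hb]
  · intro hi
    exact absurd (Finset.mem_univ k) hi

private theorem uz_B_A {w : d.R → ℂ} (hw : w ∈ d.Di) (z : Ix g → ℂ) :
    d.Bw w (d.Aw w z) = z := by
  funext p
  obtain ⟨k, al⟩ := p
  rw [← d.uz_zl_inv z k al]
  unfold Bw
  refine Finset.sum_congr rfl fun i _ => ?_
  simp only
  congr 1
  have hr := d.uz_rne i
  have h1 := d.one_sub_ne hw i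
  by_cases h : i ∈ d.R
  · rw [if_pos h, d.uz_A0 w z h, d.uz_A1 w z h]
    fin_cases al
    · simp only [Fin.zero_eta, if_true, Fin.isValue]
      field_simp
      ring
    · simp only [Fin.mk_one, Fin.isValue, one_ne_zero, if_false]
      field_simp
      ring
  · rw [if_neg h, d.uz_A0' w z h, d.uz_A1' w z h]
    fin_cases al
    · simp
    · simp only [Fin.mk_one, Fin.isValue, one_ne_zero, if_false]
      field_simp

theorem zc_eq {w : d.R → ℂ} (hw : w ∈ d.Di) (u : Vs g) : d.zc w u = d.Bw w (d.L w u) := by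
  rw [d.L_eq hw u, d.uz_B_A hw]

private theorem uz_loc1 (r U Ub V Vb w wb : ℂ) (h1 : 1 - w ^ 2 ≠ 0) (h2 : 1 - w * wb ≠ 0) :
    (U - Ub) * ((U + Ub) / 2 + ((1 + w ^ 2) * ((U - Ub) / 2) + w * r * (V - Vb)) / (1 - w ^ 2)) +
      (V - Vb) * (-r ^ 2 * ((V + Vb) / 2) + (w * r * (U - Ub) + (1 + w ^ 2) * r ^ 2 *
        ((V - Vb) / 2)) / (1 - w ^ 2)) +
      ((U + w * (r * V)) * (Ub + wb * (r * Vb)) + (r * V + wb * U) * (r * Vb + w * Ub)) /
        (1 - w * wb) =
    ((U + w * (r * V)) ^ 2 + (r * Vb + w * Ub) ^ 2 + 2 * (U + w * (r * V)) * (r * Vb + w * Ub) *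
      (wb - w) / (1 - w * wb)) / (1 - w ^ 2) := by
  field_simp
  ring

private theorem uz_qw (w : d.R → ℂ) (u : Vs g) : d.qw w u =
    ∑ i, Real.pi * I * (d.c i * ((u (i, 0)).im * d.zl (d.zc w u) i 0 +
      (u (i, 1)).im * d.zl (d.zc w u) i 1)) := by
  have e1 : d.qw w u = Real.pi * I * ∑ p, (d.tc u p : ℂ) * d.zc w u p := by
    unfold qw zc
    congr 1
    rw [← Finset.sum_add_distrib]
    refine Finset.sum_congr rfl fun p _ => ?_
    rw [mul_add, Finset.mul_sum, add_comm]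
    congr 1
    · ring
    · refine Finset.sum_congr rfl fun q _ => ?_
      ring
  have e2 : ∑ p, (d.tc u p : ℂ) * d.zc w u p =
      ∑ i, ∑ al, ((d.c i * (u (i, al)).im : ℝ) : ℂ) * d.zl (d.zc w u) i al := by
    rw [Fintype.sum_prod_type, Finset.sum_comm, Finset.sum_comm (s := univ) (t := univ)
      (f := fun (i : Fin g) (al : Fin 2) => ((d.c i * (u (i, al)).im : ℝ) : ℂ) *
        d.zl (d.zc w u) i al)]
    refine Finset.sum_congr rfl fun al _ => ?_
    have e3 : ∀ k, (d.tc u (k, al) : ℂ) * d.zc w u (k, al) =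
        ∑ i, (d.tc u (k, al) : ℂ) * ((d.fr k i : ℂ) * d.zl (d.zc w u) i al) := by
      intro k
      rw [← Finset.mul_sum, d.uz_zl_inv]
    rw [Finset.sum_congr rfl (fun k _ => e3 k), Finset.sum_comm]
    refine Finset.sum_congr rfl fun i _ => ?_
    rw [← d.uz_fr_tc u i al, Complex.ofReal_sum, Finset.sum_mul]
    refine Finset.sum_congr rfl fun k _ => ?_
    push_cast
    ring
  rw [e1, e2, Finset.mul_sum]
  refine Finset.sum_congr rfl fun i _ => ?_
  rw [Fin.sum_univ_two]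
  push_cast
  ring

private theorem uz_ns (z : ℂ) : ((‖z‖ ^ 2 : ℝ) : ℂ) = z * conj z := by
  rw [Complex.mul_conj']
  push_cast
  rfl

theorem qH {w : d.R → ℂ} (hw : w ∈ d.Di) (u : Vs g) :
    d.qw w u + ((Real.pi / 2 * d.Hw w u : ℝ) : ℂ) = d.Rw w (d.L w u) := by
  rw [d.uz_qw]
  unfold Hw Rw
  rw [Finset.mul_sum, Complex.ofReal_sum, ← Finset.sum_add_distrib]
  refine Finset.sum_congr rfl fun i _ => ?_
  have hr := d.uz_rne i
  have h1 := d.one_sub_ne hw i
  have h2 : (1 : ℂ) - d.wx w i * conj (d.wx w i) ≠ 0 := by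
    rw [← uz_ns]
    have h3 : (1 : ℝ) - ‖d.wx w i‖ ^ 2 ≠ 0 := by
      have := d.wx_lt hw i
      nlinarith [norm_nonneg (d.wx w i)]
    exact_mod_cast h3
  unfold Hi
  push_cast
  have hI : I * I = -1 := Complex.I_mul_I
  have e4 : ∀ A B z0 z1 : ℂ, (Real.pi : ℂ) * I * (d.c i * (-(I / 2) * A * z0 + -(I / 2) * B * z1)) =
      Real.pi / 2 * d.c i * (A * z0 + B * z1) := by
    intro A B z0 z1
    linear_combination (-(Real.pi / 2 * d.c i * (A * z0 + B * z1)) : ℂ) * hI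
  simp only [← Complex.mul_conj', uz_im2, e4, map_add, map_mul, Complex.conj_ofReal,
    Complex.conj_conj]
  rw [d.uz_zl0, d.uz_zl1, d.uz_L0]
  by_cases h : i ∈ d.R
  · rw [d.uz_L1 w u h, d.uz_nuR h]
    have h3 := uz_loc1 (d.r i : ℂ) (u (i, 0)) (conj (u (i, 0))) (u (i, 1)) (conj (u (i, 1)))
      (d.wx w i) (conj (d.wx w i)) h1 h2
    linear_combination (Real.pi / 2 * d.c i : ℂ) * h3
  · have h0 := d.uz_wx0 w h
    rw [d.uz_L1' w u h, d.uz_nuN h, h0]
    simp only [map_zero]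
    ring

/-- `z_w : V → ℂ^(Ix g)` is onto -/
theorem zc_surj {w : d.R → ℂ} (hw : w ∈ d.Di) (z : Ix g → ℂ) : ∃ u, d.zc w u = z := by
  set l := d.Aw w z with hl
  let u : Vs g := fun p => if p.2 = 0 then
      (l (p.1, 0) - d.wx w p.1 * conj (l (p.1, 1))) / (1 - d.wx w p.1 * conj (d.wx w p.1))
    else (if p.1 ∈ d.R then (conj (l (p.1, 1)) - conj (d.wx w p.1) * l (p.1, 0)) /
      (1 - d.wx w p.1 * conj (d.wx w p.1)) else l (p.1, 1)) / d.r p.1
  refine ⟨u, ?_⟩
  have hL : d.L w u = l := by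
    funext p
    obtain ⟨i, al⟩ := p
    have hr := d.uz_rne i
    have h2 : (1 : ℂ) - d.wx w i * conj (d.wx w i) ≠ 0 := by
      rw [← uz_ns]
      have h3 : (1 : ℝ) - ‖d.wx w i‖ ^ 2 ≠ 0 := by
        have := d.wx_lt hw i
        nlinarith [norm_nonneg (d.wx w i)]
      exact_mod_cast h3
    have h2' : (1 : ℂ) - conj (d.wx w i) * d.wx w i ≠ 0 := by
      rw [mul_comm]
      exact h2
    have hu0 : u (i, 0) = (l (i, 0) - d.wx w i * conj (l (i, 1))) /
        (1 - d.wx w i * conj (d.wx w i)) := by simp [u]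
    by_cases h : i ∈ d.R
    · have hu1 : u (i, 1) = (conj (l (i, 1)) - conj (d.wx w i) * l (i, 0)) /
          (1 - d.wx w i * conj (d.wx w i)) / d.r i := by simp [u, h]
      fin_cases al
      · change d.L w u (i, 0) = l (i, 0)
        rw [d.uz_L0, hu0, hu1]
        field_simp
        ring
      · change d.L w u (i, 1) = l (i, 1)
        rw [d.uz_L1 w u h, hu0, hu1]
        simp only [map_div₀, map_sub, map_mul, Complex.conj_conj, Complex.conj_ofReal, map_one]
        field_simp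
        ring
    · have h0 := d.uz_wx0 w h
      have hu1 : u (i, 1) = l (i, 1) / d.r i := by simp [u, h]
      fin_cases al
      · change d.L w u (i, 0) = l (i, 0)
        rw [d.uz_L0, hu0, h0]
        simp
      · change d.L w u (i, 1) = l (i, 1)
        rw [d.uz_L1' w u h, hu1]
        field_simp
  rw [d.zc_eq hw u, hL, hl, d.uz_B_A hw]

theorem Bw_diff (w : d.R → ℂ) : Differentiable ℂ (d.Bw w) := by
  rw [differentiable_pi]
  intro p
  unfold Bw
  apply Differentiable.fun_sum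
  intro i _
  apply Differentiable.const_mul
  split_ifs <;> fun_prop

theorem Aw_diff (w : d.R → ℂ) : Differentiable ℂ (d.Aw w) := by
  rw [differentiable_pi]
  intro p
  unfold Aw zl
  split_ifs <;> fun_prop

theorem Rw_diff (w : d.R → ℂ) : Differentiable ℂ (d.Rw w) := by
  unfold Rw
  fun_prop

end Dat

end Pool.Agent.RQ4
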