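import Pool.Agent.RQ4.UPos
import Pool.Agent.RQ4.UZ
import Pool.Agent.RQ4.TUni
import Pool.Agent.RQ4.Ifc

/-!
# RQ4, UTw: the theta functions `tw w` on `V`: series, quasi-periodicity, canonical form, uniqueness
-/

set_option autoImplicit false

namespace Pool.Agent.RQ4

open Complex ComplexConjugate Finset

namespace Dat

variable {K : Type} [Field K] [NumberField K] {g : ℕ} (d : Dat K g)

theorem tw_series (w : d.R → ℂ) (u : Vs g) :
    d.tw w u = ∑' m : Ix g → ℤ, cexp (Real.pi * I *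
        (∑ p, ∑ q, ((m p : ℂ) + d.tc u p) * d.Om w p q * ((m q : ℂ) + d.tc u q)) +
      2 * Real.pi * I * (∑ p, (m p : ℂ) * d.sc u p) + Real.pi * I * ∑ p, (d.sc u p : ℂ) * d.tc u p) := by
  have h := th_shift (d.Om w) (d.Om_symm w) (fun p => (d.sc u p : ℂ)) (fun p => (d.tc u p : ℂ))
  exact h

private theorem utw_zc (w : d.R → ℂ) (a b : Ix g → ℤ) (u : Vs g) (p : Ix g) :
    d.zc w (u + d.lat a b) p = (d.zc w u p + ∑ q, d.Om w p q * (b q : ℂ)) + (a p : ℂ) := by
  unfold zc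
  rw [sc_add, sc_lat]
  have h : ∑ q, d.Om w p q * (d.tc (u + d.lat a b) q : ℂ) =
      ∑ q, d.Om w p q * (d.tc u q : ℂ) + ∑ q, d.Om w p q * (b q : ℂ) := by
    rw [← Finset.sum_add_distrib]
    refine Finset.sum_congr rfl fun q _ => ?_
    rw [tc_add, tc_lat]
    push_cast
    ring
  rw [h]
  push_cast
  ring

private theorem utw_qw (w : d.R → ℂ) (a b : Ix g → ℤ) (u : Vs g) :
    d.qw w (u + d.lat a b) = d.qw w u + Real.pi * I * (d.E u (d.lat a b) : ℝ) +
      ((∑ p, a p * b p : ℤ) : ℂ) * (Real.pi * I) +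
      (Real.pi * I * (∑ p, ∑ q, (b p : ℂ) * d.Om w p q * b q) +
        2 * Real.pi * I * ∑ p, (b p : ℂ) * d.zc w u p) := by
  have h0 : ∑ p, (b p : ℂ) * ∑ q, d.Om w p q * (d.tc u q : ℂ) =
      ∑ p, (d.tc u p : ℂ) * ∑ q, d.Om w p q * (b q : ℂ) := by
    simp_rw [Finset.mul_sum]
    rw [Finset.sum_comm]
    refine Finset.sum_congr rfl fun p _ => Finset.sum_congr rfl fun q _ => ?_
    rw [d.Om_symm w q p]
    ring
  have h1 : ∑ p, ∑ q, ((d.tc u p : ℂ) + b p) * d.Om w p q * ((d.tc u q : ℂ) + b q) =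
      (∑ p, ∑ q, (d.tc u p : ℂ) * d.Om w p q * d.tc u q) +
        (∑ p, (d.tc u p : ℂ) * ∑ q, d.Om w p q * (b q : ℂ)) +
        (∑ p, (b p : ℂ) * ∑ q, d.Om w p q * (d.tc u q : ℂ)) +
        ∑ p, ∑ q, (b p : ℂ) * d.Om w p q * b q := by
    simp_rw [Finset.mul_sum, ← Finset.sum_add_distrib]
    refine Finset.sum_congr rfl fun p _ => Finset.sum_congr rfl fun q _ => ?_
    ring
  have h2 : ∑ p, (b p : ℂ) * d.zc w u p = ∑ p, (b p : ℂ) * (d.sc u p : ℂ) +
      ∑ p, (b p : ℂ) * ∑ q, d.Om w p q * (d.tc u q : ℂ) := by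
    rw [← Finset.sum_add_distrib]
    refine Finset.sum_congr rfl fun p _ => ?_
    unfold zc
    ring
  have h3 : ((d.E u (d.lat a b) : ℝ) : ℂ) = ∑ p, (d.tc u p : ℂ) * (a p : ℂ) -
      ∑ p, (b p : ℂ) * (d.sc u p : ℂ) := by
    rw [E_eq, ← Finset.sum_sub_distrib]
    push_cast
    refine Finset.sum_congr rfl fun p _ => ?_
    rw [sc_lat, tc_lat]
    push_cast
    ring
  have h4 : ∑ p, (d.sc (u + d.lat a b) p : ℂ) * (d.tc (u + d.lat a b) p : ℂ) =
      ∑ p, (d.sc u p : ℂ) * (d.tc u p : ℂ) + ∑ p, (d.tc u p : ℂ) * (a p : ℂ) +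
        ∑ p, (b p : ℂ) * (d.sc u p : ℂ) + ∑ p, (a p : ℂ) * (b p : ℂ) := by
    simp_rw [← Finset.sum_add_distrib]
    refine Finset.sum_congr rfl fun p _ => ?_
    rw [sc_add, tc_add, sc_lat, tc_lat]
    push_cast
    ring
  have h5 : ∑ p, ∑ q, (d.tc (u + d.lat a b) p : ℂ) * d.Om w p q * (d.tc (u + d.lat a b) q : ℂ) =
      ∑ p, ∑ q, ((d.tc u p : ℂ) + b p) * d.Om w p q * ((d.tc u q : ℂ) + b q) := by
    refine Finset.sum_congr rfl fun p _ => Finset.sum_congr rfl fun q _ => ?_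
    rw [tc_add, tc_add, tc_lat, tc_lat]
    push_cast
    ring
  unfold qw
  rw [h5, h1, h4, h3, h2, h0]
  push_cast
  ring

private theorem utw_sgn (n : ℤ) : cexp ((n : ℂ) * (Real.pi * I)) = (-1) ^ n := by
  rw [Complex.exp_int_mul, Complex.exp_pi_mul_I]

theorem tw_lat (w : d.R → ℂ) (a b : Ix g → ℤ) (u : Vs g) : d.tw w (u + d.lat a b) =
    (-1) ^ (∑ p, a p * b p) * cexp (Real.pi * I * (d.E u (d.lat a b) : ℝ)) * d.tw w u := by
  have h1 : th (d.Om w) (d.zc w (u + d.lat a b)) =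
      cexp (-(Real.pi * I * (∑ p, ∑ q, (b p : ℂ) * d.Om w p q * b q) +
        2 * Real.pi * I * ∑ p, (b p : ℂ) * d.zc w u p)) * th (d.Om w) (d.zc w u) := by
    have h2 : d.zc w (u + d.lat a b) =
        fun p => (d.zc w u p + ∑ q, d.Om w p q * (b q : ℂ)) + (a p : ℂ) := by
      funext p
      exact d.utw_zc w a b u p
    rw [h2, th_add_int (d.Om w) (fun p => d.zc w u p + ∑ q, d.Om w p q * (b q : ℂ)) a,
      th_add_Om (d.Om w) (d.Om_symm w)]
  unfold tw
  rw [h1, utw_qw, ← utw_sgn]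
  have h3 : ∀ A B C D X T : ℂ, A + B + C + X = D →
      cexp (-X) * T * cexp D = cexp C * cexp B * (T * cexp A) := by
    intro A B C D X T h
    rw [← h, Complex.exp_neg, Complex.exp_add, Complex.exp_add, Complex.exp_add]
    field_simp
  exact h3 _ _ _ _ _ _ rfl

theorem tw_even (w : d.R → ℂ) (u : Vs g) : d.tw w (-u) = d.tw w u := by
  have hs : ∀ p, d.sc (-u) p = -d.sc u p := by
    intro p
    have h := d.sc_smul (-1) u p
    rw [neg_one_smul, neg_one_mul] at h
    exact h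
  have ht : ∀ p, d.tc (-u) p = -d.tc u p := by
    intro p
    have h := d.tc_smul (-1) u p
    rw [neg_one_smul, neg_one_mul] at h
    exact h
  have hz : d.zc w (-u) = fun p => -d.zc w u p := by
    funext p
    unfold zc
    rw [hs]
    have h : ∑ q, d.Om w p q * (d.tc (-u) q : ℂ) = -∑ q, d.Om w p q * (d.tc u q : ℂ) := by
      rw [← Finset.sum_neg_distrib]
      refine Finset.sum_congr rfl fun q _ => ?_
      rw [ht]
      push_cast
      ring
    rw [h]
    push_cast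
    ring
  have hq : d.qw w (-u) = d.qw w u := by
    unfold qw
    simp_rw [hs, ht]
    push_cast
    simp
  unfold tw
  rw [hz, th_neg, hq]

theorem isT_tw {w : d.R → ℂ} (hw : w ∈ d.Di) : d.IsT w (d.tw w) := by
  obtain ⟨δ, hδ, hp⟩ := d.Om_pt hw
  refine ⟨fun a b u => d.tw_lat w a b u, fun l => th (d.Om w) (d.Bw w l) * cexp (d.Rw w l),
    ?_, ?_⟩
  · exact ((th_diff hδ hp).comp (d.Bw_diff w)).mul (d.Rw_diff w).cexp
  · intro u
    have h1 := d.zc_eq hw u
    have h2 := d.qH hw u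
    show th (d.Om w) (d.zc w u) * cexp (d.qw w u) * cexp ((Real.pi / 2 * d.Hw w u : ℝ)) =
      th (d.Om w) (d.Bw w (d.L w u)) * cexp (d.Rw w (d.L w u))
    rw [← h1, ← h2, Complex.exp_add]
    ring

theorem isT_unique {w : d.R → ℂ} (hw : w ∈ d.Di) {f : Vs g → ℂ} (hf : d.IsT w f) :
    ∃ c : ℂ, ∀ u, f u = c * d.tw w u := by
  obtain ⟨δ, hδ, hp⟩ := d.Om_pt hw
  obtain ⟨hq, G, hG, hfG⟩ := hf
  have hF : ∀ u, G (d.Aw w (d.zc w u)) * cexp (-(d.Rw w (d.Aw w (d.zc w u)))) =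
      f u * cexp (-(d.qw w u)) := by
    intro u
    rw [← d.L_eq hw u, ← hfG u, ← d.qH hw u, mul_assoc, ← Complex.exp_add]
    congr 2
    ring
  have hFl : ∀ (a b : Ix g → ℤ) (u : Vs g),
      G (d.Aw w (d.zc w (u + d.lat a b))) * cexp (-(d.Rw w (d.Aw w (d.zc w (u + d.lat a b))))) =
      cexp (-(Real.pi * I * (∑ p, ∑ q, (b p : ℂ) * d.Om w p q * b q) +
        2 * Real.pi * I * ∑ p, (b p : ℂ) * d.zc w u p)) *
      (G (d.Aw w (d.zc w u)) * cexp (-(d.Rw w (d.Aw w (d.zc w u))))) := by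
    intro a b u
    rw [hF, hF, hq, utw_qw, ← utw_sgn]
    have h3 : ∀ A B C D X T : ℂ, A + B + C + X = D →
        cexp C * cexp B * T * cexp (-D) = cexp (-X) * (T * cexp (-A)) := by
      intro A B C D X T h
      rw [← h, Complex.exp_neg, Complex.exp_neg, Complex.exp_neg, Complex.exp_add,
        Complex.exp_add, Complex.exp_add]
      field_simp
    exact h3 _ _ _ _ _ _ rfl
  have key := th_unique (d.Om_symm w) hδ hp
    (f := fun z => G (d.Aw w z) * cexp (-(d.Rw w (d.Aw w z))))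
    ((hG.comp (d.Aw_diff w)).mul (((d.Rw_diff w).comp (d.Aw_diff w)).neg.cexp)) ?_ ?_
  · obtain ⟨c, hc⟩ := key
    refine ⟨c, fun u => ?_⟩
    have h1 : G (d.Aw w (d.zc w u)) * cexp (-(d.Rw w (d.Aw w (d.zc w u)))) =
      c * th (d.Om w) (d.zc w u) := hc (d.zc w u)
    rw [hF u] at h1
    unfold tw
    rw [← mul_assoc, ← h1, mul_assoc, ← Complex.exp_add, neg_add_cancel, Complex.exp_zero, mul_one]
  · intro z n
    obtain ⟨u, rfl⟩ := d.zc_surj hw z
    have h1 := hFl n 0 u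
    have h2 : d.zc w (u + d.lat n 0) = fun p => d.zc w u p + n p := by
      funext p
      rw [utw_zc]
      simp
    rw [h2] at h1
    show G (d.Aw w fun p => d.zc w u p + n p) *
      cexp (-(d.Rw w (d.Aw w fun p => d.zc w u p + n p))) =
      G (d.Aw w (d.zc w u)) * cexp (-(d.Rw w (d.Aw w (d.zc w u))))
    rw [h1]
    simp
  · intro z p
    obtain ⟨u, rfl⟩ := d.zc_surj hw z
    have h1 := hFl 0 (Pi.single p 1) u
    have h2 : d.zc w (u + d.lat 0 (Pi.single p 1)) = fun q => d.zc w u q + d.Om w q p := by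
      funext q
      rw [utw_zc]
      have h3 : ∑ r, d.Om w q r * (((Pi.single p 1 : Ix g → ℤ) r : ℤ) : ℂ) = d.Om w q p := by
        rw [Fintype.sum_eq_single p]
        · simp
        · intro r hr
          simp [hr]
      rw [h3]
      simp
    have h5 : ∑ q, ∑ r, (((Pi.single p 1 : Ix g → ℤ) q : ℤ) : ℂ) * d.Om w q r *
        (((Pi.single p 1 : Ix g → ℤ) r : ℤ) : ℂ) = d.Om w p p := by
      rw [Fintype.sum_eq_single p]
      · rw [Fintype.sum_eq_single p]
        · simp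
        · intro r hr
          simp [hr]
      · intro q hq'
        apply Finset.sum_eq_zero
        intro r _
        simp [hq']
    have h6 : ∑ q, (((Pi.single p 1 : Ix g → ℤ) q : ℤ) : ℂ) * d.zc w u q = d.zc w u p := by
      rw [Fintype.sum_eq_single p]
      · simp
      · intro r hr
        simp [hr]
    rw [h2, h5, h6] at h1
    exact h1

theorem tw_cont {w : d.R → ℂ} (hw : w ∈ d.Di) : Continuous (d.tw w) := by
  obtain ⟨δ, hδ, hp⟩ := d.Om_pt hw
  have hs : ∀ p, Continuous fun u => (d.sc u p : ℂ) := fun p =>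
    Complex.continuous_ofReal.comp (d.continuous_sc p)
  have ht : ∀ p, Continuous fun u => (d.tc u p : ℂ) := fun p =>
    Complex.continuous_ofReal.comp (d.continuous_tc p)
  have hz : Continuous (d.zc w) := by
    refine continuous_pi fun p => ?_
    show Continuous fun u => (d.sc u p : ℂ) + ∑ q, d.Om w p q * (d.tc u q : ℂ)
    exact (hs p).add (continuous_finsetSum _ fun q _ => continuous_const.mul (ht q))
  have hq : Continuous (d.qw w) := by
    show Continuous fun u => Real.pi * I * ((∑ p, ∑ q, (d.tc u p : ℂ) * d.Om w p q * d.tc u q) +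
      ∑ p, (d.sc u p : ℂ) * d.tc u p)
    refine continuous_const.mul (Continuous.add ?_ ?_)
    · exact continuous_finsetSum _ fun p _ => continuous_finsetSum _ fun q _ =>
        ((ht p).mul continuous_const).mul (ht q)
    · exact continuous_finsetSum _ fun p _ => (hs p).mul (ht p)
  exact ((th_diff hδ hp).continuous.comp hz).mul (Complex.continuous_exp.comp hq)

theorem tw_zero_ne : d.tw 0 0 ≠ 0 := by
  have hw : (0 : d.R → ℂ) ∈ d.Di := by
    intro i
    simp
  obtain ⟨δ, hδ, hp⟩ := d.Om_pt hw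
  have hs : ∀ p, d.sc 0 p = 0 := by
    intro p
    have h := d.sc_smul 0 0 p
    rw [zero_smul, zero_mul] at h
    exact h
  have ht : ∀ p, d.tc 0 p = 0 := by
    intro p
    have h := d.tc_smul 0 0 p
    rw [zero_smul, zero_mul] at h
    exact h
  have hz : d.zc 0 0 = 0 := by
    funext p
    unfold zc
    simp [hs, ht]
  unfold tw
  rw [hz]
  exact mul_ne_zero (th_zero_ne hδ hp (d.Om_zero_re)) (Complex.exp_ne_zero _)

end Dat

end Pool.Agent.RQ4
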